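import Pool.Agent.Lib.MP_c7a422_lc.Z.BrBase

/-!
# Bridge, part 2: finite sets of the model and finite sequences
-/

namespace Pool.Agent.Lib.MP_c7a422_lc.Z

universe u v w

namespace Ctx

variable {𝓜 : Ctx.{u}}

theorem not_mem_self (x : 𝓜.M) : ¬ 𝓜.E x x := by
  intro h
  obtain ⟨y, hy, hy'⟩ := 𝓜.zf.found (𝓜.up x x) ⟨x, by simp⟩
  rw [mem_up, or_self] at hy
  subst hy
  exact hy' y h (by simp)

/-- the successor `x ∪ {x}` -/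
noncomputable def sc (x : 𝓜.M) : 𝓜.M := 𝓜.un (𝓜.up x (𝓜.up x x))

theorem mem_sc {x z : 𝓜.M} : 𝓜.E z (sc x) ↔ 𝓜.E z x ∨ z = x := by
  unfold sc
  rw [mem_un]
  constructor
  · rintro ⟨y, hy, hz⟩
    rw [mem_up] at hy
    rcases hy with rfl | rfl
    · exact Or.inl hz
    · rw [mem_up, or_self] at hz
      exact Or.inr hz
  · rintro (h | rfl)
    · exact ⟨x, by simp, h⟩
    · exact ⟨𝓜.up z z, by simp, by simp⟩

theorem eq_em {e : 𝓜.M} (h : ∀ z, ¬ 𝓜.E z e) : e = 𝓜.em :=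
  𝓜.ext fun z => ⟨fun hz => absurd hz (h z), fun hz => absurd hz (not_mem_em z)⟩

theorem eq_sc {x y : 𝓜.M} (h : ∀ z, 𝓜.E z y ↔ 𝓜.E z x ∨ z = x) : y = sc x :=
  𝓜.ext fun z => by rw [h, mem_sc]

theorem isNat_em : IsNat 𝓜.E 𝓜.em := fun _ h0 _ => h0 _ not_mem_em

theorem isNat_sc {x : 𝓜.M} (h : IsNat 𝓜.E x) : IsNat 𝓜.E (sc x) := fun w h0 h1 =>
  h1 x _ (h w h0 h1) fun _ => mem_sc

theorem df_isNat : 𝓜.Df (n := 2) (fun v => IsNat 𝓜.E (v 0)) := by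
  unfold IsNat
  refine dall (Q := fun w v => (∀ e, (∀ z, ¬ 𝓜.E z e) → 𝓜.E e w) →
    (∀ x y, 𝓜.E x w → (∀ z, 𝓜.E z y ↔ 𝓜.E z x ∨ z = x) → 𝓜.E y w) → 𝓜.E (v 0) w) ?_
  refine dimp (dall (Q := fun e v => (∀ z, ¬ 𝓜.E z e) → 𝓜.E e (v 0)) (dimp
    (dall (Q := fun z v => ¬ 𝓜.E z (v 0)) (dnot (dmem _ _))) (dmem _ _))) (dimp ?_ (dmem _ _))
  refine dall (Q := fun x v => ∀ y, 𝓜.E x (v 0) → (∀ z, 𝓜.E z y ↔ 𝓜.E z x ∨ z = x) →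
    𝓜.E y (v 0)) (dall (Q := fun y v => 𝓜.E (v 0) (v 1) →
      (∀ z, 𝓜.E z y ↔ 𝓜.E z (v 0) ∨ z = v 0) → 𝓜.E y (v 1)) (dimp (dmem _ _) (dimp ?_ (dmem _ _))))
  exact dall (Q := fun z v => 𝓜.E z (v 0) ↔ 𝓜.E z (v 1) ∨ z = v 1)
    (diff (dmem _ _) (dor (dmem _ _) (deq _ _)))

theorem exists_om (𝓜 : Ctx.{u}) : ∃ om : 𝓜.M, ∀ n, 𝓜.E n om ↔ IsNat 𝓜.E n := by
  obtain ⟨w, ⟨e, he, he'⟩, hw⟩ := 𝓜.zf.infinity
  obtain ⟨om, hom⟩ := 𝓜.sepD (n := 1) df_isNat ![w] w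
  refine ⟨om, fun n => (hom n).trans ?_⟩
  show 𝓜.E n w ∧ IsNat 𝓜.E n ↔ _
  refine and_iff_right_of_imp fun h => h w ?_ ?_
  · intro e' h'
    rw [eq_em h', ← eq_em he']
    exact he
  · intro x y hx hy
    obtain ⟨y', hy', h'⟩ := hw x hx
    rw [eq_sc hy, ← eq_sc h']
    exact hy'

/-- the set of natural numbers of the model -/
noncomputable def om (𝓜 : Ctx.{u}) : 𝓜.M := Classical.choose 𝓜.exists_om

theorem mem_om {n : 𝓜.M} : 𝓜.E n 𝓜.om ↔ IsNat 𝓜.E n := Classical.choose_spec 𝓜.exists_om n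

/-- the type of natural numbers of the model (as von Neumann ordinals) -/
abbrev Om (𝓜 : Ctx.{u}) : Type u := El 𝓜.E 𝓜.om

/-- zero -/
noncomputable def om0 (𝓜 : Ctx.{u}) : 𝓜.Om := ⟨𝓜.em, mem_om.2 isNat_em⟩

/-- the successor function -/
noncomputable def omS (x : 𝓜.Om) : 𝓜.Om := ⟨sc x.1, mem_om.2 (isNat_sc (mem_om.1 x.2))⟩

@[fun_prop]
theorem dfn_omS {γ : Type*} [Rep 𝓜 γ] {f : γ → 𝓜.Om} (hf : 𝓜.Dfn f) :
    𝓜.Dfn (fun c => omS (f c)) := by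
  refine dfn_comp (g := omS (𝓜 := 𝓜)) ?_ hf
  have h := dfn_of_df₂ (𝓜 := 𝓜) (α := 𝓜.Om) (β := 𝓜.Om) (n := 0)
    (P := fun v => ∀ z, 𝓜.E z (v 1) ↔ 𝓜.E z (v 0) ∨ z = v 0)
    (dall (Q := fun z v => 𝓜.E z (v 1) ↔ 𝓜.E z (v 0) ∨ z = v 0)
      (diff (dmem _ _) (dor (dmem _ _) (deq _ _)))) ![]
  refine Dfn.of_graph (s := fun (x y : 𝓜.Om) => ∀ z, 𝓜.E z y.1 ↔ 𝓜.E z x.1 ∨ z = x.1) h
    fun x y => ?_
  constructor
  · intro h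
    exact Subtype.ext (eq_sc h).symm
  · rintro rfl z
    exact mem_sc

/-- the `n`-th von Neumann natural number of the model -/
noncomputable def jn (n : 𝓜.N) : 𝓜.Om :=
  nrec 𝓜.om0 ⟨fun p : 𝓜.N × 𝓜.Om => omS p.2, by fun_prop⟩ n

@[fun_prop]
theorem dfn_jn {γ : Type*} [Rep 𝓜 γ] {f : γ → 𝓜.N} (hf : 𝓜.Dfn f) :
    𝓜.Dfn (fun c => jn (f c)) := by
  unfold jn
  fun_prop

theorem jn_zero : jn (0 : 𝓜.N) = 𝓜.om0 := nrec_zero _ _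

theorem jn_succ (n : 𝓜.N) : jn (n + 1) = omS (jn n) := by
  unfold jn
  rw [nrec_succ]
  rfl

theorem jn_surj (x : 𝓜.Om) : ∃ n, jn n = x := by
  obtain ⟨w, hw⟩ := exists_setOf (𝓜 := 𝓜) (α := 𝓜.Om) (s := fun x => ∃ n, jn n = x) (by fun_prop)
  have h := mem_om.1 x.2 w ?_ ?_
  · rw [hw] at h
    obtain ⟨a, ⟨n, hn⟩, ha⟩ := h
    exact ⟨n, hn.trans (Subtype.ext ha)⟩
  · intro e he
    rw [hw]
    exact ⟨𝓜.om0, ⟨0, jn_zero⟩, (eq_em he).symm⟩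
  · intro a b ha hb
    rw [hw] at ha ⊢
    obtain ⟨a', ⟨n, hn⟩, rfl⟩ := ha
    exact ⟨omS a', ⟨n + 1, by rw [jn_succ, hn]⟩, (eq_sc hb).symm⟩

theorem mem_jn {n : 𝓜.N} {x : 𝓜.M} : 𝓜.E x (jn n).1 ↔ ∃ i < n, (jn i).1 = x := by
  -- it suffices to consider elements of the union of the set of natural numbers
  let V := El 𝓜.E (𝓜.un 𝓜.om)
  let mm : ISet 𝓜 (V × 𝓜.Om) := ⟨fun q => 𝓜.E q.1.1 q.2.1, dfn_mem_el _ _⟩
  let ee : ISet 𝓜 (V × 𝓜.Om) := ⟨fun q => 𝓜.code q.1 = 𝓜.code q.2, dfn_eq_code⟩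
  have key : ∀ n : 𝓜.N, ∀ x : V, mm (x, jn n) ↔ ∃ i, i < n ∧ ee (x, jn i) := by
    refine ind (P := fun n : 𝓜.N => ∀ x : V, mm (x, jn n) ↔ ∃ i, i < n ∧ ee (x, jn i))
      (by simp only [al_iff, imp_iff_not_or]; fun_prop) ?_ ?_
    · intro x
      constructor
      · intro h
        have h' : 𝓜.E x.1 (jn (0 : 𝓜.N)).1 := h
        rw [jn_zero] at h'
        exact absurd h' (not_mem_em _)
      · rintro ⟨i, hi, -⟩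
        exact absurd (N_nonneg i) (not_le.2 hi)
    · intro n ih x
      have h1 : mm (x, jn (n + 1)) ↔ mm (x, jn n) ∨ x.1 = (jn n).1 := by
        show 𝓜.E x.1 (jn (n + 1)).1 ↔ _
        rw [jn_succ]
        exact mem_sc
      rw [h1, ih]
      constructor
      · rintro (⟨i, hi, h⟩ | h)
        · exact ⟨i, hi.trans (by simp), h⟩
        · exact ⟨n, by simp, h⟩
      · rintro ⟨i, hi, h⟩
        rw [N_lt_add_one_iff] at hi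
        rcases hi.lt_or_eq with hi | rfl
        · exact Or.inl ⟨i, hi, h⟩
        · exact Or.inr h
  constructor
  · intro h
    have hx : 𝓜.E x (𝓜.un 𝓜.om) := mem_un.2 ⟨_, (jn n).2, h⟩
    obtain ⟨i, hi, h'⟩ := (key n ⟨x, hx⟩).1 h
    exact ⟨i, hi, (show x = (jn i).1 from h').symm⟩
  · rintro ⟨i, hi, rfl⟩
    have hx : 𝓜.E (jn i).1 (𝓜.un 𝓜.om) := by
      refine mem_un.2 ⟨_, (jn (i + 1)).2, ?_⟩
      rw [jn_succ]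
      exact mem_sc.2 (Or.inr rfl)
    exact (key n ⟨_, hx⟩).2 ⟨i, hi, rfl⟩

theorem jn_inj {i k : 𝓜.N} (h : (jn i).1 = (jn k).1) : i = k := by
  have key : ∀ i k : 𝓜.N, i < k → (jn i).1 ≠ (jn k).1 := by
    intro i k hik h
    have := mem_jn.2 ⟨i, hik, rfl⟩
    rw [← h] at this
    exact not_mem_self _ this
  rcases lt_trichotomy i k with h1 | h1 | h1
  · exact absurd h (key i k h1)
  · exact h1
  · exact absurd h.symm (key k i h1)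

/-- finite sequences give finite sets of the model -/
theorem finA : StFinA.{u} := by
  intro 𝓜 A e n
  obtain ⟨F, hF⟩ := exists_setOf (𝓜 := 𝓜) (α := El 𝓜.E A) (s := fun a => ∃ i, i < n ∧ e i = a)
    (by fun_prop)
  have hF' : ∀ x, 𝓜.E x F ↔ ∃ i < n, (e i).1 = x := by
    intro x
    rw [hF]
    constructor
    · rintro ⟨a, ⟨i, hi, rfl⟩, rfl⟩
      exact ⟨i, hi, rfl⟩
    · rintro ⟨i, hi, rfl⟩
      exact ⟨e i, ⟨i, hi, rfl⟩, rfl⟩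
  refine ⟨F, ⟨(jn n).1, mem_om.1 (jn n).2, ?_⟩, hF'⟩
  have h1 : ∀ x : El 𝓜.E (jn n).1, ∃ i < n, (jn i).1 = x.1 := fun x => mem_jn.1 x.2
  choose i hi hi' using h1
  refine ⟨fun x => ⟨(e (i x)).1, (hF' _).2 ⟨i x, hi x, rfl⟩⟩, ?_, ?_⟩
  · obtain ⟨g, hg⟩ := exists_setOf (𝓜 := 𝓜) (α := 𝓜.Om × El 𝓜.E A)
      (s := fun q => ∃ i, i < n ∧ jn i = q.1 ∧ e i = q.2) (by fun_prop)
    refine ⟨g, fun z => ?_⟩
    rw [hg]
    constructor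
    · rintro ⟨⟨x, a⟩, ⟨k, hk, rfl, rfl⟩, rfl⟩
      refine ⟨⟨(jn k).1, mem_jn.2 ⟨k, hk, rfl⟩⟩, ?_⟩
      rw [isPair_iff]
      have : i ⟨(jn k).1, mem_jn.2 ⟨k, hk, rfl⟩⟩ = k := jn_inj (hi' _)
      show 𝓜.op (jn k).1 (e k).1 = 𝓜.op (jn k).1 (e (i ⟨(jn k).1, mem_jn.2 ⟨k, hk, rfl⟩⟩)).1
      rw [this]
    · rintro ⟨x, hx⟩
      rw [isPair_iff] at hx
      refine ⟨(jn (i x), e (i x)), ⟨i x, hi x, rfl, rfl⟩, ?_⟩
      rw [hx, ← hi' x]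
      rfl
  · rintro ⟨y, hy⟩
    obtain ⟨k, hk, rfl⟩ := (hF' y).1 hy
    refine ⟨⟨(jn k).1, mem_jn.2 ⟨k, hk, rfl⟩⟩, Subtype.ext ?_⟩
    have : i ⟨(jn k).1, mem_jn.2 ⟨k, hk, rfl⟩⟩ = k := jn_inj (hi' _)
    show (e (i _)).1 = _
    rw [this]

/-- finite sets of the model give finite sequences -/
theorem finB : StFinB.{u} := by
  classical
  intro 𝓜 A F hF hFA ⟨x₀, hx₀⟩
  obtain ⟨m, hm, f, ⟨g, hg⟩, hf⟩ := hF
  obtain ⟨n, hn⟩ := jn_surj (⟨m, mem_om.2 hm⟩ : 𝓜.Om)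
  have hnm : (jn n).1 = m := by rw [hn]
  let rr : ISet 𝓜 (𝓜.Om × El 𝓜.E A) :=
    ⟨fun q => 𝓜.E (𝓜.op (𝓜.code q.1) (𝓜.code q.2)) g, dfn_pair_mem g⟩
  have hel : ∀ i, i < n → 𝓜.E (jn i).1 m := fun i hi => by
    rw [← hnm]
    exact mem_jn.2 ⟨i, hi, rfl⟩
  have hd : 𝓜.Dfn (fun i : 𝓜.N => if h : i < n then
      (⟨(f ⟨(jn i).1, hel i h⟩).1, hFA _ (f _).2⟩ : El 𝓜.E A) else ⟨x₀, hx₀⟩) := by
    refine Dfn.of_graph (s := fun i a => (i < n ∧ rr (jn i, a)) ∨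
      (¬ i < n ∧ (⟨x₀, hx₀⟩ : El 𝓜.E A) = a)) (by fun_prop) fun i a => ?_
    by_cases h : i < n
    · rw [dif_pos h]
      constructor
      · rintro (⟨-, h1⟩ | ⟨h1, -⟩)
        · have h2 : 𝓜.E (𝓜.op (jn i).1 a.1) g := h1
          rw [hg] at h2
          obtain ⟨x, hx⟩ := h2
          rw [isPair_iff, op_inj] at hx
          refine Subtype.ext ?_
          rw [hx.2]
          show (f _).1 = (f x).1
          have : (⟨(jn i).1, hel i h⟩ : El 𝓜.E m) = x := Subtype.ext hx.1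
          rw [this]
        · exact absurd h h1
      · rintro rfl
        left
        refine ⟨h, ?_⟩
        show 𝓜.E (𝓜.op (jn i).1 _) g
        rw [hg]
        exact ⟨⟨(jn i).1, hel i h⟩, isPair_iff.2 rfl⟩
    · rw [dif_neg h]
      constructor
      · rintro (⟨h1, -⟩ | ⟨-, h1⟩)
        · exact absurd h1 h
        · exact h1
      · intro h1
        exact Or.inr ⟨h, h1⟩
  refine ⟨⟨_, hd⟩, n, fun x hx => ?_⟩
  obtain ⟨y, hy⟩ := hf ⟨x, hx⟩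
  have hy' : 𝓜.E y.1 (jn n).1 := by rw [hnm]; exact y.2
  obtain ⟨i, hi, hi'⟩ := mem_jn.1 hy'
  refine ⟨i, hi, ?_⟩
  have e1 : (⟨_, hd⟩ : IFun 𝓜 𝓜.N (El 𝓜.E A)) i = ⟨(f ⟨(jn i).1, hel i hi⟩).1, hFA _ (f _).2⟩ :=
    dif_pos hi
  rw [e1]
  show (f _).1 = x
  have : (⟨(jn i).1, hel i hi⟩ : El 𝓜.E m) = y := Subtype.ext hi'
  rw [this, hy]

end Ctx

end Pool.Agent.Lib.MP_c7a422_lc.Z
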