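import Pool.Agent.Lib.MP_c7a422_lc.Z.Spec

/-!
# Sequences of real numbers are coded by sets of natural numbers
-/

namespace Pool.Agent.Lib.MP_c7a422_lc.Z

universe u v w

namespace Ctx

variable {𝓜 : Ctx.{u}}

/-- a pairing function on the natural numbers of the model -/
noncomputable def pairN (a b : 𝓜.N) : 𝓜.N := (a + b) * (a + b) + a

@[fun_prop]
theorem Dfn.pairN {α : Type*} [Rep 𝓜 α] {f g : α → 𝓜.N} (hf : 𝓜.Dfn f) (hg : 𝓜.Dfn g) :
    𝓜.Dfn (fun a => Ctx.pairN (f a) (g a)) := by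
  unfold Ctx.pairN
  fun_prop

theorem pairN_inj {a b a' b' : 𝓜.N} (h : pairN a b = pairN a' b') : a = a' ∧ b = b' := by
  have key : ∀ a b a' b' : 𝓜.N, pairN a b = pairN a' b' → ¬ a + b < a' + b' := by
    intro a b a' b' h hlt
    rw [← N_add_one_le_iff] at hlt
    have h1 : (a : 𝓜.R) + b + 1 ≤ a' + b' := by exact_mod_cast hlt
    have h2 : ((a : 𝓜.R) + b) * (a + b) + a = (a' + b') * (a' + b') + a' := by
      have := congrArg toR h
      unfold pairN at this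
      exact_mod_cast this
    have ha := toR_nonneg a
    have hb := toR_nonneg b
    have ha' := toR_nonneg a'
    nlinarith
  have hs : a + b = a' + b' := le_antisymm (not_lt.1 (key _ _ _ _ h.symm)) (not_lt.1 (key _ _ _ _ h))
  have h1 : (a : 𝓜.R) + b = a' + b' := by exact_mod_cast hs
  have h2 : ((a : 𝓜.R) + b) * (a + b) + a = (a' + b') * (a' + b') + a' := by
    have := congrArg toR h
    unfold pairN at this
    exact_mod_cast this
  have h3 : (a : 𝓜.R) = a' := by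
    rw [h1] at h2
    linarith
  have h4 : (b : 𝓜.R) = b' := by linarith
  exact ⟨toR_inj.1 h3, toR_inj.1 h4⟩

/-- density of the rational numbers -/
theorem exists_rat_between {x y : 𝓜.R} (h : x < y) :
    ∃ a b c : 𝓜.N, x ≤ ((a : 𝓜.R) - b) / ((c : 𝓜.R) + 1) ∧ ((a : 𝓜.R) - b) / ((c : 𝓜.R) + 1) < y := by
  obtain ⟨c, hc⟩ := exists_one_div_lt (sub_pos.2 h)
  have hc0 : (0 : 𝓜.R) < (c : 𝓜.R) + 1 := by
    have := toR_nonneg c
    linarith
  obtain ⟨b, hb⟩ := exists_nat_gt (-(x * ((c : 𝓜.R) + 1)))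
  obtain ⟨a0, ha0⟩ := exists_nat_gt (x * ((c : 𝓜.R) + 1) + (b : 𝓜.R))
  obtain ⟨a, ha, hmin⟩ := exists_least (P := fun a : 𝓜.N => x * ((c : 𝓜.R) + 1) + (b : 𝓜.R) ≤ (a : 𝓜.R)) (by fun_prop)
    ⟨a0, ha0.le⟩
  refine ⟨a, b, c, ?_, ?_⟩
  · rw [le_div_iff₀ hc0]
    linarith
  · rcases N_cases a with rfl | ⟨m, rfl⟩
    · rw [toR_zero] at ha
      linarith
    · have h1 : (m : 𝓜.R) < x * ((c : 𝓜.R) + 1) + (b : 𝓜.R) := by
        by_contra hcon
        push Not at hcon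
        have h2 := hmin m hcon
        rw [N_add_one_le_iff] at h2
        exact lt_irrefl _ h2
      rw [div_lt_iff₀ hc0]
      have h3 : 1 < (y - x) * ((c : 𝓜.R) + 1) := by
        rw [div_lt_iff₀ hc0] at hc
        exact hc
      push_cast
      linarith

/-- the code of a sequence -/
noncomputable def seqCode (𝓜 : Ctx.{u}) : IFun 𝓜 (IFun 𝓜 𝓜.N 𝓜.R) (ISet 𝓜 𝓜.N) :=
  ⟨fun f => ⟨fun m => ∃ n a b c : 𝓜.N, m = pairN n (pairN a (pairN b c)) ∧
    ((a : 𝓜.R) - (b : 𝓜.R)) / ((c : 𝓜.R) + 1) < f n, by fun_prop⟩, by fun_prop⟩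

theorem seqCode_iff (f : IFun 𝓜 𝓜.N 𝓜.R) (n a b c : 𝓜.N) :
    seqCode 𝓜 f (pairN n (pairN a (pairN b c))) ↔ ((a : 𝓜.R) - (b : 𝓜.R)) / ((c : 𝓜.R) + 1) < f n := by
  constructor
  · rintro ⟨n', a', b', c', h, h'⟩
    obtain ⟨rfl, h1⟩ := pairN_inj h
    obtain ⟨rfl, h2⟩ := pairN_inj h1
    obtain ⟨rfl, rfl⟩ := pairN_inj h2
    exact h'
  · intro h
    exact ⟨n, a, b, c, rfl, h⟩

theorem seq : StSeq.{u} := by
  intro 𝓜 h
  refine WOon.of_inj (seqCode 𝓜) (fun _ _ => trivial) (fun f g _ _ hfg => ?_) h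
  have key : ∀ f g : IFun 𝓜 𝓜.N 𝓜.R, seqCode 𝓜 f = seqCode 𝓜 g → ∀ n, ¬ f n < g n := by
    intro f g hfg n hlt
    obtain ⟨a, b, c, h1, h2⟩ := exists_rat_between hlt
    have h3 := (seqCode_iff g n a b c).2 h2
    rw [← hfg, seqCode_iff] at h3
    exact absurd h3 (not_lt.2 h1)
  ext n
  exact le_antisymm (not_lt.1 (key g f hfg.symm n)) (not_lt.1 (key f g hfg n))

end Ctx

end Pool.Agent.Lib.MP_c7a422_lc.Z
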