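import Pool.Agent.Lib.MP_c7a422_lc.Z.Num

/-!
# Base 5: the ring of internal real functions, and some rules

Recipe for side conditions `𝓜.Dfn f`: `by fun_prop`; if the formula contains `∀` or `→`:
`by simp only [al_iff, imp_iff_not_or]; fun_prop`.
Internal functions should be bundled (`f : IFun 𝓜 α β`, several variables as pairs), or given with
a joint hypothesis `hf : 𝓜.Dfn (fun p : α × β => f p.1 p.2)`; both forms are used by `fun_prop`.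
-/

namespace Pool.Agent.Lib.MP_c7a422_lc.Z

universe u v w

namespace Ctx

variable {𝓜 : Ctx.{u}}

theorem al_iff {β : Type*} {s : β → Prop} : (∀ b, s b) ↔ ¬ ∃ b, ¬ s b := by simp

attribute [fun_prop] Dfn.ite

section alg

variable {α : Type*} {γ : Type*} [Rep 𝓜 α] [Rep 𝓜 γ]

noncomputable instance : Zero (IFun 𝓜 α 𝓜.R) := ⟨⟨fun _ => 0, by fun_prop⟩⟩
noncomputable instance : One (IFun 𝓜 α 𝓜.R) := ⟨⟨fun _ => 1, by fun_prop⟩⟩
noncomputable instance : Add (IFun 𝓜 α 𝓜.R) := ⟨fun f g => ⟨fun x => f x + g x, by fun_prop⟩⟩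
noncomputable instance : Mul (IFun 𝓜 α 𝓜.R) := ⟨fun f g => ⟨fun x => f x * g x, by fun_prop⟩⟩
noncomputable instance : Sub (IFun 𝓜 α 𝓜.R) := ⟨fun f g => ⟨fun x => f x - g x, by fun_prop⟩⟩
noncomputable instance : Neg (IFun 𝓜 α 𝓜.R) := ⟨fun f => ⟨fun x => - f x, by fun_prop⟩⟩
noncomputable instance : SMul 𝓜.R (IFun 𝓜 α 𝓜.R) := ⟨fun c f => ⟨fun x => c * f x, by fun_prop⟩⟩
noncomputable instance : SMul ℕ (IFun 𝓜 α 𝓜.R) :=
  ⟨fun n f => ⟨fun x => (n : 𝓜.R) * f x, by fun_prop⟩⟩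
noncomputable instance : SMul ℤ (IFun 𝓜 α 𝓜.R) :=
  ⟨fun n f => ⟨fun x => (n : 𝓜.R) * f x, by fun_prop⟩⟩
noncomputable instance : Pow (IFun 𝓜 α 𝓜.R) ℕ := ⟨fun f n => ⟨fun x => f x ^ n, by fun_prop⟩⟩
noncomputable instance : NatCast (IFun 𝓜 α 𝓜.R) := ⟨fun n => ⟨fun _ => (n : 𝓜.R), by fun_prop⟩⟩
noncomputable instance : IntCast (IFun 𝓜 α 𝓜.R) := ⟨fun n => ⟨fun _ => (n : 𝓜.R), by fun_prop⟩⟩

@[simp] theorem zeroF_apply (x : α) : (0 : IFun 𝓜 α 𝓜.R) x = 0 := rfl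
@[simp] theorem oneF_apply (x : α) : (1 : IFun 𝓜 α 𝓜.R) x = 1 := rfl
@[simp] theorem addF_apply (f g : IFun 𝓜 α 𝓜.R) (x : α) : (f + g) x = f x + g x := rfl
@[simp] theorem mulF_apply (f g : IFun 𝓜 α 𝓜.R) (x : α) : (f * g) x = f x * g x := rfl
@[simp] theorem subF_apply (f g : IFun 𝓜 α 𝓜.R) (x : α) : (f - g) x = f x - g x := rfl
@[simp] theorem negF_apply (f : IFun 𝓜 α 𝓜.R) (x : α) : (- f) x = - f x := rfl
@[simp] theorem smulF_apply (c : 𝓜.R) (f : IFun 𝓜 α 𝓜.R) (x : α) : (c • f) x = c * f x := rfl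
@[simp] theorem powF_apply (f : IFun 𝓜 α 𝓜.R) (n : ℕ) (x : α) : (f ^ n) x = f x ^ n := rfl
@[simp] theorem natCastF_apply (n : ℕ) (x : α) : (n : IFun 𝓜 α 𝓜.R) x = n := rfl
@[simp] theorem intCastF_apply (n : ℤ) (x : α) : (n : IFun 𝓜 α 𝓜.R) x = n := rfl

noncomputable instance : CommRing (IFun 𝓜 α 𝓜.R) :=
  DFunLike.coe_injective.commRing (fun f : IFun 𝓜 α 𝓜.R => (f : α → 𝓜.R)) rfl rfl
    (fun _ _ => rfl) (fun _ _ => rfl) (fun _ => rfl) (fun _ _ => rfl)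
    (fun n f => by ext x; exact (nsmul_eq_mul n (f x)).symm)
    (fun n f => by ext x; exact (zsmul_eq_mul (f x) n).symm)
    (fun _ _ => rfl) (fun _ => rfl) (fun _ => rfl)

noncomputable instance : Module 𝓜.R (IFun 𝓜 α 𝓜.R) where
  one_smul f := by ext x; simp
  mul_smul a b f := by ext x; simp [mul_assoc]
  smul_zero a := by ext x; simp
  smul_add a f g := by ext x; simp [mul_add]
  add_smul a b f := by ext x; simp [add_mul]
  zero_smul f := by ext x; simp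

@[fun_prop]
theorem Dfn.addF {f g : γ → IFun 𝓜 α 𝓜.R} (hf : 𝓜.Dfn f) (hg : 𝓜.Dfn g) :
    𝓜.Dfn (fun c => f c + g c) :=
  Dfn.lam (F := fun c x => f c x + g c x) (fun c => by fun_prop) (by fun_prop)

@[fun_prop]
theorem Dfn.mulF {f g : γ → IFun 𝓜 α 𝓜.R} (hf : 𝓜.Dfn f) (hg : 𝓜.Dfn g) :
    𝓜.Dfn (fun c => f c * g c) :=
  Dfn.lam (F := fun c x => f c x * g c x) (fun c => by fun_prop) (by fun_prop)

@[fun_prop]
theorem Dfn.subF {f g : γ → IFun 𝓜 α 𝓜.R} (hf : 𝓜.Dfn f) (hg : 𝓜.Dfn g) :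
    𝓜.Dfn (fun c => f c - g c) :=
  Dfn.lam (F := fun c x => f c x - g c x) (fun c => by fun_prop) (by fun_prop)

@[fun_prop]
theorem Dfn.negF {f : γ → IFun 𝓜 α 𝓜.R} (hf : 𝓜.Dfn f) :
    𝓜.Dfn (fun c => - f c) :=
  Dfn.lam (F := fun c x => - f c x) (fun c => by fun_prop) (by fun_prop)

@[fun_prop]
theorem Dfn.smulF {c : γ → 𝓜.R} {f : γ → IFun 𝓜 α 𝓜.R} (hc : 𝓜.Dfn c) (hf : 𝓜.Dfn f) :
    𝓜.Dfn (fun t => c t • f t) :=
  Dfn.lam (F := fun t x => c t * f t x) (fun c => by fun_prop) (by fun_prop)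

end alg

/-- the full set -/
def univ {α : Type*} [Rep 𝓜 α] : ISet 𝓜 α := ⟨fun _ => True, dfn_const True⟩

@[simp] theorem univ_apply {α : Type*} [Rep 𝓜 α] (x : α) : (univ : ISet 𝓜 α) x = True := rfl

end Ctx

end Pool.Agent.Lib.MP_c7a422_lc.Z
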