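import Pool.Agent.Lib.MP_c7a422_lc.Z.Spec

/-!
# Bridge, part 1: sets of the model given by internal sets; the set of natural numbers
-/

namespace Pool.Agent.Lib.MP_c7a422_lc.Z

universe u v w

namespace Ctx

variable {𝓜 : Ctx.{u}}

/-- The set of the model whose elements are the codes of the elements of an internal set. -/
theorem exists_setOf {α : Type*} [Rep 𝓜 α] {s : α → Prop} (hs : 𝓜.Dfn s) :
    ∃ m : 𝓜.M, ∀ z, 𝓜.E z m ↔ ∃ a, s a ∧ 𝓜.code a = z := by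
  obtain ⟨k, hk⟩ := dfn_iff.1 hs
  obtain ⟨m, hm⟩ := 𝓜.sepD (n := 1) (P := fun v => 𝓜.E (v 0) (v 1)) (dmem _ _) ![k] (𝓜.car α)
  refine ⟨m, fun z => ?_⟩
  rw [hm]
  show 𝓜.E z (𝓜.car α) ∧ 𝓜.E z k ↔ _
  constructor
  · rintro ⟨h1, h2⟩
    rw [mem_car] at h1
    obtain ⟨a, rfl⟩ := h1
    exact ⟨a, (hk a).1 h2, rfl⟩
  · rintro ⟨a, h1, rfl⟩
    exact ⟨code_mem a, (hk a).2 h1⟩

/-- Relations between represented types given by a formula with parameters are internal. -/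
theorem dfn_of_df₂ {α β : Type*} [Rep 𝓜 α] [Rep 𝓜 β] {n : ℕ}
    {P : (Fin (n + 2) → 𝓜.M) → Prop} (h : 𝓜.Df P) (p : Fin n → 𝓜.M) :
    𝓜.Dfn (fun q : α × β => P (Fin.cons (𝓜.code q.1) (Fin.cons (𝓜.code q.2) p))) := by
  rw [dfn_iff]
  refine (intS_of_df (α × β) (n := n) (P := fun v => ∃ x y, IsPair 𝓜.E (v 0) x y ∧
    P (Fin.cons x (Fin.cons y fun i => v i.succ))) ?_ p).congr ?_
  · refine dex (Q := fun x v => ∃ y, IsPair 𝓜.E (v 0) x y ∧
      P (Fin.cons x (Fin.cons y fun i => v i.succ)))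
      (dex (Q := fun y v => IsPair 𝓜.E (v 1) (v 0) y ∧
      P (Fin.cons (v 0) (Fin.cons y fun i => v i.succ.succ))) (dand (dpair _ _ _) ?_))
    obtain ⟨φ, hφ⟩ := h
    -- rename the variables
    have ren : ∀ {k : ℕ} (φ : Fml k) {m : ℕ} (e : Fin k → Fin m), ∃ ψ : Fml m,
        ∀ v : Fin m → 𝓜.M, Sat 𝓜.E ψ v ↔ Sat 𝓜.E φ (fun i => v (e i)) := by
      intro k φ
      induction φ with
      | mem i j => exact fun e => ⟨.mem (e i) (e j), fun v => Iff.rfl⟩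
      | eq i j => exact fun e => ⟨.eq (e i) (e j), fun v => Iff.rfl⟩
      | bot => exact fun e => ⟨.bot, fun v => Iff.rfl⟩
      | imp φ ψ h1 h2 =>
        intro m e
        obtain ⟨a, ha⟩ := h1 e
        obtain ⟨b, hb⟩ := h2 e
        exact ⟨.imp a b, fun v => imp_congr (ha v) (hb v)⟩
      | all φ h1 =>
        intro m e
        obtain ⟨a, ha⟩ := h1 (Fin.cases 0 fun i => (e i).succ)
        refine ⟨.all a, fun v => forall_congr' fun x => (ha _).trans ?_⟩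
        have : (fun i => (Fin.cons x v : Fin (m + 1) → 𝓜.M)
            ((Fin.cases 0 (fun i => (e i).succ) : Fin _ → Fin (m + 1)) i)) =
            Fin.cons x (fun i => v (e i)) := by
          funext i
          refine Fin.cases ?_ (fun i => ?_) i
          · rfl
          · simp
        rw [this]
    obtain ⟨ψ, hψ⟩ := ren φ (m := n + 3)
      (Fin.cases 1 (Fin.cases 0 fun i => i.succ.succ.succ))
    refine ⟨ψ, fun v => (hψ v).trans ?_⟩
    rw [hφ]
    have : (fun i => v ((Fin.cases 1 (Fin.cases 0 fun i => i.succ.succ.succ) :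
        Fin (n + 2) → Fin (n + 3)) i)) = Fin.cons (v 1) (Fin.cons (v 0) fun i =>
          v i.succ.succ.succ) := by
      funext i
      refine Fin.cases ?_ (fun i => ?_) i
      · rfl
      · refine Fin.cases ?_ (fun i => ?_) i
        · rfl
        · simp
    rw [this]
    rfl
  · rintro ⟨a, b⟩
    simp only [isPair_iff, Fin.cons_zero, Fin.cons_succ, code_prod, op_inj]
    constructor
    · rintro ⟨x, y, ⟨rfl, rfl⟩, h⟩
      exact h
    · intro h
      exact ⟨_, _, ⟨rfl, rfl⟩, h⟩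

/-- the membership relation between the elements of two sets -/
theorem dfn_mem_el (a b : 𝓜.M) :
    𝓜.Dfn (fun q : El 𝓜.E a × El 𝓜.E b => 𝓜.E q.1.1 q.2.1) :=
  dfn_of_df₂ (n := 0) (P := fun v => 𝓜.E (v 0) (v 1)) (dmem _ _) ![]

/-- the membership relation between codes -/
theorem dfn_mem_code {α β : Type*} [Rep 𝓜 α] [Rep 𝓜 β] :
    𝓜.Dfn (fun q : α × β => 𝓜.E (𝓜.code q.1) (𝓜.code q.2)) :=
  dfn_of_df₂ (n := 0) (P := fun v => 𝓜.E (v 0) (v 1)) (dmem _ _) ![]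

/-- equality of codes -/
theorem dfn_eq_code {α β : Type*} [Rep 𝓜 α] [Rep 𝓜 β] :
    𝓜.Dfn (fun q : α × β => 𝓜.code q.1 = 𝓜.code q.2) :=
  dfn_of_df₂ (n := 0) (P := fun v => v 0 = v 1) (deq _ _) ![]

/-- pairs in a given set -/
theorem dfn_pair_mem {α β : Type*} [Rep 𝓜 α] [Rep 𝓜 β] (g : 𝓜.M) :
    𝓜.Dfn (fun q : α × β => 𝓜.E (𝓜.op (𝓜.code q.1) (𝓜.code q.2)) g) := by
  rw [dfn_iff]
  exact ⟨g, fun q => Iff.rfl⟩

end Ctx

end Pool.Agent.Lib.MP_c7a422_lc.Z
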