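import Pool.Agent.Lib.MP_c7a422_lc.Z.Spec

/-!
# The Cantor space of the model is compact
-/

namespace Pool.Agent.Lib.MP_c7a422_lc.Z

universe u

namespace Ctx

namespace CantorAux

variable {𝓜 : Ctx.{u}}

/-- the set of the numbers `1 / (n + 1)`, where `A` and `B` differ at `n` -/
def dset (A B : ISet 𝓜 𝓜.N) (t : 𝓜.R) : Prop :=
  t = 0 ∨ ∃ n : 𝓜.N, ¬ (A n ↔ B n) ∧ t = 1 / ((n : 𝓜.R) + 1)

@[fun_prop]
theorem dfn_dset {γ : Type*} [Rep 𝓜 γ] {A B : γ → ISet 𝓜 𝓜.N} {t : γ → 𝓜.R} (hA : 𝓜.Dfn A)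
    (hB : 𝓜.Dfn B) (ht : 𝓜.Dfn t) : 𝓜.Dfn (fun c => dset (A c) (B c) (t c)) := by
  unfold dset
  fun_prop

/-- the metric -/
noncomputable def cd (𝓜 : Ctx.{u}) : IFun 𝓜 (ISet 𝓜 𝓜.N × ISet 𝓜 𝓜.N) 𝓜.R :=
  ⟨fun p => 𝓜.sup (fun t => dset p.1 p.2 t), by fun_prop⟩

theorem cd_apply (A B : ISet 𝓜 𝓜.N) : cd 𝓜 (A, B) = 𝓜.sup (fun t => dset A B t) := rfl

theorem dset_bdd (A B : ISet 𝓜 𝓜.N) : ∃ b, ∀ t, dset A B t → t ≤ b := by
  refine ⟨1, fun t ht => ?_⟩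
  rcases ht with rfl | ⟨n, -, rfl⟩
  · exact zero_le_one
  · have := toR_nonneg n
    rw [div_le_one (by linarith)]
    linarith

theorem dfn_dset' (A B : ISet 𝓜 𝓜.N) : 𝓜.Dfn (fun t => dset A B t) := by fun_prop

theorem cd_nonneg (A B : ISet 𝓜 𝓜.N) : 0 ≤ cd 𝓜 (A, B) :=
  le_sup (dfn_dset' A B) (dset_bdd A B) (Or.inl rfl)

theorem le_cd {A B : ISet 𝓜 𝓜.N} {n : 𝓜.N} (h : ¬ (A n ↔ B n)) :
    1 / ((n : 𝓜.R) + 1) ≤ cd 𝓜 (A, B) :=
  le_sup (dfn_dset' A B) (dset_bdd A B) (Or.inr ⟨n, h, rfl⟩)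

theorem cd_le {A B : ISet 𝓜 𝓜.N} {n : 𝓜.N} (h : ∀ m < n, (A m ↔ B m)) :
    cd 𝓜 (A, B) ≤ 1 / ((n : 𝓜.R) + 1) := by
  refine sup_le (dfn_dset' A B) ⟨0, Or.inl rfl⟩ fun t ht => ?_
  have hn := toR_nonneg n
  rcases ht with rfl | ⟨m, hm, rfl⟩
  · positivity
  · have h1 : n ≤ m := by
      by_contra hcon
      exact hm (h m (not_le.1 hcon))
    have h2 : (n : 𝓜.R) ≤ m := toR_le.2 h1
    exact one_div_le_one_div_of_le (by linarith) (by linarith)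

theorem met : MetOn (univ : ISet 𝓜 (ISet 𝓜 𝓜.N)) (cd 𝓜) where
  self A _ := by
    refine le_antisymm ?_ (cd_nonneg A A)
    refine sup_le (dfn_dset' A A) ⟨0, Or.inl rfl⟩ fun t ht => ?_
    rcases ht with rfl | ⟨m, hm, rfl⟩
    · exact le_rfl
    · exact absurd Iff.rfl hm
  symm A B _ _ := by
    rw [cd_apply, cd_apply]
    congr 1
    funext t
    apply propext
    unfold dset
    simp only [iff_comm]
  tri A B C _ _ _ := by
    refine sup_le (dfn_dset' A C) ⟨0, Or.inl rfl⟩ fun t ht => ?_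
    rcases ht with rfl | ⟨m, hm, rfl⟩
    · exact add_nonneg (cd_nonneg _ _) (cd_nonneg _ _)
    · by_cases h : A m ↔ B m
      · have h1 : ¬ (B m ↔ C m) := fun h2 => hm (h.trans h2)
        have h2 := le_cd h1
        have h3 := cd_nonneg A B
        linarith
      · have h2 := le_cd h
        have h3 := cd_nonneg B C
        linarith
  sep A B _ _ h := by
    ext n
    by_contra hcon
    have h1 : ¬ (A n ↔ B n) := hcon
    have h2 := le_cd h1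
    rw [h] at h2
    have h3 := toR_nonneg n
    have h4 : 0 < 1 / ((n : 𝓜.R) + 1) := by positivity
    linarith

/-- the cylinder of all sets which agree with `s` below `n` -/
def cyl (s : ISet 𝓜 𝓜.N) (n : 𝓜.N) : ISet 𝓜 (ISet 𝓜 𝓜.N) :=
  ⟨fun A => ¬ ∃ m, m < n ∧ ¬ (A m ↔ s m), by fun_prop⟩

theorem cyl_apply {s : ISet 𝓜 𝓜.N} {n : 𝓜.N} {A : ISet 𝓜 𝓜.N} :
    cyl s n A ↔ ∀ m, m < n → (A m ↔ s m) := by
  show (¬ ∃ m, m < n ∧ ¬ (A m ↔ s m)) ↔ _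
  simp only [not_exists, not_and, not_not]

@[fun_prop]
theorem dfn_cyl {γ : Type*} [Rep 𝓜 γ] {s : γ → ISet 𝓜 𝓜.N} {n : γ → 𝓜.N} (hs : 𝓜.Dfn s)
    (hn : 𝓜.Dfn n) : 𝓜.Dfn (fun c => cyl (s c) (n c)) := by
  unfold cyl
  fun_prop

open Classical in
/-- the recursion step -/
noncomputable def gstep (V : ISet 𝓜 (ISet 𝓜 (ISet 𝓜 𝓜.N))) :
    IFun 𝓜 (𝓜.N × ISet 𝓜 𝓜.N) (ISet 𝓜 𝓜.N) :=
  ⟨fun p => if FCov V (cyl p.2 (p.1 + 1)) then ⟨fun k => p.2 k ∨ k = p.1, by fun_prop⟩ else p.2,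
    by fun_prop⟩

open Classical in
theorem gstep_apply (V : ISet 𝓜 (ISet 𝓜 (ISet 𝓜 𝓜.N))) (n : 𝓜.N) (s : ISet 𝓜 𝓜.N) :
    gstep V (n, s) = if FCov V (cyl s (n + 1)) then ⟨fun k => s k ∨ k = n, by fun_prop⟩ else s :=
  rfl

/-- the sequence of finite sets -/
noncomputable def sq (V : ISet 𝓜 (ISet 𝓜 (ISet 𝓜 𝓜.N))) (n : 𝓜.N) : ISet 𝓜 𝓜.N :=
  nrec ⟨fun _ => False, by fun_prop⟩ (gstep V) n

@[fun_prop]
theorem dfn_sq {γ : Type*} [Rep 𝓜 γ] {V : ISet 𝓜 (ISet 𝓜 (ISet 𝓜 𝓜.N))} {n : γ → 𝓜.N}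
    (hn : 𝓜.Dfn n) : 𝓜.Dfn (fun c => sq V (n c)) := by
  unfold sq
  fun_prop

theorem sq_zero (V : ISet 𝓜 (ISet 𝓜 (ISet 𝓜 𝓜.N))) (k : 𝓜.N) : ¬ sq V 0 k := by
  unfold sq
  rw [nrec_zero]
  exact fun h => h

theorem sq_succ (V : ISet 𝓜 (ISet 𝓜 (ISet 𝓜 𝓜.N))) (n : 𝓜.N) :
    sq V (n + 1) = gstep V (n, sq V n) := nrec_succ _ _ _

theorem sq_succ_apply (V : ISet 𝓜 (ISet 𝓜 (ISet 𝓜 𝓜.N))) (n k : 𝓜.N) (hk : k ≠ n) :
    sq V (n + 1) k ↔ sq V n k := by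
  classical
  rw [sq_succ, gstep_apply]
  by_cases h : FCov V (cyl (sq V n) (n + 1))
  · rw [if_pos h]
    show (sq V n k ∨ k = n) ↔ sq V n k
    constructor
    · rintro (h1 | h1)
      · exact h1
      · exact absurd h1 hk
    · exact Or.inl
  · rw [if_neg h]

/-- the invariants -/
theorem inv (V : ISet 𝓜 (ISet 𝓜 (ISet 𝓜 𝓜.N))) (hV : ¬ FCov V univ) (n : 𝓜.N) :
    (∀ k, sq V n k → k < n) ∧ ¬ FCov V (cyl (sq V n) n) := by
  classical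
  refine ind (P := fun n => (∀ k, sq V n k → k < n) ∧ ¬ FCov V (cyl (sq V n) n))
    (by simp only [al_iff, imp_iff_not_or]; fun_prop) ?_ ?_ n
  · refine ⟨fun k hk => absurd hk (sq_zero V k), fun h => hV (h.subset fun A _ => ?_)⟩
    refine cyl_apply.2 fun m hm => ?_
    exact absurd (N_nonneg m) (not_le.2 hm)
  · rintro n ⟨h1, h2⟩
    have h3 : ∀ k, sq V (n + 1) k → k < n + 1 := by
      intro k hk
      by_cases hkn : k = n
      · rw [hkn]; exact N_lt_add_one_iff.2 le_rfl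
      · rw [sq_succ_apply V n k hkn] at hk
        exact (h1 k hk).trans (N_lt_add_one_iff.2 le_rfl)
    refine ⟨h3, fun h4 => ?_⟩
    by_cases h : FCov V (cyl (sq V n) (n + 1))
    · refine h2 (FCov.union h h4 fun A hA => ?_)
      by_cases hAn : A n
      · refine Or.inr (cyl_apply.2 fun m hm => ?_)
        rcases (N_lt_add_one_iff.1 hm).lt_or_eq with h5 | h5
        · rw [sq_succ_apply V n m h5.ne]
          exact cyl_apply.1 hA m h5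
        · rw [h5, sq_succ, gstep_apply, if_pos h]
          exact ⟨fun _ => Or.inr rfl, fun _ => hAn⟩
      · refine Or.inl (cyl_apply.2 fun m hm => ?_)
        rcases (N_lt_add_one_iff.1 hm).lt_or_eq with h5 | h5
        · exact cyl_apply.1 hA m h5
        · rw [h5]
          exact ⟨fun h6 => absurd h6 hAn, fun h6 => absurd (h1 n h6) (lt_irrefl n)⟩
    · rw [sq_succ, gstep_apply, if_neg h] at h4
      exact h h4

theorem stab (V : ISet 𝓜 (ISet 𝓜 (ISet 𝓜 𝓜.N))) (n : 𝓜.N) :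
    ∀ k, k < n → (sq V n k ↔ sq V (k + 1) k) := by
  refine ind (P := fun n => ∀ k, k < n → (sq V n k ↔ sq V (k + 1) k))
    (by simp only [al_iff, imp_iff_not_or]; fun_prop) ?_ ?_ n
  · intro k hk
    exact absurd (N_nonneg k) (not_le.2 hk)
  · intro n ih k hk
    rcases (N_lt_add_one_iff.1 hk).lt_or_eq with h5 | h5
    · rw [sq_succ_apply V n k h5.ne]
      exact ih k h5
    · rw [h5]

theorem compact : CompactOn (univ : ISet 𝓜 (ISet 𝓜 𝓜.N)) (cd 𝓜) := by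
  intro V hV hcov
  by_contra hcon
  obtain ⟨O, hO, hz⟩ := hcov ⟨fun k => sq V (k + 1) k, by fun_prop⟩ trivial
  obtain ⟨ε, hε, h1⟩ := hV O hO _ trivial hz
  obtain ⟨n, hn⟩ := exists_one_div_lt hε
  refine (inv V hcon n).2 (FCov.of_mem hO fun A hA => h1 A trivial ?_)
  refine lt_of_le_of_lt (cd_le fun m hm => ?_) hn
  have h2 := cyl_apply.1 hA m hm
  have h3 := stab V n m hm
  show sq V (m + 1) m ↔ A m
  rw [h2, h3]

end CantorAux

/-- the Cantor space of the model is compact -/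
theorem cantor : StCantor.{u} := by
  intro 𝓜 h
  exact h (ISet 𝓜 𝓜.N) univ (CantorAux.cd 𝓜) ⟨univ, trivial⟩ CantorAux.met CantorAux.compact

end Ctx

end Pool.Agent.Lib.MP_c7a422_lc.Z
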