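import Pool.Agent.Lib.MP_c7a422_lc.Z.Spec

/-!
# Totally bounded, well-orderable and complete implies compact
-/

namespace Pool.Agent.Lib.MP_c7a422_lc.Z

universe u

namespace Ctx

section comp

variable {𝓜 : Ctx.{u}} {Y : Type u} [Rep 𝓜 Y]

/-- the part of `A` in the closed ball -/
def ballIn (ρ : IFun 𝓜 (Y × Y) 𝓜.R) (A : ISet 𝓜 Y) (y : Y) (ε : 𝓜.R) : ISet 𝓜 Y :=
  ⟨fun z => A z ∧ ρ (z, y) ≤ ε, by fun_prop⟩

@[fun_prop]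
theorem Dfn.ballIn {γ : Type*} [Rep 𝓜 γ] {ρ : IFun 𝓜 (Y × Y) 𝓜.R} {A : γ → ISet 𝓜 Y} {y : γ → Y}
    {ε : γ → 𝓜.R} (hA : 𝓜.Dfn A) (hy : 𝓜.Dfn y) (hε : 𝓜.Dfn ε) :
    𝓜.Dfn (fun c => Ctx.ballIn ρ (A c) (y c) (ε c)) := by
  unfold Ctx.ballIn
  fun_prop

theorem ballIn_iff {ρ : IFun 𝓜 (Y × Y) 𝓜.R} {A : ISet 𝓜 Y} {y : Y} {ε : 𝓜.R} {z : Y} :
    Ctx.ballIn ρ A y ε z ↔ A z ∧ ρ (z, y) ≤ ε := Iff.rfl

/-- the points of `S` around which `A` is not finitely covered -/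
def badPts (S : ISet 𝓜 Y) (ρ : IFun 𝓜 (Y × Y) 𝓜.R) (V : ISet 𝓜 (ISet 𝓜 Y)) (A : ISet 𝓜 Y)
    (ε : 𝓜.R) : ISet 𝓜 Y :=
  ⟨fun y => S y ∧ ¬ FCov V (Ctx.ballIn ρ A y ε), by fun_prop⟩

@[fun_prop]
theorem Dfn.badPts {γ : Type*} [Rep 𝓜 γ] {S : ISet 𝓜 Y} {ρ : IFun 𝓜 (Y × Y) 𝓜.R}
    {V : ISet 𝓜 (ISet 𝓜 Y)} {A : γ → ISet 𝓜 Y} {ε : γ → 𝓜.R} (hA : 𝓜.Dfn A) (hε : 𝓜.Dfn ε) :
    𝓜.Dfn (fun c => Ctx.badPts S ρ V (A c) (ε c)) := by
  unfold Ctx.badPts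
  fun_prop

theorem badPts_nonempty (h : StNet.{u}) {S : ISet 𝓜 Y} {ρ : IFun 𝓜 (Y × Y) 𝓜.R}
    {V : ISet 𝓜 (ISet 𝓜 Y)} (hne : ∃ y, S y) (hTB : TB S ρ) {A : ISet 𝓜 Y} (hA : ∀ y, A y → S y)
    (hV : ¬ FCov V A) {ε : 𝓜.R} (hε : 0 < ε) : ∃ y, Ctx.badPts S ρ V A ε y ∧ S y := by
  by_contra hcon
  push Not at hcon
  obtain ⟨n, e, he1, he2⟩ := h 𝓜 Y S ρ ε hne (hTB ε hε)
  have hall : ∀ i, FCov V (Ctx.ballIn ρ A (e i) ε) := by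
    intro i
    by_contra hi
    exact hcon (e i) ⟨he1 i, hi⟩ (he1 i)
  have key : ∀ m : 𝓜.N, FCov V (⟨fun z => A z ∧ ∃ i, i < m ∧ ρ (z, e i) ≤ ε, by fun_prop⟩ :
      ISet 𝓜 Y) := by
    intro m
    refine ind (P := fun m : 𝓜.N => FCov V (⟨fun z => A z ∧ ∃ i, i < m ∧ ρ (z, e i) ≤ ε,
      by fun_prop⟩ : ISet 𝓜 Y)) (by fun_prop) ?_ ?_ m
    · refine FCov.empty ?_
      rintro z ⟨-, i, hi, -⟩
      exact absurd (N_nonneg i) (not_le.2 hi)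
    · intro m ih
      refine ih.union (hall m) ?_
      rintro z ⟨hz, i, hi, hi2⟩
      rw [N_lt_add_one_iff] at hi
      rcases hi.lt_or_eq with hlt | rfl
      · exact Or.inl ⟨hz, i, hlt, hi2⟩
      · exact Or.inr ⟨hz, hi2⟩
  refine hV ((key n).subset fun z hz => ?_)
  obtain ⟨i, hi, hi2⟩ := he2 z (hA z hz)
  exact ⟨hz, i, hi, hi2⟩

end comp

theorem comp (h : StNet.{u}) : StComp.{u} := by
  intro 𝓜 Y _ S ρ hne hPM hTB hWO hC V hV hcov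
  by_contra hcon
  obtain ⟨y₀, hy₀⟩ := hne
  obtain ⟨r, hr⟩ := hWO
  obtain ⟨σ, hσ⟩ := hr.sel y₀
  -- the step
  let g : IFun 𝓜 (𝓜.N × ISet 𝓜 Y) (ISet 𝓜 Y) :=
    ⟨fun p => Ctx.ballIn ρ p.2 (σ (Ctx.badPts S ρ V p.2 (1 / ((p.1 : 𝓜.R) + 1))))
      (1 / ((p.1 : 𝓜.R) + 1)), by fun_prop⟩
  let A : 𝓜.N → ISet 𝓜 Y := fun n => nrec S g n
  have hAd : 𝓜.Dfn A := by fun_prop
  let y : 𝓜.N → Y := fun n => σ (Ctx.badPts S ρ V (A n) (1 / ((n : 𝓜.R) + 1)))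
  have hA0 : A 0 = S := nrec_zero S g
  have hA1 : ∀ n, A (n + 1) = Ctx.ballIn ρ (A n) (y n) (1 / ((n : 𝓜.R) + 1)) := fun n =>
    nrec_succ S g n
  have hpos : ∀ n : 𝓜.N, (0 : 𝓜.R) < 1 / ((n : 𝓜.R) + 1) := fun n => by
    have := toR_nonneg n
    positivity
  have hstep : ∀ n, (∀ z, A n z → S z) → ¬ FCov V (A n) →
      Ctx.badPts S ρ V (A n) (1 / ((n : 𝓜.R) + 1)) (y n) ∧ S (y n) := by
    intro n h1 h2
    have h3 := hσ _ (badPts_nonempty h ⟨y₀, hy₀⟩ hTB h1 h2 (hpos n))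
    exact ⟨h3.1, h3.2.1⟩
  have hinv : ∀ n, (∀ z, A n z → S z) ∧ ¬ FCov V (A n) := by
    intro n
    refine ind (P := fun n => (∀ z, A n z → S z) ∧ ¬ FCov V (A n))
      (by simp only [al_iff, imp_iff_not_or]; fun_prop) ?_ ?_ n
    · rw [hA0]
      exact ⟨fun z hz => hz, hcon⟩
    · rintro n ⟨h1, h2⟩
      rw [hA1]
      exact ⟨fun z hz => h1 z hz.1, (hstep n h1 h2).1.2⟩
  have hyS : ∀ n, S (y n) := fun n => (hstep n (hinv n).1 (hinv n).2).2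
  have hmono : ∀ n m : 𝓜.N, n ≤ m → ∀ z, A m z → A n z := by
    intro n m
    refine ind (P := fun m => n ≤ m → ∀ z, A m z → A n z)
      (by simp only [al_iff, imp_iff_not_or]; fun_prop) ?_ ?_ m
    · intro hn z hz
      have : n = 0 := le_antisymm hn (N_nonneg n)
      rwa [this]
    · intro m ih hn z hz
      rcases hn.lt_or_eq with hlt | rfl
      · rw [N_lt_add_one_iff] at hlt
        rw [hA1] at hz
        exact ih hlt z hz.1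
      · exact hz
  have hinh : ∀ n, ∃ z, A n z := by
    intro n
    by_contra hn
    push Not at hn
    exact (hinv n).2 (FCov.empty hn)
  have hball : ∀ n z, A (n + 1) z → A n z ∧ ρ (z, y n) ≤ 1 / ((n : 𝓜.R) + 1) := by
    intro n z hz
    rw [hA1] at hz
    exact hz
  have hle : ∀ n k : 𝓜.N, n ≤ k → 1 / ((k : 𝓜.R) + 1) ≤ 1 / ((n : 𝓜.R) + 1) := by
    intro n k hnk
    have h1 : (n : 𝓜.R) ≤ k := hnk
    have h2 := toR_nonneg n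
    exact one_div_le_one_div_of_le (by linarith) (by linarith)
  have hyd : 𝓜.Dfn y := by fun_prop
  -- the limit
  obtain ⟨w, hw, hlim⟩ := hC ⟨y, hyd⟩ hyS (by
    intro ε hε
    obtain ⟨n, hn⟩ := exists_one_div_lt (half_pos hε)
    refine ⟨n, fun k m hk hm => ?_⟩
    obtain ⟨z, hz⟩ := hinh (max k m + 1)
    have hzk : A (k + 1) z := hmono _ _ (by simp) z hz
    have hzm : A (m + 1) z := hmono _ _ (by simp) z hz
    have h1 := hball k z hzk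
    have h2 := hball m z hzm
    have hzS : S z := (hinv _).1 z hz
    have h3 := hPM.tri (y k) z (y m) (hyS k) hzS (hyS m)
    rw [hPM.symm (y k) z (hyS k) hzS] at h3
    have h4 := hle n k hk
    have h5 := hle n m hm
    show ρ (y k, y m) ≤ ε
    linarith [h1.2, h2.2])
  obtain ⟨O, hVO, hOw⟩ := hcov w hw
  obtain ⟨ε, hε, hO⟩ := hV O hVO w hw hOw
  have hε3 : 0 < ε / 3 := by linarith
  obtain ⟨n1, hn1⟩ := hlim (ε / 3) hε3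
  obtain ⟨n2, hn2⟩ := exists_one_div_lt hε3
  set m := max n1 n2 with hm
  have h1 : ρ (y m, w) ≤ ε / 3 := hn1 m (le_max_left _ _)
  have h2 := hle n2 m (le_max_right _ _)
  refine (hinv (m + 1)).2 (FCov.of_mem hVO fun z hz => ?_)
  have hzS : S z := (hinv _).1 z hz
  have h3 := (hball m z hz).2
  refine hO z hzS ?_
  have h4 := hPM.tri w (y m) z hw (hyS m) hzS
  rw [hPM.symm w (y m) hw (hyS m), hPM.symm (y m) z (hyS m) hzS] at h4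
  linarith

end Ctx

end Pool.Agent.Lib.MP_c7a422_lc.Z
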