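import Pool.Agent.Lib.MP_c7a422_lc.Z.Spec

/-!
# The covering functional
-/

namespace Pool.Agent.Lib.MP_c7a422_lc.Z

universe u

namespace Ctx

namespace CovM

variable {𝓜 : Ctx.{u}} {Y : Type u} [Rep 𝓜 Y]

/-- the tent function of radius `r` about `x` -/
noncomputable def phi (ρ : IFun 𝓜 (Y × Y) 𝓜.R) (r : 𝓜.R) (x : Y) : IFun 𝓜 Y 𝓜.R :=
  ⟨fun y => max 0 (1 - ρ (x, y) / r), by fun_prop⟩

@[fun_prop]
theorem dfn_phi {γ : Type*} [Rep 𝓜 γ] {ρ : γ → IFun 𝓜 (Y × Y) 𝓜.R} {r : γ → 𝓜.R} {x : γ → Y}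
    (hρ : 𝓜.Dfn ρ) (hr : 𝓜.Dfn r) (hx : 𝓜.Dfn x) : 𝓜.Dfn (fun c => phi (ρ c) (r c) (x c)) := by
  unfold phi
  fun_prop

/-- the cone of finite sums of tent functions, with their total weights -/
def CC (S : ISet 𝓜 Y) (ρ : IFun 𝓜 (Y × Y) 𝓜.R) (r : 𝓜.R) (g : IFun 𝓜 Y 𝓜.R) (s : 𝓜.R) : Prop :=
  ∀ I : ISet 𝓜 (IFun 𝓜 Y 𝓜.R × 𝓜.R), I (0, 0) →
    (∀ (g : IFun 𝓜 Y 𝓜.R) (s : 𝓜.R) (x : Y) (c : 𝓜.R), S x → 0 ≤ c → I (g, s) →
      I (g + c • phi ρ r x, s + c)) → I (g, s)

@[fun_prop]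
theorem dfn_CC {γ : Type*} [Rep 𝓜 γ] {S : γ → ISet 𝓜 Y} {ρ : γ → IFun 𝓜 (Y × Y) 𝓜.R} {r : γ → 𝓜.R}
    {g : γ → IFun 𝓜 Y 𝓜.R} {s : γ → 𝓜.R} (hS : 𝓜.Dfn S)
    (hρ : 𝓜.Dfn ρ) (hr : 𝓜.Dfn r) (hg : 𝓜.Dfn g) (hs : 𝓜.Dfn s) :
    𝓜.Dfn (fun c => CC (S c) (ρ c) (r c) (g c) (s c)) := by
  unfold CC
  simp only [al_iff, imp_iff_not_or]
  fun_prop

/-- the covering functional -/
noncomputable def cov (S : ISet 𝓜 Y) (ρ : IFun 𝓜 (Y × Y) 𝓜.R) (r : 𝓜.R) (F : IFun 𝓜 Y 𝓜.R) : 𝓜.R :=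
  - 𝓜.sup (fun t => ∃ g, CC S ρ r g (-t) ∧ ∀ y, S y → F y ≤ g y)

theorem dfn_cov : 𝓜.Dfn (fun p : ISet 𝓜 Y × (IFun 𝓜 (Y × Y) 𝓜.R × (𝓜.R × IFun 𝓜 Y 𝓜.R)) =>
      cov p.1 p.2.1 p.2.2.1 p.2.2.2) := by
  unfold cov
  simp only [al_iff, imp_iff_not_or]
  fun_prop

variable {S : ISet 𝓜 Y} {ρ : IFun 𝓜 (Y × Y) 𝓜.R} {r : 𝓜.R}

theorem CC.zero : CC S ρ r 0 0 := fun _ h0 _ => h0

theorem CC.step {g : IFun 𝓜 Y 𝓜.R} {s c : 𝓜.R} {x : Y} (h : CC S ρ r g s) (hx : S x) (hc : 0 ≤ c) :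
    CC S ρ r (g + c • phi ρ r x) (s + c) := fun I h0 h1 => h1 g s x c hx hc (h I h0 h1)

theorem CC.induction {P : IFun 𝓜 Y 𝓜.R → 𝓜.R → Prop}
    (hP : 𝓜.Dfn (fun p : IFun 𝓜 Y 𝓜.R × 𝓜.R => P p.1 p.2)) (h0 : P 0 0)
    (h1 : ∀ g s x c, CC S ρ r g s → S x → 0 ≤ c → P g s → P (g + c • phi ρ r x) (s + c))
    {g : IFun 𝓜 Y 𝓜.R} {s : 𝓜.R} (h : CC S ρ r g s) : P g s := by
  have h2 := h ⟨fun p => CC S ρ r p.1 p.2 ∧ P p.1 p.2, by fun_prop⟩ ⟨CC.zero, h0⟩
    (fun g s x c hx hc hI => ⟨hI.1.step hx hc, h1 g s x c hI.1 hx hc hI.2⟩)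
  exact h2.2

theorem CC.bounds (hr : 0 < r) (hρ : PM S ρ) {g : IFun 𝓜 Y 𝓜.R} {s : 𝓜.R} (h : CC S ρ r g s) :
    0 ≤ s ∧ ∀ y, S y → 0 ≤ g y ∧ g y ≤ s := by
  refine CC.induction (S := S) (ρ := ρ) (r := r)
    (P := fun g s => 0 ≤ s ∧ ∀ y, S y → 0 ≤ g y ∧ g y ≤ s)
    (by simp only [al_iff, imp_iff_not_or]; fun_prop) ?_ ?_ h
  · exact ⟨le_rfl, fun y _ => ⟨le_rfl, le_rfl⟩⟩
  · intro g s x c _ hx hc hP
    refine ⟨by linarith [hP.1], fun y hy => ?_⟩
    have h1 : 0 ≤ ρ (x, y) / r := div_nonneg (hρ.nonneg hx hy) hr.le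
    have h2 : 0 ≤ phi ρ r x y := le_max_left _ _
    have h3 : phi ρ r x y ≤ 1 := max_le zero_le_one (by linarith)
    obtain ⟨h4, h5⟩ := hP.2 y hy
    rw [addF_apply, smulF_apply]
    constructor
    · positivity
    · nlinarith

theorem CC.add {g g' : IFun 𝓜 Y 𝓜.R} {s s' : 𝓜.R} (h : CC S ρ r g s) (h' : CC S ρ r g' s') :
    CC S ρ r (g + g') (s + s') := by
  refine CC.induction (S := S) (ρ := ρ) (r := r)
    (P := fun g' s' => CC S ρ r (g + g') (s + s')) (by fun_prop) ?_ ?_ h'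
  · rw [add_zero, add_zero]
    exact h
  · intro g' s' x c _ hx hc hP
    rw [← add_assoc, ← add_assoc]
    exact hP.step hx hc

theorem CC.smul {g : IFun 𝓜 Y 𝓜.R} {s a : 𝓜.R} (ha : 0 ≤ a) (h : CC S ρ r g s) :
    CC S ρ r (a • g) (a * s) := by
  refine CC.induction (S := S) (ρ := ρ) (r := r)
    (P := fun g s => CC S ρ r (a • g) (a * s)) (by fun_prop) ?_ ?_ h
  · rw [smul_zero, mul_zero]
    exact CC.zero
  · intro g s x c _ hx hc hP
    rw [smul_add, mul_add, smul_smul]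
    exact hP.step hx (mul_nonneg ha hc)

theorem exists_cover (h1 : StNet.{u}) (hr : 0 < r) (hne : ∃ y, S y) (hρ : PM S ρ) (htb : TB S ρ)
    {C : 𝓜.R} (hC : 0 ≤ C) : ∃ g s, CC S ρ r g s ∧ ∀ y, S y → C ≤ g y := by
  obtain ⟨n, e, he, hn⟩ := h1 𝓜 Y S ρ (r / 2) hne (htb (r / 2) (by linarith))
  have key : ∀ n : 𝓜.N, ∃ g s, CC S ρ r g s ∧ ∀ y, S y → (∃ i < n, ρ (y, e i) ≤ r / 2) →
      C ≤ g y := by
    refine ind (P := fun n => ∃ g s, CC S ρ r g s ∧ ∀ y, S y → (∃ i < n, ρ (y, e i) ≤ r / 2) →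
      C ≤ g y) (by simp only [al_iff, imp_iff_not_or]; fun_prop) ?_ ?_
    · refine ⟨0, 0, CC.zero, fun y _ hi => ?_⟩
      obtain ⟨i, hi, -⟩ := hi
      exact absurd (N_nonneg i) (not_le.2 hi)
    · rintro n ⟨g, s, hg, hgy⟩
      refine ⟨_, _, hg.step (he n) (c := 2 * C) (by linarith), fun y hy hi => ?_⟩
      have h2 : 0 ≤ phi ρ r (e n) y := le_max_left _ _
      have h0 := ((hg.bounds hr hρ).2 y hy).1
      rw [addF_apply, smulF_apply]
      obtain ⟨i, hi, hiy⟩ := hi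
      rcases (N_lt_add_one_iff.1 hi).lt_or_eq with h | h
      · have h3 := hgy y hy ⟨i, h, hiy⟩
        have h4 : 0 ≤ 2 * C * phi ρ r (e n) y := by positivity
        linarith
      · subst h
        have h5 : 1 - ρ (e i, y) / r ≤ phi ρ r (e i) y := le_max_right _ _
        rw [hρ.symm _ _ hy (he i)] at hiy
        have h6 : ρ (e i, y) / r ≤ 1 / 2 := by
          rw [div_le_iff₀ hr]
          linarith
        nlinarith
  obtain ⟨g, s, hg, hgy⟩ := key n
  exact ⟨g, s, hg, fun y hy => hgy y hy (hn y hy)⟩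

section cov

variable (h1 : StNet.{u}) (hr : 0 < r) (hne : ∃ y, S y) (hρ : PM S ρ) (htb : TB S ρ)

theorem dfn_cset (F : IFun 𝓜 Y 𝓜.R) :
    𝓜.Dfn (fun t => ∃ g, CC S ρ r g (-t) ∧ ∀ y, S y → F y ≤ g y) := by
  simp only [al_iff, imp_iff_not_or]
  fun_prop

include hr hρ in
theorem cset_bdd (F : IFun 𝓜 Y 𝓜.R) :
    ∃ b, ∀ t, (∃ g, CC S ρ r g (-t) ∧ ∀ y, S y → F y ≤ g y) → t ≤ b := by
  refine ⟨0, ?_⟩
  rintro t ⟨g, hg, -⟩
  have := (hg.bounds hr hρ).1
  linarith

include hr hρ in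
theorem cov_le {F g : IFun 𝓜 Y 𝓜.R} {s : 𝓜.R} (hg : CC S ρ r g s) (hF : ∀ y, S y → F y ≤ g y) :
    cov S ρ r F ≤ s := by
  have h := le_sup (dfn_cset F) (cset_bdd hr hρ F) (x := -s)
    ⟨g, by rw [neg_neg]; exact hg, hF⟩
  unfold cov
  linarith

include h1 hr hne hρ htb in
theorem cset_ne {F : IFun 𝓜 Y 𝓜.R} {C : 𝓜.R} (hF : ∀ y, S y → F y ≤ C) :
    ∃ t, ∃ g, CC S ρ r g (-t) ∧ ∀ y, S y → F y ≤ g y := by
  obtain ⟨g, s, hg, hgy⟩ := exists_cover h1 hr hne hρ htb (C := max 0 C) (le_max_left _ _)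
  exact ⟨-s, g, by rw [neg_neg]; exact hg, fun y hy => (hF y hy).trans
    ((le_max_right _ _).trans (hgy y hy))⟩

include h1 hr hne hρ htb in
theorem le_cov {F : IFun 𝓜 Y 𝓜.R} {C b : 𝓜.R} (hF : ∀ y, S y → F y ≤ C)
    (h : ∀ g s, CC S ρ r g s → (∀ y, S y → F y ≤ g y) → b ≤ s) : b ≤ cov S ρ r F := by
  have h2 := sup_le (dfn_cset F) (cset_ne h1 hr hne hρ htb hF) (b := -b) (by
    rintro t ⟨g, hg, hgy⟩
    have := h g _ hg hgy
    linarith)
  unfold cov
  linarith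

end cov

end CovM

open CovM in
theorem cov (h1 : StNet.{u}) (_h2 : StBdd.{u}) : StCov.{u} := by
  intro 𝓜 Y _
  refine ⟨CovM.cov, dfn_cov, fun S ρ hne hρ htb => ?_⟩
  have bnd : ∀ {F : IFun 𝓜 Y 𝓜.R} {C : 𝓜.R}, BL S ρ C F → ∀ y, S y → F y ≤ C :=
    fun h y hy => (abs_le.1 (h.1 y hy)).2
  have bnd1 : ∀ y, S y → (1 : IFun 𝓜 Y 𝓜.R) y ≤ 1 := fun y _ => le_rfl
  -- positivity
  have pos : ∀ r > 0, ∀ (F : IFun 𝓜 Y 𝓜.R) (C : 𝓜.R), (∀ y, S y → F y ≤ C) →
      0 ≤ CovM.cov S ρ r F := fun r hr F C hF =>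
    le_cov h1 hr hne hρ htb hF fun g s hg _ => (hg.bounds hr hρ).1
  have mono : ∀ r > 0, ∀ (F G : IFun 𝓜 Y 𝓜.R) (C : 𝓜.R), (∀ y, S y → G y ≤ C) →
      (∀ y, S y → F y ≤ G y) → CovM.cov S ρ r F ≤ CovM.cov S ρ r G := fun r hr F G C hG hFG =>
    le_cov h1 hr hne hρ htb hG fun g s hg hgy =>
      cov_le hr hρ hg fun y hy => (hFG y hy).trans (hgy y hy)
  have smul_le : ∀ r > 0, ∀ (F : IFun 𝓜 Y 𝓜.R) (C c : 𝓜.R), (∀ y, S y → F y ≤ C) → 0 < c →
      CovM.cov S ρ r (c • F) ≤ c * CovM.cov S ρ r F := by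
    intro r hr F C c hF hc
    have h : CovM.cov S ρ r (c • F) / c ≤ CovM.cov S ρ r F := by
      refine le_cov h1 hr hne hρ htb hF fun g s hg hgy => ?_
      rw [div_le_iff₀ hc, mul_comm s c]
      refine cov_le hr hρ (hg.smul hc.le) fun y hy => ?_
      rw [smulF_apply, smulF_apply]
      exact mul_le_mul_of_nonneg_left (hgy y hy) hc.le
    rw [div_le_iff₀ hc] at h
    linarith
  have smul_eq : ∀ r > 0, ∀ (F : IFun 𝓜 Y 𝓜.R) (C c : 𝓜.R), (∀ y, S y → F y ≤ C) → 0 ≤ c →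
      CovM.cov S ρ r (c • F) = c * CovM.cov S ρ r F := by
    intro r hr F C c hF hc
    rcases hc.eq_or_lt with h | h
    · subst h
      have hz : ∀ y, S y → ((0 : 𝓜.R) • F) y ≤ 0 := fun y _ => by simp
      have h2 := pos r hr _ _ hz
      have h3 : CovM.cov S ρ r ((0 : 𝓜.R) • F) ≤ 0 :=
        cov_le hr hρ (g := 0) CC.zero fun y hy => by simp
      linarith
    · refine le_antisymm (smul_le r hr F C c hF h) ?_
      have h2 := smul_le r hr (c • F) (c * C) c⁻¹ (fun y hy => by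
        rw [smulF_apply]
        exact mul_le_mul_of_nonneg_left (hF y hy) h.le) (by positivity)
      rw [smul_smul, inv_mul_cancel₀ h.ne', one_smul] at h2
      have h3 : c * CovM.cov S ρ r F ≤ c * (c⁻¹ * CovM.cov S ρ r (c • F)) :=
        mul_le_mul_of_nonneg_left h2 h.le
      rwa [← mul_assoc, mul_inv_cancel₀ h.ne', one_mul] at h3
  have subadd : ∀ r > 0, ∀ (F G : IFun 𝓜 Y 𝓜.R) (C : 𝓜.R), (∀ y, S y → F y ≤ C) →
      (∀ y, S y → G y ≤ C) →
      CovM.cov S ρ r (F + G) ≤ CovM.cov S ρ r F + CovM.cov S ρ r G := by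
    intro r hr F G C hF hG
    have h2 : CovM.cov S ρ r (F + G) - CovM.cov S ρ r G ≤ CovM.cov S ρ r F := by
      refine le_cov h1 hr hne hρ htb hF fun g s hg hgy => ?_
      have h3 : CovM.cov S ρ r (F + G) - s ≤ CovM.cov S ρ r G := by
        refine le_cov h1 hr hne hρ htb hG fun g' s' hg' hgy' => ?_
        have h4 : CovM.cov S ρ r (F + G) ≤ s + s' := cov_le hr hρ (hg.add hg') fun y hy => by
          rw [addF_apply, addF_apply]
          exact add_le_add (hgy y hy) (hgy' y hy)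
        linarith
      linarith
    linarith
  refine ⟨?_, ?_, ?_, ?_, ?_, ?_⟩
  · intro r hr
    obtain ⟨y, hy⟩ := hne
    refine le_cov h1 hr ⟨y, hy⟩ hρ htb bnd1 fun g s hg hgy => ?_
    have h2 : (1 : 𝓜.R) ≤ g y := hgy y hy
    exact h2.trans ((hg.bounds hr hρ).2 y hy).2
  · intro r hr F C hF _
    exact pos r hr F C (bnd hF)
  · intro r hr F G C _ hG _ hFG
    exact mono r hr F G C (bnd hG) hFG
  · intro r hr F C c hF _ hc
    exact smul_eq r hr F C c (bnd hF) hc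
  · intro r hr F G C hF hG _ _
    exact subadd r hr F G C (bnd hF) (bnd hG)
  · intro F G C₀ hF₀ hG₀ hF0 hG0 ε hε
    -- a positive constant
    obtain ⟨C, hC, hFC, hGC⟩ : ∃ C, 0 < C ∧ BL S ρ C F ∧ BL S ρ C G := by
      refine ⟨|C₀| + 1, by positivity, ⟨fun y hy => ?_, fun y z hy hz => ?_⟩,
        ⟨fun y hy => ?_, fun y z hy hz => ?_⟩⟩
      · exact (hF₀.1 y hy).trans ((le_abs_self _).trans (by linarith))
      · have h3 := hρ.nonneg hy hz
        have h4 : C₀ ≤ |C₀| + 1 := (le_abs_self _).trans (by linarith)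
        exact (hF₀.2 y z hy hz).trans (mul_le_mul_of_nonneg_right h4 h3)
      · exact (hG₀.1 y hy).trans ((le_abs_self _).trans (by linarith))
      · have h3 := hρ.nonneg hy hz
        have h4 : C₀ ≤ |C₀| + 1 := (le_abs_self _).trans (by linarith)
        exact (hG₀.2 y z hy hz).trans (mul_le_mul_of_nonneg_right h4 h3)
    set η : 𝓜.R := ε / 2 with hη
    have hη0 : 0 < η := by positivity
    set e' : 𝓜.R := ε / (4 * (2 * C + η)) with he'
    have he0 : 0 < e' := by positivity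
    have hee : e' * (4 * (2 * C + η)) = ε := by
      rw [he']
      field_simp
    set H : IFun 𝓜 Y 𝓜.R := ⟨fun y => F y + G y + η, by fun_prop⟩ with hH
    set p : IFun 𝓜 Y 𝓜.R := ⟨fun y => F y / (F y + G y + η), by fun_prop⟩ with hp
    set q : IFun 𝓜 Y 𝓜.R := ⟨fun y => G y / (F y + G y + η), by fun_prop⟩ with hq
    refine ⟨e' * η / (3 * C), by positivity, fun r hr hr₀ => ?_⟩
    -- the quotients vary slowly
    have vary : ∀ A B : IFun 𝓜 Y 𝓜.R, BL S ρ C A → BL S ρ C B → (∀ y, S y → 0 ≤ A y) →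
        (∀ y, S y → 0 ≤ B y) → ∀ x y, S x → S y → ρ (x, y) ≤ r →
        A y / (A y + B y + η) ≤ A x / (A x + B x + η) + e' := by
      intro A B hA hB hA0 hB0 x y hx hy hxy
      have a1 := hA0 x hx
      have a2 := hA0 y hy
      have b1 := hB0 x hx
      have b2 := hB0 y hy
      have a3 := abs_le.1 (hA.2 x y hx hy)
      have b3 := abs_le.1 (hB.2 x y hx hy)
      have d1 : ρ (x, y) * (3 * C) ≤ e' * η := by
        have := hxy.trans hr₀
        rwa [le_div_iff₀ (by positivity)] at this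
      have hx1 : 0 < A x + B x + η := by positivity
      have hy1 : 0 < A y + B y + η := by positivity
      rw [div_le_iff₀ hy1]
      have e1 : (A x / (A x + B x + η) + e') * (A y + B y + η) =
        (A x * (A y + B y + η) + e' * (A x + B x + η) * (A y + B y + η)) / (A x + B x + η) := by
        field_simp
      rw [e1, le_div_iff₀ hx1]
      -- A y (Ax + Bx + η) ≤ A x (Ay + By + η) + e' Hx Hy
      have c1 : (A y - A x) * (A y + B y + η) ≤ (C * ρ (x, y)) * (A y + B y + η) :=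
        mul_le_mul_of_nonneg_right (by linarith [a3.1]) hy1.le
      have c2 : A y * ((A x + B x + η) - (A y + B y + η)) ≤ A y * (2 * (C * ρ (x, y))) :=
        mul_le_mul_of_nonneg_left (by linarith [a3.2, b3.2]) a2
      have c3 : 0 ≤ C * ρ (x, y) := mul_nonneg hC.le (hρ.nonneg hx hy)
      have c4 : A y * (2 * (C * ρ (x, y))) ≤ (A y + B y + η) * (2 * (C * ρ (x, y))) :=
        mul_le_mul_of_nonneg_right (by linarith) (by linarith)
      have c5 : 3 * (C * ρ (x, y)) * (A y + B y + η) ≤ (e' * (A x + B x + η)) * (A y + B y + η) := by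
        refine mul_le_mul_of_nonneg_right ?_ hy1.le
        have : e' * η ≤ e' * (A x + B x + η) := mul_le_mul_of_nonneg_left (by linarith) he0.le
        linarith
      linarith
    have key : ∀ g s, CC S ρ r g s → ∃ g₁ s₁ g₂ s₂, CC S ρ r g₁ s₁ ∧ CC S ρ r g₂ s₂ ∧
        (∀ y, S y → p y * g y ≤ g₁ y) ∧ (∀ y, S y → q y * g y ≤ g₂ y) ∧
        s₁ + s₂ ≤ (1 + 2 * e') * s := by
      intro g s hgs
      refine CC.induction (S := S) (ρ := ρ) (r := r) (P := fun g s => ∃ g₁ s₁ g₂ s₂,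
        CC S ρ r g₁ s₁ ∧ CC S ρ r g₂ s₂ ∧ (∀ y, S y → p y * g y ≤ g₁ y) ∧
        (∀ y, S y → q y * g y ≤ g₂ y) ∧ s₁ + s₂ ≤ (1 + 2 * e') * s)
        (by simp only [al_iff, imp_iff_not_or]; fun_prop) ?_ ?_ hgs
      · exact ⟨0, 0, 0, 0, CC.zero, CC.zero, fun y _ => by simp, fun y _ => by simp, by simp⟩
      · rintro g s x c _ hx hc ⟨g₁, s₁, g₂, s₂, hg₁, hg₂, hp₁, hq₂, hs⟩
        have px : 0 ≤ p x := div_nonneg (hF0 x hx) (by have := hF0 x hx; have := hG0 x hx; positivity)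
        have qx : 0 ≤ q x := div_nonneg (hG0 x hx) (by have := hF0 x hx; have := hG0 x hx; positivity)
        have pq : p x + q x ≤ 1 := by
          have h3 := hF0 x hx
          have h4 := hG0 x hx
          show F x / (F x + G x + η) + G x / (F x + G x + η) ≤ 1
          rw [← add_div, div_le_one (by positivity)]
          linarith
        refine ⟨_, _, _, _, hg₁.step hx (c := c * (p x + e')) (by positivity),
          hg₂.step hx (c := c * (q x + e')) (by positivity), ?_, ?_, ?_⟩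
        · intro y hy
          rw [addF_apply, smulF_apply, addF_apply, smulF_apply]
          have h5 := hp₁ y hy
          have h6 : 0 ≤ phi ρ r x y := le_max_left _ _
          have h7 : p y * phi ρ r x y ≤ (p x + e') * phi ρ r x y := by
            rcases le_total (ρ (x, y)) r with h | h
            · exact mul_le_mul_of_nonneg_right (vary F G hFC hGC hF0 hG0 x y hx hy h) h6
            · have h8 : phi ρ r x y = 0 := by
                show max 0 (1 - ρ (x, y) / r) = 0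
                refine max_eq_left ?_
                have : 1 ≤ ρ (x, y) / r := by rwa [le_div_iff₀ hr, one_mul]
                linarith
              rw [h8, mul_zero, mul_zero]
          have h9 := mul_le_mul_of_nonneg_left h7 hc
          nlinarith
        · intro y hy
          rw [addF_apply, smulF_apply, addF_apply, smulF_apply]
          have h5 := hq₂ y hy
          have h6 : 0 ≤ phi ρ r x y := le_max_left _ _
          have h7 : q y * phi ρ r x y ≤ (q x + e') * phi ρ r x y := by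
            rcases le_total (ρ (x, y)) r with h | h
            · have h8 := vary G F hGC hFC hG0 hF0 x y hx hy h
              rw [add_comm (G y) (F y), add_comm (G x) (F x)] at h8
              exact mul_le_mul_of_nonneg_right h8 h6
            · have h8 : phi ρ r x y = 0 := by
                show max 0 (1 - ρ (x, y) / r) = 0
                refine max_eq_left ?_
                have : 1 ≤ ρ (x, y) / r := by rwa [le_div_iff₀ hr, one_mul]
                linarith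
              rw [h8, mul_zero, mul_zero]
          have h9 := mul_le_mul_of_nonneg_left h7 hc
          nlinarith
        · have h10 : c * (p x + q x) ≤ c * 1 := mul_le_mul_of_nonneg_left pq hc
          nlinarith
    have main : (CovM.cov S ρ r F + CovM.cov S ρ r G) / (1 + 2 * e') ≤ CovM.cov S ρ r H := by
      refine le_cov h1 hr hne hρ htb (C := 2 * C + η) (fun y hy => ?_) fun g s hg hgy => ?_
      · show F y + G y + η ≤ 2 * C + η
        have := bnd hFC y hy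
        have := bnd hGC y hy
        linarith
      · obtain ⟨g₁, s₁, g₂, s₂, hg₁, hg₂, hp₁, hq₂, hs⟩ := key g s hg
        rw [div_le_iff₀ (by positivity)]
        have k1 : CovM.cov S ρ r F ≤ s₁ := cov_le hr hρ hg₁ fun y hy => by
          have h3 := hF0 y hy
          have h4 := hG0 y hy
          have h5 : F y + G y + η ≤ g y := hgy y hy
          have h6 : p y * (F y + G y + η) ≤ p y * g y :=
            mul_le_mul_of_nonneg_left h5 (div_nonneg h3 (by positivity))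
          have h7 : p y * (F y + G y + η) = F y := by
            show F y / (F y + G y + η) * (F y + G y + η) = F y
            field_simp
          have h8 := hp₁ y hy
          linarith
        have k2 : CovM.cov S ρ r G ≤ s₂ := cov_le hr hρ hg₂ fun y hy => by
          have h3 := hF0 y hy
          have h4 := hG0 y hy
          have h5 : F y + G y + η ≤ g y := hgy y hy
          have h6 : q y * (F y + G y + η) ≤ q y * g y :=
            mul_le_mul_of_nonneg_left h5 (div_nonneg h4 (by positivity))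
          have h7 : q y * (F y + G y + η) = G y := by
            show G y / (F y + G y + η) * (F y + G y + η) = G y
            field_simp
          have h8 := hq₂ y hy
          linarith
        nlinarith
    rw [div_le_iff₀ (by positivity)] at main
    have hFG : ∀ y, S y → (F + G) y ≤ 2 * C + η := fun y hy => by
      rw [addF_apply]
      have := bnd hFC y hy
      have := bnd hGC y hy
      linarith
    have m1 : CovM.cov S ρ r H ≤ CovM.cov S ρ r (F + G) + η * CovM.cov S ρ r 1 := by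
      have e1 : H = (F + G) + η • (1 : IFun 𝓜 Y 𝓜.R) := by
        ext y
        show F y + G y + η = F y + G y + η * 1
        ring
      rw [e1, ← smul_eq r hr 1 1 η bnd1 hη0.le]
      exact subadd r hr _ _ (2 * C + η) hFG fun y _ => by
        rw [smulF_apply, oneF_apply]
        linarith
    have m2 : CovM.cov S ρ r H ≤ (2 * C + η) * CovM.cov S ρ r 1 := by
      rw [← smul_eq r hr 1 1 (2 * C + η) bnd1 (by positivity)]
      refine mono r hr _ _ (2 * C + η) (fun y _ => by rw [smulF_apply, oneF_apply, mul_one]) ?_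
      intro y hy
      show F y + G y + η ≤ (2 * C + η) * 1
      have := bnd hFC y hy
      have := bnd hGC y hy
      linarith
    have m3 : 2 * e' * CovM.cov S ρ r H ≤ 2 * e' * ((2 * C + η) * CovM.cov S ρ r 1) :=
      mul_le_mul_of_nonneg_left m2 (by positivity)
    have m4 : 2 * e' * ((2 * C + η) * CovM.cov S ρ r 1) = (ε / 2) * CovM.cov S ρ r 1 := by
      rw [← hee]
      ring
    have m5 : η * CovM.cov S ρ r 1 = (ε / 2) * CovM.cov S ρ r 1 := by rw [hη]
    nlinarith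

end Ctx

end Pool.Agent.Lib.MP_c7a422_lc.Z
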