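import Mathlib

/-!
# Compact metrizable and totally bounded metric spaces in models of ZF

A model is a type `M` with a binary relation `E`.  All notions below are the notions of the model:
the sets, functions, orders, covers and families that are considered are elements of `M`.
Nothing is assumed about `M` beyond the axioms of ZF (the natural numbers of the model may be
nonstandard).
-/

namespace Pool.Agent.Lib.MP_c7a422_lc.Z

universe u

/-- Formulas of the language of set theory with free variables `0, ..., n-1`.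
The quantifier binds a new variable which is put in front (index `0`). -/
inductive Fml : ℕ → Type
  | mem {n : ℕ} (i j : Fin n) : Fml n
  | eq {n : ℕ} (i j : Fin n) : Fml n
  | bot {n : ℕ} : Fml n
  | imp {n : ℕ} (φ ψ : Fml n) : Fml n
  | all {n : ℕ} (φ : Fml (n + 1)) : Fml n

/-- Satisfaction of a formula in the structure `(M, E)` under the assignment `v`. -/
def Sat {M : Type u} (E : M → M → Prop) : ∀ {n : ℕ}, Fml n → (Fin n → M) → Prop
  | _, .mem i j, v => E (v i) (v j)
  | _, .eq i j, v => v i = v j
  | _, .bot, _ => False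
  | _, .imp φ ψ, v => Sat E φ v → Sat E ψ v
  | _, .all φ, v => ∀ x, Sat E φ (Fin.cons x v)

/-- `(M, E)` is a model of ZF. -/
structure IsZF {M : Type u} (E : M → M → Prop) : Prop where
  /-- Extensionality -/
  ext : ∀ x y, (∀ z, E z x ↔ E z y) → x = y
  /-- Foundation -/
  found : ∀ x, (∃ y, E y x) → ∃ y, E y x ∧ ∀ z, E z y → ¬ E z x
  /-- Pairing -/
  pair : ∀ x y, ∃ p, ∀ z, E z p ↔ z = x ∨ z = y
  /-- Union -/
  union : ∀ x, ∃ w, ∀ z, E z w ↔ ∃ y, E y x ∧ E z y
  /-- Power set -/
  power : ∀ x, ∃ p, ∀ z, E z p ↔ ∀ y, E y z → E y x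
  /-- Infinity -/
  infinity : ∃ w, (∃ e, E e w ∧ ∀ z, ¬ E z e) ∧
    ∀ x, E x w → ∃ y, E y w ∧ ∀ z, E z y ↔ E z x ∨ z = x
  /-- Separation -/
  sep : ∀ (n : ℕ) (φ : Fml (n + 1)) (p : Fin n → M) (x : M),
    ∃ y, ∀ z, E z y ↔ E z x ∧ Sat E φ (Fin.cons z p)
  /-- Replacement -/
  repl : ∀ (n : ℕ) (φ : Fml (n + 2)) (p : Fin n → M) (x : M),
    (∀ y, E y x → ∃! z, Sat E φ (Fin.cons z (Fin.cons y p))) →
    ∃ w, ∀ z, E z w ↔ ∃ y, E y x ∧ Sat E φ (Fin.cons z (Fin.cons y p))

variable {M : Type u} (E : M → M → Prop)

/-- `p` is the ordered pair `(x, y) = {{x}, {x, y}}`. -/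
def IsPair (p x y : M) : Prop :=
  ∀ z, E z p ↔ (∀ w, E w z ↔ w = x) ∨ (∀ w, E w z ↔ w = x ∨ w = y)

/-- The elements of the set `a`. -/
abbrev El (a : M) : Type u := {x : M // E x a}

/-- The function `f` on the set `A` belongs to the model: its graph is an element of `M`. -/
def Fun1 {A B : M} (f : El E A → El E B) : Prop :=
  ∃ g, ∀ z, E z g ↔ ∃ x, IsPair E z x.1 (f x).1

/-- The function `f` of two variables belongs to the model: the set of all pairs
`((x, y), f x y)` is an element of `M`. -/
def Fun2 {A B C : M} (f : El E A → El E B → El E C) : Prop :=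
  ∃ g, ∀ z, E z g ↔ ∃ x y q, IsPair E q x.1 y.1 ∧ IsPair E z q (f x y).1

/-- The relation `r` between elements of `A` and `B` belongs to the model. -/
def Rel2 {A B : M} (r : El E A → El E B → Prop) : Prop :=
  ∃ g, ∀ z, E z g ↔ ∃ x y, r x y ∧ IsPair E z x.1 y.1

/-- A complete ordered field of the model (the real numbers of the model are unique up to a unique
isomorphism). The suprema of all nonempty bounded subsets that belong to the model exist. -/
structure Reals where
  /-- the set of real numbers -/
  R : M
  field : Field (El E R)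
  order : LinearOrder (El E R)
  compat : IsStrictOrderedRing (El E R)
  add_mem : Fun2 E (fun x y : El E R => x + y)
  mul_mem : Fun2 E (fun x y : El E R => x * y)
  le_mem : Rel2 E (fun x y : El E R => x ≤ y)
  complete : ∀ s : M, (∃ x : El E R, E x.1 s) → (∃ b : El E R, ∀ x : El E R, E x.1 s → x ≤ b) →
    ∃ l : El E R, IsLUB {x : El E R | E x.1 s} l

attribute [instance] Reals.field Reals.order Reals.compat

variable {E}

/-- `d` is a metric on the set `X` in the model. -/
structure IsMetric (ℛ : Reals E) {X : M} (d : El E X → El E X → El E ℛ.R) : Prop where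
  /-- the function `d` is an element of the model -/
  mem : Fun2 E d
  eq_zero : ∀ x y, d x y = 0 ↔ x = y
  symm : ∀ x y, d x y = d y x
  triangle : ∀ x y z, d x z ≤ d x y + d y z

variable (E)

/-- `n` is a natural number of the model: it belongs to every set that contains the empty set and
is closed under `x ↦ x ∪ {x}`. -/
def IsNat (n : M) : Prop :=
  ∀ w, (∀ e, (∀ z, ¬ E z e) → E e w) →
    (∀ x y, E x w → (∀ z, E z y ↔ E z x ∨ z = x) → E y w) → E n w

/-- The set `F` is finite in the model: some natural number is mapped onto it by a function of the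
model. -/
def IsFinite (F : M) : Prop :=
  ∃ n, IsNat E n ∧ ∃ f : El E n → El E F, Fun1 E f ∧ Function.Surjective f

/-- The set `X` is well-orderable in the model: some relation of the model is a strict linear
order of `X` for which every nonempty subset of `X` in the model has a least element. -/
def WellOrderable (X : M) : Prop :=
  ∃ r : El E X → El E X → Prop, Rel2 E r ∧ (∀ x, ¬ r x x) ∧ (∀ x y z, r x y → r y z → r x z) ∧
    (∀ x y, r x y ∨ x = y ∨ r y x) ∧
    ∀ s : M, (∃ x : El E X, E x.1 s) → ∃ x : El E X, E x.1 s ∧ ∀ y : El E X, E y.1 s → ¬ r y x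

variable {E}

/-- The set `O` is an open subset of `X` for the metric `d`. -/
def IsOpenFor (ℛ : Reals E) {X : M} (d : El E X → El E X → El E ℛ.R) (O : M) : Prop :=
  (∀ x, E x O → E x X) ∧
    ∀ x : El E X, E x.1 O → ∃ ε > 0, ∀ y : El E X, d x y < ε → E y.1 O

/-- The metric space `(X, d)` is totally bounded in the model. -/
def TotallyBounded (ℛ : Reals E) {X : M} (d : El E X → El E X → El E ℛ.R) : Prop :=
  ∀ ε > 0, ∃ F, IsFinite E F ∧ (∀ x, E x F → E x X) ∧
    ∀ x : El E X, ∃ y : El E X, E y.1 F ∧ d x y ≤ ε

variable (E)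

/-- `τ` is a compact metrizable topology on `X` in the model: it is the set of all open sets of
some metric, and every subset of `τ` that covers `X` has a finite subset that covers `X`. -/
def CompactMetrizable (X τ : M) : Prop :=
  (∃ (ℛ : Reals E) (d : El E X → El E X → El E ℛ.R), IsMetric ℛ d ∧
    ∀ O, E O τ ↔ IsOpenFor ℛ d O) ∧
  ∀ V, (∀ O, E O V → E O τ) → (∀ x, E x X → ∃ O, E O V ∧ E x O) →
    ∃ F, IsFinite E F ∧ (∀ O, E O F → E O V) ∧ ∀ x, E x X → ∃ O, E O F ∧ E x O

/-- `M(C, WO)` in the model: the underlying set of every compact metrizable space is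
well-orderable. -/
def MCWO : Prop := ∀ X τ : M, CompactMetrizable E X τ → WellOrderable E X

/-- `M(TB, WO)` in the model: the underlying set of every totally bounded metric space is
well-orderable. -/
def MTBWO : Prop := ∀ (ℛ : Reals E) (X : M) (d : El E X → El E X → El E ℛ.R),
  IsMetric ℛ d → TotallyBounded ℛ d → WellOrderable E X

end Pool.Agent.Lib.MP_c7a422_lc.Z
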