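import Pool.Agent.Lib.MP_c7a422_lc.Z.Spec

/-!
# A totally bounded well-orderable space has a dense sequence
-/

namespace Pool.Agent.Lib.MP_c7a422_lc.Z

universe u

namespace Ctx

/-- A totally bounded well-orderable space has a dense sequence. -/
theorem dense (h1 : StPigeon.{u}) (_h2 : StNet.{u}) : StDense.{u} := by
  intro 𝓜 Y _ S ρ hne hPM hTB hWO
  obtain ⟨y₀, hy₀⟩ := hne
  obtain ⟨r, hr⟩ := hWO
  obtain ⟨σ, hσ⟩ := hr.sel y₀
  -- `bad s y k`: the point `y` shows that `s` is not a `1/(k+1)`-net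
  let bad : ISet 𝓜 Y → Y → 𝓜.N → Prop := fun s y k =>
    S y ∧ ∀ z, s z → 1 / ((k : 𝓜.R) + 1) < ρ (y, z)
  let Q : ISet 𝓜 Y → 𝓜.N → Prop := fun s k => ∃ y, bad s y k
  have dQ : 𝓜.Dfn (fun p : ISet 𝓜 Y × 𝓜.N => Q p.1 p.2) := by
    simp only [Q, bad, al_iff, imp_iff_not_or]
    fun_prop
  -- the set of admissible next points
  let C : ISet 𝓜 Y → Y → Prop := fun s y =>
    S y ∧ ((∃ k, bad s y k ∧ ∀ m, m < k → ¬ Q s m) ∨ ∀ m, ¬ Q s m)
  have dC : 𝓜.Dfn (fun p : ISet 𝓜 Y × Y => C p.1 p.2) := by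
    simp only [C, Q, bad, al_iff, imp_iff_not_or]
    fun_prop
  let pick : ISet 𝓜 Y → Y := fun s => σ ⟨C s, dC.sec s⟩
  have dpick : 𝓜.Dfn pick :=
    Dfn.app (dfn_const σ) (Dfn.lam (fun s => dC.sec s) dC)
  have hpick : ∀ s, C s (pick s) := by
    intro s
    have h : ∃ x, C s x := by
      by_cases hq : ∃ k, Q s k
      · obtain ⟨k, ⟨y, hy⟩, hk'⟩ := exists_least (P := fun k => Q s k) (dQ.sec s) hq
        exact ⟨y, hy.1, Or.inl ⟨k, hy, fun m hm hm' => absurd (hk' m hm') (not_le.2 hm)⟩⟩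
      · push Not at hq
        exact ⟨y₀, hy₀, Or.inr hq⟩
    obtain ⟨x, hx⟩ := h
    exact (hσ ⟨C s, dC.sec s⟩ ⟨x, hx, hx.1⟩).1
  -- the recursion
  let g : IFun 𝓜 (𝓜.N × ISet 𝓜 Y) (ISet 𝓜 Y) :=
    ⟨fun p => ⟨fun z => p.2 z ∨ z = pick p.2, by fun_prop⟩, by fun_prop⟩
  let s : 𝓜.N → ISet 𝓜 Y := fun n => nrec (⟨fun _ => False, by fun_prop⟩ : ISet 𝓜 Y) g n
  have ds : 𝓜.Dfn s := by
    simp only [s]
    fun_prop
  have s0 : ∀ z, ¬ s 0 z := by
    intro z hz
    simp only [s, nrec_zero] at hz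
    exact hz
  have ss : ∀ n z, s (n + 1) z ↔ (s n z ∨ z = pick (s n)) := by
    intro n z
    show (nrec (⟨fun _ => False, by fun_prop⟩ : ISet 𝓜 Y) g (n + 1)) z ↔ _
    rw [nrec_succ]
    exact Iff.rfl
  let D : IFun 𝓜 𝓜.N Y := ⟨fun n => pick (s n), by fun_prop⟩
  have hD : ∀ n, D n = pick (s n) := fun n => rfl
  have hSD : ∀ n, S (D n) := fun n => (hpick (s n)).1
  have hs : ∀ n z, s n z ↔ ∃ m, m < n ∧ z = D m := by
    intro n
    refine ind (P := fun n => ∀ z, s n z ↔ ∃ m, m < n ∧ z = D m)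
      (by simp only [al_iff]; fun_prop) ?_ ?_ n
    · intro z
      constructor
      · intro h
        exact absurd h (s0 z)
      · rintro ⟨m, hm, -⟩
        exact absurd (N_nonneg m) (not_le.2 hm)
    · intro n ih z
      rw [ss, ih z]
      constructor
      · rintro (⟨m, hm, rfl⟩ | rfl)
        · exact ⟨m, N_lt_add_one_iff.2 hm.le, rfl⟩
        · exact ⟨n, N_lt_add_one_iff.2 le_rfl, rfl⟩
      · rintro ⟨m, hm, rfl⟩
        rcases (N_lt_add_one_iff.1 hm).lt_or_eq with h | rfl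
        · exact Or.inl ⟨m, h, rfl⟩
        · exact Or.inr rfl
  have hmono : ∀ n n' m, n ≤ n' → ¬ Q (s n) m → ¬ Q (s n') m := by
    rintro n n' m hn hq ⟨y, hy, hy'⟩
    refine hq ⟨y, hy, fun z hz => hy' z ?_⟩
    obtain ⟨i, hi, rfl⟩ := (hs n z).1 hz
    exact (hs n' _).2 ⟨i, lt_of_lt_of_le hi hn, rfl⟩
  -- every scale is reached
  have key : ∀ k : 𝓜.N, ∃ n, ∀ m, m < k → ¬ Q (s n) m := by
    intro k
    refine ind (P := fun k => ∃ n, ∀ m, m < k → ¬ Q (s n) m) ?_ ?_ ?_ k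
    · have : 𝓜.Dfn (fun p : (𝓜.N × 𝓜.N) × 𝓜.N => Q (s p.1.2) p.2) :=
        dfn_comp (g := fun p : ISet 𝓜 Y × 𝓜.N => Q p.1 p.2)
          (f := fun p : (𝓜.N × 𝓜.N) × 𝓜.N => (s p.1.2, p.2)) dQ (by fun_prop)
      simp only [al_iff, imp_iff_not_or]
      fun_prop
    · exact ⟨0, fun m hm => absurd (N_nonneg m) (not_le.2 hm)⟩
    · rintro k ⟨n, hn⟩
      by_contra hcon
      push Not at hcon
      -- all later points are far away from the earlier ones
      have hQ : ∀ n', n ≤ n' → Q (s n') k := by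
        intro n' hn'
        obtain ⟨m, hm, hm'⟩ := hcon n'
        rcases (N_lt_add_one_iff.1 hm).lt_or_eq with h | rfl
        · exact absurd hm' (hmono n n' m hn' (hn m h))
        · exact hm'
      have hfar : ∀ n', n ≤ n' → ∀ i, i < n' → 1 / ((k : 𝓜.R) + 1) < ρ (D n', D i) := by
        intro n' hn' i hi
        have hq := hQ n' hn'
        rcases (hpick (s n')).2 with ⟨k', hb, hk'⟩ | h
        · have e : k' = k := by
            refine le_antisymm ?_ ?_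
            · by_contra hlt
              exact hk' k (not_le.1 hlt) hq
            · by_contra hlt
              exact hmono n n' k' hn' (hn k' (not_le.1 hlt)) ⟨_, hb⟩
          subst e
          exact hb.2 (D i) ((hs n' _).2 ⟨i, hi, rfl⟩)
        · exact absurd hq (h k)
      have hpos : (0 : 𝓜.R) < 1 / ((k : 𝓜.R) + 1) := by
        have := toR_nonneg k
        positivity
      obtain ⟨M, c, hcM, hc⟩ := hTB _ hpos
      obtain ⟨i, j, hij, -, hcij⟩ := h1 𝓜 M ⟨fun i => c (D (n + i)), by fun_prop⟩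
        (fun i _ => hcM _ (hSD _))
      have h2 : ρ (D (n + j), D (n + i)) ≤ 1 / ((k : 𝓜.R) + 1) :=
        hc _ _ (hSD _) (hSD _) hcij.symm
      have h3 := hfar (n + j) (le_add_of_nonneg_right (N_nonneg j)) (n + i)
        (by
          have : (i : 𝓜.R) < j := toR_lt.2 hij
          rw [← toR_lt]
          push_cast
          linarith)
      exact absurd h3 (not_lt.2 h2)
  refine ⟨D, hSD, fun y hy ε hε => ?_⟩
  obtain ⟨k, hk⟩ := exists_one_div_lt hε
  obtain ⟨n, hn⟩ := key (k + 1)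
  have hq := hn k (N_lt_add_one_iff.2 le_rfl)
  by_contra hcon
  push Not at hcon
  refine hq ⟨y, hy, fun z hz => ?_⟩
  obtain ⟨m, -, rfl⟩ := (hs n z).1 hz
  exact hk.trans (hcon m)

end Ctx

end Pool.Agent.Lib.MP_c7a422_lc.Z
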