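import Pool.Agent.Lib.MP_c7a422_lc.Z.Spec

/-!
# Fubini: the operator `T` is symmetric

The kernel `d` is a uniform limit of degenerate kernels.
-/

namespace Pool.Agent.Lib.MP_c7a422_lc.Z

universe u

namespace FubAux

open Ctx

variable {𝓜 : Ctx.{u}} {X : Type u} [Rep 𝓜 X]

section lip

variable {d : IFun 𝓜 (X × X) 𝓜.R} {f g : IFun 𝓜 X 𝓜.R} {C C' : 𝓜.R}

theorem d_nonneg (P : SP 𝓜 X) (x y : X) : 0 ≤ P.d (x, y) :=
  P.met.toPM.nonneg trivial trivial

theorem lip_mono (P : SP 𝓜 X) (h : Lip P.d C f) (hC : C ≤ C') : Lip P.d C' f :=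
  ⟨fun y => (h.1 y).trans hC, fun y z => (h.2 y z).trans
    (mul_le_mul_of_nonneg_right hC (d_nonneg P y z))⟩

theorem lip_nonneg (P : SP 𝓜 X) (h : Lip P.d C f) : 0 ≤ C := by
  obtain ⟨x⟩ := P.ne
  exact (abs_nonneg _).trans (h.1 x)

theorem lip_add (h : Lip d C f) (h' : Lip d C' g) : Lip d (C + C') (f + g) := by
  refine ⟨fun y => ?_, fun y z => ?_⟩
  · rw [addF_apply]
    exact (abs_add_le _ _).trans (add_le_add (h.1 y) (h'.1 y))
  · rw [addF_apply, addF_apply]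
    have e : f y + g y - (f z + g z) = (f y - f z) + (g y - g z) := by ring
    rw [e, add_mul]
    exact (abs_add_le _ _).trans (add_le_add (h.2 y z) (h'.2 y z))

theorem lip_smul (c : 𝓜.R) (h : Lip d C f) : Lip d (|c| * C) (c • f) := by
  refine ⟨fun y => ?_, fun y z => ?_⟩
  · rw [smulF_apply, abs_mul]
    exact mul_le_mul_of_nonneg_left (h.1 y) (abs_nonneg _)
  · rw [smulF_apply, smulF_apply, ← mul_sub, abs_mul, mul_assoc]
    exact mul_le_mul_of_nonneg_left (h.2 y z) (abs_nonneg _)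

theorem lip_mul (P : SP 𝓜 X) (h : Lip P.d C f) (h' : Lip P.d C' g) :
    Lip P.d (2 * (C * C') + C * C') (f * g) := by
  have h0 := lip_nonneg P h
  have h0' := lip_nonneg P h'
  have hp : 0 ≤ C * C' := mul_nonneg h0 h0'
  refine ⟨fun y => ?_, fun y z => ?_⟩
  · rw [mulF_apply, abs_mul]
    have h1 := mul_le_mul (h.1 y) (h'.1 y) (abs_nonneg _) h0
    linarith
  · rw [mulF_apply, mulF_apply]
    have e : f y * g y - f z * g z = f y * (g y - g z) + g z * (f y - f z) := by ring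
    rw [e]
    have h1 : |f y * (g y - g z)| ≤ C * (C' * P.d (y, z)) := by
      rw [abs_mul]
      exact mul_le_mul (h.1 y) (h'.2 y z) (abs_nonneg _) h0
    have h2 : |g z * (f y - f z)| ≤ C' * (C * P.d (y, z)) := by
      rw [abs_mul]
      exact mul_le_mul (h'.1 z) (h.2 y z) (abs_nonneg _) h0'
    have h3 : 0 ≤ C * C' * P.d (y, z) := mul_nonneg hp (d_nonneg P y z)
    refine (abs_add_le _ _).trans ?_
    nlinarith

end lip

section mu

variable (P : SP 𝓜 X) {f g : IFun 𝓜 X 𝓜.R}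

theorem L_one : P.L 1 := by
  refine ⟨1, fun y => ?_, fun y z => ?_⟩
  · rw [oneF_apply, abs_one]
  · rw [oneF_apply, oneF_apply, sub_self, abs_zero, one_mul]
    exact d_nonneg P y z

variable {P}

theorem L_add (hf : P.L f) (hg : P.L g) : P.L (f + g) := by
  obtain ⟨C, hC⟩ := hf
  obtain ⟨C', hC'⟩ := hg
  exact ⟨_, lip_add hC hC'⟩

theorem L_mul (hf : P.L f) (hg : P.L g) : P.L (f * g) := by
  obtain ⟨C, hC⟩ := hf
  obtain ⟨C', hC'⟩ := hg
  exact ⟨_, lip_mul P hC hC'⟩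

theorem L_smul (c : 𝓜.R) (hf : P.L f) : P.L (c • f) := by
  obtain ⟨C, hC⟩ := hf
  exact ⟨_, lip_smul c hC⟩

theorem L_sub (hf : P.L f) (hg : P.L g) : P.L (f - g) := by
  have e : f - g = f + (-1 : 𝓜.R) • g := by
    ext x
    rw [subF_apply, addF_apply, smulF_apply]
    ring
  rw [e]
  exact L_add hf (L_smul _ hg)

theorem common (hf : P.L f) (hg : P.L g) : ∃ C, Lip P.d C f ∧ Lip P.d C g := by
  obtain ⟨C, hC⟩ := hf
  obtain ⟨C', hC'⟩ := hg
  exact ⟨max C C', lip_mono P hC (le_max_left _ _), lip_mono P hC' (le_max_right _ _)⟩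

theorem mu_add (hf : P.L f) (hg : P.L g) : P.mu (f + g) = P.mu f + P.mu g := by
  obtain ⟨C, h1, h2⟩ := common hf hg
  exact P.add f g C h1 h2

theorem mu_smul (c : 𝓜.R) (hf : P.L f) : P.mu (c • f) = c * P.mu f := by
  obtain ⟨C, hC⟩ := hf
  exact P.smul c f C hC

theorem mu_mono (hf : P.L f) (hg : P.L g) (h : ∀ x, f x ≤ g x) : P.mu f ≤ P.mu g := by
  obtain ⟨C, h1, h2⟩ := common hf hg
  exact P.mono f g C h1 h2 h

theorem mu_sub (hf : P.L f) (hg : P.L g) : P.mu (f - g) = P.mu f - P.mu g := by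
  have e : f - g = f + (-1 : 𝓜.R) • g := by
    ext x
    rw [subF_apply, addF_apply, smulF_apply]
    ring
  rw [e, mu_add hf (L_smul _ hg), mu_smul _ hg]
  ring

theorem mu_le {c : 𝓜.R} (hc : 0 ≤ c) (hf : P.L f) (h : ∀ x, f x ≤ c) : P.mu f ≤ c := by
  have h1 := mu_mono hf (L_smul c (L_one P)) (fun x => by
    rw [smulF_apply, oneF_apply, mul_one]; exact h x)
  rw [mu_smul c (L_one P)] at h1
  have h2 := P.one_le
  nlinarith

theorem abs_mu_le {c : 𝓜.R} (hf : P.L f) (h : ∀ x, |f x| ≤ c) : |P.mu f| ≤ c := by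
  have hc : 0 ≤ c := by
    obtain ⟨x⟩ := P.ne
    exact (abs_nonneg _).trans (h x)
  rw [abs_le]
  constructor
  · have h1 := mu_le hc (L_smul (-1) hf) (fun x => by
      rw [smulF_apply]
      have := (abs_le.1 (h x)).1
      linarith)
    rw [mu_smul _ hf] at h1
    linarith
  · exact mu_le hc hf fun x => (abs_le.1 (h x)).2

theorem abs_mu_sub_le {c : 𝓜.R} (hf : P.L f) (hg : P.L g) (h : ∀ x, |f x - g x| ≤ c) :
    |P.mu f - P.mu g| ≤ c := by
  rw [← mu_sub hf hg]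
  exact abs_mu_le (L_sub hf hg) fun x => by rw [subF_apply]; exact h x

end mu

/-! ### Kernels -/

section ker

variable (P : SP 𝓜 X)

/-- `k` is bounded by `C` and `C`-Lipschitz in each variable. -/
def KB (C : 𝓜.R) (k : IFun 𝓜 (X × X) 𝓜.R) : Prop :=
  (∀ x y, |k (x, y)| ≤ C) ∧ (∀ x x' y, |k (x, y) - k (x', y)| ≤ C * P.d (x, x')) ∧
    ∀ x y y', |k (x, y) - k (x, y')| ≤ C * P.d (y, y')

/-- `y ↦ k (x, y) * g y` -/
noncomputable def row (k : IFun 𝓜 (X × X) 𝓜.R) (g : IFun 𝓜 X 𝓜.R) (x : X) : IFun 𝓜 X 𝓜.R :=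
  ⟨fun y => k (x, y) * g y, by fun_prop⟩

/-- `x ↦ k (x, y) * f x` -/
noncomputable def col (k : IFun 𝓜 (X × X) 𝓜.R) (f : IFun 𝓜 X 𝓜.R) (y : X) : IFun 𝓜 X 𝓜.R :=
  ⟨fun x => k (x, y) * f x, by fun_prop⟩

@[fun_prop]
theorem dfn_row {γ : Type*} [Rep 𝓜 γ] {k : γ → IFun 𝓜 (X × X) 𝓜.R} {g : γ → IFun 𝓜 X 𝓜.R}
    {x : γ → X} (hk : 𝓜.Dfn k) (hg : 𝓜.Dfn g) (hx : 𝓜.Dfn x) :
    𝓜.Dfn (fun c => row (k c) (g c) (x c)) := by
  unfold row
  fun_prop

@[fun_prop]
theorem dfn_col {γ : Type*} [Rep 𝓜 γ] {k : γ → IFun 𝓜 (X × X) 𝓜.R} {g : γ → IFun 𝓜 X 𝓜.R}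
    {x : γ → X} (hk : 𝓜.Dfn k) (hg : 𝓜.Dfn g) (hx : 𝓜.Dfn x) :
    𝓜.Dfn (fun c => col (k c) (g c) (x c)) := by
  unfold col
  fun_prop

/-- integration in the second variable -/
noncomputable def mr (k : IFun 𝓜 (X × X) 𝓜.R) (g : IFun 𝓜 X 𝓜.R) : IFun 𝓜 X 𝓜.R :=
  ⟨fun x => P.mu (row k g x), by fun_prop⟩

/-- integration in the first variable -/
noncomputable def mc (k : IFun 𝓜 (X × X) 𝓜.R) (f : IFun 𝓜 X 𝓜.R) : IFun 𝓜 X 𝓜.R :=
  ⟨fun y => P.mu (col k f y), by fun_prop⟩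

@[fun_prop]
theorem dfn_mr {γ : Type*} [Rep 𝓜 γ] {k : γ → IFun 𝓜 (X × X) 𝓜.R} {g : γ → IFun 𝓜 X 𝓜.R}
    (hk : 𝓜.Dfn k) (hg : 𝓜.Dfn g) : 𝓜.Dfn (fun c => mr P (k c) (g c)) := by
  unfold mr
  fun_prop

@[fun_prop]
theorem dfn_mc {γ : Type*} [Rep 𝓜 γ] {k : γ → IFun 𝓜 (X × X) 𝓜.R} {g : γ → IFun 𝓜 X 𝓜.R}
    (hk : 𝓜.Dfn k) (hg : 𝓜.Dfn g) : 𝓜.Dfn (fun c => mc P (k c) (g c)) := by
  unfold mc
  fun_prop

@[fun_prop]
theorem dfn_KB {γ : Type*} [Rep 𝓜 γ] {k : γ → IFun 𝓜 (X × X) 𝓜.R} {C : γ → 𝓜.R}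
    (hk : 𝓜.Dfn k) (hC : 𝓜.Dfn C) : 𝓜.Dfn (fun c => KB P (C c) (k c)) := by
  unfold KB
  simp only [al_iff]
  fun_prop

/-- Fubini for the kernel `k` -/
def Good (k : IFun 𝓜 (X × X) 𝓜.R) : Prop :=
  ∀ f g, P.L f → P.L g → P.mu (f * mr P k g) = P.mu (g * mc P k f)

@[fun_prop]
theorem dfn_Good {γ : Type*} [Rep 𝓜 γ] {k : γ → IFun 𝓜 (X × X) 𝓜.R}
    (hk : 𝓜.Dfn k) : 𝓜.Dfn (fun c => Good P (k c)) := by
  unfold Good
  simp only [al_iff, imp_iff_not_or]
  fun_prop

end ker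

section facts

variable {P : SP 𝓜 X} {k k' : IFun 𝓜 (X × X) 𝓜.R} {f g : IFun 𝓜 X 𝓜.R} {C C' c : 𝓜.R}

/-- the transposed kernel -/
noncomputable def kt (k : IFun 𝓜 (X × X) 𝓜.R) : IFun 𝓜 (X × X) 𝓜.R :=
  ⟨fun p => k (p.2, p.1), by fun_prop⟩

theorem mc_eq (k : IFun 𝓜 (X × X) 𝓜.R) (f : IFun 𝓜 X 𝓜.R) : mc P k f = mr P (kt k) f := rfl

theorem KB.kt (h : KB P C k) : KB P C (kt k) :=
  ⟨fun x y => h.1 y x, fun x x' y => h.2.2 y x x', fun x y y' => h.2.1 y y' x⟩

theorem KB.L_row (h : KB P C k) (hg : P.L g) (x : X) : P.L (row k g x) := by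
  have h1 : P.L (⟨fun y => k (x, y), by fun_prop⟩ : IFun 𝓜 X 𝓜.R) :=
    ⟨C, fun y => h.1 x y, fun y z => h.2.2 x y z⟩
  exact L_mul h1 hg

theorem mr_apply (k : IFun 𝓜 (X × X) 𝓜.R) (g : IFun 𝓜 X 𝓜.R) (x : X) :
    mr P k g x = P.mu (row k g x) := rfl

theorem row_apply (k : IFun 𝓜 (X × X) 𝓜.R) (g : IFun 𝓜 X 𝓜.R) (x y : X) :
    row k g x y = k (x, y) * g y := rfl

theorem KB.lip_mr (h : KB P C k) (hg : Lip P.d C' g) : Lip P.d (C * C') (mr P k g) := by
  have hL : P.L g := ⟨C', hg⟩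
  have h0' := lip_nonneg P hg
  have h0 : 0 ≤ C := by
    obtain ⟨x⟩ := P.ne
    exact (abs_nonneg _).trans (h.1 x x)
  refine ⟨fun x => ?_, fun x x' => ?_⟩
  · rw [mr_apply]
    refine abs_mu_le (h.L_row hL x) fun y => ?_
    rw [row_apply, abs_mul]
    exact mul_le_mul (h.1 x y) (hg.1 y) (abs_nonneg _) h0
  · rw [mr_apply, mr_apply]
    refine abs_mu_sub_le (h.L_row hL x) (h.L_row hL x') fun y => ?_
    rw [row_apply, row_apply, ← sub_mul, abs_mul]
    have h1 := h.2.1 x x' y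
    have h2 := hg.1 y
    have h3 : 0 ≤ C * P.d (x, x') := mul_nonneg h0 (d_nonneg P x x')
    calc |k (x, y) - k (x', y)| * |g y| ≤ C * P.d (x, x') * C' :=
          mul_le_mul h1 h2 (abs_nonneg _) h3
      _ = C * C' * P.d (x, x') := by ring

theorem KB.L_mr (h : KB P C k) (hg : P.L g) : P.L (mr P k g) := by
  obtain ⟨C', hC'⟩ := hg
  exact ⟨_, h.lip_mr hC'⟩

theorem mr_close (h : KB P C k) (h' : KB P C' k') (hg : P.L g) {B : 𝓜.R} (hB : ∀ y, |g y| ≤ B)
    (hc : ∀ x y, |k (x, y) - k' (x, y)| ≤ c) (x : X) :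
    |mr P k g x - mr P k' g x| ≤ c * B := by
  rw [mr_apply, mr_apply]
  refine abs_mu_sub_le (h.L_row hg x) (h'.L_row hg x) fun y => ?_
  rw [row_apply, row_apply, ← sub_mul, abs_mul]
  exact mul_le_mul (hc x y) (hB y) (abs_nonneg _) ((abs_nonneg _).trans (hc x y))

/-- both sides of Fubini are continuous in the kernel -/
theorem side_close (h : KB P C k) (h' : KB P C' k') (hf : P.L f) (hg : P.L g) {A B : 𝓜.R}
    (hA : ∀ y, |f y| ≤ A) (hB : ∀ y, |g y| ≤ B)
    (hc : ∀ x y, |k (x, y) - k' (x, y)| ≤ c) :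
    |P.mu (f * mr P k g) - P.mu (f * mr P k' g)| ≤ A * (c * B) := by
  refine abs_mu_sub_le (L_mul hf (h.L_mr hg)) (L_mul hf (h'.L_mr hg)) fun x => ?_
  rw [mulF_apply, mulF_apply, ← mul_sub, abs_mul]
  exact mul_le_mul (hA x) (mr_close h h' hg hB hc x) (abs_nonneg _) ((abs_nonneg _).trans (hA x))

theorem zero_KB : KB P 0 (0 : IFun 𝓜 (X × X) 𝓜.R) := by
  refine ⟨fun x y => ?_, fun x x' y => ?_, fun x y y' => ?_⟩ <;> simp

theorem zero_Good : Good P (0 : IFun 𝓜 (X × X) 𝓜.R) := by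
  intro f g hf hg
  have key : ∀ g : IFun 𝓜 X 𝓜.R, P.L g → mr P 0 g = 0 := by
    intro g hg
    ext x
    rw [mr_apply]
    have e : row 0 g x = (0 : 𝓜.R) • g := by
      ext y
      rw [row_apply, zeroF_apply, smulF_apply]
    rw [e, mu_smul _ hg, zero_mul, zeroF_apply]
  have e2 : kt (0 : IFun 𝓜 (X × X) 𝓜.R) = 0 := by
    ext p
    rfl
  rw [mc_eq, e2, key g hg, key f hf, mul_zero, mul_zero]

/-- the new kernel -/
noncomputable def upd (k : IFun 𝓜 (X × X) 𝓜.R) (th a : IFun 𝓜 X 𝓜.R) : IFun 𝓜 (X × X) 𝓜.R :=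
  ⟨fun p => (1 - th p.1) * k p + th p.1 * a p.2, by fun_prop⟩

theorem upd_apply (k : IFun 𝓜 (X × X) 𝓜.R) (th a : IFun 𝓜 X 𝓜.R) (x y : X) :
    upd k th a (x, y) = (1 - th x) * k (x, y) + th x * a y := rfl

theorem upd_KB (h : KB P C k) {th a : IFun 𝓜 X 𝓜.R} {A B : 𝓜.R} (hth : Lip P.d A th)
    (ha : Lip P.d B a) : ∃ C', KB P C' (upd k th a) := by
  have hA := lip_nonneg P hth
  have hB := lip_nonneg P ha
  have h0 : 0 ≤ C := by
    obtain ⟨x⟩ := P.ne
    exact (abs_nonneg _).trans (h.1 x x)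
  have hth1 : ∀ x, |1 - th x| ≤ 1 + A := fun x => by
    have := abs_le.1 (hth.1 x)
    rw [abs_le]
    constructor <;> linarith [this.1, this.2]
  have hAC : 0 ≤ A * C := mul_nonneg hA h0
  have hAB : 0 ≤ A * B := mul_nonneg hA hB
  refine ⟨(1 + A) * C + A * B + A * C, fun x y => ?_, fun x x' y => ?_, fun x y y' => ?_⟩
  · rw [upd_apply]
    have h1 : |(1 - th x) * k (x, y)| ≤ (1 + A) * C := by
      rw [abs_mul]
      exact mul_le_mul (hth1 x) (h.1 x y) (abs_nonneg _) (by linarith)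
    have h2 : |th x * a y| ≤ A * B := by
      rw [abs_mul]
      exact mul_le_mul (hth.1 x) (ha.1 y) (abs_nonneg _) hA
    refine (abs_add_le _ _).trans ?_
    linarith
  · rw [upd_apply, upd_apply]
    have e : (1 - th x) * k (x, y) + th x * a y - ((1 - th x') * k (x', y) + th x' * a y) =
        (1 - th x) * (k (x, y) - k (x', y)) + ((th x - th x') * a y +
          (-(k (x', y))) * (th x - th x')) := by ring
    rw [e]
    have h1 : |(1 - th x) * (k (x, y) - k (x', y))| ≤ (1 + A) * (C * P.d (x, x')) := by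
      rw [abs_mul]
      exact mul_le_mul (hth1 x) (h.2.1 x x' y) (abs_nonneg _) (by linarith)
    have h2 : |(th x - th x') * a y| ≤ A * P.d (x, x') * B := by
      rw [abs_mul]
      exact mul_le_mul (hth.2 x x') (ha.1 y) (abs_nonneg _) (mul_nonneg hA (d_nonneg P x x'))
    have h3 : |(-(k (x', y))) * (th x - th x')| ≤ C * (A * P.d (x, x')) := by
      rw [abs_mul, abs_neg]
      exact mul_le_mul (h.1 x' y) (hth.2 x x') (abs_nonneg _) h0
    refine (abs_add_le _ _).trans ?_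
    refine (add_le_add h1 ((abs_add_le _ _).trans (add_le_add h2 h3))).trans (le_of_eq ?_)
    ring
  · rw [upd_apply, upd_apply]
    have e : (1 - th x) * k (x, y) + th x * a y - ((1 - th x) * k (x, y') + th x * a y') =
        (1 - th x) * (k (x, y) - k (x, y')) + th x * (a y - a y') := by ring
    rw [e]
    have h1 : |(1 - th x) * (k (x, y) - k (x, y'))| ≤ (1 + A) * (C * P.d (y, y')) := by
      rw [abs_mul]
      exact mul_le_mul (hth1 x) (h.2.2 x y y') (abs_nonneg _) (by linarith)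
    have h2 : |th x * (a y - a y')| ≤ A * (B * P.d (y, y')) := by
      rw [abs_mul]
      exact mul_le_mul (hth.1 x) (ha.2 y y') (abs_nonneg _) hA
    refine (abs_add_le _ _).trans ((add_le_add h1 h2).trans ?_)
    have h3 : 0 ≤ A * C * P.d (y, y') := mul_nonneg hAC (d_nonneg P y y')
    nlinarith

theorem upd_Good (h : KB P C k) (hG : Good P k) {th a : IFun 𝓜 X 𝓜.R} (hth : P.L th)
    (ha : P.L a) : Good P (upd k th a) := by
  intro f g hf hg
  have h1f : P.L (1 - th) := L_sub (L_one P) hth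
  have hf' : P.L (f * (1 - th)) := L_mul hf h1f
  have hfth : P.L (f * th) := L_mul hf hth
  -- left side
  have hrow : ∀ x, mr P (upd k th a) g x = (1 - th x) * mr P k g x + th x * P.mu (a * g) := by
    intro x
    rw [mr_apply]
    have e : row (upd k th a) g x = (1 - th x) • row k g x + (th x) • (a * g) := by
      ext y
      rw [row_apply, upd_apply, addF_apply, smulF_apply, smulF_apply, row_apply, mulF_apply]
      ring
    rw [e, mu_add (L_smul _ (h.L_row hg x)) (L_smul _ (L_mul ha hg)), mu_smul _ (h.L_row hg x),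
      mu_smul _ (L_mul ha hg), mr_apply]
  have hl : f * mr P (upd k th a) g = f * (1 - th) * mr P k g + P.mu (a * g) • (f * th) := by
    ext x
    rw [mulF_apply, hrow, addF_apply, mulF_apply, mulF_apply, subF_apply, oneF_apply, smulF_apply,
      mulF_apply]
    ring
  have hcol : ∀ y, mc P (upd k th a) f y = mc P k (f * (1 - th)) y + a y * P.mu (f * th) := by
    intro y
    rw [mc_eq, mc_eq, mr_apply, mr_apply]
    have e : row (kt (upd k th a)) f y = row (kt k) (f * (1 - th)) y + (a y) • (f * th) := by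
      ext x
      rw [row_apply, addF_apply, row_apply, smulF_apply, mulF_apply, mulF_apply, subF_apply,
        oneF_apply]
      show ((1 - th x) * k (x, y) + th x * a y) * f x = k (x, y) * (f x * (1 - th x)) + _
      ring
    rw [e, mu_add (h.kt.L_row hf' y) (L_smul _ hfth), mu_smul _ hfth]
  have hr : g * mc P (upd k th a) f = g * mc P k (f * (1 - th)) + P.mu (f * th) • (a * g) := by
    ext y
    rw [mulF_apply, hcol, addF_apply, mulF_apply, smulF_apply, mulF_apply]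
    ring
  have hmc : P.L (mc P k (f * (1 - th))) := h.kt.L_mr hf'
  rw [hl, hr, mu_add (L_mul hf' (h.L_mr hg)) (L_smul _ hfth), mu_smul _ hfth,
    mu_add (L_mul hg hmc) (L_smul _ (L_mul ha hg)), mu_smul _ (L_mul ha hg),
    hG _ _ hf' hg]
  ring

end facts

/-- the distance as a kernel -/
theorem d_KB (P : SP 𝓜 X) {D : 𝓜.R} (hD : ∀ x y, P.d (x, y) ≤ D) : KB P (max D 1) P.d := by
  have h1 : ∀ x x' y, |P.d (x, y) - P.d (x', y)| ≤ P.d (x, x') := by
    intro x x' y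
    have h2 := P.met.toPM.tri x x' y trivial trivial trivial
    have h3 := P.met.toPM.tri x' x y trivial trivial trivial
    have h4 := P.met.toPM.symm x x' trivial trivial
    rw [abs_le]
    constructor <;> linarith
  have h5 : ∀ x x', P.d (x, x') ≤ max D 1 * P.d (x, x') := by
    intro x x'
    have h6 := d_nonneg P x x'
    have h7 := le_max_right D 1
    nlinarith
  refine ⟨fun x y => ?_, fun x x' y => (h1 x x' y).trans (h5 x x'), fun x y y' => ?_⟩
  · rw [abs_of_nonneg (d_nonneg P x y)]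
    exact (hD x y).trans (le_max_left _ _)
  · rw [P.met.toPM.symm x y trivial trivial, P.met.toPM.symm x y' trivial trivial]
    exact (h1 y y' x).trans (h5 y y')

/-- the partition function -/
noncomputable def bump (P : SP 𝓜 X) (ε : 𝓜.R) (e : X) : IFun 𝓜 X 𝓜.R :=
  ⟨fun x => min 1 (max 0 (2 - P.d (x, e) / ε)), by fun_prop⟩

theorem bump_lip (P : SP 𝓜 X) {ε : 𝓜.R} (hε : 0 < ε) (e : X) :
    Lip P.d (max 1 (1 / ε)) (bump P ε e) := by
  have h0 : ∀ x, 0 ≤ bump P ε e x := fun x => le_min zero_le_one (le_max_left _ _)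
  have h1 : ∀ x, bump P ε e x ≤ 1 := fun x => min_le_left _ _
  refine ⟨fun x => ?_, fun x x' => ?_⟩
  · rw [abs_of_nonneg (h0 x)]
    exact (h1 x).trans (le_max_left _ _)
  · have h2 : |bump P ε e x - bump P ε e x'| ≤ |(2 - P.d (x, e) / ε) - (2 - P.d (x', e) / ε)| := by
      show |min 1 (max 0 (2 - P.d (x, e) / ε)) - min 1 (max 0 (2 - P.d (x', e) / ε))| ≤ _
      refine (abs_min_sub_min_le_max _ _ _ _).trans ?_
      rw [sub_self, abs_zero]
      refine max_le (abs_nonneg _) ?_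
      refine (abs_max_sub_max_le_max _ _ _ _).trans ?_
      rw [sub_self, abs_zero]
      exact max_le (abs_nonneg _) le_rfl
    refine h2.trans ?_
    have h3 := P.met.toPM.tri x x' e trivial trivial trivial
    have h4 := P.met.toPM.tri x' x e trivial trivial trivial
    have h5 := P.met.toPM.symm x x' trivial trivial
    have e1 : (2 - P.d (x, e) / ε) - (2 - P.d (x', e) / ε) = (P.d (x', e) - P.d (x, e)) / ε := by
      ring
    rw [e1, abs_div, abs_of_pos hε]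
    have h6 : |P.d (x', e) - P.d (x, e)| ≤ P.d (x, x') := by
      rw [abs_le]
      constructor <;> linarith
    have h7 : |P.d (x', e) - P.d (x, e)| / ε ≤ P.d (x, x') / ε :=
      div_le_div_of_nonneg_right h6 hε.le
    have h8 : P.d (x, x') / ε = 1 / ε * P.d (x, x') := by ring
    rw [h8] at h7
    exact h7.trans (mul_le_mul_of_nonneg_right (le_max_right _ _) (d_nonneg P x x'))

theorem exists_kernel (P : SP 𝓜 X) (h1 : StNet.{u}) {D : 𝓜.R} (hD : ∀ x y, P.d (x, y) ≤ D)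
    {ε : 𝓜.R} (hε : 0 < ε) : ∃ (k : IFun 𝓜 (X × X) 𝓜.R) (C : 𝓜.R), KB P C k ∧ Good P k ∧
      ∀ x y, |k (x, y) - P.d (x, y)| ≤ 2 * ε := by
  obtain ⟨x₀⟩ := P.ne
  obtain ⟨n, e, hn⟩ := h1 𝓜 X univ P.d ε ⟨x₀, trivial⟩ (P.tb ε hε)
  have hKd := d_KB P hD
  have key : ∀ i : 𝓜.N, ∃ (k : IFun 𝓜 (X × X) 𝓜.R) (C : 𝓜.R), KB P C k ∧ Good P k ∧
      ∀ x, (∃ j, j < i ∧ P.d (x, e j) ≤ ε) → ∀ y, |k (x, y) - P.d (x, y)| ≤ 2 * ε := by
    refine ind (by simp only [al_iff, imp_iff_not_or]; fun_prop) ?_ ?_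
    · refine ⟨0, 0, zero_KB, zero_Good, ?_⟩
      rintro x ⟨j, hj, -⟩
      exact absurd (N_nonneg j) (not_le.2 hj)
    · rintro i ⟨k, C, hk, hG, hkd⟩
      have hth := bump_lip P hε (e i)
      have ha : Lip P.d (max D 1) (⟨fun y => P.d (e i, y), by fun_prop⟩ : IFun 𝓜 X 𝓜.R) :=
        ⟨fun y => hKd.1 (e i) y, fun y z => hKd.2.2 (e i) y z⟩
      obtain ⟨C', hC'⟩ := upd_KB hk hth ha
      refine ⟨upd k (bump P ε (e i)) ⟨fun y => P.d (e i, y), by fun_prop⟩, C', hC',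
        upd_Good hk hG ⟨_, hth⟩ ⟨_, ha⟩, ?_⟩
      rintro x ⟨j, hj, hxj⟩ y
      rw [upd_apply]
      have h0 : 0 ≤ bump P ε (e i) x := le_min zero_le_one (le_max_left _ _)
      have h1' : bump P ε (e i) x ≤ 1 := min_le_left _ _
      show |(1 - bump P ε (e i) x) * k (x, y) + bump P ε (e i) x * P.d (e i, y) - P.d (x, y)|
        ≤ 2 * ε
      have h2 : |P.d (e i, y) - P.d (x, y)| ≤ P.d (x, e i) := by
        have h3 := P.met.toPM.tri x (e i) y trivial trivial trivial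
        have h4 := P.met.toPM.tri (e i) x y trivial trivial trivial
        have h5 := P.met.toPM.symm x (e i) trivial trivial
        rw [abs_le]
        constructor <;> linarith
      by_cases hx : P.d (x, e i) ≤ ε
      · have h3 : bump P ε (e i) x = 1 := by
          show min 1 (max 0 (2 - P.d (x, e i) / ε)) = 1
          have h4 : P.d (x, e i) / ε ≤ 1 := (div_le_one hε).2 hx
          exact min_eq_left (le_max_of_le_right (by linarith))
        rw [h3, sub_self, zero_mul, zero_add, one_mul]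
        linarith
      · have hji : j < i := by
          rcases (N_lt_add_one_iff.1 hj).lt_or_eq with h | h
          · exact h
          · rw [h] at hxj
            exact absurd hxj hx
        have h3 := hkd x ⟨j, hji, hxj⟩ y
        by_cases h4 : P.d (x, e i) ≤ 2 * ε
        · have e1 : (1 - bump P ε (e i) x) * k (x, y) + bump P ε (e i) x * P.d (e i, y) -
              P.d (x, y) = (1 - bump P ε (e i) x) * (k (x, y) - P.d (x, y)) +
                bump P ε (e i) x * (P.d (e i, y) - P.d (x, y)) := by ring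
          rw [e1]
          refine (abs_add_le _ _).trans ?_
          rw [abs_mul, abs_mul, abs_of_nonneg h0, abs_of_nonneg (sub_nonneg.2 h1')]
          have h5 := h2.trans h4
          have h6 := mul_le_mul_of_nonneg_left h3 (sub_nonneg.2 h1')
          have h7 := mul_le_mul_of_nonneg_left h5 h0
          linarith
        · have h5 : bump P ε (e i) x = 0 := by
            show min 1 (max 0 (2 - P.d (x, e i) / ε)) = 0
            have h6 : 2 < P.d (x, e i) / ε := by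
              rw [lt_div_iff₀ hε]
              exact not_le.1 h4
            rw [max_eq_left (by linarith)]
            exact min_eq_right zero_le_one
          rw [h5, sub_zero, one_mul, zero_mul, add_zero]
          exact h3
  obtain ⟨k, C, hk, hG, hkd⟩ := key n
  refine ⟨k, C, hk, hG, fun x y => hkd x ?_ y⟩
  obtain ⟨j, hj, hxj⟩ := hn.2 x trivial
  exact ⟨j, hj, hxj⟩

end FubAux

namespace Ctx

open FubAux

theorem fub (h1 : StNet.{u}) (h2 : StBdd.{u}) : StFub.{u} := by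
  intro 𝓜 X _ P f g hf hg
  obtain ⟨D, -, hD⟩ := h2 𝓜 X univ P.d P.met.toPM P.tb
  have hD' : ∀ x y, P.d (x, y) ≤ D := fun x y => hD x y trivial trivial
  have hKd := d_KB P hD'
  obtain ⟨A, hA⟩ := hf
  obtain ⟨B, hB⟩ := hg
  have hA0 := lip_nonneg P hA
  have hB0 := lip_nonneg P hB
  have hf : P.L f := ⟨A, hA⟩
  have hg : P.L g := ⟨B, hB⟩
  have e1 : P.ip (P.T f) g = P.mu (g * mr P P.d f) := by
    unfold SP.ip
    rw [mul_comm]
    rfl
  have e2 : P.ip f (P.T g) = P.mu (f * mc P P.d g) := by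
    unfold SP.ip
    congr 1
    ext x
    rw [mulF_apply, mulF_apply]
    congr 1
    show P.mu _ = P.mu _
    congr 1
    ext y
    show P.d (x, y) * g y = P.d (y, x) * g y
    rw [P.met.toPM.symm x y trivial trivial]
  rw [e1, e2]
  have key : ∀ ε > 0, |P.mu (g * mr P P.d f) - P.mu (f * mc P P.d g)| ≤ 4 * (A * B) * ε := by
    intro ε hε
    obtain ⟨k, C, hk, hG, hkd⟩ := exists_kernel P h1 hD' hε
    have h3 := side_close hk hKd hg hf hB.1 hA.1 hkd
    have h4 : |P.mu (f * mc P k g) - P.mu (f * mc P P.d g)| ≤ A * (2 * ε * B) := by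
      rw [mc_eq, mc_eq]
      exact side_close hk.kt hKd.kt hf hg hA.1 hB.1 fun x y => hkd y x
    have h5 := hG g f hg hf
    rw [h5] at h3
    rw [abs_le] at h3 h4 ⊢
    constructor <;> linarith [h3.1, h3.2, h4.1, h4.2]
  by_contra hne
  have h6 : 0 < |P.mu (g * mr P P.d f) - P.mu (f * mc P P.d g)| :=
    abs_pos.2 (sub_ne_zero.2 hne)
  set t := |P.mu (g * mr P P.d f) - P.mu (f * mc P P.d g)| with ht
  have h7 : 0 ≤ A * B := mul_nonneg hA0 hB0
  have h8 := key (t / (8 * (A * B) + 1)) (by positivity)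
  have h9 : 4 * (A * B) * (t / (8 * (A * B) + 1)) < t := by
    rw [← mul_div_assoc, div_lt_iff₀ (by positivity)]
    nlinarith
  exact absurd h8 (not_le.2 h9)

end Ctx

end Pool.Agent.Lib.MP_c7a422_lc.Z
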