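import Pool.Agent.Lib.MP_c7a422_lc.Z.SPBase

/-!
# Bounds for the normalised eigenfunctions
-/

namespace Pool.Agent.Lib.MP_c7a422_lc.Z

universe u v

namespace SP

open Ctx

variable {𝓜 : Ctx.{u}} {X : Type u} [Rep 𝓜 X] (P : SP 𝓜 X) {f g h : IFun 𝓜 X 𝓜.R} {c c' C D : 𝓜.R}

theorem Eig.eq {P : SP 𝓜 X} {lam : 𝓜.R} (h : P.Eig lam f) (x : X) :
    f x = lam⁻¹ * P.T (P.T f) x := by
  rw [h.2.2, smulF_apply, ← mul_assoc, inv_mul_cancel₀ h.1.ne', one_mul]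

/-- eigenfunctions are bounded by their norm -/
theorem eig_abs_le (hb : StBdd.{u}) (hD1 : 1 ≤ D) (hD : ∀ x y, P.d (x, y) ≤ D) {lam : 𝓜.R}
    (h : P.Eig lam f) (hc : 0 ≤ c) (hf : P.ip f f ≤ c ^ 2) (x : X) :
    |f x| ≤ lam⁻¹ * (D * (D * c)) := by
  have h1 := P.ip_T_self_le hD1 hD h.2.1 hc hf
  have h2 := P.abs_T_le hD1 hD (P.L_T hb h.2.1) (c := D * c) (by nlinarith) h1 x
  rw [h.eq x, abs_mul, abs_of_pos (inv_pos.2 h.1)]
  exact mul_le_mul_of_nonneg_left h2 (inv_pos.2 h.1).le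

theorem eig_abs_sub_le (hb : StBdd.{u}) (hD1 : 1 ≤ D) (hD : ∀ x y, P.d (x, y) ≤ D) {lam : 𝓜.R}
    (h : P.Eig lam f) (hc : 0 ≤ c) (hf : P.ip f f ≤ c ^ 2) (x y : X) :
    |f x - f y| ≤ lam⁻¹ * (D * c * P.d (x, y)) := by
  have h1 := P.ip_T_self_le hD1 hD h.2.1 hc hf
  have h2 := P.abs_T_sub_le hD1 hD (P.L_T hb h.2.1) (c := D * c) (by nlinarith) h1 x y
  rw [h.eq x, h.eq y, ← mul_sub, abs_mul, abs_of_pos (inv_pos.2 h.1)]
  exact mul_le_mul_of_nonneg_left h2 (inv_pos.2 h.1).le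

/-- nonzero eigenfunctions have eigenvalues at most `D ^ 2` -/
theorem eig_le (hb : StBdd.{u}) (hD1 : 1 ≤ D) (hD : ∀ x y, P.d (x, y) ≤ D) {lam : 𝓜.R}
    (h : P.Eig lam f) (hf : P.ip f f ≤ lam ^ 4) : f = 0 ∨ lam ≤ D ^ 2 := by
  by_contra hcon
  push Not at hcon
  obtain ⟨hne, hlam⟩ := hcon
  -- `sup |f|` is positive and at most half of itself: use the norm bound twice
  have hD0 : 0 < D := by linarith
  have hl := h.1
  -- norms of `f`, with `c` arbitrary: if `‖f‖ ≤ c` then `‖f‖ ≤ q c`, `q = D ^ 2 / lam < 1`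
  have step : ∀ c, 0 ≤ c → P.ip f f ≤ c ^ 2 → P.ip f f ≤ (D ^ 2 / lam * c) ^ 2 := by
    intro c hc hc2
    have h1 := P.ip_T_self_le hD1 hD h.2.1 hc hc2
    have h2 := P.ip_T_self_le hD1 hD (P.L_T hb h.2.1) (c := D * c) (by nlinarith) h1
    rw [h.2.2, P.ip_smul_left lam h.2.1 (P.L_smul lam h.2.1), P.ip_smul_right lam h.2.1 h.2.1] at h2
    have h3 : lam ^ 2 * P.ip f f ≤ (D * (D * c)) ^ 2 := by nlinarith
    have h4 : (D ^ 2 / lam * c) ^ 2 = (D * (D * c)) ^ 2 / lam ^ 2 := by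
      field_simp
    rw [h4, le_div_iff₀ (by positivity)]
    linarith
  -- the infimum of the bounds is a contradiction
  have hpos : 0 < P.ip f f := by
    by_contra hn
    exact hne (P.eq_zero_of_ip_self h.2.1 (not_lt.1 hn))
  -- work with the supremum of all `t ≥ 0` with `t ^ 2 ≤ ⟨f, f⟩`
  have hs : 𝓜.Dfn (fun t : 𝓜.R => 0 ≤ t ∧ t ^ 2 ≤ P.ip f f) := by fun_prop
  have hb1 : ∃ b, ∀ t, (0 ≤ t ∧ t ^ 2 ≤ P.ip f f) → t ≤ b := by
    refine ⟨lam ^ 2, fun t ht => ?_⟩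
    exact abs_le_of_sq_le_sq' (by nlinarith [ht.2]) (by positivity) |>.2
  obtain ⟨s, hs1⟩ := exists_isLUB hs ⟨0, le_rfl, by simpa using hpos.le⟩ hb1
  have hs0 : 0 ≤ s := hs1.1 ⟨le_rfl, by simpa using hpos.le⟩
  have hs2 : P.ip f f ≤ s ^ 2 := by
    by_contra hn
    push Not at hn
    -- some `t > s` still satisfies `t ^ 2 ≤ ⟨f, f⟩`
    set δ := P.ip f f - s ^ 2 with hδ
    have hδ0 : 0 < δ := by linarith
    obtain ⟨e, he0, he1⟩ : ∃ e : 𝓜.R, 0 < e ∧ (s + e) ^ 2 ≤ P.ip f f := by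
      refine ⟨min 1 (δ / (2 * s + 1)), lt_min one_pos (by positivity), ?_⟩
      have h5 : min 1 (δ / (2 * s + 1)) ≤ 1 := min_le_left _ _
      have h6 : min 1 (δ / (2 * s + 1)) ≤ δ / (2 * s + 1) := min_le_right _ _
      have h7 : 0 < min 1 (δ / (2 * s + 1)) := lt_min one_pos (by positivity)
      rw [le_div_iff₀ (by positivity)] at h6
      nlinarith
    have h8 : s + e ≤ s := hs1.1 ⟨by linarith, he1⟩
    linarith
  have hs3 := step s hs0 hs2
  have hs4 : s ≤ D ^ 2 / lam * s := by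
    refine hs1.2 fun t ht => ?_
    exact abs_le_of_sq_le_sq' (ht.2.trans hs3) (by positivity) |>.2
  have hq : D ^ 2 / lam < 1 := by
    rw [div_lt_one hl]
    exact hlam
  have hs5 : s = 0 := by nlinarith
  rw [hs5] at hs2
  simp only [ne_eq, OfNat.ofNat_ne_zero, not_false_eq_true, zero_pow] at hs2
  linarith

end SP

namespace Ctx

theorem kbound (hb : StBdd.{u}) : StKBound.{u} := by
  intro 𝓜 X _ P
  obtain ⟨D, hD1, hD⟩ := P.exists_bound hb
  have hD0 : 0 < D := by linarith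
  have key : ∀ lam f, P.Eig lam f → P.ip f f ≤ lam ^ 4 → (∀ x, |f x| ≤ D ^ 2 * lam) ∧
      ∀ x y, |f x - f y| ≤ D * lam * P.d (x, y) := by
    intro lam f h hf
    have hl := h.1
    have hf' : P.ip f f ≤ (lam ^ 2) ^ 2 := by
      rw [← pow_mul]
      exact hf
    constructor
    · intro x
      refine (P.eig_abs_le hb hD1 hD h (sq_nonneg lam) hf' x).trans (le_of_eq ?_)
      field_simp
    · intro x y
      refine (P.eig_abs_sub_le hb hD1 hD h (sq_nonneg lam) hf' x y).trans (le_of_eq ?_)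
      field_simp
  have hDD : D ≤ D ^ 2 := by nlinarith
  have hDD4 : D ^ 2 ≤ D ^ 4 := by nlinarith [sq_nonneg (D ^ 2 - 1)]
  refine ⟨D ^ 4, by positivity, ?_, ?_⟩
  · rintro f ⟨lam, h, hf⟩
    rcases P.eig_le hb hD1 hD h hf with h0 | h0
    · rw [h0]
      exact lip_zero P.pm (by positivity)
    · obtain ⟨h1, h2⟩ := key lam f h hf
      have hl := h.1
      refine ⟨fun x => (h1 x).trans ?_, fun x y => (h2 x y).trans ?_⟩
      · nlinarith [sq_nonneg D]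
      · refine mul_le_mul_of_nonneg_right ?_ (P.d_nonneg x y)
        nlinarith [sq_nonneg D]
  · intro lam f h hf x
    refine ((key lam f h hf).1 x).trans ?_
    exact mul_le_mul_of_nonneg_right hDD4 h.1.le

end Ctx

end Pool.Agent.Lib.MP_c7a422_lc.Z
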