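import Pool.Agent.Lib.MP_c7a422_lc.Z.SPBase

/-!
# The set of the normalised eigenfunctions with large eigenvalue is closed
-/

namespace Pool.Agent.Lib.MP_c7a422_lc.Z

universe u

namespace Ctx

theorem le_of_small {𝓜 : Ctx.{u}} {a b C δ₀ : 𝓜.R} (hδ₀ : 0 < δ₀) (hC : 0 ≤ C)
    (h : ∀ δ, 0 < δ → δ ≤ δ₀ → a ≤ b + C * δ) : a ≤ b := by
  by_contra hcon
  push Not at hcon
  have h1 : 0 < a - b := by linarith
  have h2 : 0 < (a - b) / (2 * (C + 1)) := by positivity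
  have h3 := h (min δ₀ ((a - b) / (2 * (C + 1)))) (lt_min hδ₀ h2) (min_le_left _ _)
  have h4 : C * min δ₀ ((a - b) / (2 * (C + 1))) ≤ C * ((a - b) / (2 * (C + 1))) :=
    mul_le_mul_of_nonneg_left (min_le_right _ _) hC
  have h5 : C * ((a - b) / (2 * (C + 1))) ≤ (a - b) / 2 := by
    rw [mul_div_assoc', div_le_div_iff₀ (by positivity) (by norm_num)]
    nlinarith
  linarith

theorem kclosed (h1 : StKBound.{u}) (h2 : StBdd.{u}) : StKClosed.{u} := by
  intro 𝓜 X _ P ε hε f hf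
  obtain ⟨B, hB, hBL, -⟩ := h1 𝓜 X P
  obtain ⟨D, hD1, hD⟩ := P.exists_bound h2
  have hK : ∀ g, P.Ke ε g → P.K g := by
    rintro g ⟨lam, -, hg⟩
    exact ⟨lam, hg⟩
  -- `f` is Lipschitz
  have hfB : ∀ x, |f x| ≤ B := by
    intro x
    refine le_of_small (δ₀ := 1) (C := 1) one_pos zero_le_one fun δ hδ _ => ?_
    obtain ⟨g, hg, hfg⟩ := hf δ hδ
    have e1 := (hBL g (hK g hg)).1 x
    have e2 := hfg x
    have e3 : |f x| ≤ |f x - g x| + |g x| := by
      have := abs_add_le (f x - g x) (g x)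
      rwa [sub_add_cancel] at this
    linarith
  have hfLip : Lip P.d B f := by
    refine ⟨hfB, fun x y => ?_⟩
    refine le_of_small (δ₀ := 1) (C := 2) one_pos zero_le_two fun δ hδ _ => ?_
    obtain ⟨g, hg, hfg⟩ := hf δ hδ
    have e1 := (hBL g (hK g hg)).2 x y
    have e2 := hfg x
    have e3 := hfg y
    have e4 : f x - f y = (f x - g x) + (g x - g y) + (g y - f y) := by ring
    have e5 := abs_add_le ((f x - g x) + (g x - g y)) (g y - f y)
    have e6 := abs_add_le (f x - g x) (g x - g y)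
    rw [abs_sub_comm (g y) (f y)] at e5
    rw [← e4] at e5
    linarith
  have hfL : P.L f := ⟨B, hfLip⟩
  by_cases h0 : ∃ x₀, f x₀ ≠ 0
  swap
  · push Not at h0
    have hz : f = 0 := by
      ext x
      exact h0 x
    refine ⟨ε, le_rfl, ⟨hε, hfL, ?_⟩, ?_⟩
    · rw [hz, P.T_zero, P.T_zero]
      ext x
      simp
    · rw [hz, P.ip_zero_left]
      positivity
  obtain ⟨x₀, hx₀⟩ := h0
  set u := P.T (P.T f) x₀ with hu
  set v := f x₀ with hv
  have hv0 : 0 < |v| := abs_pos.2 hx₀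
  set lam : 𝓜.R := u / v with hlam
  have hlv : lam * v = u := by rw [hlam]; exact div_mul_cancel₀ _ hx₀
  set C₁ : 𝓜.R := 2 * (D ^ 2 + |lam|) / |v| with hC₁
  have hC₁0 : 0 ≤ C₁ := by
    have : 0 ≤ |lam| := abs_nonneg _
    positivity
  -- approximation
  have hD0 : (0 : 𝓜.R) ≤ D := by linarith
  have hTT : ∀ g δ, P.L g → 0 < δ → (∀ x, |f x - g x| ≤ δ) → ∀ x,
      |P.T (P.T f) x - P.T (P.T g) x| ≤ D ^ 2 * δ := by
    intro g δ hg hδ hfg x
    have e1 := P.abs_T_sub_le_sup hD1 hD hfL hg hfg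
    have e2 := P.abs_T_sub_le_sup hD1 hD (P.L_T h2 hfL) (P.L_T h2 hg) e1 x
    calc _ ≤ D * (D * δ) := e2
      _ = D ^ 2 * δ := by ring
  have key : ∀ δ, 0 < δ → δ ≤ |v| / 2 → ∃ (μ : 𝓜.R) (g : IFun 𝓜 X 𝓜.R), ε ≤ μ ∧ P.Eig μ g ∧
      P.ip g g ≤ μ ^ 4 ∧ (∀ x, |f x - g x| ≤ δ) ∧ |μ - lam| ≤ C₁ * δ ∧ P.K g := by
    intro δ hδ hδv
    obtain ⟨g, hg, hfg⟩ := hf δ hδ
    obtain ⟨μ, hμ, hE, hip⟩ := hg
    refine ⟨μ, g, hμ, hE, hip, hfg, ?_, ⟨μ, hE, hip⟩⟩
    have e1 : P.T (P.T g) x₀ = μ * g x₀ := by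
      rw [hE.2.2]; rfl
    have e2 := hTT g δ hE.2.1 hδ hfg x₀
    rw [e1, ← hu, ← hlv] at e2
    have e3 := hfg x₀
    rw [← hv] at e3
    -- (μ - lam) g x₀ = (μ g x₀ - lam v) + lam (v - g x₀)
    have e4 : (μ - lam) * g x₀ = -(lam * v - μ * g x₀) + lam * (v - g x₀) := by ring
    have e5 : |μ - lam| * |g x₀| ≤ D ^ 2 * δ + |lam| * δ := by
      rw [← abs_mul, e4]
      refine (abs_add_le _ _).trans ?_
      rw [abs_neg, abs_mul]
      exact add_le_add e2 (mul_le_mul_of_nonneg_left e3 (abs_nonneg _))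
    have e6 : |v| / 2 ≤ |g x₀| := by
      have := abs_add_le (v - g x₀) (g x₀)
      rw [sub_add_cancel] at this
      linarith
    have e7 : |μ - lam| * (|v| / 2) ≤ (D ^ 2 + |lam|) * δ := by
      calc |μ - lam| * (|v| / 2) ≤ |μ - lam| * |g x₀| :=
            mul_le_mul_of_nonneg_left e6 (abs_nonneg _)
        _ ≤ _ := e5
        _ = _ := by ring
    rw [hC₁, div_mul_eq_mul_div, le_div_iff₀ hv0]
    linarith
  have hv2 : 0 < |v| / 2 := by positivity
  have hlamε : ε ≤ lam := by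
    refine le_of_small hv2 hC₁0 fun δ hδ hδv => ?_
    obtain ⟨μ, g, hμ, -, -, -, h3, -⟩ := key δ hδ hδv
    have := (abs_le.1 h3).2
    linarith
  have hlam0 : 0 < lam := lt_of_lt_of_le hε hlamε
  refine ⟨lam, hlamε, ⟨hlam0, hfL, ?_⟩, ?_⟩
  · ext x
    rw [smulF_apply]
    have h3 : |P.T (P.T f) x - lam * f x| ≤ 0 := by
      refine le_of_small (C := D ^ 2 + C₁ * B + |lam|) hv2
        (by have := abs_nonneg lam; positivity) fun δ hδ hδv => ?_
      obtain ⟨μ, g, hμ, hE, hip, hfg, h3, hKg⟩ := key δ hδ hδv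
      have e1 : P.T (P.T g) x = μ * g x := by
        rw [hE.2.2]; rfl
      have e2 := hTT g δ hE.2.1 hδ hfg x
      rw [e1] at e2
      have e3 := hfg x
      have e4 := (hBL g hKg).1 x
      have e5 : P.T (P.T f) x - lam * f x = (P.T (P.T f) x - μ * g x) + (μ - lam) * g x +
          -(lam * (f x - g x)) := by ring
      rw [e5]
      refine (abs_add_le _ _).trans ?_
      refine (add_le_add_left (abs_add_le _ _) _).trans ?_
      rw [abs_neg, abs_mul, abs_mul]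
      have e6 : |μ - lam| * |g x| ≤ C₁ * δ * B := mul_le_mul h3 e4 (abs_nonneg _) (by positivity)
      have e7 : |lam| * |f x - g x| ≤ |lam| * δ := mul_le_mul_of_nonneg_left e3 (abs_nonneg _)
      calc _ ≤ D ^ 2 * δ + C₁ * δ * B + |lam| * δ := add_le_add (add_le_add e2 e6) e7
        _ = 0 + (D ^ 2 + C₁ * B + |lam|) * δ := by ring
    have h4 := le_antisymm h3 (abs_nonneg _)
    rw [abs_eq_zero, sub_eq_zero] at h4
    exact h4
  · refine le_of_small (C := 2 * B + C₁ * (4 * (lam + C₁) ^ 3)) (δ₀ := min (|v| / 2) 1)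
      (lt_min hv2 one_pos) (by positivity) fun δ hδ hδv => ?_
    obtain ⟨μ, g, hμ, hE, hip, hfg, h3, hKg⟩ := key δ hδ (hδv.trans (min_le_left _ _))
    have hδ1 : δ ≤ 1 := hδv.trans (min_le_right _ _)
    have e1 : |P.ip f f - P.ip g g| ≤ 2 * B * δ := by
      refine P.abs_mu_sub_le (P.L_mul hfL hfL) (P.L_mul hE.2.1 hE.2.1) fun x => ?_
      rw [mulF_apply, mulF_apply]
      have e2 : f x * f x - g x * g x = (f x + g x) * (f x - g x) := by ring
      rw [e2, abs_mul]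
      have e3 := abs_add_le (f x) (g x)
      have e4 := hfB x
      have e5 := (hBL g hKg).1 x
      exact mul_le_mul (by linarith) (hfg x) (abs_nonneg _) (by positivity)
    have e2 : μ ≤ lam + C₁ * δ := by
      have := (abs_le.1 h3).2
      linarith
    have hμ0 : 0 ≤ μ := hε.le.trans hμ
    have hCδ : 0 ≤ C₁ * δ := by positivity
    have e3 : μ ^ 4 ≤ (lam + C₁ * δ) ^ 4 := pow_le_pow_left₀ hμ0 e2 4
    have e4 : (lam + C₁ * δ) ^ 4 ≤ lam ^ 4 + C₁ * δ * (4 * (lam + C₁) ^ 3) := by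
      have e5 : C₁ * δ ≤ C₁ := by nlinarith
      have e6 : lam + C₁ * δ ≤ lam + C₁ := by linarith
      have e7 : (lam + C₁ * δ) ^ 3 ≤ (lam + C₁) ^ 3 :=
        pow_le_pow_left₀ (by positivity) e6 3
      set a := lam + C₁ * δ with ha
      have hal : lam ≤ a := by linarith
      have ha0 : 0 ≤ a := by positivity
      have e8 : a ^ 4 - lam ^ 4 = (a - lam) * (a ^ 3 + a ^ 2 * lam + a * lam ^ 2 + lam ^ 3) := by
        ring
      have e9 : a ^ 3 + a ^ 2 * lam + a * lam ^ 2 + lam ^ 3 ≤ 4 * a ^ 3 := by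
        have f1 : a ^ 2 * lam ≤ a ^ 2 * a := mul_le_mul_of_nonneg_left hal (sq_nonneg a)
        have f2 : lam ^ 2 ≤ a ^ 2 := pow_le_pow_left₀ hlam0.le hal 2
        have f3 : a * lam ^ 2 ≤ a * a ^ 2 := mul_le_mul_of_nonneg_left f2 ha0
        have f4 : lam ^ 3 ≤ a ^ 3 := pow_le_pow_left₀ hlam0.le hal 3
        have f5 : a ^ 2 * a = a ^ 3 := by ring
        have f6 : a * a ^ 2 = a ^ 3 := by ring
        rw [f5] at f1
        rw [f6] at f3
        linarith
      have e10 : a - lam = C₁ * δ := by rw [ha]; ring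
      have e11 : (a - lam) * (a ^ 3 + a ^ 2 * lam + a * lam ^ 2 + lam ^ 3) ≤
          C₁ * δ * (4 * (lam + C₁) ^ 3) := by
        rw [e10]
        exact mul_le_mul_of_nonneg_left (by linarith) hCδ
      linarith
    have e5 := (abs_le.1 e1).2
    calc P.ip f f ≤ P.ip g g + 2 * B * δ := by linarith
      _ ≤ lam ^ 4 + C₁ * δ * (4 * (lam + C₁) ^ 3) + 2 * B * δ := by linarith
      _ = lam ^ 4 + (2 * B + C₁ * (4 * (lam + C₁) ^ 3)) * δ := by ring

end Ctx

end Pool.Agent.Lib.MP_c7a422_lc.Z
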