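import Pool.Agent.Lib.MP_c7a422_lc.Z.SPBase

/-!
# The set of the normalised eigenfunctions with large eigenvalue is complete
-/

namespace Pool.Agent.Lib.MP_c7a422_lc.Z

universe u

namespace Ctx

theorem kcomplete (h1 : StKBound.{u}) (h2 : StKClosed.{u}) : StKComplete.{u} := by
  intro 𝓜 X _ P U hU ε hε a ha hC
  obtain ⟨B, hB, hBL, -⟩ := h1 𝓜 X P
  have hK : ∀ n, P.K (a n) := by
    intro n
    obtain ⟨lam, -, hf⟩ := ha n
    exact ⟨lam, hf⟩
  have hb : ∀ n x, |a n x| ≤ B := fun n x => (hBL _ (hK n)).1 x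
  let f : IFun 𝓜 X 𝓜.R := ⟨fun x => ulim U (fun n => a n x), by fun_prop⟩
  have hf : ∀ x, IsUlim U (fun n => a n x) (f x) := fun x =>
    ulim_spec hU (by fun_prop) (fun n => hb n x)
  have hsup : ∀ k m x, |a k x - a m x| ≤ supd 𝓜 X (a k, a m) := by
    intro k m x
    refine le_sup (s := fun t => ∃ x, t = |a k x - a m x|) (by fun_prop) ⟨2 * B, ?_⟩ ⟨x, rfl⟩
    rintro t ⟨y, rfl⟩
    have e1 := abs_le.1 (hb k y)
    have e2 := abs_le.1 (hb m y)
    rw [abs_le]
    constructor <;> linarith [e1.1, e1.2, e2.1, e2.2]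
  have key : ∀ η > 0, ∃ n, ∀ m, n ≤ m → ∀ x, |a m x - f x| ≤ η := by
    intro η hη
    obtain ⟨n, hn⟩ := hC η hη
    refine ⟨n, fun m hm x => ?_⟩
    have hkm : ∀ k, n ≤ k → |a k x - a m x| ≤ η := fun k hk =>
      (hsup k m x).trans (hn k m hk hm)
    have hu : f x ≤ a m x + η := by
      refine IsUlim.le_const hU (hf x) (ev_big hU n fun k hk => ?_)
      have := (abs_le.1 (hkm k hk)).2
      linarith
    have hl : a m x - η ≤ f x := by
      refine IsUlim.const_le hU (hf x) (ev_big hU n fun k hk => ?_)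
      have := (abs_le.1 (hkm k hk)).1
      linarith
    rw [abs_le]
    constructor <;> linarith
  refine ⟨f, ?_, fun η hη => ?_⟩
  · refine h2 𝓜 X P ε hε f fun δ hδ => ?_
    obtain ⟨n, hn⟩ := key δ hδ
    refine ⟨a n, ha n, fun x => ?_⟩
    rw [abs_sub_comm]
    exact hn n le_rfl x
  · obtain ⟨n, hn⟩ := key η hη
    refine ⟨n, fun m hm => ?_⟩
    obtain ⟨x₀⟩ := P.ne
    refine sup_le (s := fun t => ∃ x, t = |a m x - f x|) (by fun_prop) ⟨_, x₀, rfl⟩ ?_
    rintro t ⟨x, rfl⟩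
    exact hn m hm x

end Ctx

end Pool.Agent.Lib.MP_c7a422_lc.Z
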