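import Pool.Agent.Lib.MP_c7a422_lc.Z.TDefs

/-!
# The supremum distance
-/

namespace Pool.Agent.Lib.MP_c7a422_lc.Z

universe u v

namespace Ctx

variable {𝓜 : Ctx.{u}} {X : Type v} [Rep 𝓜 X] {f g h : IFun 𝓜 X 𝓜.R} {c C : 𝓜.R}

theorem supd_eq (f g : IFun 𝓜 X 𝓜.R) :
    supd 𝓜 X (f, g) = 𝓜.sup (fun t => ∃ x, t = |f x - g x|) := rfl

theorem abs_le_supd (h : ∀ x, |f x - g x| ≤ C) (x : X) : |f x - g x| ≤ supd 𝓜 X (f, g) := by
  rw [supd_eq]
  exact le_sup (s := fun t => ∃ x, t = |f x - g x|) (by fun_prop)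
    ⟨C, by rintro t ⟨x, rfl⟩; exact h x⟩ ⟨x, rfl⟩

theorem supd_le [hn : Nonempty X] (h : ∀ x, |f x - g x| ≤ C) : supd 𝓜 X (f, g) ≤ C := by
  rw [supd_eq]
  obtain ⟨x⟩ := hn
  exact sup_le (s := fun t => ∃ x, t = |f x - g x|) (by fun_prop) ⟨_, x, rfl⟩
    (by rintro t ⟨x, rfl⟩; exact h x)

theorem bdd_sub (hf : ∀ x, |f x| ≤ C) (hg : ∀ x, |g x| ≤ C) (x : X) : |f x - g x| ≤ 2 * C := by
  have h1 := abs_le.1 (hf x)
  have h2 := abs_le.1 (hg x)
  rw [abs_le]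
  constructor <;> linarith [h1.1, h1.2, h2.1, h2.2]

/-- On a set of uniformly bounded functions the supremum distance is a metric. -/
theorem supd_metOn [hn : Nonempty X] {S : ISet 𝓜 (IFun 𝓜 X 𝓜.R)}
    (hS : ∀ f, S f → ∀ x, |f x| ≤ C) : MetOn S (supd 𝓜 X) where
  self f hf := by
    refine le_antisymm (supd_le fun x => by simp) ?_
    obtain ⟨x⟩ := hn
    exact (abs_nonneg _).trans (abs_le_supd (fun x => bdd_sub (hS f hf) (hS f hf) x) x)
  symm f g hf hg := by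
    refine le_antisymm (supd_le fun x => ?_) (supd_le fun x => ?_)
    · rw [abs_sub_comm]
      exact abs_le_supd (bdd_sub (hS g hg) (hS f hf)) x
    · rw [abs_sub_comm]
      exact abs_le_supd (bdd_sub (hS f hf) (hS g hg)) x
  tri f g h hf hg hh := by
    refine supd_le fun x => ?_
    have h1 := abs_le_supd (bdd_sub (hS f hf) (hS g hg)) x
    have h2 := abs_le_supd (bdd_sub (hS g hg) (hS h hh)) x
    have h3 := abs_sub_le (f x) (g x) (h x)
    linarith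
  sep f g hf hg h0 := by
    ext x
    have h1 := abs_le_supd (bdd_sub (hS f hf) (hS g hg)) x
    rw [h0] at h1
    have h2 := abs_nonpos_iff.1 h1
    linarith

end Ctx

end Pool.Agent.Lib.MP_c7a422_lc.Z
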