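import Pool.Agent.Lib.MP_c7a422_lc.Z.Spec
import Pool.Agent.Lib.MP_c7a422_lc.Z.Supd

/-!
# The set of normalised eigenfunctions is totally bounded
-/

namespace Pool.Agent.Lib.MP_c7a422_lc.Z

universe u v

namespace Ctx

theorem ktb (h1 : StKBound.{u}) (h2 : StTBfun.{u}) : StKTB.{u} := by
  intro 𝓜 X _ P
  have := P.ne
  obtain ⟨B, hB, hK, -⟩ := h1 𝓜 X P
  refine ⟨supd_metOn (C := B) fun f hf x => (hK f hf).1 x, fun ε hε => ?_⟩
  obtain ⟨m, c, hc1, hc2⟩ := h2 𝓜 X P.d B ε P.met.toPM P.tb hε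
  exact ⟨m, c, fun f hf => hc1 f (hK f hf), fun f g hf hg hfg =>
    supd_le (hc2 f g (hK f hf) (hK g hg) hfg)⟩

end Ctx

end Pool.Agent.Lib.MP_c7a422_lc.Z
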