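import Pool.Agent.Lib.MP_c7a422_lc.Z.SPBase

/-!
# `Ke ε` is well-orderable: its elements are determined by their values on a finite net
-/

namespace Pool.Agent.Lib.MP_c7a422_lc.Z

universe u

namespace KWOAux

open Ctx

variable {𝓜 : Ctx.{u}} {X : Type u} [Rep 𝓜 X] (P : SP 𝓜 X) {f g h : IFun 𝓜 X 𝓜.R} {c lam kap D : 𝓜.R}

theorem eig_lip (hb : StBdd.{u}) (hD1 : 1 ≤ D) (hD : ∀ x y, P.d (x, y) ≤ D) (hf : P.Eig lam f)
    (hc : 0 ≤ c) (h : P.ip f f ≤ c ^ 2) (x y : X) :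
    lam * |f x - f y| ≤ D * c * P.d (x, y) := by
  have h1 := P.abs_T_sub_le hD1 hD (P.L_T hb hf.2.1) (c := D * c) (by positivity)
    (P.ip_T_self_le hD1 hD hf.2.1 hc h) x y
  rw [hf.2.2, smulF_apply, smulF_apply, ← mul_sub, abs_mul, abs_of_pos hf.1] at h1
  exact h1

theorem eig_orth (h1 : StFub.{u}) (hb : StBdd.{u}) (hf : P.Eig lam f) (hg : P.Eig kap g)
    (hne : lam ≠ kap) : P.ip f g = 0 := by
  have e1 : P.ip (P.T (P.T f)) g = P.ip f (P.T (P.T g)) := by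
    rw [h1 𝓜 X P (P.T f) g (P.L_T hb hf.2.1) hg.2.1, h1 𝓜 X P f (P.T g) hf.2.1 (P.L_T hb hg.2.1)]
  rw [hf.2.2, hg.2.2, P.ip_smul_left lam hf.2.1 hg.2.1, P.ip_smul_right kap hf.2.1 hg.2.1] at e1
  have e2 : (lam - kap) * P.ip f g = 0 := by
    rw [sub_mul, e1, sub_self]
  rcases mul_eq_zero.1 e2 with h | h
  · exact absurd (sub_eq_zero.1 h) hne
  · exact h

/-- the difference of two elements of `Ke ε` is Lipschitz with a constant proportional to its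
supremum -/
theorem diff_lip (h1 : StFub.{u}) (hb : StBdd.{u}) (hD1 : 1 ≤ D) (hD : ∀ x y, P.d (x, y) ≤ D)
    {ε : 𝓜.R} (hε : 0 < ε) (hf : P.Eig lam f) (hg : P.Eig kap g) (hlam : ε ≤ lam) (hkap : ε ≤ kap)
    {S : 𝓜.R} (hS : ∀ x, |f x - g x| ≤ S) (x y : X) :
    ε * |(f x - g x) - (f y - g y)| ≤ 2 * (D * S * P.d (x, y)) := by
  have hS0 : 0 ≤ S := (abs_nonneg _).trans (hS x)
  have hh : P.ip (f - g) (f - g) ≤ S ^ 2 :=
    P.ip_self_le (P.L_sub hf.2.1 hg.2.1) fun x => by rw [subF_apply]; exact hS x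
  have hpos : 0 ≤ D * S * P.d (x, y) :=
    mul_nonneg (mul_nonneg (by linarith) hS0) (P.d_nonneg x y)
  by_cases hk : lam = kap
  · subst hk
    have hE : P.Eig lam (f - g) := by
      refine ⟨hf.1, P.L_sub hf.2.1 hg.2.1, ?_⟩
      rw [P.T_sub hb hf.2.1 hg.2.1, P.T_sub hb (P.L_T hb hf.2.1) (P.L_T hb hg.2.1), hf.2.2, hg.2.2]
      ext z
      simp only [subF_apply, smulF_apply]
      ring
    have h2 := eig_lip P hb hD1 hD hE hS0 hh x y
    rw [subF_apply, subF_apply] at h2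
    have h3 := mul_le_mul_of_nonneg_right hlam (abs_nonneg ((f x - g x) - (f y - g y)))
    linarith
  · have h4 := eig_orth P h1 hb hf hg hk
    rw [P.ip_sub_self hf.2.1 hg.2.1, h4] at hh
    have h5 := P.ip_self_nonneg hf.2.1
    have h6 := P.ip_self_nonneg hg.2.1
    have h7 := eig_lip P hb hD1 hD hf hS0 (by linarith) x y
    have h8 := eig_lip P hb hD1 hD hg hS0 (by linarith) x y
    have h9 := mul_le_mul_of_nonneg_right hlam (abs_nonneg (f x - f y))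
    have h10 := mul_le_mul_of_nonneg_right hkap (abs_nonneg (g x - g y))
    have e : (f x - g x) - (f y - g y) = (f x - f y) - (g x - g y) := by ring
    rw [e]
    have h11 : |(f x - f y) - (g x - g y)| ≤ |f x - f y| + |g x - g y| := abs_sub _ _
    have h12 := mul_le_mul_of_nonneg_left h11 hε.le
    rw [mul_add] at h12
    linarith

theorem exists_sup (P : SP 𝓜 X) (hf : P.L f) :
    ∃ S, (∀ x, |f x| ≤ S) ∧ ∀ B, (∀ x, |f x| ≤ B) → S ≤ B := by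
  obtain ⟨C, hC⟩ := hf
  obtain ⟨x₀⟩ := P.ne
  have hd : 𝓜.Dfn (fun t : 𝓜.R => ∃ x, t = |f x|) := by fun_prop
  refine ⟨𝓜.sup (fun t => ∃ x, t = |f x|), fun x => ?_, fun B hB => ?_⟩
  · exact le_sup hd ⟨C, by rintro t ⟨x, rfl⟩; exact hC.1 x⟩ ⟨x, rfl⟩
  · exact sup_le hd ⟨_, x₀, rfl⟩ (by rintro t ⟨x, rfl⟩; exact hB x)

end KWOAux

namespace Ctx

open KWOAux

theorem kwo (h1 : StFub.{u}) (h2 : StNet.{u}) (h3 : StBdd.{u}) : StKWO.{u} := by
  intro 𝓜 X _ P hW ε hε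
  obtain ⟨D, hD1, hD⟩ := P.exists_bound h3
  have hDpos : 0 < D := by linarith
  obtain ⟨x₀⟩ := P.ne
  have hδ : 0 < ε / (4 * D) := by positivity
  obtain ⟨n, e, hn⟩ := h2 𝓜 X univ P.d (ε / (4 * D)) ⟨x₀, trivial⟩ (P.tb _ hδ)
  refine WOon.of_inj (S' := (univ : ISet 𝓜 (IFun 𝓜 𝓜.N 𝓜.R)))
    (⟨fun f => ⟨fun i => f (e i), by fun_prop⟩, by fun_prop⟩ :
      IFun 𝓜 (IFun 𝓜 X 𝓜.R) (IFun 𝓜 𝓜.N 𝓜.R)) (fun _ _ => trivial) ?_ hW
  rintro f g ⟨lam, hlam, hf, -⟩ ⟨kap, hkap, hg, -⟩ hfg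
  have h4 : ∀ i, f (e i) = g (e i) := fun i => DFunLike.congr_fun hfg i
  obtain ⟨S, hS, hS'⟩ := exists_sup P (P.L_sub hf.2.1 hg.2.1)
  have hS0 : 0 ≤ S := (abs_nonneg _).trans (hS x₀)
  have h5 : ∀ x, |(f - g) x| ≤ S / 2 := by
    intro x
    obtain ⟨i, -, hi⟩ := hn.2 x trivial
    have h6 := diff_lip P h1 h3 hD1 hD hε hf hg hlam hkap
      (fun x => by have := hS x; rwa [subF_apply] at this) x (e i)
    rw [h4 i, sub_self, sub_zero] at h6
    rw [subF_apply]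
    have h7 : D * S * P.d (x, e i) ≤ D * S * (ε / (4 * D)) :=
      mul_le_mul_of_nonneg_left hi (mul_nonneg hDpos.le hS0)
    have h8 : D * S * (ε / (4 * D)) = S * ε / 4 := by
      field_simp
    rw [h8] at h7
    have h9 : ε * |f x - g x| ≤ ε * (S / 2) := by linarith
    exact le_of_mul_le_mul_left h9 hε
  have h6 := hS' (S / 2) h5
  ext x
  have h7 := hS x
  rw [subF_apply] at h7
  have h8 : |f x - g x| ≤ 0 := by linarith
  exact sub_eq_zero.1 (abs_nonpos_iff.1 h8)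

end Ctx

end Pool.Agent.Lib.MP_c7a422_lc.Z
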