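import Pool.Agent.Lib.MP_c7a422_lc.Z.Spec

/-!
# Existence of the functional of full support
-/

namespace Pool.Agent.Lib.MP_c7a422_lc.Z

universe u

namespace Ctx

variable {𝓜 : Ctx.{u}}

/-- the weights `1 / ((n + 1) (n + 2))` -/
noncomputable def muW (𝓜 : Ctx.{u}) : IFun 𝓜 𝓜.N 𝓜.R :=
  ⟨fun n => 1 / (((n : 𝓜.R) + 1) * ((n : 𝓜.R) + 2)), by fun_prop⟩

theorem muW_apply (n : 𝓜.N) : muW 𝓜 n = 1 / (((n : 𝓜.R) + 1) * ((n : 𝓜.R) + 2)) := rfl

theorem muW_pos (n : 𝓜.N) : 0 < muW 𝓜 n := by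
  rw [muW_apply]
  have := toR_nonneg n
  positivity

theorem rsum_muW (K : 𝓜.N) : rsum (muW 𝓜) K = 1 - 1 / ((K : 𝓜.R) + 1) := by
  refine ind (P := fun K : 𝓜.N => rsum (muW 𝓜) K = 1 - 1 / ((K : 𝓜.R) + 1)) (by fun_prop) ?_
    (fun K ih => ?_) K
  · rw [rsum_zero, toR_zero]
    norm_num
  · rw [rsum_succ, ih, muW_apply]
    have h := toR_nonneg K
    have h1 : (K : 𝓜.R) + 1 ≠ 0 := by positivity
    have h2 : (K : 𝓜.R) + 2 ≠ 0 := by positivity
    have h3 : (K : 𝓜.R) + 1 + 1 ≠ 0 := by positivity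
    push_cast
    field_simp
    ring

theorem rsum_muW_le (K : 𝓜.N) : rsum (muW 𝓜) K ≤ 1 := by
  rw [rsum_muW]
  have h := toR_nonneg K
  have : 0 ≤ 1 / ((K : 𝓜.R) + 1) := by positivity
  linarith

/-- the terms of the series -/
noncomputable def muT {X : Type u} [Rep 𝓜 X] (m : IFun 𝓜 (𝓜.N × IFun 𝓜 X 𝓜.R) 𝓜.R)
    (f : IFun 𝓜 X 𝓜.R) : IFun 𝓜 𝓜.N 𝓜.R := ⟨fun n => muW 𝓜 n * m (n, f), by fun_prop⟩

theorem muT_apply {X : Type u} [Rep 𝓜 X] (m : IFun 𝓜 (𝓜.N × IFun 𝓜 X 𝓜.R) 𝓜.R)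
    (f : IFun 𝓜 X 𝓜.R) (n : 𝓜.N) : muT m f n = muW 𝓜 n * m (n, f) := rfl

theorem abs_rsum_muT {X : Type u} [Rep 𝓜 X] {m : IFun 𝓜 (𝓜.N × IFun 𝓜 X 𝓜.R) 𝓜.R}
    {f : IFun 𝓜 X 𝓜.R} {C : 𝓜.R} (h : ∀ n, |m (n, f)| ≤ C) (K : 𝓜.N) :
    |rsum (muT m f) K| ≤ C := by
  have hC : 0 ≤ C := (abs_nonneg _).trans (h 0)
  have hK := rsum_muW_le K
  have h1 : rsum (muT m f) K ≤ rsum (C • muW 𝓜) K := by
    refine rsum_le fun i _ => ?_
    rw [muT_apply, smulF_apply]
    have h2 := muW_pos i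
    have h3 := (abs_le.1 (h i)).2
    nlinarith
  have h2 : rsum ((-C) • muW 𝓜) K ≤ rsum (muT m f) K := by
    refine rsum_le fun i _ => ?_
    rw [muT_apply, smulF_apply]
    have h2 := muW_pos i
    have h3 := (abs_le.1 (h i)).1
    nlinarith
  rw [rsum_smul] at h1 h2
  rw [abs_le]
  constructor <;> nlinarith

theorem mu (h : StMuN.{u}) : StMu.{u} := by
  intro 𝓜 U X _ d hU hX hd hTB
  obtain ⟨m, hm⟩ := h 𝓜 U X d hU hX hd hTB
  obtain ⟨x₀⟩ := hX
  have hd0 : ∀ x y, 0 ≤ d (x, y) := fun x y => hd.toPM.nonneg (x := x) (y := y) trivial trivial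
  -- Lipschitz functions
  have lipc : ∀ c : 𝓜.R, Lip d |c| (c • (1 : IFun 𝓜 X 𝓜.R)) := by
    intro c
    refine ⟨fun y => ?_, fun y z => ?_⟩
    · simp
    · simp only [smulF_apply, oneF_apply, sub_self, abs_zero]
      exact mul_nonneg (abs_nonneg c) (hd0 y z)
  have liple : ∀ {C C' : 𝓜.R} {f : IFun 𝓜 X 𝓜.R}, C ≤ C' → Lip d C f → Lip d C' f := by
    intro C C' f hCC hf
    refine ⟨fun y => (hf.1 y).trans hCC, fun y z => (hf.2 y z).trans ?_⟩
    exact mul_le_mul_of_nonneg_right hCC (hd0 y z)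
  have lipadd : ∀ {C : 𝓜.R} {f g : IFun 𝓜 X 𝓜.R}, Lip d C f → Lip d C g →
      Lip d (C + C) (f + g) := by
    intro C f g hf hg
    refine ⟨fun y => ?_, fun y z => ?_⟩
    · rw [addF_apply]
      exact (abs_add_le _ _).trans (add_le_add (hf.1 y) (hg.1 y))
    · have e : (f + g) y - (f + g) z = (f y - f z) + (g y - g z) := by
        rw [addF_apply, addF_apply]; ring
      rw [e, add_mul]
      exact (abs_add_le _ _).trans (add_le_add (hf.2 y z) (hg.2 y z))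
  have lipsmul : ∀ {C : 𝓜.R} {f : IFun 𝓜 X 𝓜.R} (c : 𝓜.R), Lip d C f →
      Lip d (|c| * C) (c • f) := by
    intro C f c hf
    refine ⟨fun y => ?_, fun y z => ?_⟩
    · rw [smulF_apply, abs_mul]
      exact mul_le_mul_of_nonneg_left (hf.1 y) (abs_nonneg c)
    · rw [smulF_apply, smulF_apply, ← mul_sub, abs_mul, mul_assoc]
      exact mul_le_mul_of_nonneg_left (hf.2 y z) (abs_nonneg c)
  -- the means are bounded
  have mconst : ∀ (n : 𝓜.N) (c : 𝓜.R), m (n, c • (1 : IFun 𝓜 X 𝓜.R)) = c := by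
    intro n c
    have h1 := (hm n).1.smul c 1 |1| (bl_univ.2 (by simpa using lipc 1))
    have h2 := (hm n).1.one
    rw [h1, h2, mul_one]
  have mle : ∀ (n : 𝓜.N) {C : 𝓜.R} {f g : IFun 𝓜 X 𝓜.R}, Lip d C f → Lip d C g →
      (∀ x, f x ≤ g x) → m (n, f) ≤ m (n, g) := by
    intro n C f g hf hg hfg
    exact (hm n).1.mono f g C (bl_univ.2 hf) (bl_univ.2 hg) fun x _ => hfg x
  have mabs : ∀ {C : 𝓜.R} {f : IFun 𝓜 X 𝓜.R}, Lip d C f → ∀ n, |m (n, f)| ≤ C := by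
    intro C f hf n
    have hC : 0 ≤ C := (abs_nonneg _).trans (hf.1 x₀)
    have hc1 : Lip d C (C • (1 : IFun 𝓜 X 𝓜.R)) := by
      have := lipc C
      rwa [abs_of_nonneg hC] at this
    have hc2 : Lip d C ((-C) • (1 : IFun 𝓜 X 𝓜.R)) := by
      have := lipc (-C)
      rwa [abs_neg, abs_of_nonneg hC] at this
    have h1 := mle n hf hc1 fun x => by
      simpa using (abs_le.1 (hf.1 x)).2
    have h2 := mle n hc2 hf fun x => by
      simpa using (abs_le.1 (hf.1 x)).1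
    rw [mconst] at h1 h2
    exact abs_le.2 ⟨h2, h1⟩
  have mnn : ∀ (n : 𝓜.N) {C : 𝓜.R} {f : IFun 𝓜 X 𝓜.R}, Lip d C f → (∀ x, 0 ≤ f x) →
      0 ≤ m (n, f) := by
    intro n C f hf hf0
    have hC : 0 ≤ C := (abs_nonneg _).trans (hf.1 x₀)
    have h1 := mle n (f := (0 : 𝓜.R) • (1 : IFun 𝓜 X 𝓜.R)) (g := f) (C := C)
      (liple (by simpa using hC) (lipc 0)) hf fun x => by simpa using hf0 x
    rwa [mconst] at h1
  -- the functional
  set μ : IFun 𝓜 (IFun 𝓜 X 𝓜.R) 𝓜.R :=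
    ⟨fun f => ulim U (fun K => rsum (⟨fun n => muW 𝓜 n * m (n, f), by fun_prop⟩ :
      IFun 𝓜 𝓜.N 𝓜.R) K), by fun_prop⟩ with hμ
  have hlim : ∀ {C : 𝓜.R} {f : IFun 𝓜 X 𝓜.R}, Lip d C f →
      IsUlim U (fun K => rsum (muT m f) K) (μ f) := by
    intro C f hf
    exact ulim_spec hU (a := fun K => rsum (muT m f) K) (by fun_prop) (abs_rsum_muT (mabs hf))
  refine ⟨⟨d, μ, ⟨x₀⟩, hd, hTB, ?_, ?_, ?_, ?_, ?_⟩, rfl⟩
  · intro f g C hf hg
    have h1 := (hlim hf).add hU (hlim hg)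
    have h2 := hlim (lipadd hf hg)
    have e : (fun K => rsum (muT m (f + g)) K) =
        fun K => rsum (muT m f) K + rsum (muT m g) K := by
      funext K
      rw [← rsum_add]
      congr 1
      ext n
      rw [addF_apply, muT_apply, muT_apply, muT_apply]
      have h3 := (hm n).1.add f g C (bl_univ.2 hf) (bl_univ.2 hg)
      rw [h3, mul_add]
    rw [e] at h2
    exact h2.unique hU h1
  · intro c f C hf
    have h1 := IsUlim.const_mul c (hlim hf)
    have h2 := hlim (lipsmul c hf)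
    have e : (fun K => rsum (muT m (c • f)) K) = fun K => c * rsum (muT m f) K := by
      funext K
      rw [← rsum_smul]
      congr 1
      ext n
      rw [smulF_apply, muT_apply, muT_apply]
      have h3 := (hm n).1.smul c f C (bl_univ.2 hf)
      rw [h3]
      ring
    rw [e] at h2
    exact h2.unique hU h1
  · intro f g C hf hg hfg
    refine (hlim hf).mono hU (hlim hg) (ev_all hU fun K => rsum_le fun n _ => ?_)
    rw [muT_apply, muT_apply]
    exact mul_le_mul_of_nonneg_left (mle n hf hg hfg) (muW_pos n).le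
  · have h1 : Lip d |1| (1 : IFun 𝓜 X 𝓜.R) := by simpa using lipc 1
    refine (hlim h1).le_const hU (ev_all hU fun K => ?_)
    refine (le_trans (le_of_eq ?_) (rsum_muW_le K))
    congr 1
    ext n
    have h2 := (hm n).1.one
    rw [muT_apply, h2, mul_one]
  · rintro f C hf hf0 ⟨x, hx⟩
    have hfx : 0 < f x := lt_of_le_of_ne (hf0 x) (Ne.symm hx)
    have hC : 0 < C := lt_of_lt_of_le hfx ((le_abs_self _).trans (hf.1 x))
    obtain ⟨n, hn⟩ := exists_one_div_lt (𝓜 := 𝓜) (ε := f x / (2 * C)) (by positivity)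
    obtain ⟨-, c, hc, hcm⟩ := hm n
    have h1 := hcm f C hf hf0 x (f x / 2) (by linarith) fun y hy => by
      have h2 := (abs_le.1 (hf.2 x y)).2
      have h3 : C * d (x, y) ≤ f x / 2 := by
        calc C * d (x, y) ≤ C * (f x / (2 * C)) :=
              mul_le_mul_of_nonneg_left (hy.trans hn.le) hC.le
          _ = f x / 2 := by field_simp
      linarith
    have h2 : 0 < muW 𝓜 n * (c * (f x / 2)) := mul_pos (muW_pos n) (by positivity)
    refine lt_of_lt_of_le h2 ?_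
    refine (hlim hf).const_le hU (ev_big hU (n + 1) fun K hK => ?_)
    have h3 := single_le_rsum (f := muT m f) (fun i => by
      rw [muT_apply]
      exact mul_nonneg (muW_pos i).le (mnn i hf hf0)) (N_add_one_le_iff.1 hK)
    refine le_trans ?_ h3
    rw [muT_apply]
    exact mul_le_mul_of_nonneg_left h1 (muW_pos n).le

end Ctx

end Pool.Agent.Lib.MP_c7a422_lc.Z
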