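import Pool.Agent.Lib.MP_c7a422_lc.Z.Spec

/-!
# Canonical means which charge all balls of radius `1 / (n + 1)`
-/

namespace Pool.Agent.Lib.MP_c7a422_lc.Z

universe u

namespace Ctx

namespace MuNAux

variable {𝓜 : Ctx.{u}} {X : Type u} [Rep 𝓜 X]

/-- the first `k` terms of `e` are a `1 / (n + 1)`-net -/
def NetK (d : IFun 𝓜 (X × X) 𝓜.R) (n k : 𝓜.N) (e : IFun 𝓜 𝓜.N X) : Prop :=
  ¬ ∃ y, ¬ ∃ i, i < k ∧ d (y, e i) ≤ 1 / ((n : 𝓜.R) + 1)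

theorem netK_iff {d : IFun 𝓜 (X × X) 𝓜.R} {n k : 𝓜.N} {e : IFun 𝓜 𝓜.N X} :
    NetK d n k e ↔ ∀ y, ∃ i, i < k ∧ d (y, e i) ≤ 1 / ((n : 𝓜.R) + 1) := by
  unfold NetK
  rw [not_exists]
  exact forall_congr' fun y => not_not

@[fun_prop]
theorem dfn_netK {γ : Type*} [Rep 𝓜 γ] {d : IFun 𝓜 (X × X) 𝓜.R} {n k : γ → 𝓜.N}
    {e : γ → IFun 𝓜 𝓜.N X} (hn : 𝓜.Dfn n) (hk : 𝓜.Dfn k) (he : 𝓜.Dfn e) :
    𝓜.Dfn (fun c => NetK d (n c) (k c) (e c)) := by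
  unfold NetK
  fun_prop

theorem exists_size (h3 : StNet.{u}) {d : IFun 𝓜 (X × X) 𝓜.R} (hX : Nonempty X)
    (htb : TB univ d) : ∃ Nf : IFun 𝓜 𝓜.N 𝓜.N, ∀ n, ∃ e, NetK d n (Nf n) e := by
  have hex : ∀ n : 𝓜.N, ∃ k, ∃ e, NetK d n k e := by
    intro n
    have hn := toR_nonneg n
    obtain ⟨x⟩ := hX
    obtain ⟨k, e, he⟩ := h3 𝓜 X univ d (1 / ((n : 𝓜.R) + 1)) ⟨x, trivial⟩
      (htb _ (by positivity))
    exact ⟨k, e, netK_iff.2 fun y => he.2 y trivial⟩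
  have hleast : ∀ n : 𝓜.N, ∃ k, (∃ e, NetK d n k e) ∧ ∀ k', (∃ e, NetK d n k' e) → k ≤ k' :=
    fun n => exists_least (P := fun k => ∃ e, NetK d n k e) (by fun_prop) (hex n)
  choose f hf using hleast
  have hd : 𝓜.Dfn f := by
    refine Dfn.of_graph (s := fun n k => (∃ e, NetK d n k e) ∧
      ¬ ∃ k', (∃ e, NetK d n k' e) ∧ ¬ k ≤ k') (by fun_prop) fun n k => ?_
    constructor
    · rintro ⟨h1, h2⟩
      simp only [not_exists, not_and, not_not] at h2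
      exact le_antisymm ((hf n).2 k h1) (h2 _ (hf n).1)
    · rintro rfl
      refine ⟨(hf n).1, ?_⟩
      simp only [not_exists, not_and, not_not]
      intro k' he
      exact (hf n).2 k' he
  exact ⟨⟨f, hd⟩, fun n => (hf n).1⟩

section fixed

variable (d : IFun 𝓜 (X × X) 𝓜.R) (Nf : IFun 𝓜 𝓜.N 𝓜.N)

/-- the space of all nets -/
def Sn (n : 𝓜.N) : ISet 𝓜 (IFun 𝓜 𝓜.N X) := ⟨fun e => NetK d n (Nf n) e, by fun_prop⟩

@[fun_prop]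
theorem dfn_Sn {γ : Type*} [Rep 𝓜 γ] {n : γ → 𝓜.N} (hn : 𝓜.Dfn n) :
    𝓜.Dfn (fun c => Sn d Nf (n c)) := by
  unfold Sn
  fun_prop

/-- the set of distances -/
def dset (n : 𝓜.N) (e e' : IFun 𝓜 𝓜.N X) (t : 𝓜.R) : Prop :=
  t = 0 ∨ ∃ i, i < Nf n ∧ t = d (e i, e' i)

@[fun_prop]
theorem dfn_dset {γ : Type*} [Rep 𝓜 γ] {n : γ → 𝓜.N} {e e' : γ → IFun 𝓜 𝓜.N X} {t : γ → 𝓜.R}
    (hn : 𝓜.Dfn n) (he : 𝓜.Dfn e) (he' : 𝓜.Dfn e') (ht : 𝓜.Dfn t) :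
    𝓜.Dfn (fun c => dset d Nf (n c) (e c) (e' c) (t c)) := by
  unfold dset
  fun_prop

/-- the distance of nets -/
noncomputable def rho (n : 𝓜.N) : IFun 𝓜 (IFun 𝓜 𝓜.N X × IFun 𝓜 𝓜.N X) 𝓜.R :=
  ⟨fun p => 𝓜.sup (fun t => dset d Nf n p.1 p.2 t), by fun_prop⟩

theorem rho_apply (n : 𝓜.N) (e e' : IFun 𝓜 𝓜.N X) :
    rho d Nf n (e, e') = 𝓜.sup (fun t => dset d Nf n e e' t) := rfl

@[fun_prop]
theorem dfn_rho {γ : Type*} [Rep 𝓜 γ] {n : γ → 𝓜.N} (hn : 𝓜.Dfn n) :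
    𝓜.Dfn (fun c => rho d Nf (n c)) := by
  unfold rho
  fun_prop

variable {d Nf}

theorem dset_bdd {D : 𝓜.R} (hD0 : 0 ≤ D) (hD : ∀ x y, d (x, y) ≤ D) (n : 𝓜.N)
    (e e' : IFun 𝓜 𝓜.N X) : ∃ b, ∀ t, dset d Nf n e e' t → t ≤ b := by
  refine ⟨D, fun t ht => ?_⟩
  rcases ht with rfl | ⟨i, -, rfl⟩
  · exact hD0
  · exact hD _ _

theorem rho_nonneg {D : 𝓜.R} (hD0 : 0 ≤ D) (hD : ∀ x y, d (x, y) ≤ D) (n : 𝓜.N)
    (e e' : IFun 𝓜 𝓜.N X) : 0 ≤ rho d Nf n (e, e') :=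
  le_sup (by fun_prop) (dset_bdd hD0 hD n e e') (Or.inl rfl)

theorem le_rho {D : 𝓜.R} (hD0 : 0 ≤ D) (hD : ∀ x y, d (x, y) ≤ D) {n : 𝓜.N}
    (e e' : IFun 𝓜 𝓜.N X) {i : 𝓜.N} (hi : i < Nf n) : d (e i, e' i) ≤ rho d Nf n (e, e') :=
  le_sup (by fun_prop) (dset_bdd hD0 hD n e e') (Or.inr ⟨i, hi, rfl⟩)

theorem rho_le {n : 𝓜.N} {e e' : IFun 𝓜 𝓜.N X} {b : 𝓜.R} (hb : 0 ≤ b)
    (h : ∀ i, i < Nf n → d (e i, e' i) ≤ b) : rho d Nf n (e, e') ≤ b := by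
  refine sup_le (by fun_prop) ⟨0, Or.inl rfl⟩ fun t ht => ?_
  rcases ht with rfl | ⟨i, hi, rfl⟩
  · exact hb
  · exact h i hi

theorem pm {D : 𝓜.R} (hD0 : 0 ≤ D) (hD : ∀ x y, d (x, y) ≤ D) (hd : PM univ d) (n : 𝓜.N) :
    PM (Sn d Nf n) (rho d Nf n) where
  self e _ := by
    refine le_antisymm (rho_le le_rfl fun i _ => ?_) (rho_nonneg hD0 hD n e e)
    rw [hd.self _ trivial]
  symm e e' _ _ := by
    refine le_antisymm (rho_le (rho_nonneg hD0 hD _ _ _) fun i hi => ?_)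
      (rho_le (rho_nonneg hD0 hD _ _ _) fun i hi => ?_)
    · rw [hd.symm _ _ trivial trivial]
      exact le_rho hD0 hD e' e hi
    · rw [hd.symm _ _ trivial trivial]
      exact le_rho hD0 hD e e' hi
  tri e e' e'' _ _ _ := by
    refine rho_le (add_nonneg (rho_nonneg hD0 hD _ _ _) (rho_nonneg hD0 hD _ _ _))
      fun i hi => ?_
    refine (hd.tri _ (e' i) _ trivial trivial trivial).trans ?_
    exact add_le_add (le_rho hD0 hD e e' hi) (le_rho hD0 hD e' e'' hi)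

theorem tb (h2 : StPack.{u}) (htb : TB univ d) (n : 𝓜.N) : TB (Sn d Nf n) (rho d Nf n) := by
  intro ε hε
  obtain ⟨m, c, hc, hc2⟩ := h2 𝓜 (IFun 𝓜 𝓜.N X) univ
    ⟨fun p => d (p.2.1 p.1, p.2.2 p.1), by fun_prop⟩ ε (Nf n) (fun i _ => by
      obtain ⟨m, c, hc, hc2⟩ := htb ε hε
      exact ⟨m, ⟨fun e => c (e i), by fun_prop⟩, fun e _ => hc _ trivial,
        fun e e' _ _ h => hc2 _ _ trivial trivial h⟩)
  exact ⟨m, c, fun y _ => hc y trivial, fun e e' _ _ h =>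
    rho_le hε.le fun i hi => hc2 e e' trivial trivial h i hi⟩

variable (Nf)

/-- the average over the terms of the net -/
noncomputable def av (n : 𝓜.N) (f : IFun 𝓜 X 𝓜.R) : IFun 𝓜 (IFun 𝓜 𝓜.N X) 𝓜.R :=
  ⟨fun e => rsum ⟨fun i => f (e i), by fun_prop⟩ (Nf n) / (Nf n : 𝓜.R), by fun_prop⟩

theorem av_apply (n : 𝓜.N) (f : IFun 𝓜 X 𝓜.R) (e : IFun 𝓜 𝓜.N X) :
    av Nf n f e = rsum ⟨fun i => f (e i), by fun_prop⟩ (Nf n) / (Nf n : 𝓜.R) := rfl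

@[fun_prop]
theorem dfn_av {γ : Type*} [Rep 𝓜 γ] {n : γ → 𝓜.N} {f : γ → IFun 𝓜 X 𝓜.R} (hn : 𝓜.Dfn n)
    (hf : 𝓜.Dfn f) : 𝓜.Dfn (fun c => av Nf (n c) (f c)) := by
  unfold av
  fun_prop

variable {Nf}

theorem av_add (n : 𝓜.N) (f g : IFun 𝓜 X 𝓜.R) : av Nf n (f + g) = av Nf n f + av Nf n g := by
  ext e
  rw [addF_apply, av_apply, av_apply, av_apply, ← add_div, ← rsum_add]
  rfl

theorem av_smul (n : 𝓜.N) (c : 𝓜.R) (f : IFun 𝓜 X 𝓜.R) : av Nf n (c • f) = c • av Nf n f := by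
  ext e
  rw [smulF_apply, av_apply, av_apply, ← mul_div_assoc, ← rsum_smul]
  rfl

theorem av_one {n : 𝓜.N} (hN : 0 < (Nf n : 𝓜.R)) :
    av Nf n (1 : IFun 𝓜 X 𝓜.R) = 1 := by
  ext e
  rw [av_apply, oneF_apply]
  have h : rsum (⟨fun i => (1 : IFun 𝓜 X 𝓜.R) (e i), by fun_prop⟩ : IFun 𝓜 𝓜.N 𝓜.R) (Nf n) =
      (Nf n : 𝓜.R) * 1 := rsum_const 1 (Nf n)
  rw [h, mul_one, div_self hN.ne']

theorem av_mono {n : 𝓜.N} (hN : 0 < (Nf n : 𝓜.R)) {f g : IFun 𝓜 X 𝓜.R}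
    (h : ∀ x, f x ≤ g x) (e : IFun 𝓜 𝓜.N X) : av Nf n f e ≤ av Nf n g e := by
  rw [av_apply, av_apply]
  exact div_le_div_of_nonneg_right (rsum_le fun i _ => h (e i)) hN.le

theorem av_bl {D : 𝓜.R} (hD0 : 0 ≤ D) (hD : ∀ x y, d (x, y) ≤ D) (hX : Nonempty X) {n : 𝓜.N}
    (hN : 0 < (Nf n : 𝓜.R)) {f : IFun 𝓜 X 𝓜.R} {C : 𝓜.R} (hf : BL univ d C f) :
    BL (Sn d Nf n) (rho d Nf n) C (av Nf n f) := by
  obtain ⟨x⟩ := hX
  have hC : 0 ≤ C := (abs_nonneg _).trans (hf.1 x trivial)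
  constructor
  · intro e _
    rw [av_apply, abs_div, abs_of_pos hN, div_le_iff₀ hN, mul_comm]
    exact abs_rsum_le fun i _ => hf.1 _ trivial
  · intro e e' _ _
    have h1 : av Nf n f e - av Nf n f e' =
        rsum (⟨fun i => f (e i) - f (e' i), by fun_prop⟩ : IFun 𝓜 𝓜.N 𝓜.R) (Nf n) /
          (Nf n : 𝓜.R) := by
      rw [av_apply, av_apply, ← sub_div]
      congr 1
      have h2 := rsum_add (⟨fun i => f (e i) - f (e' i), by fun_prop⟩ : IFun 𝓜 𝓜.N 𝓜.R)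
        ⟨fun i => f (e' i), by fun_prop⟩ (Nf n)
      have h3 : (⟨fun i => f (e i) - f (e' i), by fun_prop⟩ : IFun 𝓜 𝓜.N 𝓜.R) +
          ⟨fun i => f (e' i), by fun_prop⟩ = ⟨fun i => f (e i), by fun_prop⟩ := by
        ext i
        show f (e i) - f (e' i) + f (e' i) = f (e i)
        ring
      rw [h3] at h2
      rw [h2]
      ring
    rw [h1, abs_div, abs_of_pos hN, div_le_iff₀ hN, mul_comm]
    refine abs_rsum_le fun i hi => ?_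
    refine (hf.2 _ _ trivial trivial).trans (mul_le_mul_of_nonneg_left ?_ hC)
    exact le_rho hD0 hD e e' hi

end fixed

end MuNAux

open MuNAux in
/-- canonical means -/
theorem muN (h1 : StLam.{u}) (h2 : StPack.{u}) (h3 : StNet.{u}) (h5 : StBdd.{u}) :
    StMuN.{u} := by
  intro 𝓜 U X _ d hU hX hmet htb
  obtain ⟨Nf, hNf⟩ := exists_size h3 hX htb
  obtain ⟨D, hD0, hD'⟩ := h5 𝓜 X univ d hmet.toPM htb
  have hD : ∀ x y, d (x, y) ≤ D := fun x y => hD' x y trivial trivial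
  obtain ⟨Lam, hLd, hL⟩ := h1 𝓜 U (IFun 𝓜 𝓜.N X) hU
  have hN : ∀ n : 𝓜.N, 0 < (Nf n : 𝓜.R) := by
    intro n
    obtain ⟨x⟩ := hX
    obtain ⟨e, he⟩ := hNf n
    obtain ⟨i, hi, -⟩ := netK_iff.1 he x
    exact lt_of_le_of_lt (toR_nonneg i) (toR_lt.2 hi)
  have hne : ∀ n, ∃ e, Sn d Nf n e := hNf
  have hpm : ∀ n, PM (Sn d Nf n) (rho d Nf n) := fun n => pm hD0.le hD hmet.toPM n
  have hmean : ∀ n, IsMean (Sn d Nf n) (rho d Nf n) (Lam (Sn d Nf n) (rho d Nf n)) :=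
    fun n => hL _ _ (hne n) (hpm n) (tb h2 htb n)
  refine ⟨⟨fun p => Lam (Sn d Nf p.1) (rho d Nf p.1) (av Nf p.1 p.2), by fun_prop⟩,
    fun n => ⟨?_, 1 / (Nf n : 𝓜.R), one_div_pos.2 (hN n), ?_⟩⟩
  · have hm := hmean n
    refine ⟨?_, ?_, ?_, ?_⟩
    · intro F G C hF hG
      show Lam _ _ (av Nf n (F + G)) = Lam _ _ (av Nf n F) + Lam _ _ (av Nf n G)
      rw [av_add]
      exact hm.add _ _ C (av_bl hD0.le hD hX (hN n) hF) (av_bl hD0.le hD hX (hN n) hG)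
    · intro c F C hF
      show Lam _ _ (av Nf n (c • F)) = c * Lam _ _ (av Nf n F)
      rw [av_smul]
      exact hm.smul _ _ C (av_bl hD0.le hD hX (hN n) hF)
    · intro F G C hF hG hFG
      exact hm.mono _ _ C (av_bl hD0.le hD hX (hN n) hF) (av_bl hD0.le hD hX (hN n) hG)
        fun e _ => av_mono (hN n) (fun x => hFG x trivial) e
    · show Lam _ _ (av Nf n 1) = 1
      rw [av_one (hN n)]
      exact hm.one
  · intro f C hf hf0 x a ha hball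
    have hm := hmean n
    show 1 / (Nf n : 𝓜.R) * a ≤ Lam _ _ (av Nf n f)
    set b : 𝓜.R := 1 / (Nf n : 𝓜.R) * a with hb
    have hb0 : 0 ≤ b := mul_nonneg (one_div_pos.2 (hN n)).le ha
    have hC0 : 0 ≤ C := (abs_nonneg _).trans (hf.1 x)
    have hbl : BL (Sn d Nf n) (rho d Nf n) (C + b) (av Nf n f) := by
      have h6 := av_bl (d := d) hD0.le hD hX (hN n) (bl_univ.2 hf)
      refine ⟨fun e he => (h6.1 e he).trans (by linarith), fun e e' he he' =>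
        (h6.2 e e' he he').trans (mul_le_mul_of_nonneg_right (by linarith) ?_)⟩
      exact rho_nonneg hD0.le hD n e e'
    have hbl2 : BL (Sn d Nf n) (rho d Nf n) (C + b) (b • (1 : IFun 𝓜 (IFun 𝓜 𝓜.N X) 𝓜.R)) := by
      refine ⟨fun e _ => ?_, fun e e' _ _ => ?_⟩
      · rw [smulF_apply, oneF_apply, mul_one, abs_of_nonneg hb0]
        linarith
      · rw [smulF_apply, smulF_apply, oneF_apply, oneF_apply, sub_self, abs_zero]
        exact mul_nonneg (by linarith) (rho_nonneg hD0.le hD n e e')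
    have hbl1 : BL (Sn d Nf n) (rho d Nf n) 1 (1 : IFun 𝓜 (IFun 𝓜 𝓜.N X) 𝓜.R) := by
      refine ⟨fun e _ => ?_, fun e e' _ _ => ?_⟩
      · rw [oneF_apply, abs_one]
      · rw [oneF_apply, oneF_apply, sub_self, abs_zero, one_mul]
        exact rho_nonneg hD0.le hD n e e'
    have h7 := hm.mono _ _ (C + b) hbl2 hbl fun e he => by
      rw [smulF_apply, oneF_apply, mul_one, av_apply, hb, le_div_iff₀ (hN n)]
      obtain ⟨i, hi, hid⟩ := netK_iff.1 he x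
      have h8 : a ≤ f (e i) := hball _ hid
      have h9 : f (e i) ≤ rsum (⟨fun i => f (e i), by fun_prop⟩ : IFun 𝓜 𝓜.N 𝓜.R) (Nf n) :=
        single_le_rsum (f := ⟨fun i => f (e i), by fun_prop⟩) (fun j => hf0 _) hi
      have h10 : 1 / (Nf n : 𝓜.R) * a * (Nf n : 𝓜.R) = a := by
        have := (hN n).ne'
        field_simp
      rw [h10]
      exact h8.trans h9
    rwa [hm.smul b 1 1 hbl1, hm.one, mul_one] at h7

end Ctx

end Pool.Agent.Lib.MP_c7a422_lc.Z
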