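import Pool.Agent.Lib.MP_c7a422_lc.Z.Spec

/-!
# From the typed theorem to the statement about models
-/

namespace Pool.Agent.Lib.MP_c7a422_lc.Z

universe u

namespace Ctx

variable {𝓜 : Ctx.{u}}

theorem dfn_mem (X s : 𝓜.M) : 𝓜.Dfn (fun x : El 𝓜.E X => 𝓜.E x.1 s) :=
  dfn_iff.2 ⟨s, fun _ => Iff.rfl⟩

/-- internal relations belong to the model -/
theorem rel2_of_dfn {X : 𝓜.M} (r : ISet 𝓜 (El 𝓜.E X × El 𝓜.E X)) :
    Rel2 𝓜.E (fun x y : El 𝓜.E X => r (x, y)) := by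
  obtain ⟨k, hk⟩ := dfn_iff.1 (ifun_dfn r)
  obtain ⟨m, hm⟩ := 𝓜.sepD (n := 1) (P := fun v => 𝓜.E (v 0) (v 1)) (dmem _ _) ![k]
    (𝓜.car (El 𝓜.E X × El 𝓜.E X))
  refine ⟨m, fun z => ?_⟩
  rw [hm]
  show 𝓜.E z (𝓜.car (El 𝓜.E X × El 𝓜.E X)) ∧ 𝓜.E z k ↔ _
  simp only [isPair_iff]
  constructor
  · rintro ⟨h1, h2⟩
    rw [mem_car] at h1
    obtain ⟨⟨x, y⟩, rfl⟩ := h1
    exact ⟨x, y, (hk _).1 h2, rfl⟩
  · rintro ⟨x, y, h1, rfl⟩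
    exact ⟨code_mem (x, y), (hk (x, y)).2 h1⟩

theorem wellOrderable_of_woOn {X : 𝓜.M} (h : WOon (univ : ISet 𝓜 (El 𝓜.E X))) :
    WellOrderable 𝓜.E X := by
  obtain ⟨r, hr⟩ := h
  refine ⟨fun x y => r (x, y), rel2_of_dfn r, fun x => hr.irrefl x trivial,
    fun x y z => hr.trans x y z trivial trivial trivial, fun x y => hr.total x y trivial trivial,
    fun s hs => ?_⟩
  exact hr.least ⟨fun x => 𝓜.E x.1 s, dfn_mem X s⟩ (fun _ _ => trivial) hs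

theorem wellOrderable_of_empty {X : 𝓜.M} (h : ¬ Nonempty (El 𝓜.E X)) : WellOrderable 𝓜.E X := by
  refine ⟨fun _ _ => False, ?_, fun x => absurd ⟨x⟩ h, fun x => absurd ⟨x⟩ h,
    fun x => absurd ⟨x⟩ h, ?_⟩
  · exact ⟨𝓜.em, fun z => ⟨fun hz => absurd hz (not_mem_em z), by
      rintro ⟨x, y, hf, -⟩
      exact hf.elim⟩⟩
  · rintro s ⟨x, -⟩
    exact absurd ⟨x⟩ h

end Ctx

open Ctx in
theorem out' (hA : StTransA.{u}) (hB : StTransB.{u}) (hM : StMain.{u}) (𝓜 : Ctx.{u})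
    (hC : MCWO 𝓜.E) (X : 𝓜.M) (d : El 𝓜.E X → El 𝓜.E X → El 𝓜.E 𝓜.rl.R)
    (hd : IsMetric 𝓜.rl d) (htb : TotallyBounded 𝓜.rl d) : WellOrderable 𝓜.E X := by
  by_cases hX : Nonempty (El 𝓜.E X)
  · obtain ⟨d', h1, h2⟩ := hB 𝓜 X d hd htb
    exact wellOrderable_of_woOn (hM 𝓜 (El 𝓜.E X) d' (hA 𝓜 hC) hX h1 h2)
  · exact wellOrderable_of_empty hX

open Ctx in
theorem out (hA : StTransA.{u}) (hB : StTransB.{u}) (hM : StMain.{u}) {M : Type u}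
    (E : M → M → Prop) (zf : IsZF E) (hC : MCWO E) : MTBWO E :=
  fun ℛ X d hd htb => out' hA hB hM ⟨M, E, zf, ℛ⟩ hC X d hd htb

end Pool.Agent.Lib.MP_c7a422_lc.Z
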