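import Pool.Agent.Lib.MP_c7a422_lc.Z.SPBase

/-!
# The iterates of `T² / s` tend to `0` on the orthogonal complement of the eigenfunctions
-/

namespace Pool.Agent.Lib.MP_c7a422_lc.Z

universe u

namespace PowP

open Ctx

variable {𝓜 : Ctx.{u}} {X : Type u} [Rep 𝓜 X] (P : SP 𝓜 X)

/-- `h` is Lipschitz and orthogonal to all eigenfunctions -/
def VV (h : IFun 𝓜 X 𝓜.R) : Prop := P.L h ∧ ∀ lam f, P.Eig lam f → P.ip h f = 0

@[fun_prop]
theorem dfn_VV {γ : Type*} [Rep 𝓜 γ] {h : γ → IFun 𝓜 X 𝓜.R} (hh : 𝓜.Dfn h) :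
    𝓜.Dfn (fun c => VV P (h c)) := by
  unfold VV
  simp only [al_iff, imp_iff_not_or]
  fun_prop

variable {P} {h : IFun 𝓜 X 𝓜.R} {s : 𝓜.R}

theorem VV.T (hF : StFub.{u}) (hB : StBdd.{u}) (hh : VV P h) : VV P (P.T h) := by
  refine ⟨P.L_T hB hh.1, fun lam f hf => ?_⟩
  rw [hF 𝓜 X P h f hh.1 hf.2.1]
  exact hh.2 lam _ (hf.T hB)

theorem VV.smul (c : 𝓜.R) (hh : VV P h) : VV P (c • h) := by
  refine ⟨P.L_smul c hh.1, fun lam f hf => ?_⟩
  rw [P.ip_smul_left c hh.1 hf.2.1, hh.2 lam f hf, mul_zero]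

theorem it_zero (s : 𝓜.R) (h : IFun 𝓜 X 𝓜.R) : P.it s h 0 = h := by
  unfold SP.it
  exact nrec_zero _ _

theorem it_succ (s : 𝓜.R) (h : IFun 𝓜 X 𝓜.R) (n : 𝓜.N) :
    P.it s h (n + 1) = s⁻¹ • P.T (P.T (P.it s h n)) := by
  unfold SP.it
  rw [nrec_succ]
  rfl

theorem VV.it (hF : StFub.{u}) (hB : StBdd.{u}) (s : 𝓜.R) (hh : VV P h) (n : 𝓜.N) :
    VV P (P.it s h n) := by
  refine ind (P := fun n => VV P (P.it s h n)) (by fun_prop) ?_ (fun n ih => ?_) n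
  · rw [it_zero]
    exact hh
  · rw [it_succ]
    exact ((ih.T hF hB).T hF hB).smul _

theorem TT_symm (hF : StFub.{u}) (hB : StBdd.{u}) {f g : IFun 𝓜 X 𝓜.R} (hf : P.L f) (hg : P.L g) :
    P.ip (P.T (P.T f)) g = P.ip f (P.T (P.T g)) := by
  rw [hF 𝓜 X P _ _ (P.L_T hB hf) hg, hF 𝓜 X P _ _ hf (P.L_T hB hg)]

/-- `⟨h_{m+1}, h_n⟩ = ⟨h_m, h_{n+1}⟩` -/
theorem shift (hF : StFub.{u}) (hB : StBdd.{u}) (s : 𝓜.R) (hh : VV P h) (m n : 𝓜.N) :
    P.ip (P.it s h (m + 1)) (P.it s h n) = P.ip (P.it s h m) (P.it s h (n + 1)) := by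
  have hm := (hh.it hF hB s m).1
  have hn := (hh.it hF hB s n).1
  rw [it_succ, it_succ, P.ip_smul_left _ (P.L_T hB (P.L_T hB hm)) hn,
    P.ip_smul_right _ hm (P.L_T hB (P.L_T hB hn)), TT_symm hF hB hm hn]

/-- `⟨h_m, h_n⟩ = a (m + n)` -/
theorem ip_it (hF : StFub.{u}) (hB : StBdd.{u}) (s : 𝓜.R) (hh : VV P h) (m : 𝓜.N) :
    ∀ n : 𝓜.N, P.ip (P.it s h m) (P.it s h n) = P.ip h (P.it s h (m + n)) := by
  refine ind (P := fun m => ∀ n : 𝓜.N, P.ip (P.it s h m) (P.it s h n) = P.ip h (P.it s h (m + n)))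
    (by simp only [al_iff]; fun_prop) ?_ (fun m ih n => ?_) m
  · intro n
    rw [it_zero, zero_add]
  · rw [shift hF hB s hh, ih]
    congr 2
    ring

theorem parity (k : 𝓜.N) : ∃ j : 𝓜.N, k = j + j ∨ k = j + j + 1 := by
  refine ind (P := fun k => ∃ j : 𝓜.N, k = j + j ∨ k = j + j + 1) (by fun_prop) ?_ (fun k ih => ?_) k
  · exact ⟨0, Or.inl (by simp)⟩
  · obtain ⟨j, rfl | rfl⟩ := ih
    · exact ⟨j, Or.inr rfl⟩
    · exact ⟨j + 1, Or.inl (by ring)⟩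

section main

variable (hF : StFub.{u}) (hB : StBdd.{u}) (hs : 0 < s)
  (hyp : ∀ h, VV P h → P.ip (P.T (P.T h)) h ≤ s * P.ip h h) (hh : VV P h)
include hF hB hs hyp hh

/-- the sequence `a` is decreasing -/
theorem a_succ_le (k : 𝓜.N) : P.ip h (P.it s h (k + 1)) ≤ P.ip h (P.it s h k) := by
  obtain ⟨j, rfl | rfl⟩ := parity k
  · -- `a_{2j+1} ≤ a_{2j}`
    have hj := hh.it hF hB s j
    have e1 : P.ip h (P.it s h (j + j + 1)) = s⁻¹ * P.ip (P.T (P.T (P.it s h j))) (P.it s h j) := by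
      rw [← P.ip_smul_left _ (P.L_T hB (P.L_T hB hj.1)) hj.1, ← it_succ, ip_it hF hB s hh]
      congr 2
      ring
    rw [e1, ← ip_it hF hB s hh]
    have h1 := hyp _ hj
    rw [inv_mul_le_iff₀ hs]
    exact h1
  · -- `a_{2j+2} ≤ a_{2j+1}`
    have hj := hh.it hF hB s j
    have hTj := hj.T hF hB
    have e1 : P.ip h (P.it s h (j + j + 1)) = s⁻¹ * P.ip (P.T (P.it s h j)) (P.T (P.it s h j)) := by
      rw [← hF 𝓜 X P _ _ hTj.1 hj.1, ← P.ip_smul_left _ (P.L_T hB (P.L_T hB hj.1)) hj.1, ← it_succ,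
        ip_it hF hB s hh]
      congr 2
      ring
    have e2 : P.ip h (P.it s h (j + j + 1 + 1)) =
        s⁻¹ * (s⁻¹ * P.ip (P.T (P.T (P.T (P.it s h j)))) (P.T (P.it s h j))) := by
      have hL := P.L_T hB hTj.1
      have e3 : P.ip (P.T (P.T (P.T (P.it s h j)))) (P.T (P.it s h j)) =
          P.ip (P.T (P.T (P.it s h j))) (P.T (P.T (P.it s h j))) := by
        rw [hF 𝓜 X P _ _ (P.L_T hB hTj.1) hTj.1]
      rw [e3, ← P.ip_smul_left _ hL hL, ← P.ip_smul_right _ (P.L_smul _ hL) hL, ← it_succ,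
        ip_it hF hB s hh]
      congr 2
      ring
    rw [e1, e2]
    have h1 := hyp _ hTj
    have hs' : 0 < s⁻¹ := inv_pos.2 hs
    refine mul_le_mul_of_nonneg_left ?_ hs'.le
    rw [inv_mul_le_iff₀ hs]
    exact h1

theorem a_anti (m n : 𝓜.N) (hmn : m ≤ n) : P.ip h (P.it s h n) ≤ P.ip h (P.it s h m) := by
  revert hmn
  refine ind (P := fun n => m ≤ n → P.ip h (P.it s h n) ≤ P.ip h (P.it s h m))
    (by simp only [imp_iff_not_or]; fun_prop) (fun h0 => ?_) (fun n ih hn => ?_) n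
  · rw [le_antisymm h0 (N_nonneg m)]
  · rcases hn.lt_or_eq with h1 | h1
    · exact (a_succ_le hF hB hs hyp hh n).trans (ih (N_lt_add_one_iff.1 h1))
    · rw [h1]

theorem a_nonneg (k : 𝓜.N) : 0 ≤ P.ip h (P.it s h k) := by
  have h1 := a_anti hF hB hs hyp hh k (k + k) (by
    have := N_nonneg k
    exact le_add_of_nonneg_left this)
  rw [← ip_it hF hB s hh] at h1
  exact (P.ip_self_nonneg (hh.it hF hB s k).1).trans h1

/-- Cauchy property in the norm -/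
theorem cauchy {δ : 𝓜.R} (hδ : 0 < δ) : ∃ k₀ : 𝓜.N, ∀ m n, k₀ ≤ m → k₀ ≤ n →
    P.ip (P.it s h m - P.it s h n) (P.it s h m - P.it s h n) ≤ δ := by
  obtain ⟨l, hl⟩ := exists_isLUB (s := fun t : 𝓜.R => ∃ k : 𝓜.N, t = - P.ip h (P.it s h k))
    (by fun_prop) ⟨_, 0, rfl⟩ ⟨0, by
      rintro x ⟨k, rfl⟩
      have := a_nonneg hF hB hs hyp hh k
      linarith⟩
  have h1 : ∃ k₀ : 𝓜.N, l - δ / 2 < - P.ip h (P.it s h k₀) := by
    by_contra hcon
    push Not at hcon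
    have : l ≤ l - δ / 2 := hl.2 (by rintro x ⟨k, rfl⟩; exact hcon k)
    linarith
  obtain ⟨k₀, hk₀⟩ := h1
  have hge : ∀ k : 𝓜.N, k₀ ≤ k → P.ip h (P.it s h k) < δ / 2 - l := fun k hk => by
    have := a_anti hF hB hs hyp hh k₀ k hk
    linarith
  have hle : ∀ k : 𝓜.N, - l ≤ P.ip h (P.it s h k) := fun k => by
    have := hl.1 ⟨k, rfl⟩
    linarith
  refine ⟨k₀, fun m n hm hn => ?_⟩
  have hLm := (hh.it hF hB s m).1
  have hLn := (hh.it hF hB s n).1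
  rw [P.ip_sub_self hLm hLn, ip_it hF hB s hh, ip_it hF hB s hh, ip_it hF hB s hh]
  have h2 := hge (m + m) (hm.trans (le_add_of_nonneg_left (N_nonneg m)))
  have h3 := hge (n + n) (hn.trans (le_add_of_nonneg_left (N_nonneg n)))
  have h4 := hle (m + n)
  linarith

end main

end PowP

namespace Ctx

open PowP

theorem pow (hF : StFub.{u}) (hB : StBdd.{u}) : StPow.{u} := by
  intro 𝓜 X _ P U s hU hs hyp0 h hL hE ε hε
  have hyp : ∀ h, VV P h → P.ip (P.T (P.T h)) h ≤ s * P.ip h h := fun h hh => hyp0 h hh.1 hh.2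
  have hh : VV P h := ⟨hL, hE⟩
  obtain ⟨D, hD1, hD⟩ := P.exists_bound hB
  have hD0 : 0 ≤ D := by linarith
  obtain ⟨c, hc, hcn⟩ := P.exists_norm_bound hL
  have hs' : 0 < s⁻¹ := inv_pos.2 hs
  have hLn : ∀ n, P.L (P.it s h n) := fun n => (hh.it hF hB s n).1
  -- norms of the iterates
  have hnorm : ∀ n, P.ip (P.it s h n) (P.it s h n) ≤ c ^ 2 := by
    intro n
    rw [ip_it hF hB s hh]
    have h1 := a_anti hF hB hs hyp hh 0 (n + n) (N_nonneg _)
    rw [it_zero] at h1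
    exact h1.trans hcn
  -- uniform Lipschitz constants
  set C₁ : 𝓜.R := |s⁻¹| * (D * (D * c)) with hC₁
  have hLip : ∀ n, Lip P.d C₁ (P.it s h (n + 1)) := by
    intro n
    rw [it_succ]
    exact (P.T_lip hD1 hD (P.L_T hB (hLn n)) (mul_nonneg hD0 hc)
      (P.ip_T_self_le hD1 hD (hLn n) hc (hnorm n))).smul _
  -- uniform Cauchy property
  have hunif : ∀ η > 0, ∃ k₀ : 𝓜.N, ∀ m n, k₀ ≤ m → k₀ ≤ n → ∀ x,
      |P.it s h (m + 1) x - P.it s h (n + 1) x| ≤ η := by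
    intro η hη
    have hK : 0 < s⁻¹ * (D * D) := by positivity
    set τ := η / (s⁻¹ * (D * D)) with hτ
    have hτ0 : 0 < τ := div_pos hη hK
    obtain ⟨k₀, hk₀⟩ := cauchy hF hB hs hyp hh (δ := τ ^ 2) (by positivity)
    refine ⟨k₀, fun m n hm hn x => ?_⟩
    have h1 := hk₀ m n hm hn
    have hLd := P.L_sub (hLn m) (hLn n)
    have h2 := P.abs_T_le hD1 hD (P.L_T hB hLd) (mul_nonneg hD0 hτ0.le)
      (P.ip_T_self_le hD1 hD hLd hτ0.le h1) x
    rw [P.T_sub hB (hLn m) (hLn n), P.T_sub hB (P.L_T hB (hLn m)) (P.L_T hB (hLn n)), subF_apply] at h2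
    rw [it_succ, it_succ, smulF_apply, smulF_apply, ← mul_sub, abs_mul, abs_of_pos hs']
    calc s⁻¹ * |P.T (P.T (P.it s h m)) x - P.T (P.T (P.it s h n)) x| ≤ s⁻¹ * (D * (D * τ)) :=
          mul_le_mul_of_nonneg_left h2 hs'.le
      _ = s⁻¹ * (D * D) * τ := by ring
      _ = η := by rw [hτ]; field_simp
  -- the limit function
  have hwd : 𝓜.Dfn (fun x : X => ulim U (fun n => P.it s h (n + 1) x)) := by fun_prop
  set w : IFun 𝓜 X 𝓜.R := ⟨_, hwd⟩ with hw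
  have hwlim : ∀ x, IsUlim U (fun n => P.it s h (n + 1) x) (w x) := by
    intro x
    exact ulim_spec hU (by fun_prop) (fun n => (hLip n).1 x)
  have hwLip : Lip P.d C₁ w := by
    refine ⟨fun x => ?_, fun x y => ?_⟩
    · rw [abs_le]
      exact ⟨(hwlim x).const_le hU (ev_all hU fun n => (abs_le.1 ((hLip n).1 x)).1),
        (hwlim x).le_const hU (ev_all hU fun n => (abs_le.1 ((hLip n).1 x)).2)⟩
    · have h1 := (hwlim x).sub hU (hwlim y)
      rw [abs_le]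
      exact ⟨h1.const_le hU (ev_all hU fun n => (abs_le.1 ((hLip n).2 x y)).1),
        h1.le_const hU (ev_all hU fun n => (abs_le.1 ((hLip n).2 x y)).2)⟩
  have hwL : P.L w := ⟨_, hwLip⟩
  have hwunif : ∀ η > 0, ∃ k₀ : 𝓜.N, ∀ m, k₀ ≤ m → ∀ x, |P.it s h (m + 1) x - w x| ≤ η := by
    intro η hη
    obtain ⟨k₀, hk₀⟩ := hunif η hη
    refine ⟨k₀, fun m hm x => ?_⟩
    have h1 := (isUlim_const hU (P.it s h (m + 1) x)).sub hU (hwlim x)
    rw [abs_le]
    exact ⟨h1.const_le hU (ev_big hU k₀ fun n hn => (abs_le.1 (hk₀ m n hm hn x)).1),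
      h1.le_const hU (ev_big hU k₀ fun n hn => (abs_le.1 (hk₀ m n hm hn x)).2)⟩
  -- `T² w = s w`
  have hTw : P.T (P.T w) = s • w := by
    ext x
    rw [smulF_apply]
    by_contra hne
    have hpos : 0 < |P.T (P.T w) x - s * w x| := abs_pos.2 (sub_ne_zero.2 hne)
    set q := |P.T (P.T w) x - s * w x| with hq
    have hK : 0 < D * D + s := by positivity
    obtain ⟨k₀, hk₀⟩ := hwunif (q / (2 * (D * D + s))) (by positivity)
    set η := q / (2 * (D * D + s)) with hη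
    have h1 : |P.T (P.T (P.it s h (k₀ + 1))) x - P.T (P.T w) x| ≤ D * (D * η) :=
      P.abs_T_sub_le_sup hD1 hD (P.L_T hB (hLn _)) (P.L_T hB hwL)
        (P.abs_T_sub_le_sup hD1 hD (hLn _) hwL (hk₀ k₀ le_rfl)) x
    have h2 : P.T (P.T (P.it s h (k₀ + 1))) x = s * P.it s h (k₀ + 1 + 1) x := by
      rw [it_succ s h (k₀ + 1), smulF_apply]
      field_simp
    have h3 := hk₀ (k₀ + 1) (by simp) x
    rw [h2] at h1
    have h4 : q ≤ D * (D * η) + s * η := by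
      have e : P.T (P.T w) x - s * w x = -(s * P.it s h (k₀ + 1 + 1) x - P.T (P.T w) x) +
          s * (P.it s h (k₀ + 1 + 1) x - w x) := by ring
      rw [hq, e]
      refine (abs_add_le _ _).trans ?_
      rw [abs_neg, abs_mul, abs_of_pos hs]
      exact add_le_add h1 (mul_le_mul_of_nonneg_left h3 hs.le)
    have h5 : D * (D * η) + s * η = q / 2 := by
      rw [hη]
      field_simp
    linarith
  have hEig : P.Eig s w := ⟨hs, hwL, hTw⟩
  -- `w` is orthogonal to all eigenfunctions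
  have hort : ∀ lam f, P.Eig lam f → P.ip w f = 0 := by
    intro lam f hf
    by_contra hne
    have hpos : 0 < |P.ip w f| := abs_pos.2 hne
    obtain ⟨Cf, hCf0, hCf⟩ := P.exists_norm_bound hf.2.1
    have hK : 0 < 2 * (Cf + 1) := by positivity
    obtain ⟨k₀, hk₀⟩ := hwunif (|P.ip w f| / (2 * (Cf + 1))) (by positivity)
    set η := |P.ip w f| / (2 * (Cf + 1)) with hη
    have hη0 : 0 ≤ η := by positivity
    have h1 : P.ip (P.it s h (k₀ + 1)) f = 0 := (hh.it hF hB s (k₀ + 1)).2 lam f hf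
    have h2 : P.ip w f = - P.ip (P.it s h (k₀ + 1) - w) f := by
      rw [P.ip_sub_left (hLn _) hwL hf.2.1, h1]
      ring
    have h3 : |P.ip (P.it s h (k₀ + 1) - w) f| ≤ η * Cf :=
      P.abs_ip_le (P.L_sub (hLn _) hwL) hf.2.1 hη0 hCf0
        (P.ip_self_le (P.L_sub (hLn _) hwL) (hk₀ k₀ le_rfl)) hCf
    have h4 : |P.ip w f| ≤ η * Cf := by
      rw [h2, abs_neg]
      exact h3
    have h5 : η * Cf ≤ |P.ip w f| / 2 := by
      rw [hη, div_mul_eq_mul_div, div_le_div_iff₀ hK (by norm_num)]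
      nlinarith
    linarith
  have hw0 : w = 0 := P.eq_zero_of_ip_self hwL (hort s w hEig).le
  -- conclusion
  have hη : 0 < min 1 ε := lt_min one_pos hε
  obtain ⟨k₀, hk₀⟩ := hwunif (min 1 ε) hη
  refine ⟨k₀ + 1, fun n hn => ?_⟩
  rcases N_cases n with rfl | ⟨m, rfl⟩
  · have h1 := N_nonneg k₀
    have h2 : (k₀ : 𝓜.R) + 1 ≤ 0 := by exact_mod_cast hn
    have h3 := toR_nonneg k₀
    exfalso
    linarith
  · have hm : k₀ ≤ m := by
      have h2 : (k₀ : 𝓜.R) + 1 ≤ m + 1 := by exact_mod_cast hn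
      exact_mod_cast (by linarith : (k₀ : 𝓜.R) ≤ m)
    have h1 : ∀ x, |P.it s h (m + 1) x| ≤ min 1 ε := by
      intro x
      have := hk₀ m hm x
      rwa [hw0, zeroF_apply, sub_zero] at this
    refine (P.ip_self_le (hLn _) h1).trans ?_
    have h2 : min 1 ε ≤ 1 := min_le_left _ _
    have h3 : min 1 ε ≤ ε := min_le_right _ _
    nlinarith

end Ctx

end Pool.Agent.Lib.MP_c7a422_lc.Z
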