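import Pool.Agent.Lib.MP_c7a422_lc.Z.SPBase
import Pool.Agent.Lib.MP_c7a422_lc.Z.Supd

/-!
# Module Sep: the eigenfunctions separate the points
-/

namespace Pool.Agent.Lib.MP_c7a422_lc.Z

universe u v

namespace Ctx

variable {𝓜 : Ctx.{u}}

/-- square roots in the field of real numbers of the model -/
theorem sep_exists_sqrt {r : 𝓜.R} (hr : 0 ≤ r) : ∃ t : 𝓜.R, 0 ≤ t ∧ t ^ 2 = r := by
  have hs : 𝓜.Dfn (fun t : 𝓜.R => 0 ≤ t ∧ t ^ 2 ≤ r) := by fun_prop
  have hb : ∃ b, ∀ t, (0 ≤ t ∧ t ^ 2 ≤ r) → t ≤ b := by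
    refine ⟨1 + r, fun t ht => ?_⟩
    by_contra hn
    push Not at hn
    nlinarith [ht.2]
  have hne : ∃ t : 𝓜.R, 0 ≤ t ∧ t ^ 2 ≤ r := ⟨0, le_rfl, by simpa using hr⟩
  obtain ⟨s, hs1⟩ := exists_isLUB hs hne hb
  have hs0 : 0 ≤ s := hs1.1 ⟨le_rfl, by simpa using hr⟩
  refine ⟨s, hs0, le_antisymm ?_ ?_⟩
  · by_contra hn
    push Not at hn
    have hspos : 0 < s := by
      rcases hs0.lt_or_eq with h | h
      · exact h
      · rw [← h] at hn
        simp only [ne_eq, OfNat.ofNat_ne_zero, not_false_eq_true, zero_pow] at hn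
        linarith
    set e := (s ^ 2 - r) / (2 * s) with he
    have he0 : 0 < e := div_pos (by linarith) (by linarith)
    have he1 : e * (2 * s) = s ^ 2 - r := div_mul_cancel₀ _ (by positivity)
    have h1 : s ≤ s - e := by
      refine hs1.2 fun t ht => ?_
      by_contra hc
      push Not at hc
      have h2 := ht.2
      have h3 := ht.1
      rcases le_or_gt 0 (s - e) with h4 | h4
      · nlinarith
      · nlinarith
    linarith
  · by_contra hn
    push Not at hn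
    set δ := r - s ^ 2 with hδ
    have hδ0 : 0 < δ := by linarith
    obtain ⟨e, he0, he1⟩ : ∃ e : 𝓜.R, 0 < e ∧ (s + e) ^ 2 ≤ r := by
      refine ⟨min 1 (δ / (2 * s + 1)), lt_min one_pos (by positivity), ?_⟩
      have h5 : min 1 (δ / (2 * s + 1)) ≤ 1 := min_le_left _ _
      have h6 : min 1 (δ / (2 * s + 1)) ≤ δ / (2 * s + 1) := min_le_right _ _
      have h7 : 0 < min 1 (δ / (2 * s + 1)) := lt_min one_pos (by positivity)
      rw [le_div_iff₀ (by positivity)] at h6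
      nlinarith
    have h8 : s + e ≤ s := hs1.1 ⟨by linarith, he1⟩
    linarith

end Ctx

namespace SP

open Ctx

variable {𝓜 : Ctx.{u}} {X : Type u} [Rep 𝓜 X] (P : SP 𝓜 X) {f g h : IFun 𝓜 X 𝓜.R}
  {a b c s : 𝓜.R}

/-- the Lipschitz functions orthogonal to all eigenfunctions -/
def sepV : ISet 𝓜 (IFun 𝓜 X 𝓜.R) :=
  ⟨fun h => P.L h ∧ ∀ lam f, P.Eig lam f → P.ip h f = 0,
    by simp only [al_iff, imp_iff_not_or]; fun_prop⟩

theorem sepV_iff : P.sepV h ↔ P.L h ∧ ∀ lam f, P.Eig lam f → P.ip h f = 0 := Iff.rfl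

theorem sepV_sub (hf : P.sepV f) (hg : P.sepV g) : P.sepV (f - g) :=
  ⟨P.L_sub hf.1 hg.1, fun lam u hu => by
    rw [P.ip_sub_left hf.1 hg.1 hu.2.1, hf.2 lam u hu, hg.2 lam u hu, sub_zero]⟩

theorem sepV_smul (c : 𝓜.R) (hf : P.sepV f) : P.sepV (c • f) :=
  ⟨P.L_smul c hf.1, fun lam u hu => by
    rw [P.ip_smul_left c hf.1 hu.2.1, hf.2 lam u hu, mul_zero]⟩

theorem sepV_zero : P.sepV 0 := ⟨P.L_zero, fun _ u _ => P.ip_zero_left u⟩

theorem sepV_T (hb : StBdd.{u}) (hfub : StFub.{u}) (hf : P.sepV f) : P.sepV (P.T f) :=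
  ⟨P.L_T hb hf.1, fun lam u hu => by
    rw [hfub 𝓜 X P f u hf.1 hu.2.1]
    exact hf.2 lam _ (hu.T hb)⟩

/-- the norm of a sum -/
theorem sep_ip_add_le (hf : P.L f) (hg : P.L g) (ha : 0 ≤ a) (hb : 0 ≤ b)
    (h1 : P.ip f f ≤ a ^ 2) (h2 : P.ip g g ≤ b ^ 2) : P.ip (f + g) (f + g) ≤ (a + b) ^ 2 := by
  have h3 := (abs_le.1 (P.abs_ip_le hf hg ha hb h1 h2)).2
  rw [P.ip_add_left hf hg (P.L_add hf hg), P.ip_add_right hf hg hf, P.ip_add_right hf hg hg,
    P.ip_comm g f]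
  nlinarith

theorem sep_ip_sub_comm (hf : P.L f) (hg : P.L g) :
    P.ip (f - g) (f - g) = P.ip (g - f) (g - f) := by
  rw [P.ip_sub_self hf hg, P.ip_sub_self hg hf, P.ip_comm f g]
  ring

/-- the norm of `f` from the norms of `f - g` and `g` -/
theorem sep_ip_le_of_sub (hf : P.L f) (hg : P.L g) (ha : 0 ≤ a) (hb : 0 ≤ b)
    (h1 : P.ip (f - g) (f - g) ≤ a ^ 2) (h2 : P.ip g g ≤ b ^ 2) : P.ip f f ≤ (a + b) ^ 2 := by
  have h3 := P.sep_ip_add_le (P.L_sub hf hg) hg ha hb h1 h2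
  rwa [sub_add_cancel] at h3

/-- `T` is bounded -/
theorem sep_ip_T_le (hb : StBdd.{u}) {D : 𝓜.R} (hD1 : 1 ≤ D) (hD : ∀ x y, P.d (x, y) ≤ D)
    (hf : P.L f) : P.ip (P.T f) (P.T f) ≤ D ^ 2 * P.ip f f := by
  have h0 := P.ip_self_nonneg hf
  refine P.mu_le_const (P.L_mul (P.L_T hb hf) (P.L_T hb hf)) (by positivity) fun x => ?_
  rw [mulF_apply, ← sq, P.T_apply]
  refine (P.ip_sq_le (P.L_dist hb x) hf).trans ?_
  refine mul_le_mul_of_nonneg_right ?_ h0
  exact P.ip_self_le (P.L_dist hb x) (P.lip_dist hD1 hD x).1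

theorem it_zero (s : 𝓜.R) (h : IFun 𝓜 X 𝓜.R) : P.it s h 0 = h := by
  unfold it
  rw [nrec_zero]

theorem it_succ (s : 𝓜.R) (h : IFun 𝓜 X 𝓜.R) (n : 𝓜.N) :
    P.it s h (n + 1) = s⁻¹ • P.T (P.T (P.it s h n)) := by
  unfold it
  rw [nrec_succ]
  rfl

section

variable (hb : StBdd.{u}) (hfub : StFub.{u}) (hs : 0 < s)
  (hS : ∀ h, P.sepV h → P.ip (P.T (P.T h)) h ≤ s * P.ip h h)
include hb hfub hs hS

omit hs in
theorem sep_T_norm (hf : P.sepV f) : P.ip (P.T f) (P.T f) ≤ s * P.ip f f := by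
  rw [← hfub 𝓜 X P (P.T f) f (P.L_T hb hf.1) hf.1]
  exact hS f hf

theorem sep_S_norm (hf : P.sepV f) :
    P.ip (s⁻¹ • P.T (P.T f)) (s⁻¹ • P.T (P.T f)) ≤ P.ip f f := by
  have hTf := P.sepV_T hb hfub hf
  have hTTf := P.sepV_T hb hfub hTf
  have h1 := P.sep_T_norm hb hfub hS hf
  have h2 := P.sep_T_norm hb hfub hS hTf
  rw [P.ip_smul_left _ hTTf.1 (P.L_smul _ hTTf.1), P.ip_smul_right _ hTTf.1 hTTf.1, ← mul_assoc,
    ← mul_inv, inv_mul_le_iff₀ (by positivity)]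
  nlinarith

omit hs hS in
theorem sep_S_mem (hf : P.sepV f) : P.sepV (s⁻¹ • P.T (P.T f)) :=
  P.sepV_smul _ (P.sepV_T hb hfub (P.sepV_T hb hfub hf))

omit hs hS hfub in
theorem sep_S_sub (hf : P.L f) (hg : P.L g) :
    s⁻¹ • P.T (P.T f) - s⁻¹ • P.T (P.T g) = s⁻¹ • P.T (P.T (f - g)) := by
  rw [P.T_sub hb hf hg, P.T_sub hb (P.L_T hb hf) (P.L_T hb hg)]
  ext x
  simp only [subF_apply, smulF_apply]
  ring

omit hs hS in
theorem sep_it_mem (hf : P.sepV f) (n : 𝓜.N) : P.sepV (P.it s f n) := by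
  refine ind (P := fun n => P.sepV (P.it s f n)) (by fun_prop) ?_ (fun n ih => ?_) n
  · rw [it_zero]
    exact hf
  · rw [it_succ]
    exact P.sep_S_mem hb hfub ih

/-- iterates of a difference -/
theorem sep_it_sub (hf : P.sepV f) (hg : P.sepV g)
    (h1 : P.ip (P.it s f 1 - P.it s g 1) (P.it s f 1 - P.it s g 1) ≤ a) (n : 𝓜.N) :
    P.ip (P.it s f (n + 1) - P.it s g (n + 1)) (P.it s f (n + 1) - P.it s g (n + 1)) ≤ a := by
  refine ind (P := fun n => P.ip (P.it s f (n + 1) - P.it s g (n + 1))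
    (P.it s f (n + 1) - P.it s g (n + 1)) ≤ a) (by fun_prop) ?_ (fun n ih => ?_) n
  · rw [zero_add]
    exact h1
  · have h2 := P.sep_it_mem hb hfub (s := s) hf (n + 1)
    have h3 := P.sep_it_mem hb hfub (s := s) hg (n + 1)
    rw [it_succ P s f (n + 1), it_succ P s g (n + 1), P.sep_S_sub hb h2.1 h3.1]
    exact (P.sep_S_norm hb hfub hs hS (P.sepV_sub h2 h3)).trans ih

/-- consecutive iterates -/
theorem sep_it_step (hf : P.sepV f)
    (h1 : P.ip (P.it s f 1 - f) (P.it s f 1 - f) ≤ a) (n : 𝓜.N) :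
    P.ip (P.it s f (n + 1) - P.it s f n) (P.it s f (n + 1) - P.it s f n) ≤ a := by
  refine ind (P := fun n => P.ip (P.it s f (n + 1) - P.it s f n)
    (P.it s f (n + 1) - P.it s f n) ≤ a) (by fun_prop) ?_ (fun n ih => ?_) n
  · rw [zero_add, it_zero]
    exact h1
  · have h2 := P.sep_it_mem hb hfub (s := s) hf (n + 1)
    have h3 := P.sep_it_mem hb hfub (s := s) hf n
    have e3 : P.it s f (n + 1 + 1) - P.it s f (n + 1) =
        s⁻¹ • P.T (P.T (P.it s f (n + 1) - P.it s f n)) := by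
      rw [← P.sep_S_sub hb h2.1 h3.1, ← it_succ, ← it_succ]
    rw [e3]
    exact (P.sep_S_norm hb hfub hs hS (P.sepV_sub h2 h3)).trans ih

/-- the distance from the starting point -/
theorem sep_it_dist (hf : P.sepV f) (ha : 0 ≤ a)
    (h1 : P.ip (P.it s f 1 - f) (P.it s f 1 - f) ≤ a ^ 2) (n : 𝓜.N) :
    P.ip (P.it s f n - f) (P.it s f n - f) ≤ ((n : 𝓜.R) * a) ^ 2 := by
  refine ind (P := fun n : 𝓜.N => P.ip (P.it s f n - f) (P.it s f n - f) ≤
    ((n : 𝓜.R) * a) ^ 2) (by fun_prop) ?_ (fun n ih => ?_) n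
  · rw [it_zero, sub_self, P.ip_zero_left, toR_zero, zero_mul]
    exact sq_nonneg _
  · have h2 := P.sep_it_mem hb hfub (s := s) hf (n + 1)
    have h3 := P.sep_it_mem hb hfub (s := s) hf n
    have h4 := P.sep_it_step hb hfub hs hS hf h1 n
    have h5 := P.sep_ip_add_le (P.L_sub h2.1 h3.1) (P.L_sub h3.1 hf.1) ha
      (mul_nonneg (toR_nonneg n) ha) h4 ih
    rw [sub_add_sub_cancel] at h5
    refine h5.trans (le_of_eq ?_)
    push_cast
    ring

end

end SP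

namespace Ctx

theorem sep (h1 : StFub.{u}) (h2 : StPow.{u}) (h3 : StTBfun.{u}) (h4 : StNet.{u})
    (h5 : StBdd.{u}) : StSep.{u} := by
  intro 𝓜 X _ P U hU x x' hx
  have hne := P.ne
  obtain ⟨D, hD1, hD⟩ := P.exists_bound h5
  have hD0 : 0 < D := by linarith
  -- the supremum of the Rayleigh quotients
  have hdfn : 𝓜.Dfn (fun t : 𝓜.R => t = 0 ∨ ∃ h, P.sepV h ∧ 0 < P.ip h h ∧
    t * P.ip h h = P.ip (P.T (P.T h)) h) := by fun_prop
  have hbd : ∀ t : 𝓜.R, (t = 0 ∨ ∃ h, P.sepV h ∧ 0 < P.ip h h ∧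
      t * P.ip h h = P.ip (P.T (P.T h)) h) → t ≤ D ^ 2 := by
    rintro t (rfl | ⟨h, hV, hpos, ht⟩)
    · positivity
    · have h6 := P.sep_ip_T_le h5 hD1 hD hV.1
      rw [h1 𝓜 X P (P.T h) h (P.L_T h5 hV.1) hV.1] at ht
      rw [← ht] at h6
      exact le_of_mul_le_mul_right h6 hpos
  obtain ⟨s, hs⟩ := exists_isLUB hdfn ⟨0, Or.inl rfl⟩ ⟨D ^ 2, hbd⟩
  have hs0 : 0 ≤ s := hs.1 (Or.inl rfl)
  have hS : ∀ h, P.sepV h → P.ip (P.T (P.T h)) h ≤ s * P.ip h h := by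
    intro h hV
    rcases (P.ip_self_nonneg hV.1).lt_or_eq with hpos | h0
    · have h6 : P.ip (P.T (P.T h)) h / P.ip h h ≤ s :=
        hs.1 (Or.inr ⟨h, hV, hpos, div_mul_cancel₀ _ hpos.ne'⟩)
      rwa [div_le_iff₀ hpos] at h6
    · have h6 : h = 0 := P.eq_zero_of_ip_self hV.1 h0.symm.le
      rw [h6, P.T_zero, P.T_zero, P.ip_zero_left, mul_zero]
  -- the supremum is zero
  have hs1 : s = 0 := by
    by_contra hsne
    have hspos : 0 < s := lt_of_le_of_ne hs0 (Ne.symm hsne)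
    -- the unit ball
    let B : ISet 𝓜 (IFun 𝓜 X 𝓜.R) := ⟨fun h => P.sepV h ∧ P.ip h h ≤ 1, by fun_prop⟩
    have hBlip : ∀ h, B h → Lip P.d (|s⁻¹| * (D * (D * 1))) (s⁻¹ • P.T (P.T h)) := by
      intro h hB
      have hL := P.L_T h5 hB.1.1
      have h6 := P.ip_T_self_le hD1 hD hB.1.1 zero_le_one (by simpa using hB.2)
      exact (P.T_lip hD1 hD hL (by positivity) h6).smul _
    set C := |s⁻¹| * (D * (D * 1)) with hC
    let σ : IFun 𝓜 (IFun 𝓜 X 𝓜.R × IFun 𝓜 X 𝓜.R) 𝓜.R :=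
      ⟨fun p => supd 𝓜 X (s⁻¹ • P.T (P.T p.1), s⁻¹ • P.T (P.T p.2)), by fun_prop⟩
    have hlab : Lab B σ (1 / 4) := by
      obtain ⟨m, c, hc1, hc2⟩ := h3 𝓜 X P.d C (1 / 4) P.pm P.tb (by norm_num)
      refine ⟨m, ⟨fun h => c (s⁻¹ • P.T (P.T h)), by fun_prop⟩, fun h hB => hc1 _ (hBlip h hB),
        fun f g hf hg hfg => ?_⟩
      exact supd_le fun x => hc2 _ _ (hBlip f hf) (hBlip g hg) hfg x
    obtain ⟨n, e, he1, he2⟩ := h4 𝓜 (IFun 𝓜 X 𝓜.R) B σ (1 / 4)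
      ⟨0, P.sepV_zero, by rw [P.ip_zero_left]; exact zero_le_one⟩ hlab
    -- a common bound for the net
    have hnet : ∀ m : 𝓜.N, ∃ n₀ : 𝓜.N, ∀ i, i < m → ∀ k, n₀ ≤ k →
        P.ip (P.it s (e i) k) (P.it s (e i) k) ≤ (1 / 4) ^ 2 := by
      intro m
      refine ind (P := fun m : 𝓜.N => ∃ n₀ : 𝓜.N, ∀ i, i < m → ∀ k, n₀ ≤ k →
        P.ip (P.it s (e i) k) (P.it s (e i) k) ≤ (1 / 4) ^ 2)
        (by simp only [al_iff, imp_iff_not_or]; fun_prop) ⟨0, fun i hi => ?_⟩ (fun m ih => ?_) m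
      · exact absurd (N_nonneg i) (not_le.2 hi)
      · obtain ⟨n₀, hn₀⟩ := ih
        obtain ⟨n₁, hn₁⟩ := h2 𝓜 X P U s hU hspos (fun h hL hh => hS h ⟨hL, hh⟩) (e m)
          (he1 m).1.1 (he1 m).1.2 ((1 / 4) ^ 2) (by norm_num)
        refine ⟨max n₀ n₁, fun i hi k hk => ?_⟩
        rcases (N_lt_add_one_iff.1 hi).lt_or_eq with h6 | h6
        · exact hn₀ i h6 k ((le_max_left _ _).trans hk)
        · rw [h6]
          exact hn₁ k ((le_max_right _ _).trans hk)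
    obtain ⟨n₀, hn₀⟩ := hnet n
    -- all elements of the ball
    have hball : ∀ h, B h → P.ip (P.it s h (n₀ + 1)) (P.it s h (n₀ + 1)) ≤
        (1 / 4 + 1 / 4) ^ 2 := by
      intro h hB
      obtain ⟨i, hi, hi'⟩ := he2 h hB
      have hmem := P.sep_it_mem h5 h1 (s := s) hB.1 (n₀ + 1)
      have hmem' := P.sep_it_mem h5 h1 (s := s) (he1 i).1 (n₀ + 1)
      refine P.sep_ip_le_of_sub hmem.1 hmem'.1 (by norm_num) (by norm_num) ?_
        (hn₀ i hi _ (by simp))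
      refine P.sep_it_sub h5 h1 hspos hS hB.1 (he1 i).1 ?_ n₀
      have e1 : ∀ u, P.it s u 1 = s⁻¹ • P.T (P.T u) := by
        intro u
        have := P.it_succ s u 0
        rwa [zero_add, P.it_zero] at this
      rw [e1, e1]
      refine P.ip_self_le (P.L_sub (P.sep_S_mem h5 h1 hB.1).1
        (P.sep_S_mem h5 h1 (he1 i).1).1) fun y => ?_
      rw [subF_apply]
      exact (abs_le_supd (bdd_sub (hBlip h hB).1 (hBlip _ (he1 i)).1) y).trans hi'
    -- a vector with a large quotient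
    set M : 𝓜.R := ((n₀ + 1 : 𝓜.N) : 𝓜.R) with hM
    have hM1 : 1 ≤ M := by
      rw [hM]
      push_cast
      have := toR_nonneg n₀
      linarith
    set δ : 𝓜.R := 1 / (4 * M) with hδ
    have hδ0 : 0 < δ := by positivity
    have hMδ : M * δ = 1 / 4 := by
      rw [hδ]
      field_simp
    have hδ1 : δ ≤ 1 / 4 := by nlinarith
    have hlt : s * (1 - δ ^ 2 / 2) < s := by nlinarith [sq_nonneg δ, mul_pos hspos (pow_pos hδ0 2)]
    obtain ⟨t, ht, htlt⟩ : ∃ t : 𝓜.R, (t = 0 ∨ ∃ h, P.sepV h ∧ 0 < P.ip h h ∧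
        t * P.ip h h = P.ip (P.T (P.T h)) h) ∧ s * (1 - δ ^ 2 / 2) < t := by
      by_contra hcon
      push Not at hcon
      exact absurd (hs.2 fun t ht => hcon t ht) (not_le.2 hlt)
    have htpos : 0 < t := by
      have : 0 < s * (1 - δ ^ 2 / 2) := mul_pos hspos (by nlinarith)
      linarith
    rcases ht with ht | ⟨h, hV, hpos, ht⟩
    · linarith
    · obtain ⟨c, hc0, hc⟩ := sep_exists_sqrt hpos.le
      have hcpos : 0 < c := by
        rcases hc0.lt_or_eq with h6 | h6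
        · exact h6
        · rw [← h6] at hc
          simp only [ne_eq, OfNat.ofNat_ne_zero, not_false_eq_true, zero_pow] at hc
          linarith
      -- normalise
      set u := c⁻¹ • h with hu
      have huV : P.sepV u := P.sepV_smul _ hV
      have huu : P.ip u u = 1 := by
        rw [hu, P.ip_smul_left _ hV.1 (P.L_smul _ hV.1), P.ip_smul_right _ hV.1 hV.1, ← hc]
        field_simp
      have huT : P.ip (P.T (P.T u)) u = t := by
        have hLT := P.L_T h5 hV.1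
        have hLTT := P.L_T h5 hLT
        rw [hu, P.T_smul h5 _ hV.1, P.T_smul h5 _ hLT, P.ip_smul_left _ hLTT (P.L_smul _ hV.1),
          P.ip_smul_right _ hLTT hV.1, ← ht, ← hc]
        field_simp
      have hSu := P.sep_S_mem h5 h1 (s := s) huV
      have hstep : P.ip (P.it s u 1 - u) (P.it s u 1 - u) ≤ δ ^ 2 := by
        have e1 : P.it s u 1 = s⁻¹ • P.T (P.T u) := by
          have := P.it_succ s u 0
          rwa [zero_add, P.it_zero] at this
        have h6 := P.sep_S_norm h5 h1 hspos hS huV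
        rw [e1, P.ip_sub_self hSu.1 huV.1, huu]
        rw [huu] at h6
        rw [P.ip_smul_left _ (P.sepV_T h5 h1 (P.sepV_T h5 h1 huV)).1 huV.1, huT]
        have h7 : 1 - δ ^ 2 / 2 < s⁻¹ * t := by
          rw [lt_inv_mul_iff₀ hspos]
          exact htlt
        linarith
      have h6 := P.sep_it_dist h5 h1 hspos hS huV hδ0.le hstep (n₀ + 1)
      rw [← hM, hMδ] at h6
      have h7 := hball u ⟨huV, huu.le⟩
      have hmem := P.sep_it_mem h5 h1 (s := s) huV (n₀ + 1)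
      rw [P.sep_ip_sub_comm hmem.1 huV.1] at h6
      have h8 := P.sep_ip_le_of_sub huV.1 hmem.1 (by norm_num) (by norm_num) h6 h7
      rw [huu] at h8
      norm_num at h8
  -- so `T` vanishes on `V`
  have hT : ∀ h, P.sepV h → P.T h = 0 := by
    intro h hV
    have h6 := P.sep_T_norm h5 h1 hS hV
    rw [hs1, zero_mul] at h6
    exact P.eq_zero_of_ip_self (P.L_T h5 hV.1) h6
  have hLx := P.L_dist h5 x
  have hLx' := P.L_dist h5 x'
  have hg : P.sepV (P.dist x - P.dist x') := by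
    refine ⟨P.L_sub hLx hLx', fun lam f hf => ?_⟩
    rw [P.ip_sub_left hLx hLx' hf.2.1, ← P.T_apply, ← P.T_apply, hx lam _ (hf.T h5), sub_self]
  have hTg := hT _ hg
  have h6 : P.ip (P.dist x - P.dist x') (P.dist x - P.dist x') = 0 := by
    rw [P.ip_sub_left hLx hLx' hg.1, ← P.T_apply, ← P.T_apply, hTg]
    simp
  have h7 := P.eq_zero_of_ip_self hg.1 h6.le
  have h8 : (P.dist x - P.dist x') x' = 0 := by rw [h7]; rfl
  rw [subF_apply, P.dist_apply, P.dist_apply, P.d_self, sub_zero] at h8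
  exact P.d_sep h8

end Ctx

end Pool.Agent.Lib.MP_c7a422_lc.Z
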