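import Pool.Agent.Lib.MP_c7a422_lc.Z.Spec

/-!
# Toolkit 1: finite choice, pigeonhole principle, nets and divisions
-/

namespace Pool.Agent.Lib.MP_c7a422_lc.Z

universe u

namespace Ctx

/-- finite choice -/
theorem choice : StChoice.{u} := by
  intro 𝓜 Y _ S y₀ r hy₀ hr n
  classical
  refine ind (P := fun n => ∃ e : IFun 𝓜 𝓜.N Y, (∀ i, S (e i)) ∧
    ∀ i < n, (∃ y, r (i, y)) → r (i, e i))
    (by simp only [al_iff, imp_iff_not_or]; fun_prop) ?_ ?_ n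
  · exact ⟨⟨fun _ => y₀, by fun_prop⟩, fun _ => hy₀, fun i hi => absurd (N_nonneg i) (not_le.2 hi)⟩
  · rintro n ⟨e, he, he'⟩
    by_cases h : ∃ y, r (n, y)
    · obtain ⟨y, hy⟩ := h
      refine ⟨⟨fun i => if i = n then y else e i, by fun_prop⟩, fun i => ?_, fun i hi hex => ?_⟩
      · show S (if i = n then y else e i)
        split_ifs
        · exact hr n y hy
        · exact he i
      · show r (i, if i = n then y else e i)
        split_ifs with h1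
        · rw [h1]; exact hy
        · exact he' i (lt_of_le_of_ne (N_lt_add_one_iff.1 hi) h1) hex
    · refine ⟨e, he, fun i hi hex => ?_⟩
      rcases (N_lt_add_one_iff.1 hi).lt_or_eq with h1 | h1
      · exact he' i h1 hex
      · rw [h1] at hex
        exact absurd hex h

/-- pigeonhole principle -/
theorem pigeon : StPigeon.{u} := by
  intro 𝓜 n
  classical
  refine ind (P := fun n => ∀ c : IFun 𝓜 𝓜.N 𝓜.N, (∀ i, i ≤ n → c i < n) →
    ∃ i j, i < j ∧ j ≤ n ∧ c i = c j)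
    (by simp only [al_iff, imp_iff_not_or]; fun_prop) ?_ ?_ n
  · intro c hc
    exact absurd (N_nonneg (c 0)) (not_le.2 (hc 0 le_rfl))
  · intro n ih c hc
    by_cases hn : ∃ i j, i < j ∧ j ≤ n + 1 ∧ c i = n ∧ c j = n
    · obtain ⟨i, j, h1, h2, h3, h4⟩ := hn
      exact ⟨i, j, h1, h2, h3.trans h4.symm⟩
    push Not at hn
    have hlt : ∀ i, i ≤ n → i < n + 1 := fun i hi => N_lt_add_one_iff.2 hi
    obtain ⟨i, j, h1, h2, h3⟩ := ih ⟨fun i => if c i = n then c (n + 1) else c i, by fun_prop⟩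
      (by
        intro i hi
        show (if c i = n then c (n + 1) else c i) < n
        split_ifs with h
        · exact lt_of_le_of_ne (N_lt_add_one_iff.1 (hc _ le_rfl)) (hn i (n + 1) (hlt i hi) le_rfl h)
        · exact lt_of_le_of_ne (N_lt_add_one_iff.1 (hc i (hlt i hi).le)) h)
    have hi : i ≤ n := h1.le.trans h2
    have h3' : (if c i = n then c (n + 1) else c i) = (if c j = n then c (n + 1) else c j) := h3
    split_ifs at h3' with h4 h5 h5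
    · exact ⟨i, j, h1, h2.trans (hlt n le_rfl).le, h4.trans h5.symm⟩
    · exact ⟨j, n + 1, hlt j h2, le_rfl, h3'.symm⟩
    · exact ⟨i, n + 1, hlt i hi, le_rfl, h3'⟩
    · exact ⟨i, j, h1, h2.trans (hlt n le_rfl).le, h3'⟩

/-- pieces give nets -/
theorem net (h : StChoice.{u}) : StNet.{u} := by
  intro 𝓜 Y _ S ρ ε hne hL
  obtain ⟨y₀, hy₀⟩ := hne
  obtain ⟨n, c, hc, hc'⟩ := hL
  obtain ⟨e, he, he'⟩ := h 𝓜 Y S y₀ ⟨fun p => S p.2 ∧ c p.2 = p.1, by fun_prop⟩ hy₀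
    (fun i y hy => hy.1) n
  refine ⟨n, e, he, fun y hy => ⟨c y, hc y hy, ?_⟩⟩
  have h1 := he' (c y) (hc y hy) ⟨y, hy, rfl⟩
  exact hc' y _ hy h1.1 h1.2.symm

/-- the least index of a point of a net near `y` -/
theorem exists_index {𝓜 : Ctx.{u}} {Y : Type u} [Rep 𝓜 Y] (ρ : IFun 𝓜 (Y × Y) 𝓜.R) (ε : 𝓜.R)
    (e : IFun 𝓜 𝓜.N Y) : ∃ c : IFun 𝓜 Y 𝓜.N, ∀ y i, ρ (y, e i) ≤ ε →
      c y ≤ i ∧ ρ (y, e (c y)) ≤ ε := by
  classical
  have key : ∀ y, ∃ b : 𝓜.N, (ρ (y, e b) ≤ ε ∧ ∀ m, ρ (y, e m) ≤ ε → b ≤ m) ∨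
      (¬ (∃ i, ρ (y, e i) ≤ ε) ∧ b = 0) := by
    intro y
    by_cases h : ∃ i, ρ (y, e i) ≤ ε
    · obtain ⟨b, hb, hb'⟩ := exists_least (P := fun i => ρ (y, e i) ≤ ε) (by fun_prop) h
      exact ⟨b, Or.inl ⟨hb, hb'⟩⟩
    · exact ⟨0, Or.inr ⟨h, rfl⟩⟩
  choose c hc using key
  have hd : 𝓜.Dfn c := by
    refine Dfn.of_graph (s := fun y (b : 𝓜.N) => (ρ (y, e b) ≤ ε ∧ ∀ m, ρ (y, e m) ≤ ε → b ≤ m) ∨
      (¬ (∃ i, ρ (y, e i) ≤ ε) ∧ b = 0)) (by simp only [al_iff, imp_iff_not_or]; fun_prop)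
      fun y b => ?_
    constructor
    · intro h
      rcases hc y with h1 | h1
      · rcases h with h2 | h2
        · exact le_antisymm (h1.2 _ h2.1) (h2.2 _ h1.1)
        · exact absurd ⟨_, h1.1⟩ h2.1
      · rcases h with h2 | h2
        · exact absurd ⟨_, h2.1⟩ h1.1
        · rw [h1.2, h2.2]
    · rintro rfl
      exact hc y
  refine ⟨⟨c, hd⟩, fun y i hi => ?_⟩
  show c y ≤ i ∧ ρ (y, e (c y)) ≤ ε
  rcases hc y with h1 | h1
  · exact ⟨h1.2 i hi, h1.1⟩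
  · exact absurd ⟨i, hi⟩ h1.1

/-- nets give pieces -/
theorem lab : StLab.{u} := by
  intro 𝓜 Y _ S ρ ε n e hρ he hn
  obtain ⟨c, hc⟩ := exists_index ρ ε e
  refine ⟨n, c, fun y hy => ?_, fun y z hy hz hyz => ?_⟩
  · obtain ⟨i, hi, hi'⟩ := hn y hy
    exact lt_of_le_of_lt (hc y i hi').1 hi
  · obtain ⟨i, -, hi'⟩ := hn y hy
    obtain ⟨j, -, hj'⟩ := hn z hz
    have h1 := (hc y i hi').2
    have h2 := (hc z j hj').2
    rw [← hyz] at h2
    have h3 := hρ.tri y (e (c y)) z hy (he _) hz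
    have h4 := hρ.symm (e (c y)) z (he _) hz
    linarith

end Ctx

end Pool.Agent.Lib.MP_c7a422_lc.Z
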