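import Pool.Agent.Lib.MP_c7a422_lc.Z.Spec

/-!
# Toolkit 2: common refinements, bounded real functions, total boundedness of Lipschitz functions
-/

namespace Pool.Agent.Lib.MP_c7a422_lc.Z

universe u

namespace Ctx

variable {𝓜 : Ctx.{u}}

/-- uniqueness of division with remainder -/
theorem div_rem_unique {a b a' b' m : 𝓜.N} (hb : b < m) (hb' : b' < m)
    (h : a * m + b = a' * m + b') : a = a' ∧ b = b' := by
  have key : ∀ {a b a' b' : 𝓜.N}, b < m → a * m + b = a' * m + b' → ¬ a < a' := by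
    intro a b a' b' hb h hlt
    have h1 : a + 1 ≤ a' := N_add_one_le_iff.2 hlt
    have h2 : (a : 𝓜.R) + 1 ≤ a' := by exact_mod_cast (toR_le.2 h1)
    have h3 : (b : 𝓜.R) < m := toR_lt.2 hb
    have h4 : (a : 𝓜.R) * m + b = a' * m + b' := by exact_mod_cast congrArg toR h
    have h5 := toR_nonneg m
    have h6 := toR_nonneg b'
    nlinarith [mul_le_mul_of_nonneg_right h2 h5]
  have ha : a = a' := by
    rcases lt_trichotomy a a' with h1 | h1 | h1
    · exact absurd h1 (key hb h)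
    · exact h1
    · exact absurd h1 (key hb' h.symm)
  refine ⟨ha, ?_⟩
  rw [ha] at h
  exact add_left_cancel h

theorem div_rem_lt {a b m m' : 𝓜.N} (ha : a < m) (hb : b < m') : a * m' + b < m * m' := by
  have h2 : (a : 𝓜.R) + 1 ≤ m := by exact_mod_cast (toR_le.2 (N_add_one_le_iff.2 ha))
  have h3 : (b : 𝓜.R) < m' := toR_lt.2 hb
  have h5 := toR_nonneg m'
  have h6 : (a : 𝓜.R) * m' + b < m * m' := by
    nlinarith [mul_le_mul_of_nonneg_right h2 h5]
  exact_mod_cast h6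

theorem pack : StPack.{u} := by
  intro 𝓜 Y _ S ρ ε n hn
  have key : ∀ k : 𝓜.N, k ≤ n → ∃ (m : 𝓜.N) (c : IFun 𝓜 Y 𝓜.N), (∀ y, S y → c y < m) ∧
      ∀ y z, S y → S z → c y = c z → ∀ i < k, ρ (i, (y, z)) ≤ ε := by
    intro k
    refine ind (P := fun k => k ≤ n → ∃ (m : 𝓜.N) (c : IFun 𝓜 Y 𝓜.N), (∀ y, S y → c y < m) ∧
      ∀ y z, S y → S z → c y = c z → ∀ i < k, ρ (i, (y, z)) ≤ ε)
      (by simp only [al_iff, imp_iff_not_or]; fun_prop) ?_ ?_ k
    · intro _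
      refine ⟨1, ⟨fun _ => 0, by fun_prop⟩, fun y _ => ?_, fun y z _ _ _ i hi => ?_⟩
      · show (0 : 𝓜.N) < 1
        exact zero_lt_one
      · exact absurd (N_nonneg i) (not_le.2 hi)
    · intro k ih hk
      have hkn : k < n := N_add_one_le_iff.1 hk
      obtain ⟨m, c, hc1, hc2⟩ := ih hkn.le
      obtain ⟨m', c', hc1', hc2'⟩ := hn k hkn
      refine ⟨m * m', ⟨fun y => c y * m' + c' y, by fun_prop⟩, fun y hy => ?_,
        fun y z hy hz hyz i hi => ?_⟩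
      · show c y * m' + c' y < m * m'
        exact div_rem_lt (hc1 y hy) (hc1' y hy)
      · have h1 : c y * m' + c' y = c z * m' + c' z := hyz
        obtain ⟨h2, h3⟩ := div_rem_unique (hc1' y hy) (hc1' z hz) h1
        rcases (N_lt_add_one_iff.1 hi).lt_or_eq with h4 | h4
        · exact hc2 y z hy hz h2 i h4
        · rw [h4]
          exact hc2' y z hy hz h3
  exact key n le_rfl

theorem labReal : StLabReal.{u} := by
  intro 𝓜 Y _ S φ C ε hε hC
  have h1 : ∀ y : Y, ∃ k : 𝓜.N, φ y + C < ((k : 𝓜.R) + 1) * ε ∧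
      ∀ k' : 𝓜.N, φ y + C < ((k' : 𝓜.R) + 1) * ε → k ≤ k' := by
    intro y
    refine exists_least (P := fun k : 𝓜.N => φ y + C < ((k : 𝓜.R) + 1) * ε) (by fun_prop) ?_
    obtain ⟨k, hk⟩ := exists_nat_gt ((φ y + C) / ε)
    refine ⟨k, ?_⟩
    rw [div_lt_iff₀ hε] at hk
    linarith
  choose c hc1 hc2 using h1
  have hd : 𝓜.Dfn c := by
    refine Dfn.of_graph (s := fun y (k : 𝓜.N) => φ y + C < ((k : 𝓜.R) + 1) * ε ∧
      ∀ k' : 𝓜.N, φ y + C < ((k' : 𝓜.R) + 1) * ε → k ≤ k')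
      (by simp only [al_iff, imp_iff_not_or]; fun_prop) fun y k => ?_
    constructor
    · rintro ⟨h2, h3⟩
      exact le_antisymm (hc2 y k h2) (h3 _ (hc1 y))
    · rintro rfl
      exact ⟨hc1 y, hc2 y⟩
  obtain ⟨m, hm⟩ := exists_nat_gt (2 * C / ε)
  rw [div_lt_iff₀ hε] at hm
  have hlow : ∀ y, S y → (c y : 𝓜.R) * ε ≤ φ y + C := by
    intro y hy
    rcases N_cases (c y) with h0 | ⟨j, hj⟩
    · rw [h0, toR_zero, zero_mul]
      linarith [(abs_le.1 (hC y hy)).1]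
    · by_contra hcon
      push Not at hcon
      rw [hj, toR_add, toR_one] at hcon
      have h2 := hc2 y j hcon
      rw [hj] at h2
      have h3 : (j : 𝓜.R) + 1 ≤ j := by exact_mod_cast (toR_le.2 h2)
      linarith
  refine ⟨m + 1, ⟨c, hd⟩, fun y hy => ?_, fun y z hy hz hyz => ?_⟩
  · show c y < m + 1
    rw [N_lt_add_one_iff]
    refine hc2 y m ?_
    have := (abs_le.1 (hC y hy)).2
    linarith
  · have h2 : c y = c z := hyz
    have a1 := hlow y hy
    have a2 := hlow z hz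
    have a3 := hc1 y
    have a4 := hc1 z
    rw [h2] at a1 a3
    rw [abs_le]
    constructor <;> linarith

theorem bdd (h : StNet.{u}) : StBdd.{u} := by
  intro 𝓜 Y _ S ρ hρ hTB
  by_cases hne : ∃ y, S y
  · obtain ⟨n, e, he1, he2⟩ := h 𝓜 Y S ρ 1 hne (hTB 1 one_pos)
    have key : ∀ k : 𝓜.N, ∃ D : 𝓜.R, ∀ i < k, ρ (e 0, e i) ≤ D := by
      intro k
      refine ind (P := fun k : 𝓜.N => ∃ D : 𝓜.R, ∀ i < k, ρ (e 0, e i) ≤ D)
        (by simp only [al_iff, imp_iff_not_or]; fun_prop) ?_ ?_ k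
      · exact ⟨0, fun i hi => absurd (N_nonneg i) (not_le.2 hi)⟩
      · rintro k ⟨D, hD⟩
        refine ⟨max D (ρ (e 0, e k)), fun i hi => ?_⟩
        rcases (N_lt_add_one_iff.1 hi).lt_or_eq with h4 | h4
        · exact (hD i h4).trans (le_max_left _ _)
        · rw [h4]
          exact le_max_right _ _
    obtain ⟨D, hD⟩ := key n
    refine ⟨|2 + 2 * D| + 1, by positivity, fun y z hy hz => ?_⟩
    obtain ⟨i, hi, hi'⟩ := he2 y hy
    obtain ⟨j, hj, hj'⟩ := he2 z hz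
    have t1 := hρ.tri y (e i) z hy (he1 i) hz
    have t2 := hρ.tri (e i) (e 0) z (he1 i) (he1 0) hz
    have t3 := hρ.tri (e 0) (e j) z (he1 0) (he1 j) hz
    have s1 := hρ.symm (e i) (e 0) (he1 i) (he1 0)
    have s2 := hρ.symm (e j) z (he1 j) hz
    have d1 := hD i hi
    have d2 := hD j hj
    have d3 := le_abs_self (2 + 2 * D)
    linarith
  · push Not at hne
    exact ⟨1, one_pos, fun y z hy _ => absurd hy (hne y)⟩

theorem tbfun (h : StNet.{u}) (h' : StPack.{u}) (h'' : StLabReal.{u}) (_h3 : StBdd.{u}) :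
    StTBfun.{u} := by
  intro 𝓜 X _ d C ε hd hTB hε
  by_cases hne : Nonempty X
  · obtain ⟨x₀⟩ := hne
    have hC1 : 0 < |C| + 1 := by positivity
    set δ := ε / (4 * (|C| + 1)) with hδ
    have hδ0 : 0 < δ := by positivity
    have hδC : 2 * |C| * δ ≤ ε / 2 := by
      have e1 : 4 * (|C| + 1) * δ = ε := by
        rw [hδ]
        field_simp
      nlinarith [abs_nonneg C]
    obtain ⟨n, e, he1, he2⟩ := h 𝓜 X univ d δ ⟨x₀, trivial⟩ (hTB δ hδ0)
    obtain ⟨m, c, hc1, hc2⟩ := h' 𝓜 (IFun 𝓜 X 𝓜.R) ⟨fun f => Lip d C f, by fun_prop⟩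
      ⟨fun p : 𝓜.N × (IFun 𝓜 X 𝓜.R × IFun 𝓜 X 𝓜.R) => |p.2.1 (e p.1) - p.2.2 (e p.1)|, by fun_prop⟩
      (ε / 2) n (fun i _ => h'' 𝓜 (IFun 𝓜 X 𝓜.R) ⟨fun f => Lip d C f, by fun_prop⟩
        ⟨fun f : IFun 𝓜 X 𝓜.R => f (e i), by fun_prop⟩ C (ε / 2) (by linarith)
        (fun f hf => hf.1 (e i)))
    refine ⟨m, c, hc1, fun f g hf hg hfg x => ?_⟩
    obtain ⟨i, hi, hi'⟩ := he2 x trivial
    have a1 : |f (e i) - g (e i)| ≤ ε / 2 := hc2 f g hf hg hfg i hi
    have hdn := hd.nonneg (x := x) (y := e i) trivial trivial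
    have b : C * d (x, e i) ≤ |C| * δ := by
      calc C * d (x, e i) ≤ |C| * d (x, e i) := mul_le_mul_of_nonneg_right (le_abs_self C) hdn
        _ ≤ |C| * δ := mul_le_mul_of_nonneg_left hi' (abs_nonneg C)
    have a2 := (hf.2 x (e i)).trans b
    have a3 := (hg.2 x (e i)).trans b
    rw [abs_le] at a1 a2 a3 ⊢
    constructor <;> linarith [a1.1, a1.2, a2.1, a2.2, a3.1, a3.2]
  · exact ⟨1, ⟨fun _ => 0, by fun_prop⟩, fun f _ => show (0 : 𝓜.N) < 1 from zero_lt_one,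
      fun f g _ _ _ x => absurd ⟨x⟩ hne⟩

end Ctx

end Pool.Agent.Lib.MP_c7a422_lc.Z
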