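import Pool.Agent.Lib.MP_c7a422_lc.Z.BrBase

/-!
# Bridge, part 4: from internal compact metric spaces to compact metrizable spaces of the model
-/

namespace Pool.Agent.Lib.MP_c7a422_lc.Z

universe u v w

namespace Ctx

open Classical in
/-- translation of the hypothesis -/
theorem transA (hfin : StFinA.{u}) : StTransA.{u} := by
  intro 𝓜 hC Y _ S ρ hne hmet hcomp
  obtain ⟨X, hX⟩ := exists_setOf (𝓜 := 𝓜) (α := Y) (s := fun y => S y) (by fun_prop)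
  have hX1 : ∀ x : El 𝓜.E X, ∃ y, S y ∧ 𝓜.code y = x.1 := fun x => (hX x.1).1 x.2
  choose j hjS hj using hX1
  have hcm : 𝓜.CodeMap j := hj
  have hjd : 𝓜.Dfn j := hcm.dfn
  have hjinj : ∀ x x', j x = j x' → x = x' := fun x x' h => hcm.inj h
  -- the element of `X` given by an element of `S`
  have hmk : ∀ y, S y → 𝓜.E (𝓜.code y) X := fun y hy => (hX _).2 ⟨y, hy, rfl⟩
  have hjmk : ∀ y (hy : S y), j ⟨𝓜.code y, hmk y hy⟩ = y := fun y hy => code_inj (hj _)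
  -- the metric
  let D : IFun 𝓜 (El 𝓜.E X × El 𝓜.E X) 𝓜.R := ⟨fun p => ρ (j p.1, j p.2), by fun_prop⟩
  let d : El 𝓜.E X → El 𝓜.E X → El 𝓜.E 𝓜.rl.R := fun x x' => D (x, x')
  have hmetric : IsMetric 𝓜.rl d := by
    refine ⟨⟨graph D, fun z => ?_⟩, fun x y => ?_, fun x y => ?_, fun x y z => ?_⟩
    · rw [mem_graph]
      constructor
      · rintro ⟨⟨x, y⟩, rfl⟩
        exact ⟨x, y, _, isPair_iff.2 rfl, isPair_iff.2 rfl⟩
      · rintro ⟨x, y, q, hq, hz⟩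
        rw [isPair_iff] at hq hz
        subst hq
        exact ⟨(x, y), hz⟩
    · constructor
      · intro h
        exact hjinj _ _ (hmet.sep _ _ (hjS x) (hjS y) h)
      · rintro rfl
        exact hmet.self _ (hjS x)
    · exact hmet.symm _ _ (hjS x) (hjS y)
    · exact hmet.tri _ _ _ (hjS x) (hjS y) (hjS z)
  -- the topology
  let mm : ISet 𝓜 (El 𝓜.E X × El 𝓜.E (𝓜.pw X)) := ⟨fun q => 𝓜.E q.1.1 q.2.1, dfn_mem_el _ _⟩
  obtain ⟨τ, hτ⟩ := exists_setOf (𝓜 := 𝓜) (α := El 𝓜.E (𝓜.pw X))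
    (s := fun O => ∀ x : El 𝓜.E X, mm (x, O) → ∃ ε : 𝓜.R, 0 < ε ∧ ∀ y : El 𝓜.E X,
      D (x, y) < ε → mm (y, O)) (by simp only [al_iff, imp_iff_not_or]; fun_prop)
  have hτ' : ∀ O, 𝓜.E O τ ↔ IsOpenFor 𝓜.rl d O := by
    intro O
    rw [hτ]
    constructor
    · rintro ⟨O', hO', rfl⟩
      refine ⟨fun x hx => mem_pw.1 O'.2 x hx, fun x hx => ?_⟩
      obtain ⟨ε, hε, h⟩ := hO' x hx
      exact ⟨ε, hε, h⟩
    · rintro ⟨h1, h2⟩
      refine ⟨⟨O, mem_pw.2 h1⟩, fun x hx => ?_, rfl⟩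
      obtain ⟨ε, hε, h⟩ := h2 x hx
      exact ⟨ε, hε, h⟩
  -- compactness
  have hcomp' : CompactMetrizable 𝓜.E X τ := by
    refine ⟨⟨𝓜.rl, d, hmetric, hτ'⟩, fun V hV hcov => ?_⟩
    obtain ⟨y₀, hy₀⟩ := hne
    obtain ⟨O₀, hO₀, -⟩ := hcov _ (hmk y₀ hy₀)
    let my : ISet 𝓜 (Y × El 𝓜.E V) := ⟨fun q => 𝓜.E (𝓜.code q.1) (𝓜.code q.2), dfn_mem_code⟩
    let V' : ISet 𝓜 (ISet 𝓜 Y) := ⟨fun A => ∃ O : El 𝓜.E V, ∀ y, S y → (A y ↔ my (y, O)), by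
      simp only [al_iff, imp_iff_not_or]; fun_prop⟩
    have h1 : FCov V' S := by
      refine hcomp V' ?_ ?_
      · rintro A ⟨O, hO⟩ y hy hAy
        have h2 := (hO y hy).1 hAy
        obtain ⟨ε, hε, h3⟩ := ((hτ' _).1 (hV _ O.2)).2 ⟨𝓜.code y, hmk y hy⟩ h2
        refine ⟨ε, hε, fun z hz hyz => (hO z hz).2 (h3 ⟨𝓜.code z, hmk z hz⟩ ?_)⟩
        show ρ (j _, j _) < ε
        rw [hjmk y hy, hjmk z hz]
        exact hyz
      · intro y hy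
        obtain ⟨O, hO, hyO⟩ := hcov _ (hmk y hy)
        exact ⟨⟨fun z => my (z, ⟨O, hO⟩), by fun_prop⟩, ⟨⟨O, hO⟩, fun z _ => Iff.rfl⟩, hyO⟩
    have h2 : ∃ (n : 𝓜.N) (e : IFun 𝓜 𝓜.N (El 𝓜.E V)), ∀ y, S y → S y →
        ∃ i, i < n ∧ my (y, e i) := by
      refine FCov.induction (V := V') (P := fun A => ∃ (n : 𝓜.N) (e : IFun 𝓜 𝓜.N (El 𝓜.E V)),
        ∀ y, A y → S y → ∃ i, i < n ∧ my (y, e i))
        (by simp only [al_iff, imp_iff_not_or]; fun_prop) ?_ ?_ h1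
      · intro B hB
        exact ⟨0, ⟨fun _ => ⟨O₀, hO₀⟩, by fun_prop⟩, fun y hy => absurd hy (hB y)⟩
      · rintro B A C - ⟨n, e, hne⟩ ⟨O, hO⟩ hBC
        refine ⟨n + 1, ⟨fun i => if i = n then O else e i, by fun_prop⟩, fun y hy hyS => ?_⟩
        rcases hBC y hy with h | h
        · obtain ⟨i, hi, hi'⟩ := hne y h hyS
          refine ⟨i, hi.trans (by simp), ?_⟩
          have e1 : (⟨fun i => if i = n then O else e i, by fun_prop⟩ :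
              IFun 𝓜 𝓜.N (El 𝓜.E V)) i = e i := if_neg hi.ne
          rw [e1]
          exact hi'
        · refine ⟨n, by simp, ?_⟩
          have e1 : (⟨fun i => if i = n then O else e i, by fun_prop⟩ :
              IFun 𝓜 𝓜.N (El 𝓜.E V)) n = O := if_pos rfl
          rw [e1]
          exact (hO y hyS).1 h
    obtain ⟨n, e, hne'⟩ := h2
    obtain ⟨F, hF, hF'⟩ := hfin 𝓜 V e n
    refine ⟨F, hF, fun O hO => ?_, fun x hx => ?_⟩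
    · obtain ⟨i, -, rfl⟩ := (hF' O).1 hO
      exact (e i).2
    · obtain ⟨y, hy, rfl⟩ := (hX x).1 hx
      obtain ⟨i, hi, h⟩ := hne' y hy hy
      exact ⟨(e i).1, (hF' _).2 ⟨i, hi, rfl⟩, h⟩
  -- the well-order
  obtain ⟨r, ⟨g, hg⟩, hr1, hr2, hr3, hr4⟩ := hC X τ hcomp'
  have hr : ∀ y z (hy : S y) (hz : S z), 𝓜.E (𝓜.op (𝓜.code y) (𝓜.code z)) g ↔
      r ⟨𝓜.code y, hmk y hy⟩ ⟨𝓜.code z, hmk z hz⟩ := by
    intro y z hy hz
    rw [hg]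
    constructor
    · rintro ⟨a, b, hab, h⟩
      rw [isPair_iff, op_inj] at h
      have ha : (⟨𝓜.code y, hmk y hy⟩ : El 𝓜.E X) = a := Subtype.ext h.1
      have hb : (⟨𝓜.code z, hmk z hz⟩ : El 𝓜.E X) = b := Subtype.ext h.2
      rw [ha, hb]
      exact hab
    · intro h
      exact ⟨_, _, h, isPair_iff.2 rfl⟩
  refine ⟨⟨fun p => 𝓜.E (𝓜.op (𝓜.code p.1) (𝓜.code p.2)) g, dfn_pair_mem g⟩, ?_, ?_, ?_, ?_⟩
  · intro x hx h
    exact hr1 _ ((hr x x hx hx).1 h)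
  · intro x y z hx hy hz h1 h2
    exact (hr x z hx hz).2 (hr2 _ _ _ ((hr x y hx hy).1 h1) ((hr y z hy hz).1 h2))
  · intro x y hx hy
    rcases hr3 ⟨𝓜.code x, hmk x hx⟩ ⟨𝓜.code y, hmk y hy⟩ with h | h | h
    · exact Or.inl ((hr x y hx hy).2 h)
    · exact Or.inr (Or.inl (code_inj (𝓜 := 𝓜) (congrArg Subtype.val h)))
    · exact Or.inr (Or.inr ((hr y x hy hx).2 h))
  · intro s hs ⟨x₀, hx₀⟩
    obtain ⟨m, hm⟩ := exists_setOf (𝓜 := 𝓜) (α := Y) (s := fun y => s y) (by fun_prop)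
    obtain ⟨x, hx, hx'⟩ := hr4 m ⟨⟨𝓜.code x₀, hmk x₀ (hs x₀ hx₀)⟩, (hm _).2 ⟨x₀, hx₀, rfl⟩⟩
    obtain ⟨y, hy, hyx⟩ := (hm x.1).1 hx
    refine ⟨y, hy, fun z hz h => ?_⟩
    have h1 := (hr z y (hs z hz) (hs y hy)).1 h
    have e1 : (⟨𝓜.code y, hmk y (hs y hy)⟩ : El 𝓜.E X) = x := Subtype.ext hyx
    rw [e1] at h1
    exact hx' _ ((hm _).2 ⟨z, hz, rfl⟩) h1

end Ctx

end Pool.Agent.Lib.MP_c7a422_lc.Z
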