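import Pool.Agent.Lib.MP_c7a422_lc.Z.BrBase

/-!
# Bridge, part 3: totally bounded metric spaces of the model, in typed form
-/

namespace Pool.Agent.Lib.MP_c7a422_lc.Z

universe u v w

namespace Ctx

/-- translation of the conclusion -/
theorem transB (h1 : StFinB.{u}) (h2 : StLab.{u}) : StTransB.{u} := by
  intro 𝓜 X d hd htb
  have hdf : 𝓜.Dfn (fun p : El 𝓜.E X × El 𝓜.E X => (d p.1 p.2 : 𝓜.R)) := by
    obtain ⟨m, hm⟩ := hd.mem
    refine ⟨m, ?_⟩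
    rintro ⟨⟨a, b⟩, c⟩
    rw [hm]
    simp only [isPair_iff, code_prod, op_inj, code_R]
    constructor
    · rintro ⟨x, y, q, rfl, h1, h2⟩
      rw [op_inj] at h1
      have hx : a = x := Subtype.ext h1.1
      have hy : b = y := Subtype.ext h1.2
      subst hx hy
      exact (Subtype.ext h2).symm
    · intro h
      have h' : d a b = c := h
      subst h'
      exact ⟨a, b, _, rfl, rfl, rfl⟩
  have hmet : MetOn univ (⟨_, hdf⟩ : IFun 𝓜 (El 𝓜.E X × El 𝓜.E X) 𝓜.R) := by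
    refine ⟨⟨fun x _ => ?_, fun x y _ _ => ?_, fun x y z _ _ _ => ?_⟩, fun x y _ _ h => ?_⟩
    · exact (hd.eq_zero x x).2 rfl
    · exact hd.symm x y
    · exact hd.triangle x y z
    · exact (hd.eq_zero x y).1 h
  refine ⟨⟨_, hdf⟩, hmet, fun ε hε => ?_⟩
  by_cases hX : ∃ x, 𝓜.E x X
  · obtain ⟨F, hF, hFX, hF'⟩ := htb (ε / 2 : 𝓜.R) (half_pos hε)
    obtain ⟨e, n, hen⟩ := h1 𝓜 X F hF hFX hX
    have h3 := h2 𝓜 (El 𝓜.E X) univ ⟨_, hdf⟩ (ε / 2) n e hmet.toPM (fun _ => trivial)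
      (fun y _ => by
        obtain ⟨x, hx, hyx⟩ := hF' y
        obtain ⟨i, hi, hix⟩ := hen x.1 hx
        refine ⟨i, hi, ?_⟩
        have : e i = x := Subtype.ext hix
        rw [this]
        exact hyx)
    have e2 : 2 * (ε / 2) = ε := by ring
    rwa [e2] at h3
  · exact ⟨0, ⟨fun _ => 0, by fun_prop⟩, fun y _ => absurd ⟨y.1, y.2⟩ hX,
      fun y _ _ _ _ => absurd ⟨y.1, y.2⟩ hX⟩

end Ctx

end Pool.Agent.Lib.MP_c7a422_lc.Z
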