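import Pool.Agent.Lib.MP_c7a422_lc.Z.Spec

/-!
# Module Ult: a nonprincipal ultrafilter from a well-order of the power set
-/

namespace Pool.Agent.Lib.MP_c7a422_lc.Z

universe u

namespace Ctx

variable {𝓜 : Ctx.{u}}

/-- `F` is a filter on the natural numbers containing all tails. -/
def UIsFil (F : ISet 𝓜 (ISet 𝓜 𝓜.N)) : Prop :=
  (∀ (n : 𝓜.N) (A : ISet 𝓜 𝓜.N), (∀ m, n ≤ m → A m) → F A) ∧
  ∀ A B C : ISet 𝓜 𝓜.N, F A → F B → (∀ n, A n → B n → C n) → F C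

@[fun_prop]
theorem dfn_UIsFil {γ : Type*} [Rep 𝓜 γ] {F : γ → ISet 𝓜 (ISet 𝓜 𝓜.N)} (hF : 𝓜.Dfn F) :
    𝓜.Dfn (fun c => UIsFil (F c)) := by
  unfold UIsFil
  simp only [al_iff, imp_iff_not_or]
  fun_prop

/-- The filter generated by `T`. -/
def UGen (T : ISet 𝓜 (ISet 𝓜 𝓜.N)) (C : ISet 𝓜 𝓜.N) : Prop :=
  ∀ F : ISet 𝓜 (ISet 𝓜 𝓜.N), UIsFil F → (∀ B, T B → F B) → F C

@[fun_prop]
theorem dfn_UGen {γ : Type*} [Rep 𝓜 γ] {T : γ → ISet 𝓜 (ISet 𝓜 𝓜.N)} {C : γ → ISet 𝓜 𝓜.N}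
    (hT : 𝓜.Dfn T) (hC : 𝓜.Dfn C) : 𝓜.Dfn (fun c => UGen (T c) (C c)) := by
  unfold UGen
  simp only [al_iff, imp_iff_not_or]
  fun_prop

/-- The generated filter, as an internal set. -/
def UG (T : ISet 𝓜 (ISet 𝓜 𝓜.N)) : ISet 𝓜 (ISet 𝓜 𝓜.N) := ⟨fun C => UGen T C, by fun_prop⟩

theorem UG_iff {T : ISet 𝓜 (ISet 𝓜 𝓜.N)} {C : ISet 𝓜 𝓜.N} : UG T C ↔ UGen T C := Iff.rfl

theorem UG_fil (T : ISet 𝓜 (ISet 𝓜 𝓜.N)) : UIsFil (UG T) :=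
  ⟨fun n A hA _ hF _ => hF.1 n A hA,
    fun A B C hA hB h F hF hT => hF.2 A B C (hA F hF hT) (hB F hF hT) h⟩

theorem UG_mem {T : ISet 𝓜 (ISet 𝓜 𝓜.N)} {B : ISet 𝓜 𝓜.N} (h : T B) : UG T B :=
  fun _ _ hT => hT B h

theorem UG_le {T F : ISet 𝓜 (ISet 𝓜 𝓜.N)} (hF : UIsFil F) (h : ∀ B, T B → F B)
    {C : ISet 𝓜 𝓜.N} (hC : UG T C) : F C := hC F hF h

theorem UG_mono {T T' : ISet 𝓜 (ISet 𝓜 𝓜.N)} (h : ∀ B, T B → T' B) {C : ISet 𝓜 𝓜.N}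
    (hC : UG T C) : UG T' C := UG_le (UG_fil T') (fun B hB => UG_mem (h B hB)) hC

theorem UG_congr {T T' : ISet 𝓜 (ISet 𝓜 𝓜.N)} (h : ∀ B, T B ↔ T' B) {C : ISet 𝓜 𝓜.N} :
    UG T C ↔ UG T' C := ⟨UG_mono fun B => (h B).1, UG_mono fun B => (h B).2⟩

/-- the complement -/
def Ucompl (A : ISet 𝓜 𝓜.N) : ISet 𝓜 𝓜.N := ⟨fun n => ¬ A n, by fun_prop⟩

@[fun_prop]
theorem dfn_Ucompl {γ : Type*} [Rep 𝓜 γ] {A : γ → ISet 𝓜 𝓜.N} (hA : 𝓜.Dfn A) :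
    𝓜.Dfn (fun c => Ucompl (A c)) := by
  unfold Ucompl
  fun_prop

/-- the empty set -/
def Uemp : ISet 𝓜 𝓜.N := ⟨fun _ => False, by fun_prop⟩

/-- A filter is proper if it does not contain the empty set. -/
def UProper (F : ISet 𝓜 (ISet 𝓜 𝓜.N)) : Prop := ¬ F Uemp

@[fun_prop]
theorem dfn_UProper {γ : Type*} [Rep 𝓜 γ] {F : γ → ISet 𝓜 (ISet 𝓜 𝓜.N)} (hF : 𝓜.Dfn F) :
    𝓜.Dfn (fun c => UProper (F c)) := by
  unfold UProper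
  fun_prop

@[fun_prop]
theorem dfn_UG {γ : Type*} [Rep 𝓜 γ] {T : γ → ISet 𝓜 (ISet 𝓜 𝓜.N)} (hT : 𝓜.Dfn T) :
    𝓜.Dfn (fun c => UG (T c)) := by
  unfold UG
  fun_prop

/-- the members of `V` below `A` -/
def Ulo (r : ISet 𝓜 (ISet 𝓜 𝓜.N × ISet 𝓜 𝓜.N)) (V : ISet 𝓜 (ISet 𝓜 𝓜.N)) (A : ISet 𝓜 𝓜.N) :
    ISet 𝓜 (ISet 𝓜 𝓜.N) := ⟨fun B => V B ∧ r (B, A), by fun_prop⟩

/-- the members of `V` up to `A` -/
def Ule (r : ISet 𝓜 (ISet 𝓜 𝓜.N × ISet 𝓜 𝓜.N)) (V : ISet 𝓜 (ISet 𝓜 𝓜.N)) (A : ISet 𝓜 𝓜.N) :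
    ISet 𝓜 (ISet 𝓜 𝓜.N) := ⟨fun B => V B ∧ (r (B, A) ∨ B = A), by fun_prop⟩

@[fun_prop]
theorem dfn_Ulo {γ : Type*} [Rep 𝓜 γ] {r : γ → ISet 𝓜 (ISet 𝓜 𝓜.N × ISet 𝓜 𝓜.N)}
    {V : γ → ISet 𝓜 (ISet 𝓜 𝓜.N)} {A : γ → ISet 𝓜 𝓜.N} (hr : 𝓜.Dfn r) (hV : 𝓜.Dfn V)
    (hA : 𝓜.Dfn A) : 𝓜.Dfn (fun c => Ulo (r c) (V c) (A c)) := by
  unfold Ulo
  fun_prop

@[fun_prop]
theorem dfn_Ule {γ : Type*} [Rep 𝓜 γ] {r : γ → ISet 𝓜 (ISet 𝓜 𝓜.N × ISet 𝓜 𝓜.N)}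
    {V : γ → ISet 𝓜 (ISet 𝓜 𝓜.N)} {A : γ → ISet 𝓜 𝓜.N} (hr : 𝓜.Dfn r) (hV : 𝓜.Dfn V)
    (hA : 𝓜.Dfn A) : 𝓜.Dfn (fun c => Ule (r c) (V c) (A c)) := by
  unfold Ule
  fun_prop

/-- `V` obeys the recursion up to `A`. -/
def UGood (r : ISet 𝓜 (ISet 𝓜 𝓜.N × ISet 𝓜 𝓜.N)) (V : ISet 𝓜 (ISet 𝓜 𝓜.N)) (A : ISet 𝓜 𝓜.N) :
    Prop :=
  ∀ B : ISet 𝓜 𝓜.N, (r (B, A) ∨ B = A) → (V B ↔ ¬ UG (Ulo r V B) (Ucompl B))

@[fun_prop]
theorem dfn_UGood {γ : Type*} [Rep 𝓜 γ] {r : γ → ISet 𝓜 (ISet 𝓜 𝓜.N × ISet 𝓜 𝓜.N)}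
    {V : γ → ISet 𝓜 (ISet 𝓜 𝓜.N)} {A : γ → ISet 𝓜 𝓜.N} (hr : 𝓜.Dfn r) (hV : 𝓜.Dfn V)
    (hA : 𝓜.Dfn A) : 𝓜.Dfn (fun c => UGood (r c) (V c) (A c)) := by
  unfold UGood
  simp only [al_iff, imp_iff_not_or]
  fun_prop

section main

variable {r : ISet 𝓜 (ISet 𝓜 𝓜.N × ISet 𝓜 𝓜.N)} (hr : IsWO univ r)
include hr

theorem Ur_trans {A B C : ISet 𝓜 𝓜.N} (h1 : r (A, B)) (h2 : r (B, C)) : r (A, C) :=
  hr.trans A B C trivial trivial trivial h1 h2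

theorem Ur_trans' {A B C : ISet 𝓜 𝓜.N} (h1 : r (A, B)) (h2 : r (B, C) ∨ B = C) : r (A, C) := by
  rcases h2 with h2 | rfl
  · exact Ur_trans hr h1 h2
  · exact h1

theorem Ur_trans'' {A B C : ISet 𝓜 𝓜.N} (h1 : r (A, B) ∨ A = B) (h2 : r (B, C) ∨ B = C) :
    r (A, C) ∨ A = C := by
  rcases h1 with h1 | rfl
  · exact Or.inl (Ur_trans' hr h1 h2)
  · exact h2

theorem Ur_total (A B : ISet 𝓜 𝓜.N) : (r (A, B) ∨ A = B) ∨ r (B, A) := by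
  rcases hr.total A B trivial trivial with h | h | h
  · exact Or.inl (Or.inl h)
  · exact Or.inl (Or.inr h)
  · exact Or.inr h

/-- transfinite induction -/
theorem Ur_ind {P : ISet 𝓜 𝓜.N → Prop} (hP : 𝓜.Dfn P)
    (h : ∀ A, (∀ B, r (B, A) → P B) → P A) (A : ISet 𝓜 𝓜.N) : P A := by
  by_contra hA
  obtain ⟨x, hx, hmin⟩ := hr.least ⟨fun B => ¬ P B, by fun_prop⟩ (fun _ _ => trivial) ⟨A, hA⟩
  refine hx (h x fun B hB => ?_)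
  by_contra hPB
  exact hmin B hPB hB

theorem UGood_unique {V W : ISet 𝓜 (ISet 𝓜 𝓜.N)} {A A' : ISet 𝓜 𝓜.N} (hV : UGood r V A)
    (hW : UGood r W A') (B : ISet 𝓜 𝓜.N) :
    (r (B, A) ∨ B = A) → (r (B, A') ∨ B = A') → (V B ↔ W B) := by
  refine Ur_ind hr (P := fun B => (r (B, A) ∨ B = A) → (r (B, A') ∨ B = A') → (V B ↔ W B))
    (by simp only [imp_iff_not_or]; fun_prop) ?_ B
  intro B ih h1 h2
  have h3 : ∀ C, Ulo r V B C ↔ Ulo r W B C := by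
    intro C
    show (V C ∧ r (C, B)) ↔ (W C ∧ r (C, B))
    constructor
    · rintro ⟨h4, h5⟩
      exact ⟨(ih C h5 (Or.inl (Ur_trans' hr h5 h1)) (Or.inl (Ur_trans' hr h5 h2))).1 h4, h5⟩
    · rintro ⟨h4, h5⟩
      exact ⟨(ih C h5 (Or.inl (Ur_trans' hr h5 h1)) (Or.inl (Ur_trans' hr h5 h2))).2 h4, h5⟩
  rw [hV B h1, hW B h2, UG_congr h3]

end main

/-- the recursively defined family -/
def UU (r : ISet 𝓜 (ISet 𝓜 𝓜.N × ISet 𝓜 𝓜.N)) : ISet 𝓜 (ISet 𝓜 𝓜.N) :=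
  ⟨fun C => ∃ W, UGood r W C ∧ W C, by fun_prop⟩

section main2

variable {r : ISet 𝓜 (ISet 𝓜 𝓜.N × ISet 𝓜 𝓜.N)} (hr : IsWO univ r)
include hr

theorem UU_spec (A : ISet 𝓜 𝓜.N) : UU r A ↔ ¬ UG (Ulo r (UU r) A) (Ucompl A) := by
  refine Ur_ind hr (P := fun A => UU r A ↔ ¬ UG (Ulo r (UU r) A) (Ucompl A)) (by fun_prop) ?_ A
  intro A ih
  classical
  -- the modified family
  let W : ISet 𝓜 (ISet 𝓜 𝓜.N) := ⟨fun C => (C = A ∧ ¬ UG (Ulo r (UU r) A) (Ucompl A)) ∨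
    (C ≠ A ∧ UU r C), by fun_prop⟩
  have hWlt : ∀ C, r (C, A) → (W C ↔ UU r C) := by
    intro C hC
    have hne : C ≠ A := by
      rintro rfl
      exact hr.irrefl C trivial hC
    show ((C = A ∧ ¬ UG (Ulo r (UU r) A) (Ucompl A)) ∨ (C ≠ A ∧ UU r C)) ↔ UU r C
    simp [hne]
  have hWA : W A ↔ ¬ UG (Ulo r (UU r) A) (Ucompl A) := by
    show ((A = A ∧ ¬ UG (Ulo r (UU r) A) (Ucompl A)) ∨ (A ≠ A ∧ UU r A)) ↔ _
    simp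
  have hlo : ∀ B, (r (B, A) ∨ B = A) → ∀ C, Ulo r W B C ↔ Ulo r (UU r) B C := by
    intro B hB C
    show (W C ∧ r (C, B)) ↔ (UU r C ∧ r (C, B))
    constructor
    · rintro ⟨h1, h2⟩
      exact ⟨(hWlt C (Ur_trans' hr h2 hB)).1 h1, h2⟩
    · rintro ⟨h1, h2⟩
      exact ⟨(hWlt C (Ur_trans' hr h2 hB)).2 h1, h2⟩
  have hWgood : UGood r W A := by
    intro B hB
    rw [UG_congr (hlo B hB)]
    rcases hB with hB | rfl
    · rw [hWlt B hB]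
      exact ih B hB
    · exact hWA
  rw [← hWA]
  constructor
  · rintro ⟨W', hW', hA⟩
    exact (UGood_unique hr hW' hWgood A (Or.inr rfl) (Or.inr rfl)).1 hA
  · intro h
    exact ⟨W, hWgood, h⟩

omit hr in
/-- the filter of all sets containing a tail is proper -/
theorem UG_empty_proper {T : ISet 𝓜 (ISet 𝓜 𝓜.N)} (hT : ∀ B, ¬ T B) : UProper (UG T) := by
  intro h
  have h1 := h ⟨fun C => ∃ n : 𝓜.N, ∀ m, n ≤ m → C m,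
    by simp only [al_iff, imp_iff_not_or]; fun_prop⟩ ?_ (fun B hB => absurd hB (hT B))
  · obtain ⟨n, hn⟩ := h1
    exact hn n le_rfl
  · constructor
    · intro n A hA
      exact ⟨n, hA⟩
    · rintro A B C ⟨n, hn⟩ ⟨m, hm⟩ h
      exact ⟨max n m, fun k hk => h k (hn k ((le_max_left _ _).trans hk))
        (hm k ((le_max_right _ _).trans hk))⟩

/-- directed unions of filters are filters -/
theorem UG_union (V S T : ISet 𝓜 (ISet 𝓜 𝓜.N)) (hS : ∀ A, S A → UProper (UG (Ule r V A)))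
    (hT : ∀ B, T B → V B ∧ ∃ A, S A ∧ (r (B, A) ∨ B = A)) : UProper (UG T) := by
  intro h
  let T0 : ISet 𝓜 (ISet 𝓜 𝓜.N) := ⟨fun _ => False, by fun_prop⟩
  have h1 := h ⟨fun C => (∃ A, S A ∧ UG (Ule r V A) C) ∨ UG T0 C, by fun_prop⟩ ?_ ?_
  · rcases h1 with ⟨A, hA, hA'⟩ | h1
    · exact hS A hA hA'
    · exact UG_empty_proper (T := T0) (fun _ h => h) h1
  · constructor
    · intro n A hA
      exact Or.inr ((UG_fil T0).1 n A hA)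
    · have hT0 : ∀ A C, UG T0 C → UG (Ule r V A) C := fun A C hC =>
        UG_mono (fun B hB => absurd hB (fun h => h)) hC
      have hmono : ∀ A A' C, (r (A, A') ∨ A = A') → UG (Ule r V A) C → UG (Ule r V A') C := by
        intro A A' C h hC
        refine UG_mono (fun B hB => ?_) hC
        exact ⟨hB.1, Ur_trans'' hr hB.2 h⟩
      rintro A B C (⟨A1, hA1, hA2⟩ | hA) (⟨B1, hB1, hB2⟩ | hB) hABC
      · rcases Ur_total hr A1 B1 with h2 | h2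
        · exact Or.inl ⟨B1, hB1, (UG_fil _).2 A B C (hmono A1 B1 A h2 hA2) hB2 hABC⟩
        · exact Or.inl ⟨A1, hA1, (UG_fil _).2 A B C hA2 (hmono B1 A1 B (Or.inl h2) hB2) hABC⟩
      · exact Or.inl ⟨A1, hA1, (UG_fil _).2 A B C hA2 (hT0 A1 B hB) hABC⟩
      · exact Or.inl ⟨B1, hB1, (UG_fil _).2 A B C (hT0 B1 A hA) hB2 hABC⟩
      · exact Or.inr ((UG_fil _).2 A B C hA hB hABC)
  · intro B hB
    obtain ⟨h2, A, hA, hBA⟩ := hT B hB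
    exact Or.inl ⟨A, hA, UG_mem ⟨h2, hBA⟩⟩

theorem UU_lo_proper (A : ISet 𝓜 𝓜.N) : UProper (UG (Ule r (UU r) A)) := by
  refine Ur_ind hr (P := fun A => UProper (UG (Ule r (UU r) A))) (by fun_prop) ?_ A
  intro A ih
  have h0 : UProper (UG (Ulo r (UU r) A)) := by
    refine UG_union hr (UU r) ⟨fun B => r (B, A), by fun_prop⟩ _ (fun B hB => ih B hB) ?_
    rintro B ⟨hB1, hB2⟩
    exact ⟨hB1, B, hB2, Or.inr rfl⟩
  by_cases hA : UU r A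
  · have h1 := (UU_spec hr A).1 hA
    intro h2
    have h3 := h2 ⟨fun C => UG (Ulo r (UU r) A) ⟨fun n => ¬ A n ∨ C n, by fun_prop⟩,
      by fun_prop⟩ ?_ ?_
    · refine h1 ((UG_fil _).2 _ _ _ h3 h3 ?_)
      rintro n (h4 | h4) _
      · exact h4
      · exact absurd h4 (fun h => h)
    · constructor
      · intro n B hB
        refine (UG_fil _).1 n _ (fun m hm => Or.inr (hB m hm))
      · intro B C D hB hC hBCD
        refine (UG_fil _).2 _ _ _ hB hC ?_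
        rintro n (h4 | h4) (h5 | h5)
        · exact Or.inl h4
        · exact Or.inl h4
        · exact Or.inl h5
        · exact Or.inr (hBCD n h4 h5)
    · rintro B ⟨hB1, hB2 | hB2⟩
      · have h4 : UG (Ulo r (UU r) A) B := UG_mem ⟨hB1, hB2⟩
        exact (UG_fil _).2 _ _ _ h4 h4 (fun n h5 _ => Or.inr h5)
      · subst hB2
        exact (UG_fil _).1 0 _ (fun m _ => (Classical.em (B m)).symm)
  · intro h2
    refine h0 (UG_mono (fun B hB => ?_) h2)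
    rcases hB with ⟨hB1, hB2 | hB2⟩
    · exact ⟨hB1, hB2⟩
    · subst hB2
      exact absurd hB1 hA

end main2

/-- A well-order of the power set of the natural numbers gives a nonprincipal ultrafilter. -/
theorem ult : StUlt.{u} := by
  rintro 𝓜 ⟨r, hr⟩
  have hprop : UProper (UG (UU r)) := by
    refine UG_union hr (UU r) univ _ (fun A _ => UU_lo_proper hr A) ?_
    intro B hB
    exact ⟨hB, B, trivial, Or.inr rfl⟩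
  have hdec : ∀ A, UG (UU r) A ∨ UG (UU r) (Ucompl A) := by
    intro A
    by_cases hA : UU r A
    · exact Or.inl (UG_mem hA)
    · have h1 : UG (Ulo r (UU r) A) (Ucompl A) := by
        by_contra h
        exact hA ((UU_spec hr A).2 h)
      exact Or.inr (UG_mono (fun B (hB : UU r B ∧ r (B, A)) => hB.1) h1)
  have hne : ∀ A, UG (UU r) A → ∃ n, A n := by
    intro A hA
    by_contra hcon
    push Not at hcon
    exact hprop ((UG_fil _).2 A A Uemp hA hA (fun n hn _ => hcon n hn))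
  refine ⟨UG (UU r), (UG_fil _).1, (UG_fil _).2, ?_, hne⟩
  intro A B hAB
  rcases hdec A with h | h
  · exact Or.inl h
  · refine Or.inr ((UG_fil _).2 _ _ _ h h (fun n hn _ => ?_))
    rcases hAB n with h1 | h1
    · exact absurd h1 hn
    · exact h1

end Ctx

end Pool.Agent.Lib.MP_c7a422_lc.Z
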