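import Pool.Agent.Lib.MP_c7a422_lc.Z.Main
import Pool.Agent.Lib.MP_c7a422_lc.Z.Out
import Pool.Agent.Lib.MP_c7a422_lc.Z.Tool1
import Pool.Agent.Lib.MP_c7a422_lc.Z.Tool2
import Pool.Agent.Lib.MP_c7a422_lc.Z.Cantor
import Pool.Agent.Lib.MP_c7a422_lc.Z.Seq
import Pool.Agent.Lib.MP_c7a422_lc.Z.Ult
import Pool.Agent.Lib.MP_c7a422_lc.Z.Comp
import Pool.Agent.Lib.MP_c7a422_lc.Z.Dense
import Pool.Agent.Lib.MP_c7a422_lc.Z.Cov
import Pool.Agent.Lib.MP_c7a422_lc.Z.Lam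
import Pool.Agent.Lib.MP_c7a422_lc.Z.MuN
import Pool.Agent.Lib.MP_c7a422_lc.Z.Mu
import Pool.Agent.Lib.MP_c7a422_lc.Z.Fub
import Pool.Agent.Lib.MP_c7a422_lc.Z.Pow
import Pool.Agent.Lib.MP_c7a422_lc.Z.Sep
import Pool.Agent.Lib.MP_c7a422_lc.Z.KBound
import Pool.Agent.Lib.MP_c7a422_lc.Z.KTB
import Pool.Agent.Lib.MP_c7a422_lc.Z.KClosed
import Pool.Agent.Lib.MP_c7a422_lc.Z.KComplete
import Pool.Agent.Lib.MP_c7a422_lc.Z.KWO
import Pool.Agent.Lib.MP_c7a422_lc.Z.KCompact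
import Pool.Agent.Lib.MP_c7a422_lc.Z.TransA
import Pool.Agent.Lib.MP_c7a422_lc.Z.TransB
import Pool.Agent.Lib.MP_c7a422_lc.Z.FinTr

/-!
# Assembly
-/

namespace Pool.Agent.Lib.MP_c7a422_lc.Z

universe u

namespace Ctx

theorem fNet : StNet.{u} := net choice
theorem fBdd : StBdd.{u} := bdd fNet
theorem fTBfun : StTBfun.{u} := tbfun fNet pack labReal fBdd
theorem fMu : StMu.{u} := mu (muN (lamCov (cov fNet fBdd)) pack fNet fBdd)
theorem fFub : StFub.{u} := fub fNet fBdd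
theorem fKBound : StKBound.{u} := kbound fBdd
theorem fKTB : StKTB.{u} := ktb fKBound fTBfun
theorem fKCompact : StKCompact.{u} :=
  kcompact fKBound fKTB (comp fNet) (kwo fFub fNet fBdd) (kcomplete fKBound (kclosed fKBound fBdd))

theorem fSep : StSep.{u} := sep fFub (pow fFub fBdd) fTBfun fNet fBdd

theorem fMain : StMain.{u} :=
  main cantor seq ult fMu fKCompact fKTB (dense pigeon fNet) fSep fKBound fBdd

end Ctx

open Ctx in
theorem final {M : Type u} (E : M → M → Prop) (zf : IsZF E) (hC : MCWO E) : MTBWO E :=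
  out (transA finA) (transB finB lab) fMain E zf hC

end Pool.Agent.Lib.MP_c7a422_lc.Z
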