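import Pool.Agent.Lib.MP_c7a422_lc.Z.Defs

/-!
# Base 1: definability by formulas, pairs, products
-/

namespace Pool.Agent.Lib.MP_c7a422_lc.Z

universe u

/-- A model of ZF with a complete ordered field of the model. -/
structure Ctx where
  M : Type u
  E : M → M → Prop
  zf : IsZF E
  rl : Reals E

namespace Ctx

variable {𝓜 : Ctx.{u}} {n : ℕ}

/-- The predicate `P` of `n` variables is given by a formula (without parameters). -/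
def Df (𝓜 : Ctx.{u}) {n : ℕ} (P : (Fin n → 𝓜.M) → Prop) : Prop :=
  ∃ φ : Fml n, ∀ v : Fin n → 𝓜.M, Sat 𝓜.E φ v ↔ P v

theorem Df.congr {P Q : (Fin n → 𝓜.M) → Prop} (h : 𝓜.Df P) (e : ∀ v, P v ↔ Q v) : 𝓜.Df Q := by
  obtain ⟨φ, hφ⟩ := h
  exact ⟨φ, fun v => (hφ v).trans (e v)⟩

theorem dmem (i j : Fin n) : 𝓜.Df (fun v => 𝓜.E (v i) (v j)) := ⟨.mem i j, fun _ => Iff.rfl⟩

theorem deq (i j : Fin n) : 𝓜.Df (fun v => v i = v j) := ⟨.eq i j, fun _ => Iff.rfl⟩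

theorem dbot : 𝓜.Df (fun _ : Fin n → 𝓜.M => False) := ⟨.bot, fun _ => Iff.rfl⟩

theorem dimp {P Q : (Fin n → 𝓜.M) → Prop} (hP : 𝓜.Df P) (hQ : 𝓜.Df Q) :
    𝓜.Df (fun v => P v → Q v) := by
  obtain ⟨φ, hφ⟩ := hP
  obtain ⟨ψ, hψ⟩ := hQ
  refine ⟨.imp φ ψ, fun v => ?_⟩
  simp only [Sat]
  rw [hφ v, hψ v]

theorem dnot {P : (Fin n → 𝓜.M) → Prop} (hP : 𝓜.Df P) : 𝓜.Df (fun v => ¬ P v) := dimp hP dbot

theorem dand {P Q : (Fin n → 𝓜.M) → Prop} (hP : 𝓜.Df P) (hQ : 𝓜.Df Q) :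
    𝓜.Df (fun v => P v ∧ Q v) :=
  (dnot (dimp hP (dnot hQ))).congr fun v => by tauto

theorem dor {P Q : (Fin n → 𝓜.M) → Prop} (hP : 𝓜.Df P) (hQ : 𝓜.Df Q) :
    𝓜.Df (fun v => P v ∨ Q v) :=
  (dimp (dnot hP) hQ).congr fun v => by tauto

theorem diff {P Q : (Fin n → 𝓜.M) → Prop} (hP : 𝓜.Df P) (hQ : 𝓜.Df Q) :
    𝓜.Df (fun v => P v ↔ Q v) :=
  (dand (dimp hP hQ) (dimp hQ hP)).congr fun v => by tauto

theorem dall {Q : 𝓜.M → (Fin n → 𝓜.M) → Prop}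
    (h : 𝓜.Df (fun v : Fin (n + 1) → 𝓜.M => Q (v 0) (fun i => v i.succ))) :
    𝓜.Df (fun v => ∀ x, Q x v) := by
  obtain ⟨φ, hφ⟩ := h
  refine ⟨.all φ, fun v => ?_⟩
  simp only [Sat]
  refine forall_congr' fun x => ?_
  rw [hφ (Fin.cons x v)]
  simp only [Fin.cons_zero, Fin.cons_succ]

theorem dex {Q : 𝓜.M → (Fin n → 𝓜.M) → Prop}
    (h : 𝓜.Df (fun v : Fin (n + 1) → 𝓜.M => Q (v 0) (fun i => v i.succ))) :
    𝓜.Df (fun v => ∃ x, Q x v) :=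
  (dnot (dall (Q := fun x v => ¬ Q x v) (dnot h))).congr fun v => by
    simp only [not_forall, not_not]

theorem dpair (i j k : Fin n) : 𝓜.Df (fun v => IsPair 𝓜.E (v i) (v j) (v k)) := by
  unfold IsPair
  exact dall (Q := fun z v => 𝓜.E z (v i) ↔ (∀ w, 𝓜.E w z ↔ w = v j) ∨
    (∀ w, 𝓜.E w z ↔ w = v j ∨ w = v k))
    (diff (dmem _ _) (dor (dall (Q := fun w v => 𝓜.E w (v 0) ↔ w = v j.succ)
      (diff (dmem _ _) (deq _ _)))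
      (dall (Q := fun w v => 𝓜.E w (v 0) ↔ w = v j.succ ∨ w = v k.succ)
        (diff (dmem _ _) (dor (deq _ _) (deq _ _))))))

/-- Separation for definable predicates. -/
theorem sepD (𝓜 : Ctx.{u}) {P : (Fin (n + 1) → 𝓜.M) → Prop} (h : 𝓜.Df P) (p : Fin n → 𝓜.M)
    (x : 𝓜.M) : ∃ y, ∀ z, 𝓜.E z y ↔ 𝓜.E z x ∧ P (Fin.cons z p) := by
  obtain ⟨φ, hφ⟩ := h
  obtain ⟨y, hy⟩ := 𝓜.zf.sep n φ p x
  exact ⟨y, fun z => by rw [hy, hφ]⟩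

theorem ext (𝓜 : Ctx.{u}) {x y : 𝓜.M} (h : ∀ z, 𝓜.E z x ↔ 𝓜.E z y) : x = y := 𝓜.zf.ext x y h

/-- the unordered pair -/
noncomputable def up (𝓜 : Ctx.{u}) (x y : 𝓜.M) : 𝓜.M := Classical.choose (𝓜.zf.pair x y)

@[simp] theorem mem_up (x y z : 𝓜.M) : 𝓜.E z (𝓜.up x y) ↔ z = x ∨ z = y :=
  Classical.choose_spec (𝓜.zf.pair x y) z

/-- the ordered pair -/
noncomputable def op (𝓜 : Ctx.{u}) (x y : 𝓜.M) : 𝓜.M := 𝓜.up (𝓜.up x x) (𝓜.up x y)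

theorem up_eq_iff {x y p : 𝓜.M} : p = 𝓜.up x y ↔ ∀ w, 𝓜.E w p ↔ w = x ∨ w = y := by
  constructor
  · rintro rfl w
    exact mem_up _ _ _
  · intro h
    exact 𝓜.ext fun z => by rw [h, mem_up]

theorem isPair_iff {p x y : 𝓜.M} : IsPair 𝓜.E p x y ↔ p = 𝓜.op x y := by
  unfold op
  rw [up_eq_iff]
  unfold IsPair
  refine forall_congr' fun z => ?_
  rw [up_eq_iff, up_eq_iff]
  simp only [or_self]

theorem up_inj_left {x y z : 𝓜.M} (h : 𝓜.up x y = 𝓜.up x z) : y = z := by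
  have h1 : 𝓜.E y (𝓜.up x z) := by rw [← h]; simp
  have h2 : 𝓜.E z (𝓜.up x y) := by rw [h]; simp
  rw [mem_up] at h1 h2
  rcases h1 with h1 | h1
  · rcases h2 with h2 | h2
    · rw [h1, h2]
    · exact h2.symm
  · exact h1

theorem up_self_eq {x y z : 𝓜.M} (h : 𝓜.up x x = 𝓜.up y z) : x = y ∧ x = z := by
  have h1 : 𝓜.E y (𝓜.up x x) := by rw [h]; simp
  have h2 : 𝓜.E z (𝓜.up x x) := by rw [h]; simp
  rw [mem_up, or_self] at h1 h2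
  exact ⟨h1.symm, h2.symm⟩

theorem op_inj {x y x' y' : 𝓜.M} : 𝓜.op x y = 𝓜.op x' y' ↔ x = x' ∧ y = y' := by
  constructor
  · intro h
    unfold op at h
    have h1 : 𝓜.E (𝓜.up x x) (𝓜.up (𝓜.up x' x') (𝓜.up x' y')) := by rw [← h]; simp
    have hx : x = x' := by
      rw [mem_up] at h1
      rcases h1 with h1 | h1
      · exact (up_self_eq h1).1
      · exact (up_self_eq h1).1
    subst hx
    exact ⟨rfl, up_inj_left (up_inj_left h)⟩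
  · rintro ⟨rfl, rfl⟩
    rfl

/-- the power set -/
noncomputable def pw (𝓜 : Ctx.{u}) (x : 𝓜.M) : 𝓜.M := Classical.choose (𝓜.zf.power x)

theorem mem_pw {x z : 𝓜.M} : 𝓜.E z (𝓜.pw x) ↔ ∀ y, 𝓜.E y z → 𝓜.E y x :=
  Classical.choose_spec (𝓜.zf.power x) z

/-- the union -/
noncomputable def un (𝓜 : Ctx.{u}) (x : 𝓜.M) : 𝓜.M := Classical.choose (𝓜.zf.union x)

theorem mem_un {x z : 𝓜.M} : 𝓜.E z (𝓜.un x) ↔ ∃ y, 𝓜.E y x ∧ 𝓜.E z y :=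
  Classical.choose_spec (𝓜.zf.union x) z

/-- product sets exist -/
theorem exists_prod (𝓜 : Ctx.{u}) (a b : 𝓜.M) :
    ∃ c, ∀ z, 𝓜.E z c ↔ ∃ x y, 𝓜.E x a ∧ 𝓜.E y b ∧ z = 𝓜.op x y := by
  obtain ⟨c, hc⟩ := 𝓜.sepD (n := 2) (P := fun v => ∃ x y, 𝓜.E x (v 1) ∧ 𝓜.E y (v 2) ∧
    IsPair 𝓜.E (v 0) x y) (dex (Q := fun x v => ∃ y, 𝓜.E x (v 1) ∧ 𝓜.E y (v 2) ∧
    IsPair 𝓜.E (v 0) x y) (dex (Q := fun y v => 𝓜.E (v 0) (v 2) ∧ 𝓜.E y (v 3) ∧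
    IsPair 𝓜.E (v 1) (v 0) y) (dand (dmem _ _) (dand (dmem _ _) (dpair _ _ _))))) ![a, b]
    (𝓜.pw (𝓜.pw (𝓜.un (𝓜.up a b))))
  refine ⟨c, fun z => ?_⟩
  rw [hc]
  simp only [Fin.cons_zero, Fin.cons_one, isPair_iff]
  constructor
  · rintro ⟨-, x, y, h1, h2, h3⟩
    exact ⟨x, y, h1, h2, h3⟩
  · rintro ⟨x, y, h1, h2, rfl⟩
    refine ⟨?_, x, y, h1, h2, rfl⟩
    rw [mem_pw]
    intro w hw
    rw [mem_pw]
    intro t ht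
    rw [mem_un]
    unfold op at hw
    rw [mem_up] at hw
    rcases hw with rfl | rfl
    · rw [mem_up, or_self] at ht
      subst ht
      exact ⟨a, by simp, h1⟩
    · rw [mem_up] at ht
      rcases ht with rfl | rfl
      · exact ⟨a, by simp, h1⟩
      · exact ⟨b, by simp, h2⟩

/-- the product set -/
noncomputable def pr (𝓜 : Ctx.{u}) (a b : 𝓜.M) : 𝓜.M := Classical.choose (𝓜.exists_prod a b)

theorem mem_pr {a b z : 𝓜.M} :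
    𝓜.E z (𝓜.pr a b) ↔ ∃ x y, 𝓜.E x a ∧ 𝓜.E y b ∧ z = 𝓜.op x y :=
  Classical.choose_spec (𝓜.exists_prod a b) z

end Ctx

end Pool.Agent.Lib.MP_c7a422_lc.Z
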