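import Pool.Agent.Lib.MP_c7a422_lc.Z.Rep

/-!
# Base 3: logical rules, internal function spaces, subtypes, description
-/

namespace Pool.Agent.Lib.MP_c7a422_lc.Z

universe u v w

namespace Ctx

variable {𝓜 : Ctx.{u}}

section rules

variable {α : Type*} {β : Type*} {γ : Type*} {δ : Type*} [Rep 𝓜 α] [Rep 𝓜 β] [Rep 𝓜 γ] [Rep 𝓜 δ]

theorem Dfn.congr {f g : α → β} (h : 𝓜.Dfn f) (e : ∀ a, f a = g a) : 𝓜.Dfn g := by
  rw [← funext e]; exact h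

theorem Dfn.congr_iff {s t : α → Prop} (h : 𝓜.Dfn s) (e : ∀ a, s a ↔ t a) : 𝓜.Dfn t :=
  h.congr fun a => propext (e a)

theorem Dfn.imp {s t : α → Prop} (hs : 𝓜.Dfn s) (ht : 𝓜.Dfn t) : 𝓜.Dfn (fun a => s a → t a) :=
  dfn_iff.2 (intS_imp (dfn_iff.1 hs) (dfn_iff.1 ht))

@[fun_prop]
theorem Dfn.not {s : α → Prop} (hs : 𝓜.Dfn s) : 𝓜.Dfn (fun a => ¬ s a) :=
  dfn_iff.2 (intS_not (dfn_iff.1 hs))

@[fun_prop]
theorem Dfn.and {s t : α → Prop} (hs : 𝓜.Dfn s) (ht : 𝓜.Dfn t) : 𝓜.Dfn (fun a => s a ∧ t a) :=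
  dfn_iff.2 (intS_and (dfn_iff.1 hs) (dfn_iff.1 ht))

@[fun_prop]
theorem Dfn.or {s t : α → Prop} (hs : 𝓜.Dfn s) (ht : 𝓜.Dfn t) : 𝓜.Dfn (fun a => s a ∨ t a) :=
  (hs.not.imp ht).congr_iff fun a => by tauto

@[fun_prop]
theorem Dfn.iff {s t : α → Prop} (hs : 𝓜.Dfn s) (ht : 𝓜.Dfn t) : 𝓜.Dfn (fun a => s a ↔ t a) :=
  ((hs.imp ht).and (ht.imp hs)).congr_iff fun a => by tauto

@[fun_prop]
theorem Dfn.ex {s : α → β → Prop} (hs : 𝓜.Dfn (fun p : α × β => s p.1 p.2)) :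
    𝓜.Dfn (fun a => ∃ b, s a b) := dfn_iff.2 (intS_ex (dfn_iff.1 hs))

theorem Dfn.all {s : α → β → Prop} (hs : 𝓜.Dfn (fun p : α × β => s p.1 p.2)) :
    𝓜.Dfn (fun a => ∀ b, s a b) :=
  (Dfn.ex (s := fun a b => ¬ s a b) hs.not).not.congr_iff fun a => by
    simp only [not_exists, not_not]

@[fun_prop]
theorem Dfn.eq {f g : α → β} (hf : 𝓜.Dfn f) (hg : 𝓜.Dfn g) : 𝓜.Dfn (fun a => f a = g a) :=
  dfn_iff.2 (intS_pre (s := fun p : β × β => p.1 = p.2) intS_eq (dfn_pair hf hg))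

@[fun_prop]
theorem Dfn.ne {f g : α → β} (hf : 𝓜.Dfn f) (hg : 𝓜.Dfn g) : 𝓜.Dfn (fun a => f a ≠ g a) :=
  (hf.eq hg).not

@[fun_prop]
theorem Dfn.exUnique {s : α → β → Prop} (hs : 𝓜.Dfn (fun p : α × β => s p.1 p.2)) :
    𝓜.Dfn (fun a => ∃! b, s a b) := by
  unfold ExistsUnique
  refine Dfn.ex (s := fun a b => s a b ∧ ∀ y, s a y → y = b) (Dfn.and hs
    (Dfn.all (s := fun (p : α × β) y => s p.1 y → y = p.2) (Dfn.imp ?_ ?_)))
  · exact dfn_comp (g := fun p : α × β => s p.1 p.2)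
      (f := fun p : (α × β) × β => (p.1.1, p.2)) hs (by fun_prop)
  · fun_prop

/-- Description: a function is internal if its graph is. -/
theorem Dfn.of_graph {f : α → β} {s : α → β → Prop} (hs : 𝓜.Dfn (fun p : α × β => s p.1 p.2))
    (h : ∀ a b, s a b ↔ f a = b) : 𝓜.Dfn f :=
  (dfn_iff.1 hs).congr fun p => h p.1 p.2

/-- Case distinction. -/
theorem Dfn.ite {s : α → Prop} [∀ a, Decidable (s a)] {f g : α → β} (hs : 𝓜.Dfn s)
    (hf : 𝓜.Dfn f) (hg : 𝓜.Dfn g) : 𝓜.Dfn (fun a => if s a then f a else g a) := by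
  refine Dfn.of_graph (s := fun a b => (s a ∧ f a = b) ∨ (¬ s a ∧ g a = b)) (by fun_prop)
    fun a b => ?_
  by_cases h : s a <;> simp [h]

end rules

/-! ### Types given by an injection -/

section inj

variable {α : Type*} {β : Type*} {γ : Type*} [Rep 𝓜 β] [Rep 𝓜 γ]

/-- A type with an injection into a represented type with internal range is represented. -/
@[instance_reducible]
noncomputable def repOfInj (j : α → β) (hj : Function.Injective j)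
    (hr : 𝓜.Dfn (fun b => ∃ a, j a = b)) : Rep 𝓜 α where
  code a := 𝓜.code (j a)
  code_inj a b h := hj (code_inj h)
  car := Classical.choose (𝓜.sepD (n := 1) (P := fun v => 𝓜.E (v 0) (v 1)) (dmem _ _)
    ![Classical.choose (dfn_iff.1 hr)] (𝓜.car β))
  mem_car m := by
    rw [Classical.choose_spec (𝓜.sepD (n := 1) (P := fun v => 𝓜.E (v 0) (v 1)) (dmem _ _)
      ![Classical.choose (dfn_iff.1 hr)] (𝓜.car β)) m]
    show 𝓜.E m (𝓜.car β) ∧ 𝓜.E m (Classical.choose (dfn_iff.1 hr)) ↔ _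
    constructor
    · rintro ⟨h1, h2⟩
      rw [mem_car] at h1
      obtain ⟨b, rfl⟩ := h1
      rw [Classical.choose_spec (dfn_iff.1 hr) b] at h2
      obtain ⟨a, rfl⟩ := h2
      exact ⟨a, rfl⟩
    · rintro ⟨a, rfl⟩
      exact ⟨code_mem _, (Classical.choose_spec (dfn_iff.1 hr) (j a)).2 ⟨a, rfl⟩⟩

/-- The injection `j` is compatible with the codes. -/
def CodeMap (𝓜 : Ctx.{u}) {α : Type*} {β : Type*} [Rep 𝓜 α] [Rep 𝓜 β] (j : α → β) : Prop :=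
  ∀ a, 𝓜.code (j a) = 𝓜.code a

variable [Rep 𝓜 α]

theorem CodeMap.inj {j : α → β} (hj : 𝓜.CodeMap j) : Function.Injective j := fun a b h => by
  apply code_inj (𝓜 := 𝓜)
  rw [← hj, ← hj, h]

theorem CodeMap.dfn {j : α → β} (hj : 𝓜.CodeMap j) : 𝓜.Dfn j := by
  obtain ⟨m, hm⟩ := intS_eq (𝓜 := 𝓜) (α := β)
  refine ⟨m, fun p => ?_⟩
  have h := hm (j p.1, p.2)
  rw [code_prod, hj] at h
  exact h

theorem CodeMap.dfn_of_comp {j : α → β} (hj : 𝓜.CodeMap j) {f : γ → α}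
    (h : 𝓜.Dfn (fun c => j (f c))) : 𝓜.Dfn f := by
  obtain ⟨m, hm⟩ := h
  refine ⟨m, fun p => ?_⟩
  have h := hm (p.1, j p.2)
  rw [code_prod, hj] at h
  exact h.trans hj.inj.eq_iff

end inj

/-! ### Internal functions -/

end Ctx

/-- The type of internal functions from `α` to `β`. -/
structure IFun (𝓜 : Ctx.{u}) (α : Type v) (β : Type w) [Rep 𝓜 α] [Rep 𝓜 β] where
  toFun : α → β
  dfn' : 𝓜.Dfn toFun

/-- The type of internal subsets of `α`. -/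
abbrev ISet (𝓜 : Ctx.{u}) (α : Type v) [Rep 𝓜 α] : Type v := IFun 𝓜 α Prop

instance IFun.funLike {𝓜 : Ctx.{u}} {α : Type v} {β : Type w} [Rep 𝓜 α] [Rep 𝓜 β] :
    FunLike (IFun 𝓜 α β) α β where
  coe f := f.toFun
  coe_injective := by
    rintro ⟨f, hf⟩ ⟨g, hg⟩ h
    simp only at h
    subst h
    rfl

namespace Ctx

variable {𝓜 : Ctx.{u}}

section ifun

variable {α : Type*} {β : Type*} {γ : Type*} {δ : Type*} [Rep 𝓜 α] [Rep 𝓜 β] [Rep 𝓜 γ] [Rep 𝓜 δ]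

@[ext]
theorem ifun_ext {f g : IFun 𝓜 α β} (h : ∀ a, f a = g a) : f = g := DFunLike.ext _ _ h

@[simp]
theorem mk_apply (f : α → β) (hf : 𝓜.Dfn f) (a : α) : (⟨f, hf⟩ : IFun 𝓜 α β) a = f a := rfl

theorem ifun_dfn (f : IFun 𝓜 α β) : 𝓜.Dfn (f : α → β) := f.dfn'

theorem exists_graph (f : IFun 𝓜 α β) :
    ∃ m, ∀ z, 𝓜.E z m ↔ ∃ a, z = 𝓜.op (𝓜.code a) (𝓜.code (f a)) := by
  obtain ⟨k, hk⟩ := ifun_dfn f
  obtain ⟨m, hm⟩ := 𝓜.sepD (n := 1) (P := fun v => 𝓜.E (v 0) (v 1)) (dmem _ _) ![k]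
    (𝓜.car (α × β))
  refine ⟨m, fun z => ?_⟩
  rw [hm]
  show 𝓜.E z (𝓜.car (α × β)) ∧ 𝓜.E z k ↔ _
  constructor
  · rintro ⟨h1, h2⟩
    rw [mem_car] at h1
    obtain ⟨⟨a, b⟩, rfl⟩ := h1
    rw [hk] at h2
    have h3 : f a = b := h2
    exact ⟨a, by rw [h3]; rfl⟩
  · rintro ⟨a, rfl⟩
    refine ⟨code_mem (a, f a), ?_⟩
    exact (hk (a, f a)).2 rfl

/-- the graph of an internal function -/
noncomputable def graph (f : IFun 𝓜 α β) : 𝓜.M := Classical.choose (exists_graph f)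

theorem mem_graph {f : IFun 𝓜 α β} {z : 𝓜.M} :
    𝓜.E z (graph f) ↔ ∃ a, z = 𝓜.op (𝓜.code a) (𝓜.code (f a)) :=
  Classical.choose_spec (exists_graph f) z

theorem op_mem_graph {f : IFun 𝓜 α β} {a : α} {b : β} :
    𝓜.E (𝓜.op (𝓜.code a) (𝓜.code b)) (graph f) ↔ f a = b := by
  rw [mem_graph]
  constructor
  · rintro ⟨a', h⟩
    rw [op_inj] at h
    obtain ⟨h1, h2⟩ := h
    obtain rfl := code_inj h1
    exact (code_inj h2).symm
  · rintro rfl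
    exact ⟨a, rfl⟩

theorem df_isfun : 𝓜.Df (n := 4) (fun v => (∀ z, 𝓜.E z (v 0) → 𝓜.E z (v 3)) ∧
    ∀ x, 𝓜.E x (v 1) → ∃ y, 𝓜.E y (v 2) ∧ ∀ y', ((∃ q, IsPair 𝓜.E q x y' ∧ 𝓜.E q (v 0)) ↔
      y' = y)) :=
  dand (dall (Q := fun z v => 𝓜.E z (v 0) → 𝓜.E z (v 3)) (dimp (dmem _ _) (dmem _ _)))
    (dall (Q := fun x v => 𝓜.E x (v 1) → ∃ y, 𝓜.E y (v 2) ∧
      ∀ y', ((∃ q, IsPair 𝓜.E q x y' ∧ 𝓜.E q (v 0)) ↔ y' = y))
    (dimp (dmem _ _) (dex (Q := fun y v => 𝓜.E y (v 3) ∧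
      ∀ y', ((∃ q, IsPair 𝓜.E q (v 0) y' ∧ 𝓜.E q (v 1)) ↔ y' = y))
    (dand (dmem _ _) (dall (Q := fun y' v => (∃ q, IsPair 𝓜.E q (v 1) y' ∧ 𝓜.E q (v 2)) ↔ y' = v 0)
    (diff (dex (Q := fun q v => IsPair 𝓜.E q (v 2) (v 0) ∧ 𝓜.E q (v 3))
      (dand (dpair _ _ _) (dmem _ _))) (deq _ _)))))))

noncomputable instance repIFun : Rep 𝓜 (IFun 𝓜 α β) where
  code f := graph f
  code_inj := by
    intro f g h
    have h' : graph f = graph g := h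
    ext a
    rw [eq_comm, ← op_mem_graph (f := g), ← h', op_mem_graph]
  car := Classical.choose (𝓜.sepD (n := 3) df_isfun ![𝓜.car α, 𝓜.car β, 𝓜.car (α × β)]
    (𝓜.pw (𝓜.car (α × β))))
  mem_car m := by
    rw [Classical.choose_spec (𝓜.sepD (n := 3) df_isfun ![𝓜.car α, 𝓜.car β, 𝓜.car (α × β)]
      (𝓜.pw (𝓜.car (α × β)))) m]
    simp only [isPair_iff]
    show 𝓜.E m (𝓜.pw (𝓜.car (α × β))) ∧ ((∀ z, 𝓜.E z m → 𝓜.E z (𝓜.car (α × β))) ∧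
      ∀ x, 𝓜.E x (𝓜.car α) → ∃ y, 𝓜.E y (𝓜.car β) ∧
        ∀ y', ((∃ q, q = 𝓜.op x y' ∧ 𝓜.E q m) ↔ y' = y)) ↔ _
    constructor
    · rintro ⟨h1, h2, h3⟩
      have h4 : ∀ a : α, ∃ b : β, ∀ b' : β,
          𝓜.E (𝓜.op (𝓜.code a) (𝓜.code b')) m ↔ b' = b := by
        intro a
        obtain ⟨y, hy, hy'⟩ := h3 _ (code_mem a)
        rw [mem_car] at hy
        obtain ⟨b, rfl⟩ := hy
        refine ⟨b, fun b' => ?_⟩
        have h5 := hy' (𝓜.code b')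
        rw [exists_eq_left] at h5
        rw [h5]
        exact ⟨fun h => code_inj h, fun h => by rw [h]⟩
      choose f hf using h4
      have hfd : 𝓜.Dfn f := ⟨m, fun p => by
        rw [show 𝓜.code p = 𝓜.op (𝓜.code p.1) (𝓜.code p.2) from rfl, hf, eq_comm]⟩
      refine ⟨⟨f, hfd⟩, 𝓜.ext fun z => ?_⟩
      rw [mem_graph]
      constructor
      · rintro ⟨a, rfl⟩
        exact (hf a (f a)).2 rfl
      · intro hz
        have h5 := h2 z hz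
        rw [mem_car] at h5
        obtain ⟨⟨a, b⟩, rfl⟩ := h5
        have h6 : b = f a := (hf a b).1 hz
        exact ⟨a, by rw [h6]; rfl⟩
    · rintro ⟨f, rfl⟩
      have h2 : ∀ z, 𝓜.E z (graph f) → 𝓜.E z (𝓜.car (α × β)) := by
        intro z hz
        rw [mem_graph] at hz
        obtain ⟨a, rfl⟩ := hz
        exact code_mem (a, f a)
      refine ⟨mem_pw.2 h2, h2, fun x hx => ?_⟩
      rw [mem_car] at hx
      obtain ⟨a, rfl⟩ := hx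
      refine ⟨𝓜.code (f a), code_mem _, fun y' => ?_⟩
      rw [exists_eq_left]
      constructor
      · intro h
        rw [mem_graph] at h
        obtain ⟨a', h⟩ := h
        rw [op_inj] at h
        obtain ⟨h1, h2⟩ := h
        obtain rfl := code_inj h1
        exact h2
      · rintro rfl
        exact op_mem_graph.2 rfl

theorem code_ifun (f : IFun 𝓜 α β) : 𝓜.code f = graph f := rfl

theorem dfn_app' : 𝓜.Dfn (fun p : IFun 𝓜 α β × α => p.1 p.2) := by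
  refine (intS_of_df ((IFun 𝓜 α β × α) × β) (n := 0) (P := fun v => ∃ F x y p q,
    IsPair 𝓜.E p F x ∧ IsPair 𝓜.E (v 0) p y ∧ IsPair 𝓜.E q x y ∧ 𝓜.E q F)
    (dex (Q := fun F v => ∃ x y p q,
    IsPair 𝓜.E p F x ∧ IsPair 𝓜.E (v 0) p y ∧ IsPair 𝓜.E q x y ∧ 𝓜.E q F)
    (dex (Q := fun x v => ∃ y p q,
    IsPair 𝓜.E p (v 0) x ∧ IsPair 𝓜.E (v 1) p y ∧ IsPair 𝓜.E q x y ∧ 𝓜.E q (v 0))
    (dex (Q := fun y v => ∃ p q,
    IsPair 𝓜.E p (v 1) (v 0) ∧ IsPair 𝓜.E (v 2) p y ∧ IsPair 𝓜.E q (v 0) y ∧ 𝓜.E q (v 1))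
    (dex (Q := fun p v => ∃ q,
    IsPair 𝓜.E p (v 2) (v 1) ∧ IsPair 𝓜.E (v 3) p (v 0) ∧ IsPair 𝓜.E q (v 1) (v 0) ∧
      𝓜.E q (v 2))
    (dex (Q := fun q v =>
    IsPair 𝓜.E (v 0) (v 3) (v 2) ∧ IsPair 𝓜.E (v 4) (v 0) (v 1) ∧ IsPair 𝓜.E q (v 2) (v 1) ∧
      𝓜.E q (v 3))
    (dand (dpair _ _ _) (dand (dpair _ _ _) (dand (dpair _ _ _) (dmem _ _))))))))) ![]).congr ?_
  rintro ⟨⟨f, a⟩, b⟩
  simp only [isPair_iff, Fin.cons_zero, code_prod, op_inj]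
  constructor
  · rintro ⟨F, x, y, p, q, rfl, ⟨h1, rfl⟩, rfl, h2⟩
    rw [op_inj] at h1
    obtain ⟨rfl, rfl⟩ := h1
    exact op_mem_graph.1 h2
  · intro h
    exact ⟨_, _, _, _, _, rfl, ⟨rfl, rfl⟩, rfl, op_mem_graph.2 h⟩

@[fun_prop]
theorem Dfn.app {f : γ → IFun 𝓜 α β} {g : γ → α} (hf : 𝓜.Dfn f) (hg : 𝓜.Dfn g) :
    𝓜.Dfn (fun c => (f c) (g c)) :=
  dfn_comp (g := fun p : IFun 𝓜 α β × α => p.1 p.2) dfn_app' (dfn_pair hf hg)

/-- lambda abstraction -/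
@[fun_prop]
theorem Dfn.lam {F : γ → α → β} (hF : ∀ c, 𝓜.Dfn (F c))
    (h : 𝓜.Dfn (fun p : γ × α => F p.1 p.2)) :
    𝓜.Dfn (fun c => (⟨F c, hF c⟩ : IFun 𝓜 α β)) := by
  refine Dfn.of_graph (s := fun c f => ∀ a, F c a = f a) (Dfn.all ?_) fun c f => ?_
  · refine Dfn.eq ?_ (by fun_prop)
    exact dfn_comp (g := fun p : γ × α => F p.1 p.2)
      (f := fun p : (γ × IFun 𝓜 α β) × α => (p.1.1, p.2)) h (by fun_prop)
  · constructor
    · intro h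
      ext a
      exact h a
    · rintro rfl a
      rfl

/-- one-variable sections of internal functions -/
theorem Dfn.sec {F : γ → α → β} (h : 𝓜.Dfn (fun p : γ × α => F p.1 p.2)) (c : γ) :
    𝓜.Dfn (F c) :=
  dfn_comp (g := fun p : γ × α => F p.1 p.2) (f := fun a => (c, a)) h (by fun_prop)

/-- the internal function given by a jointly internal function of two variables -/
def lam (F : γ → α → β) (h : 𝓜.Dfn (fun p : γ × α => F p.1 p.2)) (c : γ) : IFun 𝓜 α β :=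
  ⟨F c, h.sec c⟩

end ifun

/-! ### Subtypes, elements of sets of the model -/

section sub

variable {α : Type*} {β : Type*} {γ : Type*} [Rep 𝓜 α] [Rep 𝓜 β] [Rep 𝓜 γ]

/-- An internal subset, as a represented type. -/
@[instance_reducible]
noncomputable def repSub {P : α → Prop} (hP : 𝓜.Dfn P) : Rep 𝓜 {a // P a} :=
  repOfInj Subtype.val Subtype.val_injective (hP.congr_iff fun a => by simp)

theorem repSub_codeMap {P : α → Prop} (hP : 𝓜.Dfn P) :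
    letI := repSub hP
    𝓜.CodeMap (Subtype.val : {a // P a} → α) := fun _ => rfl

/-- the elements of a set of the model -/
noncomputable instance repEl (a : 𝓜.M) : Rep 𝓜 (El 𝓜.E a) where
  code x := x.1
  code_inj := Subtype.val_injective
  car := a
  mem_car m := ⟨fun h => ⟨⟨m, h⟩, rfl⟩, by rintro ⟨x, rfl⟩; exact x.2⟩

end sub

end Ctx

end Pool.Agent.Lib.MP_c7a422_lc.Z
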