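import Pool.Agent.Lib.MP_c7a422_lc.Z.SPBase

/-!
# The set of all normalised eigenfunctions is compact
-/

namespace Pool.Agent.Lib.MP_c7a422_lc.Z

universe u

namespace Ctx

theorem kcompact (h1 : StKBound.{u}) (h2 : StKTB.{u}) (h3 : StComp.{u}) (h4 : StKWO.{u})
    (h5 : StKComplete.{u}) : StKCompact.{u} := by
  intro 𝓜 X _ P U hU hWO V hV hcov
  obtain ⟨B, hB, -, hBlam⟩ := h1 𝓜 X P
  obtain ⟨hmet, hTB⟩ := h2 𝓜 X P
  -- the zero function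
  have hEig : ∀ lam : 𝓜.R, 0 < lam → P.Eig lam 0 := by
    intro lam hlam
    refine ⟨hlam, P.L_zero, ?_⟩
    rw [P.T_zero, P.T_zero]
    ext x
    simp
  have h0ip : ∀ lam : 𝓜.R, 0 < lam → P.ip 0 0 ≤ lam ^ 4 := by
    intro lam hlam
    rw [P.ip_zero_left]
    positivity
  have h0K : P.K 0 := ⟨1, hEig 1 one_pos, h0ip 1 one_pos⟩
  obtain ⟨O, hVO, hO0⟩ := hcov 0 h0K
  obtain ⟨δ, hδ, hO⟩ := hV O hVO 0 h0K hO0
  set ε : 𝓜.R := δ / (2 * B) with hε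
  have hεpos : 0 < ε := by positivity
  have hsub : ∀ f, P.Ke ε f → P.K f := by
    rintro f ⟨lam, -, hf⟩
    exact ⟨lam, hf⟩
  have hKe : FCov V (P.Ke ε) := by
    refine h3 𝓜 (IFun 𝓜 X 𝓜.R) (P.Ke ε) (supd 𝓜 X) ⟨0, ε, le_rfl, hEig ε hεpos, h0ip ε hεpos⟩
      ⟨fun f hf => hmet.self f (hsub f hf), fun f g hf hg => hmet.symm f g (hsub f hf) (hsub g hg),
        fun f g k hf hg hk => hmet.tri f g k (hsub f hf) (hsub g hg) (hsub k hk)⟩ ?_
      (h4 𝓜 X P hWO ε hεpos) (h5 𝓜 X P U hU ε hεpos) V ?_ ?_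
    · intro η hη
      obtain ⟨n, c, hc1, hc2⟩ := hTB η hη
      exact ⟨n, c, fun f hf => hc1 f (hsub f hf), fun f g hf hg => hc2 f g (hsub f hf) (hsub g hg)⟩
    · intro O' hO' f hf hOf
      obtain ⟨η, hη, h⟩ := hV O' hO' f (hsub f hf) hOf
      exact ⟨η, hη, fun g hg => h g (hsub g hg)⟩
    · intro f hf
      exact hcov f (hsub f hf)
  refine hKe.step hVO fun f hf => ?_
  obtain ⟨lam, hEl, hip⟩ := hf
  by_cases hlam : ε ≤ lam
  · exact Or.inl ⟨lam, hlam, hEl, hip⟩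
  · refine Or.inr (hO f ⟨lam, hEl, hip⟩ ?_)
    push Not at hlam
    have hb : ∀ x, |f x| ≤ δ / 2 := by
      intro x
      refine (hBlam lam f hEl hip x).trans ?_
      calc B * lam ≤ B * ε := mul_le_mul_of_nonneg_left hlam.le hB.le
        _ = δ / 2 := by rw [hε]; field_simp
    have h6 : supd 𝓜 X (0, f) ≤ δ / 2 := by
      obtain ⟨x₀⟩ := P.ne
      refine sup_le (s := fun t => ∃ x, t = |(0 : IFun 𝓜 X 𝓜.R) x - f x|) (by fun_prop)
        ⟨_, x₀, rfl⟩ ?_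
      rintro t ⟨x, rfl⟩
      rw [zeroF_apply, zero_sub, abs_neg]
      exact hb x
    linarith

end Ctx

end Pool.Agent.Lib.MP_c7a422_lc.Z
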