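import Pool.Agent.Lib.MP_c7a422_lc.Z.Spec

/-!
# The canonical mean
-/

namespace Pool.Agent.Lib.MP_c7a422_lc.Z

universe u

namespace Ctx

namespace LamM

variable {𝓜 : Ctx.{u}} {Y : Type u} [Rep 𝓜 Y] {S : ISet 𝓜 Y} {ρ : IFun 𝓜 (Y × Y) 𝓜.R}

theorem bl_weaken (hρ : PM S ρ) {C C' : 𝓜.R} {F : IFun 𝓜 Y 𝓜.R} (h : BL S ρ C F) (hC : C ≤ C') :
    BL S ρ C' F :=
  ⟨fun y hy => (h.1 y hy).trans hC, fun y z hy hz => (h.2 y z hy hz).trans
    (mul_le_mul_of_nonneg_right hC (hρ.nonneg hy hz))⟩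

theorem bl_nonneg (hne : ∃ y, S y) {C : 𝓜.R} {F : IFun 𝓜 Y 𝓜.R} (h : BL S ρ C F) : 0 ≤ C := by
  obtain ⟨y, hy⟩ := hne
  exact (abs_nonneg _).trans (h.1 y hy)

theorem bl_add {C C' : 𝓜.R} {F G : IFun 𝓜 Y 𝓜.R} (h : BL S ρ C F)
    (h' : BL S ρ C' G) : BL S ρ (C + C') (F + G) := by
  refine ⟨fun y hy => ?_, fun y z hy hz => ?_⟩
  · rw [addF_apply]
    exact (abs_add_le _ _).trans (add_le_add (h.1 y hy) (h'.1 y hy))
  · rw [addF_apply, addF_apply, add_mul]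
    have e : F y + G y - (F z + G z) = (F y - F z) + (G y - G z) := by ring
    rw [e]
    exact (abs_add_le _ _).trans (add_le_add (h.2 y z hy hz) (h'.2 y z hy hz))

theorem bl_smul {C : 𝓜.R} {F : IFun 𝓜 Y 𝓜.R} (c : 𝓜.R) (h : BL S ρ C F) :
    BL S ρ (|c| * C) (c • F) := by
  refine ⟨fun y hy => ?_, fun y z hy hz => ?_⟩
  · rw [smulF_apply, abs_mul]
    exact mul_le_mul_of_nonneg_left (h.1 y hy) (abs_nonneg c)
  · rw [smulF_apply, smulF_apply, ← mul_sub, abs_mul, mul_assoc]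
    exact mul_le_mul_of_nonneg_left (h.2 y z hy hz) (abs_nonneg c)

theorem bl_neg {C : 𝓜.R} {F : IFun 𝓜 Y 𝓜.R} (h : BL S ρ C F) : BL S ρ C (-F) := by
  refine ⟨fun y hy => ?_, fun y z hy hz => ?_⟩
  · rw [negF_apply, abs_neg]
    exact h.1 y hy
  · rw [negF_apply, negF_apply]
    have e : - F y - - F z = -(F y - F z) := by ring
    rw [e, abs_neg]
    exact h.2 y z hy hz

/-- the positive part -/
noncomputable def pp (F : IFun 𝓜 Y 𝓜.R) : IFun 𝓜 Y 𝓜.R := ⟨fun y => max 0 (F y), by fun_prop⟩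

theorem pp_apply (F : IFun 𝓜 Y 𝓜.R) (y : Y) : pp F y = max 0 (F y) := rfl

@[fun_prop]
theorem dfn_pp {γ : Type*} [Rep 𝓜 γ] {F : γ → IFun 𝓜 Y 𝓜.R} (hF : 𝓜.Dfn F) :
    𝓜.Dfn (fun c => pp (F c)) := by
  unfold pp
  fun_prop

theorem pp_nonneg (F : IFun 𝓜 Y 𝓜.R) (y : Y) : 0 ≤ pp F y := le_max_left _ _

theorem bl_pp {C : 𝓜.R} {F : IFun 𝓜 Y 𝓜.R} (h : BL S ρ C F) : BL S ρ C (pp F) := by
  have key : ∀ a b : 𝓜.R, |max 0 a - max 0 b| ≤ |a - b| := by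
    intro a b
    have := abs_max_sub_max_le_max 0 a 0 b
    rwa [sub_self, abs_zero, max_eq_right (abs_nonneg (a - b))] at this
  refine ⟨fun y hy => ?_, fun y z hy hz => (key _ _).trans (h.2 y z hy hz)⟩
  have h2 := key (F y) 0
  rw [max_self, sub_zero, sub_zero] at h2
  exact h2.trans (h.1 y hy)

end LamM

open LamM in
theorem lamCov (h0 : StCov.{u}) : StLam.{u} := by
  intro 𝓜 U Y _ hU
  obtain ⟨cov, hcd, hcov⟩ := h0 𝓜 Y
  have hcd' : ∀ {γ : Type u} [Rep 𝓜 γ] {S : γ → ISet 𝓜 Y} {ρ : γ → IFun 𝓜 (Y × Y) 𝓜.R}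
      {r : γ → 𝓜.R} {F : γ → IFun 𝓜 Y 𝓜.R}, 𝓜.Dfn S → 𝓜.Dfn ρ → 𝓜.Dfn r → 𝓜.Dfn F →
      𝓜.Dfn (fun c => cov (S c) (ρ c) (r c) (F c)) := fun hS hρ hr hF =>
    dfn_comp hcd (dfn_pair hS (dfn_pair hρ (dfn_pair hr hF)))
  -- the ratios
  set rat : ISet 𝓜 Y → IFun 𝓜 (Y × Y) 𝓜.R → IFun 𝓜 Y 𝓜.R → 𝓜.N → 𝓜.R := fun S ρ F k =>
    cov S ρ (1 / ((k : 𝓜.R) + 1)) F / cov S ρ (1 / ((k : 𝓜.R) + 1)) 1 with hrat
  have hrd : 𝓜.Dfn (fun p : (ISet 𝓜 Y × (IFun 𝓜 (Y × Y) 𝓜.R × IFun 𝓜 Y 𝓜.R)) × 𝓜.N =>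
      rat p.1.1 p.1.2.1 p.1.2.2 p.2) := by
    rw [hrat]
    refine Dfn.div ?_ ?_
    · exact hcd' (by fun_prop) (by fun_prop) (by fun_prop) (by fun_prop)
    · exact hcd' (by fun_prop) (by fun_prop) (by fun_prop) (by fun_prop)
  set LL : ISet 𝓜 Y → IFun 𝓜 (Y × Y) 𝓜.R → IFun 𝓜 Y 𝓜.R → 𝓜.R := fun S ρ F =>
    ulim U (rat S ρ F) with hLL
  have hLd : 𝓜.Dfn (fun p : ISet 𝓜 Y × (IFun 𝓜 (Y × Y) 𝓜.R × IFun 𝓜 Y 𝓜.R) =>
      LL p.1 p.2.1 p.2.2) := by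
    rw [hLL]
    exact Dfn.ulim (dfn_const U) hrd
  refine ⟨fun S ρ F => LL S ρ (pp F) - LL S ρ (pp (-F)), ?_, fun S ρ hne hρ htb => ?_⟩
  · refine Dfn.sub ?_ ?_
    · exact dfn_comp (g := fun p : ISet 𝓜 Y × (IFun 𝓜 (Y × Y) 𝓜.R × IFun 𝓜 Y 𝓜.R) =>
        LL p.1 p.2.1 p.2.2) (f := fun p : ISet 𝓜 Y × (IFun 𝓜 (Y × Y) 𝓜.R × IFun 𝓜 Y 𝓜.R) =>
        (p.1, p.2.1, pp p.2.2)) hLd (by fun_prop)
    · exact dfn_comp (g := fun p : ISet 𝓜 Y × (IFun 𝓜 (Y × Y) 𝓜.R × IFun 𝓜 Y 𝓜.R) =>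
        LL p.1 p.2.1 p.2.2) (f := fun p : ISet 𝓜 Y × (IFun 𝓜 (Y × Y) 𝓜.R × IFun 𝓜 Y 𝓜.R) =>
        (p.1, p.2.1, pp (-p.2.2))) hLd (by fun_prop)
  obtain ⟨c1, c2, c3, c4, c5, c6⟩ := hcov S ρ hne hρ htb
  have hk : ∀ k : 𝓜.N, (0 : 𝓜.R) < 1 / ((k : 𝓜.R) + 1) := fun k => by
    have := toR_nonneg k
    positivity
  have hone : ∀ k : 𝓜.N, 0 < cov S ρ (1 / ((k : 𝓜.R) + 1)) 1 := fun k =>
    lt_of_lt_of_le zero_lt_one (c1 _ (hk k))
  have hblc : ∀ C : 𝓜.R, 0 ≤ C → BL S ρ C (C • (1 : IFun 𝓜 Y 𝓜.R)) := by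
    intro C hC
    refine ⟨fun y _ => ?_, fun y z hy hz => ?_⟩
    · rw [smulF_apply, oneF_apply, mul_one, abs_of_nonneg hC]
    · rw [smulF_apply, smulF_apply, oneF_apply, oneF_apply, sub_self, abs_zero]
      exact mul_nonneg hC (hρ.nonneg hy hz)
  have hbl1 : BL S ρ 1 (1 : IFun 𝓜 Y 𝓜.R) := by
    have := hblc 1 zero_le_one
    rwa [one_smul] at this
  have hrd1 : ∀ F, 𝓜.Dfn (rat S ρ F) := fun F =>
    dfn_comp (g := fun p : (ISet 𝓜 Y × (IFun 𝓜 (Y × Y) 𝓜.R × IFun 𝓜 Y 𝓜.R)) × 𝓜.N =>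
      rat p.1.1 p.1.2.1 p.1.2.2 p.2) (f := fun k : 𝓜.N => ((S, ρ, F), k)) hrd (by fun_prop)
  have rat0 : ∀ F C, BL S ρ C F → (∀ y, S y → 0 ≤ F y) → ∀ k, 0 ≤ rat S ρ F k :=
    fun F C hF hF0 k => div_nonneg (c2 _ (hk k) F C hF hF0) (hone k).le
  have ratC : ∀ F C, BL S ρ C F → (∀ y, S y → 0 ≤ F y) → ∀ k, rat S ρ F k ≤ C := by
    intro F C hF hF0 k
    have hC := bl_nonneg hne hF
    show cov S ρ (1 / ((k : 𝓜.R) + 1)) F / cov S ρ (1 / ((k : 𝓜.R) + 1)) 1 ≤ C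
    rw [div_le_iff₀ (hone k), ← c4 _ (hk k) 1 1 C hbl1 (fun y _ => zero_le_one) hC]
    refine c3 _ (hk k) F _ C hF (hblc C hC) hF0 fun y hy => ?_
    rw [smulF_apply, oneF_apply, mul_one]
    exact (abs_le.1 (hF.1 y hy)).2
  have spec : ∀ F C, BL S ρ C F → (∀ y, S y → 0 ≤ F y) → IsUlim U (rat S ρ F) (LL S ρ F) := by
    intro F C hF hF0
    exact ulim_spec hU (hrd1 F) (C := C) fun k => by
      rw [abs_of_nonneg (rat0 F C hF hF0 k)]
      exact ratC F C hF hF0 k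
  have Lnonneg : ∀ F C, BL S ρ C F → (∀ y, S y → 0 ≤ F y) → 0 ≤ LL S ρ F := fun F C hF hF0 =>
    (spec F C hF hF0).const_le hU (ev_all hU fun k => rat0 F C hF hF0 k)
  have Lmono : ∀ F G C, BL S ρ C F → BL S ρ C G → (∀ y, S y → 0 ≤ F y) →
      (∀ y, S y → F y ≤ G y) → LL S ρ F ≤ LL S ρ G := fun F G C hF hG hF0 hFG =>
    (spec F C hF hF0).mono hU (spec G C hG fun y hy => (hF0 y hy).trans (hFG y hy))
      (ev_all hU fun k => div_le_div_of_nonneg_right (c3 _ (hk k) F G C hF hG hF0 hFG) (hone k).le)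
  have Lsmul : ∀ F C c, BL S ρ C F → (∀ y, S y → 0 ≤ F y) → 0 ≤ c →
      LL S ρ (c • F) = c * LL S ρ F := by
    intro F C c hF hF0 hc
    refine IsUlim.unique hU (spec (c • F) _ (bl_smul c hF) fun y hy => ?_) ?_
    · rw [smulF_apply]
      exact mul_nonneg hc (hF0 y hy)
    · have e : rat S ρ (c • F) = fun k => c * rat S ρ F k := by
        funext k
        show cov S ρ (1 / ((k : 𝓜.R) + 1)) (c • F) / cov S ρ (1 / ((k : 𝓜.R) + 1)) 1 =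
          c * (cov S ρ (1 / ((k : 𝓜.R) + 1)) F / cov S ρ (1 / ((k : 𝓜.R) + 1)) 1)
        rw [c4 _ (hk k) F C c hF hF0 hc, mul_div_assoc]
      rw [e]
      exact IsUlim.const_mul c (spec F C hF hF0)
  have Ladd : ∀ F G C, BL S ρ C F → BL S ρ C G → (∀ y, S y → 0 ≤ F y) → (∀ y, S y → 0 ≤ G y) →
      LL S ρ (F + G) = LL S ρ F + LL S ρ G := by
    intro F G C hF hG hF0 hG0
    refine IsUlim.unique hU (spec (F + G) _ (bl_add hF hG) fun y hy => ?_) ?_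
    · rw [addF_apply]
      exact add_nonneg (hF0 y hy) (hG0 y hy)
    · refine isUlim_of_close hU ((spec F C hF hF0).add hU (spec G C hG hG0)) fun ε hε => ?_
      obtain ⟨r₀, hr₀, hr⟩ := c6 F G C hF hG hF0 hG0 ε hε
      obtain ⟨n, hn⟩ := exists_one_div_lt hr₀
      refine ev_big hU n fun k hk' => ?_
      have h1 : (1 : 𝓜.R) / ((k : 𝓜.R) + 1) ≤ r₀ := by
        refine le_trans ?_ hn.le
        have h2 : (n : 𝓜.R) ≤ k := hk'
        have h3 := toR_nonneg n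
        exact one_div_le_one_div_of_le (by linarith) (by linarith)
      have h4 := hr _ (hk k) h1
      have h5 := c5 _ (hk k) F G C hF hG hF0 hG0
      have h6 := hone k
      show |cov S ρ (1 / ((k : 𝓜.R) + 1)) (F + G) / cov S ρ (1 / ((k : 𝓜.R) + 1)) 1 -
        (cov S ρ (1 / ((k : 𝓜.R) + 1)) F / cov S ρ (1 / ((k : 𝓜.R) + 1)) 1 +
        cov S ρ (1 / ((k : 𝓜.R) + 1)) G / cov S ρ (1 / ((k : 𝓜.R) + 1)) 1)| ≤ ε
      rw [← add_div, ← sub_div, abs_div, abs_of_pos h6, div_le_iff₀ h6, abs_le]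
      constructor
      · linarith
      · nlinarith
  have hp1 : pp (1 : IFun 𝓜 Y 𝓜.R) = 1 := by
    ext y
    show max 0 (1 : 𝓜.R) = 1
    exact max_eq_right zero_le_one
  refine ⟨?_, ?_, ?_, ?_⟩
  · intro F G C hF hG
    have hFG := bl_add hF hG
    have hC := bl_nonneg hne hF
    have w1 : ∀ A, BL S ρ (C + C) A → BL S ρ (4 * C) A := fun A hA =>
      bl_weaken hρ hA (by linarith)
    have w2 : ∀ A, BL S ρ C A → BL S ρ (2 * C) A := fun A hA => bl_weaken hρ hA (by linarith)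
    have w3 : ∀ A, BL S ρ C A → BL S ρ (4 * C) A := fun A hA => bl_weaken hρ hA (by linarith)
    have a1 := Ladd (pp (-F)) (pp (-G)) C (bl_pp (bl_neg hF)) (bl_pp (bl_neg hG))
      (fun y _ => pp_nonneg _ y) (fun y _ => pp_nonneg _ y)
    have a2 := Ladd (pp F) (pp G) C (bl_pp hF) (bl_pp hG)
      (fun y _ => pp_nonneg _ y) (fun y _ => pp_nonneg _ y)
    have a3 := Ladd (pp (F + G)) (pp (-F) + pp (-G)) (C + C) (bl_pp hFG)
      (bl_add (bl_pp (bl_neg hF)) (bl_pp (bl_neg hG))) (fun y _ => pp_nonneg _ y)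
      (fun y _ => add_nonneg (pp_nonneg _ y) (pp_nonneg _ y))
    have a4 := Ladd (pp (-(F + G))) (pp F + pp G) (C + C) (bl_pp (bl_neg hFG))
      (bl_add (bl_pp hF) (bl_pp hG)) (fun y _ => pp_nonneg _ y)
      (fun y _ => add_nonneg (pp_nonneg _ y) (pp_nonneg _ y))
    have key : ∀ a b : 𝓜.R, max 0 (a + b) + (max 0 (-a) + max 0 (-b)) =
        max 0 (-(a + b)) + (max 0 a + max 0 b) := by
      intro a b
      have e : ∀ c : 𝓜.R, max 0 c = max 0 (-c) + c := by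
        intro c
        rcases le_total 0 c with h | h
        · rw [max_eq_right h, max_eq_left (by linarith)]
          ring
        · rw [max_eq_left h, max_eq_right (by linarith)]
          ring
      rw [e (a + b), e a, e b]
      ring
    have e : pp (F + G) + (pp (-F) + pp (-G)) = pp (-(F + G)) + (pp F + pp G) := by
      ext y
      exact key (F y) (G y)
    rw [e] at a3
    show LL S ρ (pp (F + G)) - LL S ρ (pp (-(F + G))) =
      LL S ρ (pp F) - LL S ρ (pp (-F)) + (LL S ρ (pp G) - LL S ρ (pp (-G)))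
    linarith
  · intro c F C hF
    show LL S ρ (pp (c • F)) - LL S ρ (pp (-(c • F))) = c * (LL S ρ (pp F) - LL S ρ (pp (-F)))
    rcases le_total 0 c with hc | hc
    · have key : ∀ a : 𝓜.R, max 0 (c * a) = c * max 0 a := by
        intro a
        rw [mul_max_of_nonneg _ _ hc, mul_zero]
      have e1 : pp (c • F) = c • pp F := by
        ext y
        exact key (F y)
      have e2 : pp (-(c • F)) = c • pp (-F) := by
        ext y
        show max 0 (-(c * F y)) = c * max 0 (- F y)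
        rw [← key, mul_neg]
      rw [e1, e2, Lsmul _ C c (bl_pp hF) (fun y _ => pp_nonneg _ y) hc,
        Lsmul _ C c (bl_pp (bl_neg hF)) (fun y _ => pp_nonneg _ y) hc]
      ring
    · have hc' : 0 ≤ -c := by linarith
      have key : ∀ a : 𝓜.R, max 0 (-c * a) = -c * max 0 a := by
        intro a
        rw [mul_max_of_nonneg _ _ hc', mul_zero]
      have e1 : pp (c • F) = (-c) • pp (-F) := by
        ext y
        show max 0 (c * F y) = -c * max 0 (- F y)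
        rw [← key]
        congr 1
        ring
      have e2 : pp (-(c • F)) = (-c) • pp F := by
        ext y
        show max 0 (-(c * F y)) = -c * max 0 (F y)
        rw [← key]
        congr 1
        ring
      rw [e1, e2, Lsmul _ C (-c) (bl_pp hF) (fun y _ => pp_nonneg _ y) hc',
        Lsmul _ C (-c) (bl_pp (bl_neg hF)) (fun y _ => pp_nonneg _ y) hc']
      ring
  · intro F G C hF hG hFG
    show LL S ρ (pp F) - LL S ρ (pp (-F)) ≤ LL S ρ (pp G) - LL S ρ (pp (-G))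
    have h1 := Lmono (pp F) (pp G) C (bl_pp hF) (bl_pp hG) (fun y _ => pp_nonneg _ y)
      fun y hy => max_le_max le_rfl (hFG y hy)
    have h2 := Lmono (pp (-G)) (pp (-F)) C (bl_pp (bl_neg hG)) (bl_pp (bl_neg hF))
      (fun y _ => pp_nonneg _ y) fun y hy => max_le_max le_rfl (by
        rw [negF_apply, negF_apply]
        linarith [hFG y hy])
    linarith
  · show LL S ρ (pp 1) - LL S ρ (pp (-1)) = 1
    have e2 : pp (-1 : IFun 𝓜 Y 𝓜.R) = (0 : 𝓜.R) • (1 : IFun 𝓜 Y 𝓜.R) := by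
      ext y
      show max 0 (-1 : 𝓜.R) = 0 * 1
      rw [max_eq_left (by linarith [zero_lt_one (α := 𝓜.R)]), zero_mul]
    rw [hp1, e2, Lsmul 1 1 0 hbl1 (fun y _ => zero_le_one) le_rfl, zero_mul, sub_zero]
    refine (spec 1 1 hbl1 fun y _ => zero_le_one).unique hU ?_
    have e : rat S ρ (1 : IFun 𝓜 Y 𝓜.R) = fun _ => 1 := by
      funext k
      exact div_self (hone k).ne'
    rw [e]
    exact isUlim_const hU 1

end Ctx

end Pool.Agent.Lib.MP_c7a422_lc.Z
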