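import Pool.Agent.Lib.MP_c7a422_lc.Z.SPBase
import Pool.Agent.Lib.MP_c7a422_lc.Z.Supd

/-!
# The typed form of the theorem
-/

namespace Pool.Agent.Lib.MP_c7a422_lc.Z

universe u v

namespace SP

open Ctx

variable {𝓜 : Ctx.{u}} {X : Type u} [Rep 𝓜 X] (P : SP 𝓜 X) {f g h : IFun 𝓜 X 𝓜.R} {c c' C D : 𝓜.R}

theorem T_zero' : P.T 0 = 0 := P.T_zero

theorem K_zero : P.K 0 := by
  refine ⟨1, ⟨one_pos, P.L_zero, ?_⟩, ?_⟩
  · rw [P.T_zero, P.T_zero]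
    ext x
    simp
  · rw [P.ip_zero_left]
    norm_num

/-- every eigenfunction has a positive multiple in `K` -/
theorem exists_smul_K (hb : StBdd.{u}) {lam : 𝓜.R} (h : P.Eig lam f) :
    ∃ t : 𝓜.R, 0 < t ∧ P.K (t • f) := by
  obtain ⟨c, hc, hf⟩ := P.exists_norm_bound h.2.1
  have hl := h.1
  refine ⟨lam ^ 2 / (c + 1), by positivity, lam, ⟨hl, P.L_smul _ h.2.1, ?_⟩, ?_⟩
  · rw [P.T_smul hb _ h.2.1, P.T_smul hb _ (P.L_T hb h.2.1), h.2.2, smul_comm]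
  · rw [P.ip_smul_left _ h.2.1 (P.L_smul _ h.2.1), P.ip_smul_right _ h.2.1 h.2.1]
    have h1 : P.ip f f ≤ (c + 1) ^ 2 := by nlinarith
    calc lam ^ 2 / (c + 1) * (lam ^ 2 / (c + 1) * P.ip f f)
        = lam ^ 4 / (c + 1) ^ 2 * P.ip f f := by field_simp
      _ ≤ lam ^ 4 / (c + 1) ^ 2 * (c + 1) ^ 2 := by gcongr
      _ = lam ^ 4 := by field_simp

end SP

namespace Ctx

theorem main (h1 : StCantor.{u}) (h2 : StSeq.{u}) (h3 : StUlt.{u}) (h4 : StMu.{u})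
    (h5 : StKCompact.{u}) (h6 : StKTB.{u}) (h7 : StDense.{u}) (h8 : StSep.{u})
    (h9 : StKBound.{u}) (hb : StBdd.{u}) : StMain.{u} := by
  intro 𝓜 X _ d tmc hne hmet htb
  have hPN := h1 𝓜 tmc
  have hRN := h2 𝓜 hPN
  obtain ⟨U, hU⟩ := h3 𝓜 hPN
  obtain ⟨P, rfl⟩ := h4 𝓜 U X d hU hne hmet htb
  obtain ⟨k1, k2⟩ := h6 𝓜 X P
  have k3 := h5 𝓜 X P U hU hRN
  have k4 : WOon P.K := tmc (IFun 𝓜 X 𝓜.R) P.K (supd 𝓜 X) ⟨0, P.K_zero⟩ k1 k3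
  obtain ⟨D, hD1, hD2⟩ := h7 𝓜 (IFun 𝓜 X 𝓜.R) P.K (supd 𝓜 X) ⟨0, P.K_zero⟩ k1.toPM k2 k4
  obtain ⟨B, -, hB, -⟩ := h9 𝓜 X P
  refine WOon.of_inj (S' := univ) (⟨fun x => ⟨fun n => D n x, by fun_prop⟩, by fun_prop⟩ :
    IFun 𝓜 X (IFun 𝓜 𝓜.N 𝓜.R)) (fun _ _ => trivial) (fun x x' _ _ hxx => ?_) hRN
  have e1 : ∀ n, D n x = D n x' := fun n => congrArg (fun q : IFun 𝓜 𝓜.N 𝓜.R => q n) hxx
  have e2 : ∀ f, P.K f → f x = f x' := by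
    intro f hf
    by_contra hne
    have hpos : 0 < |f x - f x'| := abs_pos.2 (sub_ne_zero.2 hne)
    obtain ⟨n, hn⟩ := hD2 f hf (|f x - f x'| / 3) (by positivity)
    have a1 := abs_le_supd (bdd_sub (hB f hf).1 (hB _ (hD1 n)).1) x
    have a2 := abs_le_supd (bdd_sub (hB f hf).1 (hB _ (hD1 n)).1) x'
    rw [← e1 n] at a2
    have a3 : |f x - f x'| ≤ |f x - D n x| + |f x' - D n x| := by
      have e : f x - f x' = (f x - D n x) - (f x' - D n x) := by ring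
      rw [e]
      exact abs_sub _ _
    linarith
  refine h8 𝓜 X P U hU x x' fun lam f hf => ?_
  obtain ⟨t, ht, htf⟩ := P.exists_smul_K hb hf
  have e3 := e2 _ htf
  rw [smulF_apply, smulF_apply] at e3
  exact mul_left_cancel₀ ht.ne' e3

end Ctx

end Pool.Agent.Lib.MP_c7a422_lc.Z
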