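import Pool.Agent.Lib.MP_c7a422_lc.Z.Fun

/-!
# Base 4: the real numbers and the natural numbers of the model, suprema, induction, recursion
-/

namespace Pool.Agent.Lib.MP_c7a422_lc.Z

universe u v w

namespace Ctx

variable {𝓜 : Ctx.{u}}

/-- the real numbers of the model -/
def R (𝓜 : Ctx.{u}) : Type u := El 𝓜.E 𝓜.rl.R

noncomputable instance fieldR : Field 𝓜.R := 𝓜.rl.field
noncomputable instance linearOrderR : LinearOrder 𝓜.R := 𝓜.rl.order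
instance orderedR : IsStrictOrderedRing 𝓜.R := 𝓜.rl.compat
noncomputable instance repR : Rep 𝓜 𝓜.R := repEl 𝓜.rl.R

theorem code_R (x : 𝓜.R) : 𝓜.code x = x.1 := rfl

section ops

variable {α : Type*} {β : Type*} {γ : Type*} [Rep 𝓜 α] [Rep 𝓜 β] [Rep 𝓜 γ]

@[fun_prop]
theorem Dfn.add {f g : α → 𝓜.R} (hf : 𝓜.Dfn f) (hg : 𝓜.Dfn g) : 𝓜.Dfn (fun a => f a + g a) := by
  refine dfn_comp (g := fun p : 𝓜.R × 𝓜.R => p.1 + p.2) ?_ (dfn_pair hf hg)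
  obtain ⟨m, hm⟩ := 𝓜.rl.add_mem
  refine ⟨m, ?_⟩
  rintro ⟨⟨a, b⟩, c⟩
  rw [hm]
  simp only [isPair_iff, code_prod, op_inj, code_R]
  constructor
  · rintro ⟨x, y, q, rfl, h1, h2⟩
    rw [op_inj] at h1
    have hx : a = x := Subtype.ext h1.1
    have hy : b = y := Subtype.ext h1.2
    subst hx hy
    exact (Subtype.ext h2).symm
  · intro h
    have h' : a + b = c := h
    subst h'
    exact ⟨a, b, _, rfl, rfl, rfl⟩

@[fun_prop]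
theorem Dfn.mul {f g : α → 𝓜.R} (hf : 𝓜.Dfn f) (hg : 𝓜.Dfn g) : 𝓜.Dfn (fun a => f a * g a) := by
  refine dfn_comp (g := fun p : 𝓜.R × 𝓜.R => p.1 * p.2) ?_ (dfn_pair hf hg)
  obtain ⟨m, hm⟩ := 𝓜.rl.mul_mem
  refine ⟨m, ?_⟩
  rintro ⟨⟨a, b⟩, c⟩
  rw [hm]
  simp only [isPair_iff, code_prod, op_inj, code_R]
  constructor
  · rintro ⟨x, y, q, rfl, h1, h2⟩
    rw [op_inj] at h1
    have hx : a = x := Subtype.ext h1.1
    have hy : b = y := Subtype.ext h1.2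
    subst hx hy
    exact (Subtype.ext h2).symm
  · intro h
    have h' : a * b = c := h
    subst h'
    exact ⟨a, b, _, rfl, rfl, rfl⟩

@[fun_prop]
theorem Dfn.le {f g : α → 𝓜.R} (hf : 𝓜.Dfn f) (hg : 𝓜.Dfn g) : 𝓜.Dfn (fun a => f a ≤ g a) := by
  refine dfn_comp (g := fun p : 𝓜.R × 𝓜.R => p.1 ≤ p.2) ?_ (dfn_pair hf hg)
  rw [dfn_iff]
  obtain ⟨m, hm⟩ := 𝓜.rl.le_mem
  refine ⟨m, ?_⟩
  rintro ⟨a, b⟩
  rw [hm]
  simp only [isPair_iff, code_prod, op_inj, code_R]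
  constructor
  · rintro ⟨x, y, h, h1, h2⟩
    have hx : a = x := Subtype.ext h1
    have hy : b = y := Subtype.ext h2
    subst hx hy
    exact h
  · intro h
    exact ⟨a, b, h, rfl, rfl⟩

@[fun_prop]
theorem Dfn.lt {f g : α → 𝓜.R} (hf : 𝓜.Dfn f) (hg : 𝓜.Dfn g) : 𝓜.Dfn (fun a => f a < g a) :=
  (Dfn.le hg hf).not.congr_iff fun a => by simp

@[fun_prop]
theorem Dfn.neg {f : α → 𝓜.R} (hf : 𝓜.Dfn f) : 𝓜.Dfn (fun a => - f a) :=
  Dfn.of_graph (s := fun a b => f a + b = 0) (by fun_prop) fun a b => by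
    rw [neg_eq_iff_add_eq_zero]

@[fun_prop]
theorem Dfn.sub {f g : α → 𝓜.R} (hf : 𝓜.Dfn f) (hg : 𝓜.Dfn g) : 𝓜.Dfn (fun a => f a - g a) :=
  (hf.add hg.neg).congr fun a => by ring

@[fun_prop]
theorem Dfn.inv {f : α → 𝓜.R} (hf : 𝓜.Dfn f) : 𝓜.Dfn (fun a => (f a)⁻¹) :=
  Dfn.of_graph (s := fun a b => (f a = 0 ∧ b = 0) ∨ (f a ≠ 0 ∧ f a * b = 1)) (by fun_prop)
    fun a b => by
    by_cases h : f a = 0
    · simp [h, eq_comm]
    · simp only [h, false_and, ne_eq, not_false_eq_true, true_and, false_or]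
      constructor
      · intro h1
        field_simp
        linarith
      · rintro rfl
        exact mul_inv_cancel₀ h

@[fun_prop]
theorem Dfn.div {f g : α → 𝓜.R} (hf : 𝓜.Dfn f) (hg : 𝓜.Dfn g) : 𝓜.Dfn (fun a => f a / g a) :=
  (hf.mul hg.inv).congr fun a => by rw [div_eq_mul_inv]

@[fun_prop]
theorem Dfn.pow {f : α → 𝓜.R} (hf : 𝓜.Dfn f) (n : ℕ) : 𝓜.Dfn (fun a => f a ^ n) := by
  induction n with
  | zero => simpa using dfn_const (1 : 𝓜.R)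
  | succ n ih => exact (ih.mul hf).congr fun a => by rw [pow_succ]

@[fun_prop]
theorem Dfn.max {f g : α → 𝓜.R} (hf : 𝓜.Dfn f) (hg : 𝓜.Dfn g) :
    𝓜.Dfn (fun a => max (f a) (g a)) :=
  (Dfn.ite (Dfn.le hf hg) hg hf).congr fun a => by rw [max_def]

@[fun_prop]
theorem Dfn.min {f g : α → 𝓜.R} (hf : 𝓜.Dfn f) (hg : 𝓜.Dfn g) :
    𝓜.Dfn (fun a => min (f a) (g a)) :=
  (Dfn.ite (Dfn.le hf hg) hf hg).congr fun a => by rw [min_def]

@[fun_prop]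
theorem Dfn.abs {f : α → 𝓜.R} (hf : 𝓜.Dfn f) : 𝓜.Dfn (fun a => |f a|) :=
  (Dfn.max hf hf.neg).congr fun _ => rfl

end ops

/-! ### Suprema -/

theorem exists_isLUB {s : 𝓜.R → Prop} (hs : 𝓜.Dfn s) (hne : ∃ x, s x) (hb : ∃ b, ∀ x, s x → x ≤ b) :
    ∃ l, IsLUB {x | s x} l := by
  obtain ⟨m, hm⟩ := dfn_iff.1 hs
  have h1 : ∀ x : 𝓜.R, 𝓜.E x.1 m ↔ s x := hm
  obtain ⟨x, hx⟩ := hne
  obtain ⟨b, hb⟩ := hb
  obtain ⟨l, hl⟩ := 𝓜.rl.complete m ⟨x, (h1 x).2 hx⟩ ⟨b, fun x hx => hb x ((h1 x).1 hx)⟩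
  have h2 : {x | s x} = {x : El 𝓜.E 𝓜.rl.R | 𝓜.E x.1 m} := Set.ext fun x => (h1 x).symm
  exact ⟨l, h2 ▸ hl⟩

open Classical in
/-- The supremum of a set of real numbers (`0` if it does not exist). -/
noncomputable def sup (𝓜 : Ctx.{u}) (s : 𝓜.R → Prop) : 𝓜.R :=
  if h : ∃ l, IsLUB {x | s x} l then Classical.choose h else 0

theorem isLUB_sup {s : 𝓜.R → Prop} (hs : 𝓜.Dfn s) (hne : ∃ x, s x)
    (hb : ∃ b, ∀ x, s x → x ≤ b) : IsLUB {x | s x} (𝓜.sup s) := by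
  have h := exists_isLUB hs hne hb
  unfold sup
  rw [dif_pos h]
  exact Classical.choose_spec h

theorem le_sup {s : 𝓜.R → Prop} (hs : 𝓜.Dfn s) (hb : ∃ b, ∀ x, s x → x ≤ b) {x : 𝓜.R}
    (hx : s x) : x ≤ 𝓜.sup s := (isLUB_sup hs ⟨x, hx⟩ hb).1 hx

theorem sup_le {s : 𝓜.R → Prop} (hs : 𝓜.Dfn s) (hne : ∃ x, s x) {b : 𝓜.R}
    (hb : ∀ x, s x → x ≤ b) : 𝓜.sup s ≤ b := (isLUB_sup hs hne ⟨b, hb⟩).2 fun x hx => hb x hx

theorem exists_lt_of_lt_sup {s : 𝓜.R → Prop} (hs : 𝓜.Dfn s) (hne : ∃ x, s x) {b : 𝓜.R}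
    (h : b < 𝓜.sup s) : ∃ x, s x ∧ b < x := by
  by_contra hcon
  push Not at hcon
  exact absurd (sup_le hs hne hcon) (not_le.2 h)

@[fun_prop]
theorem Dfn.sup {α : Type*} [Rep 𝓜 α] {s : α → 𝓜.R → Prop}
    (hs : 𝓜.Dfn (fun p : α × 𝓜.R => s p.1 p.2)) : 𝓜.Dfn (fun a => 𝓜.sup (s a)) := by
  -- `l` is the least upper bound
  have h1 : 𝓜.Dfn (fun p : α × 𝓜.R => IsLUB {x | s p.1 x} p.2) := by
    have h2 : 𝓜.Dfn (fun p : α × 𝓜.R => ∀ x, s p.1 x → x ≤ p.2) := by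
      refine Dfn.all (s := fun (p : α × 𝓜.R) x => s p.1 x → x ≤ p.2) (Dfn.imp ?_ (by fun_prop))
      exact dfn_comp (g := fun p : α × 𝓜.R => s p.1 p.2)
        (f := fun p : (α × 𝓜.R) × 𝓜.R => (p.1.1, p.2)) hs (by fun_prop)
    have h3 : 𝓜.Dfn (fun p : α × 𝓜.R => ∀ b, (∀ x, s p.1 x → x ≤ b) → p.2 ≤ b) := by
      refine Dfn.all (s := fun (p : α × 𝓜.R) b => (∀ x, s p.1 x → x ≤ b) → p.2 ≤ b)
        (Dfn.imp ?_ (by fun_prop))
      exact dfn_comp (g := fun p : α × 𝓜.R => ∀ x, s p.1 x → x ≤ p.2)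
        (f := fun p : (α × 𝓜.R) × 𝓜.R => (p.1.1, p.2)) h2 (by fun_prop)
    exact (h2.and h3).congr_iff fun p => Iff.rfl
  refine Dfn.of_graph (s := fun a l => IsLUB {x | s a x} l ∨
    ((∀ l', ¬ IsLUB {x | s a x} l') ∧ l = 0)) ?_ fun a l => ?_
  · refine h1.or (Dfn.and (Dfn.all (s := fun (p : α × 𝓜.R) l' => ¬ IsLUB {x | s p.1 x} l') ?_)
      (by fun_prop))
    refine Dfn.not ?_
    exact dfn_comp (g := fun p : α × 𝓜.R => IsLUB {x | s p.1 x} p.2)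
        (f := fun p : (α × 𝓜.R) × 𝓜.R => (p.1.1, p.2)) h1 (by fun_prop)
  · unfold Ctx.sup
    by_cases h : ∃ l, IsLUB {x | s a x} l
    · rw [dif_pos h]
      have h4 := Classical.choose_spec h
      constructor
      · rintro (h5 | h5)
        · exact h4.unique h5
        · exact absurd h4 (h5.1 _)
      · rintro rfl
        exact Or.inl h4
    · rw [dif_neg h]
      push Not at h
      constructor
      · rintro (h5 | h5)
        · exact absurd h5 (h _)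
        · exact h5.2.symm
      · rintro rfl
        exact Or.inr ⟨h, rfl⟩

/-! ### Natural numbers -/

/-- `r` is a natural number: it belongs to every internal set that contains `0` and is closed
under `x ↦ x + 1`. -/
def IsN (𝓜 : Ctx.{u}) (r : 𝓜.R) : Prop :=
  ∀ s : ISet 𝓜 𝓜.R, s 0 → (∀ x, s x → s (x + 1)) → s r

theorem dfn_isN : 𝓜.Dfn 𝓜.IsN := by
  unfold IsN
  refine Dfn.all (s := fun (r : 𝓜.R) (s : ISet 𝓜 𝓜.R) => s 0 → (∀ x, s x → s (x + 1)) → s r)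
    (Dfn.imp (by fun_prop) (Dfn.imp (Dfn.all (s := fun (p : 𝓜.R × ISet 𝓜 𝓜.R) x =>
      p.2 x → p.2 (x + 1)) (Dfn.imp (by fun_prop) (by fun_prop))) (by fun_prop)))

theorem isN_zero : 𝓜.IsN 0 := fun _ h0 _ => h0

theorem isN_succ {r : 𝓜.R} (h : 𝓜.IsN r) : 𝓜.IsN (r + 1) := fun s h0 h1 => h1 r (h s h0 h1)

theorem isN_ind {P : 𝓜.R → Prop} (hP : 𝓜.Dfn P) (h0 : P 0)
    (h1 : ∀ x, 𝓜.IsN x → P x → P (x + 1)) {r : 𝓜.R} (h : 𝓜.IsN r) : P r := by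
  have h2 := h ⟨fun x => 𝓜.IsN x ∧ P x, dfn_isN.and hP⟩ ⟨isN_zero, h0⟩
    fun x hx => ⟨isN_succ hx.1, h1 x hx.1 hx.2⟩
  exact h2.2

theorem isN_add {r s : 𝓜.R} (hr : 𝓜.IsN r) (hs : 𝓜.IsN s) : 𝓜.IsN (r + s) := by
  refine isN_ind (P := fun s => 𝓜.IsN (r + s)) (dfn_comp dfn_isN (by fun_prop)) (by simpa using hr)
    (fun x _ hx => ?_) hs
  rw [← add_assoc]
  exact isN_succ hx

theorem isN_mul {r s : 𝓜.R} (hr : 𝓜.IsN r) (hs : 𝓜.IsN s) : 𝓜.IsN (r * s) := by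
  refine isN_ind (P := fun s => 𝓜.IsN (r * s)) (dfn_comp dfn_isN (by fun_prop))
    (by simpa using isN_zero) (fun x _ hx => ?_) hs
  rw [mul_add, mul_one]
  exact isN_add hx hr

/-- the natural numbers of the model, as a subsemiring of the real numbers -/
def NS (𝓜 : Ctx.{u}) : Subsemiring 𝓜.R where
  carrier := {r | 𝓜.IsN r}
  mul_mem' := isN_mul
  one_mem' := by simpa using isN_succ (isN_zero (𝓜 := 𝓜))
  add_mem' := isN_add
  zero_mem' := isN_zero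

/-- the natural numbers of the model -/
def N (𝓜 : Ctx.{u}) : Type u := 𝓜.NS

noncomputable instance : CommSemiring 𝓜.N := inferInstanceAs (CommSemiring 𝓜.NS)
noncomputable instance : LinearOrder 𝓜.N := inferInstanceAs (LinearOrder 𝓜.NS)
instance : IsStrictOrderedRing 𝓜.N := inferInstanceAs (IsStrictOrderedRing 𝓜.NS)

/-- the inclusion -/
@[coe]
def toR (n : 𝓜.N) : 𝓜.R := n.1

instance : CoeOut 𝓜.N 𝓜.R := ⟨toR⟩

@[simp, norm_cast] theorem toR_zero : ((0 : 𝓜.N) : 𝓜.R) = 0 := rfl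
@[simp, norm_cast] theorem toR_one : ((1 : 𝓜.N) : 𝓜.R) = 1 := rfl
@[simp, norm_cast] theorem toR_add (m n : 𝓜.N) : ((m + n : 𝓜.N) : 𝓜.R) = m + n := rfl
@[simp, norm_cast] theorem toR_mul (m n : 𝓜.N) : ((m * n : 𝓜.N) : 𝓜.R) = m * n := rfl
@[simp, norm_cast] theorem toR_le {m n : 𝓜.N} : ((m : 𝓜.R) ≤ n) ↔ m ≤ n := Iff.rfl
@[simp, norm_cast] theorem toR_lt {m n : 𝓜.N} : ((m : 𝓜.R) < n) ↔ m < n := Iff.rfl
@[simp, norm_cast] theorem toR_inj {m n : 𝓜.N} : ((m : 𝓜.R) = n) ↔ m = n :=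
  ⟨fun h => Subtype.ext h, fun h => by rw [h]⟩

theorem toR_isN (n : 𝓜.N) : 𝓜.IsN n := n.2

noncomputable instance repN : Rep 𝓜 𝓜.N :=
  repOfInj toR (fun _ _ h => toR_inj.1 h) (dfn_isN.congr_iff fun b =>
    ⟨fun h => ⟨⟨b, h⟩, rfl⟩, by rintro ⟨n, rfl⟩; exact toR_isN n⟩)

theorem toR_codeMap : 𝓜.CodeMap (toR (𝓜 := 𝓜)) := fun _ => rfl

@[fun_prop]
theorem dfn_toR {α : Type*} [Rep 𝓜 α] {f : α → 𝓜.N} (hf : 𝓜.Dfn f) :
    𝓜.Dfn (fun a => (f a : 𝓜.R)) := dfn_comp toR_codeMap.dfn hf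

theorem dfn_of_toR {α : Type*} [Rep 𝓜 α] {f : α → 𝓜.N} (hf : 𝓜.Dfn (fun a => (f a : 𝓜.R))) :
    𝓜.Dfn f := toR_codeMap.dfn_of_comp hf

section Nops

variable {α : Type*} [Rep 𝓜 α]

@[fun_prop]
theorem Dfn.addN {f g : α → 𝓜.N} (hf : 𝓜.Dfn f) (hg : 𝓜.Dfn g) : 𝓜.Dfn (fun a => f a + g a) :=
  dfn_of_toR (by simp only [toR_add]; fun_prop)

@[fun_prop]
theorem Dfn.mulN {f g : α → 𝓜.N} (hf : 𝓜.Dfn f) (hg : 𝓜.Dfn g) : 𝓜.Dfn (fun a => f a * g a) :=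
  dfn_of_toR (by simp only [toR_mul]; fun_prop)

@[fun_prop]
theorem Dfn.leN {f g : α → 𝓜.N} (hf : 𝓜.Dfn f) (hg : 𝓜.Dfn g) : 𝓜.Dfn (fun a => f a ≤ g a) :=
  (Dfn.le (dfn_toR hf) (dfn_toR hg)).congr_iff fun _ => Iff.rfl

@[fun_prop]
theorem Dfn.ltN {f g : α → 𝓜.N} (hf : 𝓜.Dfn f) (hg : 𝓜.Dfn g) : 𝓜.Dfn (fun a => f a < g a) :=
  (Dfn.lt (dfn_toR hf) (dfn_toR hg)).congr_iff fun _ => Iff.rfl

end Nops

/-- Induction for internal predicates. -/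
theorem ind {P : 𝓜.N → Prop} (hP : 𝓜.Dfn P) (h0 : P 0) (h1 : ∀ n, P n → P (n + 1)) (n : 𝓜.N) :
    P n := by
  have h := isN_ind (P := fun r => ∃ n : 𝓜.N, (n : 𝓜.R) = r ∧ P n) (Dfn.ex (s := fun r (n : 𝓜.N) =>
    (n : 𝓜.R) = r ∧ P n) (Dfn.and (by fun_prop) (dfn_comp hP dfn_snd))) ⟨0, rfl, h0⟩
    (fun x _ hx => by
      obtain ⟨n, rfl, hn⟩ := hx
      exact ⟨n + 1, rfl, h1 n hn⟩) (toR_isN n)
  obtain ⟨m, hm, hP⟩ := h
  rw [toR_inj] at hm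
  rwa [← hm]

theorem N_nonneg (n : 𝓜.N) : 0 ≤ n := by
  refine ind (P := fun n => 0 ≤ n) (by fun_prop) le_rfl (fun n h => ?_) n
  exact h.trans (by simp)

theorem toR_nonneg (n : 𝓜.N) : (0 : 𝓜.R) ≤ n := N_nonneg n

theorem N_cases (n : 𝓜.N) : n = 0 ∨ ∃ m, n = m + 1 := by
  refine ind (P := fun n => n = 0 ∨ ∃ m, n = m + 1) (by fun_prop) (Or.inl rfl)
    (fun n _ => Or.inr ⟨n, rfl⟩) n

theorem N_lt_add_one_iff {m n : 𝓜.N} : m < n + 1 ↔ m ≤ n := by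
  have key : ∀ n : 𝓜.N, ∀ m : 𝓜.N, m < n + 1 → m ≤ n := by
    refine ind (Dfn.all (s := fun (n m : 𝓜.N) => m < n + 1 → m ≤ n)
      (Dfn.imp (by fun_prop) (by fun_prop))) ?_ ?_
    · intro m hm
      rcases N_cases m with rfl | ⟨k, rfl⟩
      · exact le_rfl
      · have h1 : k < 0 := by
          have : (k : 𝓜.R) + 1 < 0 + 1 := hm
          exact_mod_cast (by linarith : (k : 𝓜.R) < 0)
        exact absurd (N_nonneg k) (not_le.2 h1)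
    · intro n ih m hm
      rcases N_cases m with rfl | ⟨k, rfl⟩
      · exact N_nonneg _
      · have h1 : k < n + 1 := by
          have : (k : 𝓜.R) + 1 < n + 1 + 1 := hm
          exact_mod_cast (by linarith : (k : 𝓜.R) < n + 1)
        have h2 := ih k h1
        have h3 : (k : 𝓜.R) + 1 ≤ n + 1 := by
          have : (k : 𝓜.R) ≤ n := h2
          linarith
        exact_mod_cast h3
  refine ⟨key n m, fun h => ?_⟩
  have h1 : (m : 𝓜.R) ≤ n := h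
  exact_mod_cast (by linarith : (m : 𝓜.R) < n + 1)

theorem N_add_one_le_iff {m n : 𝓜.N} : m + 1 ≤ n ↔ m < n := by
  rw [← not_lt, N_lt_add_one_iff, not_le]

/-- Strong induction. -/
theorem strong_ind {P : 𝓜.N → Prop} (hP : 𝓜.Dfn P) (h : ∀ n, (∀ m < n, P m) → P n) (n : 𝓜.N) :
    P n := by
  have key : ∀ n : 𝓜.N, ∀ m, m < n → P m := by
    refine ind (Dfn.all (s := fun (n m : 𝓜.N) => m < n → P m)
      (Dfn.imp (by fun_prop) (dfn_comp hP dfn_snd))) ?_ ?_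
    · intro m hm
      exact absurd (N_nonneg m) (not_le.2 hm)
    · intro n ih m hm
      rw [N_lt_add_one_iff] at hm
      exact h m fun k hk => ih k (lt_of_lt_of_le hk hm)
  exact h n (key n)

/-- Least number principle. -/
theorem exists_least {P : 𝓜.N → Prop} (hP : 𝓜.Dfn P) (h : ∃ n, P n) :
    ∃ n, P n ∧ ∀ m, P m → n ≤ m := by
  by_contra hcon
  push Not at hcon
  obtain ⟨n, hn⟩ := h
  refine strong_ind (P := fun n => ¬ P n) hP.not (fun n ih hn => ?_) n hn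
  obtain ⟨m, hm, hmn⟩ := hcon n hn
  exact ih m hmn hm

/-- The Archimedean property. -/
theorem exists_nat_gt (r : 𝓜.R) : ∃ n : 𝓜.N, r < n := by
  by_contra hcon
  push Not at hcon
  obtain ⟨l, hl⟩ := exists_isLUB (s := fun x : 𝓜.R => ∃ n : 𝓜.N, x = n) (by fun_prop) ⟨0, 0, rfl⟩
    ⟨r, by rintro x ⟨n, rfl⟩; exact hcon n⟩
  have h1 : ∀ n : 𝓜.N, (n : 𝓜.R) ≤ l - 1 := fun n => by
    have h2 : ((n + 1 : 𝓜.N) : 𝓜.R) ≤ l := hl.1 ⟨n + 1, rfl⟩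
    push_cast at h2
    linarith
  have h3 : l ≤ l - 1 := hl.2 (by rintro x ⟨n, rfl⟩; exact h1 n)
  linarith

theorem exists_one_div_lt {ε : 𝓜.R} (hε : 0 < ε) : ∃ n : 𝓜.N, 1 / ((n : 𝓜.R) + 1) < ε := by
  obtain ⟨n, hn⟩ := exists_nat_gt (1 / ε)
  refine ⟨n, ?_⟩
  have h0 := toR_nonneg n
  rw [div_lt_iff₀ (by linarith)]
  rw [div_lt_iff₀ hε] at hn
  nlinarith

/-! ### Recursion -/

section recursion

variable {α : Type*} [Rep 𝓜 α]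

/-- the graph of the recursively defined function -/
def RecRel (a : α) (g : IFun 𝓜 (𝓜.N × α) α) (n : 𝓜.N) (x : α) : Prop :=
  ∀ s : ISet 𝓜 (𝓜.N × α), s (0, a) → (∀ n y, s (n, y) → s (n + 1, g (n, y))) → s (n, x)

@[fun_prop]
theorem dfn_recRel {γ : Type*} [Rep 𝓜 γ] {a : γ → α} {g : γ → IFun 𝓜 (𝓜.N × α) α} {n : γ → 𝓜.N}
    {x : γ → α} (ha : 𝓜.Dfn a) (hg : 𝓜.Dfn g) (hn : 𝓜.Dfn n) (hx : 𝓜.Dfn x) :
    𝓜.Dfn (fun c => RecRel (a c) (g c) (n c) (x c)) := by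
  unfold RecRel
  refine Dfn.all (s := fun c (s : ISet 𝓜 (𝓜.N × α)) => s (0, a c) →
    (∀ n y, s (n, y) → s (n + 1, g c (n, y))) → s (n c, x c)) (Dfn.imp (by fun_prop)
    (Dfn.imp (Dfn.all (s := fun (p : γ × ISet 𝓜 (𝓜.N × α)) n => ∀ y, p.2 (n, y) →
      p.2 (n + 1, g p.1 (n, y))) (Dfn.all (s := fun (p : (γ × ISet 𝓜 (𝓜.N × α)) × 𝓜.N) y =>
      p.1.2 (p.2, y) → p.1.2 (p.2 + 1, g p.1.1 (p.2, y))) (Dfn.imp (by fun_prop) (by fun_prop))))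
      (by fun_prop)))

theorem recRel_zero (a : α) (g : IFun 𝓜 (𝓜.N × α) α) : RecRel a g 0 a := fun _ h0 _ => h0

theorem recRel_succ {a : α} {g : IFun 𝓜 (𝓜.N × α) α} {n : 𝓜.N} {x : α} (h : RecRel a g n x) :
    RecRel a g (n + 1) (g (n, x)) := fun s h0 h1 => h1 n x (h s h0 h1)

theorem N_add_one_ne_zero (n : 𝓜.N) : n + 1 ≠ 0 := by
  intro h
  have h1 : (n : 𝓜.R) + 1 = 0 := by exact_mod_cast congrArg toR h
  have := toR_nonneg n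
  linarith

theorem N_add_one_inj {m n : 𝓜.N} (h : m + 1 = n + 1) : m = n := by
  have h1 : (m : 𝓜.R) + 1 = n + 1 := by exact_mod_cast congrArg toR h
  exact_mod_cast (by linarith : (m : 𝓜.R) = n)

theorem recRel_zero_eq {a : α} {g : IFun 𝓜 (𝓜.N × α) α} {x : α} (h : RecRel a g 0 x) : x = a := by
  have h1 := h ⟨fun p => p.1 = 0 → p.2 = a, Dfn.imp (by fun_prop) (by fun_prop)⟩ (fun _ => rfl)
    (fun n y _ h => absurd h (N_add_one_ne_zero n))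
  exact h1 rfl

theorem recRel_unique (a : α) (g : IFun 𝓜 (𝓜.N × α) α) (n : 𝓜.N) : ∃! x, RecRel a g n x := by
  refine ind (P := fun n => ∃! x, RecRel a g n x) (by fun_prop) ?_ ?_ n
  · exact ⟨a, recRel_zero a g, fun y hy => recRel_zero_eq hy⟩
  · rintro n ⟨x, hx, hux⟩
    refine ⟨g (n, x), recRel_succ hx, fun y hy => ?_⟩
    have h1 := hy ⟨fun p => RecRel a g p.1 p.2 ∧ (p.1 = n + 1 → p.2 = g (n, x)),
      Dfn.and (by fun_prop) (Dfn.imp (by fun_prop) (by fun_prop))⟩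
      ⟨recRel_zero a g, fun h => absurd h.symm (N_add_one_ne_zero n)⟩
      (fun m z hm => by
        have hm' : RecRel a g m z ∧ (m = n + 1 → z = g (n, x)) := hm
        refine ⟨recRel_succ hm'.1, fun h => ?_⟩
        have h2 : m = n := N_add_one_inj h
        subst h2
        rw [hux z hm'.1])
    exact h1.2 rfl

/-- The function defined by `f 0 = a`, `f (n + 1) = g (n, f n)`. -/
noncomputable def nrec (a : α) (g : IFun 𝓜 (𝓜.N × α) α) (n : 𝓜.N) : α :=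
  Classical.choose (recRel_unique a g n).exists

theorem nrec_spec (a : α) (g : IFun 𝓜 (𝓜.N × α) α) (n : 𝓜.N) : RecRel a g n (nrec a g n) :=
  Classical.choose_spec (recRel_unique a g n).exists

theorem nrec_eq_iff {a : α} {g : IFun 𝓜 (𝓜.N × α) α} {n : 𝓜.N} {x : α} :
    RecRel a g n x ↔ nrec a g n = x :=
  ⟨fun h => (recRel_unique a g n).unique (nrec_spec a g n) h, fun h => h ▸ nrec_spec a g n⟩

@[simp]
theorem nrec_zero (a : α) (g : IFun 𝓜 (𝓜.N × α) α) : nrec a g 0 = a :=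
  nrec_eq_iff.1 (recRel_zero a g)

theorem nrec_succ (a : α) (g : IFun 𝓜 (𝓜.N × α) α) (n : 𝓜.N) :
    nrec a g (n + 1) = g (n, nrec a g n) :=
  nrec_eq_iff.1 (recRel_succ (nrec_spec a g n))

@[fun_prop]
theorem Dfn.nrec {γ : Type*} [Rep 𝓜 γ] {a : γ → α} {g : γ → IFun 𝓜 (𝓜.N × α) α} {n : γ → 𝓜.N}
    (ha : 𝓜.Dfn a) (hg : 𝓜.Dfn g) (hn : 𝓜.Dfn n) :
    𝓜.Dfn (fun c => Ctx.nrec (a c) (g c) (n c)) :=
  Dfn.of_graph (s := fun c x => RecRel (a c) (g c) (n c) x) (by fun_prop) fun _ _ => nrec_eq_iff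

end recursion

end Ctx

end Pool.Agent.Lib.MP_c7a422_lc.Z
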