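import Pool.Agent.Lib.MP_c7a422_lc.Z.Form

/-!
# Base 2: represented types and internal functions

`Rep 𝓜 α` says that the type `α` is represented by a set of the model `𝓜`.
`𝓜.Dfn f` says that the function `f` between represented types belongs to the model.
Predicates are functions to `Prop`.
-/

namespace Pool.Agent.Lib.MP_c7a422_lc.Z

universe u v w

/-- The type `α` is represented in the model. -/
class Rep (𝓜 : Ctx.{u}) (α : Type v) where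
  /-- the code of an element -/
  code : α → 𝓜.M
  code_inj : Function.Injective code
  /-- the set of all codes -/
  car : 𝓜.M
  mem_car : ∀ m, 𝓜.E m car ↔ ∃ a, code a = m

namespace Ctx

variable {𝓜 : Ctx.{u}}

/-- the code of an element of a represented type -/
def code (𝓜 : Ctx.{u}) {α : Type v} [Rep 𝓜 α] (a : α) : 𝓜.M := Rep.code (𝓜 := 𝓜) a

/-- the set of all codes -/
def car (𝓜 : Ctx.{u}) (α : Type v) [Rep 𝓜 α] : 𝓜.M := Rep.car (𝓜 := 𝓜) (α := α)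

theorem code_inj {α : Type v} [Rep 𝓜 α] {a b : α} (h : 𝓜.code a = 𝓜.code b) : a = b :=
  Rep.code_inj h

theorem mem_car {α : Type v} [Rep 𝓜 α] {m : 𝓜.M} : 𝓜.E m (𝓜.car α) ↔ ∃ a : α, 𝓜.code a = m :=
  Rep.mem_car m

theorem code_mem {α : Type v} [Rep 𝓜 α] (a : α) : 𝓜.E (𝓜.code a) (𝓜.car α) :=
  mem_car.2 ⟨a, rfl⟩

/-- The subset `s` of the represented type belongs to the model. -/
def IntS (𝓜 : Ctx.{u}) {α : Type v} [Rep 𝓜 α] (s : α → Prop) : Prop :=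
  ∃ m : 𝓜.M, ∀ a, 𝓜.E (𝓜.code a) m ↔ s a

noncomputable instance repProd {α : Type v} {β : Type w} [Rep 𝓜 α] [Rep 𝓜 β] : Rep 𝓜 (α × β) where
  code p := 𝓜.op (𝓜.code p.1) (𝓜.code p.2)
  code_inj := by
    rintro ⟨a, b⟩ ⟨a', b'⟩ h
    rw [op_inj] at h
    rw [Prod.mk.injEq]
    exact ⟨code_inj h.1, code_inj h.2⟩
  car := 𝓜.pr (𝓜.car α) (𝓜.car β)
  mem_car m := by
    rw [mem_pr]
    constructor
    · rintro ⟨x, y, hx, hy, rfl⟩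
      rw [mem_car] at hx hy
      obtain ⟨a, rfl⟩ := hx
      obtain ⟨b, rfl⟩ := hy
      exact ⟨(a, b), rfl⟩
    · rintro ⟨⟨a, b⟩, rfl⟩
      exact ⟨_, _, code_mem a, code_mem b, rfl⟩

theorem code_prod {α : Type v} {β : Type w} [Rep 𝓜 α] [Rep 𝓜 β] (a : α) (b : β) :
    𝓜.code (a, b) = 𝓜.op (𝓜.code a) (𝓜.code b) := rfl

theorem exists_empty (𝓜 : Ctx.{u}) : ∃ e, ∀ z, ¬ 𝓜.E z e := by
  obtain ⟨w, ⟨e, -, he⟩, -⟩ := 𝓜.zf.infinity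
  exact ⟨e, he⟩

/-- the empty set -/
noncomputable def em (𝓜 : Ctx.{u}) : 𝓜.M := Classical.choose 𝓜.exists_empty

theorem not_mem_em (z : 𝓜.M) : ¬ 𝓜.E z 𝓜.em := Classical.choose_spec 𝓜.exists_empty z

open Classical in
noncomputable instance repProp : Rep 𝓜 Prop where
  code p := if p then 𝓜.up 𝓜.em 𝓜.em else 𝓜.em
  code_inj := by
    intro p q h
    have hne : 𝓜.up 𝓜.em 𝓜.em ≠ 𝓜.em := fun h => not_mem_em (𝓜 := 𝓜) 𝓜.em (by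
      conv_rhs => rw [← h]
      simp)
    by_cases hp : p <;> by_cases hq : q <;> simp only [hp, hq, if_true, if_false] at h ⊢
    · exact absurd h hne
    · exact absurd h.symm hne
  car := 𝓜.up 𝓜.em (𝓜.up 𝓜.em 𝓜.em)
  mem_car m := by
    rw [mem_up]
    constructor
    · rintro (rfl | rfl)
      · exact ⟨False, by simp⟩
      · exact ⟨True, by simp⟩
    · rintro ⟨p, rfl⟩
      by_cases hp : p <;> simp [hp]

/-- The function `f` between represented types belongs to the model. -/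
@[fun_prop]
def Dfn (𝓜 : Ctx.{u}) {α : Type v} {β : Type w} [Rep 𝓜 α] [Rep 𝓜 β] (f : α → β) : Prop :=
  𝓜.IntS (fun p : α × β => f p.1 = p.2)

section rules

variable {α : Type*} {β : Type*} {γ : Type*} {δ : Type*} [Rep 𝓜 α] [Rep 𝓜 β] [Rep 𝓜 γ] [Rep 𝓜 δ]

theorem IntS.congr {s t : α → Prop} (h : 𝓜.IntS s) (e : ∀ a, s a ↔ t a) : 𝓜.IntS t := by
  obtain ⟨m, hm⟩ := h
  exact ⟨m, fun a => (hm a).trans (e a)⟩

theorem intS_of_df (α : Type*) [Rep 𝓜 α] {n : ℕ} {P : (Fin (n + 1) → 𝓜.M) → Prop} (h : 𝓜.Df P)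
    (p : Fin n → 𝓜.M) : 𝓜.IntS (fun a : α => P (Fin.cons (𝓜.code a) p)) := by
  obtain ⟨y, hy⟩ := 𝓜.sepD h p (𝓜.car α)
  exact ⟨y, fun a => by rw [hy, and_iff_right (code_mem a)]⟩

theorem intS_const (p : Prop) : 𝓜.IntS (fun _ : α => p) := by
  by_cases hp : p
  · exact ⟨𝓜.car α, fun a => by simp [hp, code_mem]⟩
  · exact ⟨𝓜.em, fun a => by simp [hp, not_mem_em]⟩

theorem intS_imp {s t : α → Prop} (hs : 𝓜.IntS s) (ht : 𝓜.IntS t) :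
    𝓜.IntS (fun a => s a → t a) := by
  obtain ⟨m, hm⟩ := hs
  obtain ⟨k, hk⟩ := ht
  refine (intS_of_df α (n := 2) (P := fun v => 𝓜.E (v 0) (v 1) → 𝓜.E (v 0) (v 2))
    (dimp (dmem _ _) (dmem _ _)) ![m, k]).congr fun a => ?_
  show (𝓜.E (𝓜.code a) m → 𝓜.E (𝓜.code a) k) ↔ _
  rw [hm, hk]

theorem intS_not {s : α → Prop} (hs : 𝓜.IntS s) : 𝓜.IntS (fun a => ¬ s a) :=
  intS_imp hs (intS_const False)

theorem intS_and {s t : α → Prop} (hs : 𝓜.IntS s) (ht : 𝓜.IntS t) :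
    𝓜.IntS (fun a => s a ∧ t a) :=
  (intS_not (intS_imp hs (intS_not ht))).congr fun a => by tauto

/-- projection -/
theorem intS_ex {s : α × β → Prop} (hs : 𝓜.IntS s) : 𝓜.IntS (fun a => ∃ b, s (a, b)) := by
  obtain ⟨m, hm⟩ := hs
  refine (intS_of_df α (n := 2) (P := fun v => ∃ b, 𝓜.E b (v 2) ∧ ∃ p, IsPair 𝓜.E p (v 0) b ∧
    𝓜.E p (v 1)) (dex (Q := fun b v => 𝓜.E b (v 2) ∧ ∃ p, IsPair 𝓜.E p (v 0) b ∧
    𝓜.E p (v 1)) (dand (dmem _ _) (dex (Q := fun p v => IsPair 𝓜.E p (v 1) (v 0) ∧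
    𝓜.E p (v 2)) (dand (dpair _ _ _) (dmem _ _))))) ![m, 𝓜.car β]).congr fun a => ?_
  simp only [isPair_iff]
  show (∃ b, 𝓜.E b (𝓜.car β) ∧ ∃ p, p = 𝓜.op (𝓜.code a) b ∧ 𝓜.E p m) ↔ _
  constructor
  · rintro ⟨b, hb, p, rfl, hp⟩
    rw [mem_car] at hb
    obtain ⟨b, rfl⟩ := hb
    exact ⟨b, (hm (a, b)).1 hp⟩
  · rintro ⟨b, hb⟩
    exact ⟨_, code_mem b, _, rfl, (hm (a, b)).2 hb⟩

/-- preimage under an internal function -/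
theorem intS_pre {s : β → Prop} {f : α → β} (hs : 𝓜.IntS s) (hf : 𝓜.Dfn f) :
    𝓜.IntS (fun a => s (f a)) := by
  obtain ⟨m, hm⟩ := hs
  obtain ⟨k, hk⟩ := hf
  refine (intS_of_df α (n := 3) (P := fun v => ∃ b, 𝓜.E b (v 3) ∧ 𝓜.E b (v 1) ∧
    ∃ p, IsPair 𝓜.E p (v 0) b ∧ 𝓜.E p (v 2)) (dex (Q := fun b v => 𝓜.E b (v 3) ∧ 𝓜.E b (v 1) ∧
    ∃ p, IsPair 𝓜.E p (v 0) b ∧ 𝓜.E p (v 2)) (dand (dmem _ _) (dand (dmem _ _)
    (dex (Q := fun p v => IsPair 𝓜.E p (v 1) (v 0) ∧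
    𝓜.E p (v 3)) (dand (dpair _ _ _) (dmem _ _)))))) ![m, k, 𝓜.car β]).congr fun a => ?_
  simp only [isPair_iff]
  show (∃ b, 𝓜.E b (𝓜.car β) ∧ 𝓜.E b m ∧ ∃ p, p = 𝓜.op (𝓜.code a) b ∧ 𝓜.E p k) ↔ _
  constructor
  · rintro ⟨b, hb, hbm, p, rfl, hp⟩
    rw [mem_car] at hb
    obtain ⟨b, rfl⟩ := hb
    have h1 : f a = b := (hk (a, b)).1 hp
    rw [h1, ← hm]
    exact hbm
  · intro h
    exact ⟨_, code_mem (f a), (hm _).2 h, _, rfl, (hk (a, f a)).2 rfl⟩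

@[fun_prop]
theorem dfn_fst : 𝓜.Dfn (fun p : α × β => p.1) := by
  refine (intS_of_df ((α × β) × α) (n := 0) (P := fun v => ∃ a b p, IsPair 𝓜.E p a b ∧
    IsPair 𝓜.E (v 0) p a) (dex (Q := fun a v => ∃ b p, IsPair 𝓜.E p a b ∧
    IsPair 𝓜.E (v 0) p a) (dex (Q := fun b v => ∃ p, IsPair 𝓜.E p (v 0) b ∧
    IsPair 𝓜.E (v 1) p (v 0)) (dex (Q := fun p v => IsPair 𝓜.E p (v 1) (v 0) ∧
    IsPair 𝓜.E (v 2) p (v 1)) (dand (dpair _ _ _) (dpair _ _ _))))) ![]).congr ?_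
  rintro ⟨⟨a, b⟩, c⟩
  simp only [isPair_iff, Fin.cons_zero, code_prod, op_inj]
  constructor
  · rintro ⟨x, y, p, rfl, h1, h2⟩
    rw [op_inj] at h1
    exact code_inj (h1.1.trans h2.symm)
  · intro h
    have h' : a = c := h
    subst h'
    exact ⟨_, _, _, rfl, rfl, rfl⟩

@[fun_prop]
theorem dfn_snd : 𝓜.Dfn (fun p : α × β => p.2) := by
  refine (intS_of_df ((α × β) × β) (n := 0) (P := fun v => ∃ a b p, IsPair 𝓜.E p a b ∧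
    IsPair 𝓜.E (v 0) p b) (dex (Q := fun a v => ∃ b p, IsPair 𝓜.E p a b ∧
    IsPair 𝓜.E (v 0) p b) (dex (Q := fun b v => ∃ p, IsPair 𝓜.E p (v 0) b ∧
    IsPair 𝓜.E (v 1) p b) (dex (Q := fun p v => IsPair 𝓜.E p (v 1) (v 0) ∧
    IsPair 𝓜.E (v 2) p (v 0)) (dand (dpair _ _ _) (dpair _ _ _))))) ![]).congr ?_
  rintro ⟨⟨a, b⟩, c⟩
  simp only [isPair_iff, Fin.cons_zero, code_prod, op_inj]
  constructor
  · rintro ⟨x, y, p, rfl, h1, h2⟩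
    rw [op_inj] at h1
    exact code_inj (h1.2.trans h2.symm)
  · intro h
    have h' : b = c := h
    subst h'
    exact ⟨_, _, _, rfl, rfl, rfl⟩

theorem intS_eq : 𝓜.IntS (fun p : α × α => p.1 = p.2) := by
  refine (intS_of_df (α × α) (n := 0) (P := fun v => ∃ a, IsPair 𝓜.E (v 0) a a)
    (dex (Q := fun a v => IsPair 𝓜.E (v 0) a a) (dpair _ _ _)) ![]).congr ?_
  rintro ⟨a, b⟩
  simp only [isPair_iff, Fin.cons_zero, code_prod, op_inj]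
  constructor
  · rintro ⟨x, h1, h2⟩
    exact code_inj (h1.trans h2.symm)
  · intro h
    have h' : a = b := h
    subst h'
    exact ⟨_, rfl, rfl⟩

@[fun_prop]
theorem dfn_pair {f : γ → α} {g : γ → β} (hf : 𝓜.Dfn f) (hg : 𝓜.Dfn g) :
    𝓜.Dfn (fun c => (f c, g c)) := by
  obtain ⟨m, hm⟩ := hf
  obtain ⟨k, hk⟩ := hg
  refine (intS_of_df (γ × (α × β)) (n := 2) (P := fun v => ∃ c a b p, IsPair 𝓜.E p a b ∧
    IsPair 𝓜.E (v 0) c p ∧ (∃ q, IsPair 𝓜.E q c a ∧ 𝓜.E q (v 1)) ∧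
    (∃ q, IsPair 𝓜.E q c b ∧ 𝓜.E q (v 2)))
    (dex (Q := fun c v => ∃ a b p, IsPair 𝓜.E p a b ∧
    IsPair 𝓜.E (v 0) c p ∧ (∃ q, IsPair 𝓜.E q c a ∧ 𝓜.E q (v 1)) ∧
    (∃ q, IsPair 𝓜.E q c b ∧ 𝓜.E q (v 2)))
    (dex (Q := fun a v => ∃ b p, IsPair 𝓜.E p a b ∧
    IsPair 𝓜.E (v 1) (v 0) p ∧ (∃ q, IsPair 𝓜.E q (v 0) a ∧ 𝓜.E q (v 2)) ∧
    (∃ q, IsPair 𝓜.E q (v 0) b ∧ 𝓜.E q (v 3)))
    (dex (Q := fun b v => ∃ p, IsPair 𝓜.E p (v 0) b ∧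
    IsPair 𝓜.E (v 2) (v 1) p ∧ (∃ q, IsPair 𝓜.E q (v 1) (v 0) ∧ 𝓜.E q (v 3)) ∧
    (∃ q, IsPair 𝓜.E q (v 1) b ∧ 𝓜.E q (v 4)))
    (dex (Q := fun p v => IsPair 𝓜.E p (v 1) (v 0) ∧
    IsPair 𝓜.E (v 3) (v 2) p ∧ (∃ q, IsPair 𝓜.E q (v 2) (v 1) ∧ 𝓜.E q (v 4)) ∧
    (∃ q, IsPair 𝓜.E q (v 2) (v 0) ∧ 𝓜.E q (v 5)))
    (dand (dpair _ _ _) (dand (dpair _ _ _) (dand
    (dex (Q := fun q v => IsPair 𝓜.E q (v 3) (v 2) ∧ 𝓜.E q (v 5)) (dand (dpair _ _ _) (dmem _ _)))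
    (dex (Q := fun q v => IsPair 𝓜.E q (v 3) (v 1) ∧ 𝓜.E q (v 6))
      (dand (dpair _ _ _) (dmem _ _)))))))))) ![m, k]).congr ?_
  rintro ⟨c, a, b⟩
  simp only [isPair_iff, Fin.cons_zero, code_prod, op_inj]
  show (∃ c' a' b' p, p = 𝓜.op a' b' ∧ (𝓜.code c = c' ∧ 𝓜.op (𝓜.code a) (𝓜.code b) = p) ∧
    (∃ q, q = 𝓜.op c' a' ∧ 𝓜.E q m) ∧ ∃ q, q = 𝓜.op c' b' ∧ 𝓜.E q k) ↔ _
  constructor
  · rintro ⟨c', a', b', p, rfl, ⟨rfl, h1⟩, ⟨q, rfl, h2⟩, ⟨q', rfl, h3⟩⟩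
    rw [op_inj] at h1
    obtain ⟨rfl, rfl⟩ := h1
    have h4 : f c = a := (hm (c, a)).1 h2
    have h5 : g c = b := (hk (c, b)).1 h3
    simp only [h4, h5]
  · intro h
    rw [Prod.mk.injEq] at h
    exact ⟨_, _, _, _, rfl, ⟨rfl, rfl⟩, ⟨_, rfl, (hm (c, a)).2 h.1⟩, ⟨_, rfl, (hk (c, b)).2 h.2⟩⟩

@[fun_prop]
theorem dfn_comp {g : β → γ} {f : α → β} (hg : 𝓜.Dfn g) (hf : 𝓜.Dfn f) :
    𝓜.Dfn (fun a => g (f a)) := by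
  obtain ⟨m, hm⟩ := hf
  obtain ⟨k, hk⟩ := hg
  refine (intS_of_df (α × γ) (n := 3) (P := fun v => ∃ a b c, 𝓜.E b (v 3) ∧
    IsPair 𝓜.E (v 0) a c ∧
    (∃ q, IsPair 𝓜.E q a b ∧ 𝓜.E q (v 1)) ∧ (∃ q, IsPair 𝓜.E q b c ∧ 𝓜.E q (v 2)))
    (dex (Q := fun a v => ∃ b c, 𝓜.E b (v 3) ∧ IsPair 𝓜.E (v 0) a c ∧
    (∃ q, IsPair 𝓜.E q a b ∧ 𝓜.E q (v 1)) ∧ (∃ q, IsPair 𝓜.E q b c ∧ 𝓜.E q (v 2)))
    (dex (Q := fun b v => ∃ c, 𝓜.E b (v 4) ∧ IsPair 𝓜.E (v 1) (v 0) c ∧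
    (∃ q, IsPair 𝓜.E q (v 0) b ∧ 𝓜.E q (v 2)) ∧ (∃ q, IsPair 𝓜.E q b c ∧ 𝓜.E q (v 3)))
    (dex (Q := fun c v => 𝓜.E (v 0) (v 5) ∧ IsPair 𝓜.E (v 2) (v 1) c ∧
    (∃ q, IsPair 𝓜.E q (v 1) (v 0) ∧ 𝓜.E q (v 3)) ∧ (∃ q, IsPair 𝓜.E q (v 0) c ∧ 𝓜.E q (v 4)))
    (dand (dmem _ _) (dand (dpair _ _ _) (dand
    (dex (Q := fun q v => IsPair 𝓜.E q (v 2) (v 1) ∧ 𝓜.E q (v 4)) (dand (dpair _ _ _) (dmem _ _)))
    (dex (Q := fun q v => IsPair 𝓜.E q (v 1) (v 0) ∧ 𝓜.E q (v 5))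
      (dand (dpair _ _ _) (dmem _ _))))))))) ![m, k, 𝓜.car β]).congr ?_
  rintro ⟨a, c⟩
  simp only [isPair_iff, Fin.cons_zero, code_prod, op_inj]
  show (∃ a' b' c', 𝓜.E b' (𝓜.car β) ∧ (𝓜.code a = a' ∧ 𝓜.code c = c') ∧
    (∃ q, q = 𝓜.op a' b' ∧ 𝓜.E q m) ∧ ∃ q, q = 𝓜.op b' c' ∧ 𝓜.E q k) ↔ _
  constructor
  · rintro ⟨a', b', c', hb, ⟨rfl, rfl⟩, ⟨q, rfl, h2⟩, ⟨q', rfl, h3⟩⟩
    rw [mem_car] at hb
    obtain ⟨b, rfl⟩ := hb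
    have h4 : f a = b := (hm (a, b)).1 h2
    have h5 : g b = c := (hk (b, c)).1 h3
    simp only [h4, h5]
  · intro h
    exact ⟨_, 𝓜.code (f a), _, code_mem _, ⟨rfl, rfl⟩, ⟨_, rfl, (hm (a, f a)).2 rfl⟩,
      ⟨_, rfl, (hk (f a, c)).2 h⟩⟩

@[fun_prop]
theorem dfn_id : 𝓜.Dfn (fun a : α => a) := intS_eq

@[fun_prop]
theorem dfn_const (b : β) : 𝓜.Dfn (fun _ : α => b) := by
  refine (intS_of_df (α × β) (n := 1) (P := fun v => ∃ a, IsPair 𝓜.E (v 0) a (v 1))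
    (dex (Q := fun a v => IsPair 𝓜.E (v 0) a (v 1)) (dpair _ _ _)) ![𝓜.code b]).congr ?_
  rintro ⟨a, b'⟩
  simp only [isPair_iff, Fin.cons_zero, code_prod, op_inj]
  show (∃ a', 𝓜.code a = a' ∧ 𝓜.code b' = 𝓜.code b) ↔ b = b'
  constructor
  · rintro ⟨x, h1, h2⟩
    exact (code_inj h2).symm
  · intro h
    subst h
    exact ⟨_, rfl, rfl⟩

theorem intS_prop : 𝓜.IntS (fun p : Prop => p) :=
  ⟨𝓜.up (𝓜.code True) (𝓜.code True), fun p => by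
    rw [mem_up, or_self]
    constructor
    · intro h
      rw [code_inj h]; trivial
    · intro h
      simp [h]⟩

/-- predicates -/
theorem dfn_iff {s : α → Prop} : 𝓜.Dfn s ↔ 𝓜.IntS s := by
  constructor
  · intro h
    exact intS_pre (s := fun p : Prop => p) intS_prop h
  · intro h
    have h1 : 𝓜.IntS (fun p : α × Prop => s p.1) := intS_pre h dfn_fst
    have h2 : 𝓜.IntS (fun p : α × Prop => p.2) :=
      intS_pre (s := fun p : Prop => p) intS_prop dfn_snd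
    refine (intS_and (intS_imp h1 h2) (intS_imp h2 h1)).congr fun p => ?_
    rw [← iff_def, eq_iff_iff]

end rules

end Ctx

end Pool.Agent.Lib.MP_c7a422_lc.Z
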