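import Pool.Agent.Lib.MP_c7a422_lc.Z.Spec

/-!
# Elementary calculus in a totally bounded space with a functional of full support
-/

namespace Pool.Agent.Lib.MP_c7a422_lc.Z

universe u v

namespace Ctx

variable {𝓜 : Ctx.{u}} {X : Type v} [Rep 𝓜 X] {d : IFun 𝓜 (X × X) 𝓜.R} {C C' c : 𝓜.R}
  {f g : IFun 𝓜 X 𝓜.R}

theorem PM.nn (hd : PM univ d) (x y : X) : 0 ≤ d (x, y) := hd.nonneg trivial trivial

theorem Lip.mono (hd : PM univ d) (h : Lip d C f) (hC : C ≤ C') : Lip d C' f :=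
  ⟨fun x => (h.1 x).trans hC, fun x y => (h.2 x y).trans (by
    have := hd.nn x y
    nlinarith)⟩

theorem Lip.nonneg (h : Lip d C f) (x : X) : 0 ≤ C := (abs_nonneg _).trans (h.1 x)

theorem Lip.add (h : Lip d C f) (h' : Lip d C' g) : Lip d (C + C') (f + g) := by
  refine ⟨fun x => ?_, fun x y => ?_⟩
  · have h1 := h.1 x
    have h2 := h'.1 x
    rw [addF_apply]
    exact (abs_add_le _ _).trans (add_le_add h1 h2)
  · have h1 := h.2 x y
    have h2 := h'.2 x y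
    rw [addF_apply, addF_apply]
    have e : f x + g x - (f y + g y) = (f x - f y) + (g x - g y) := by ring
    rw [e]
    refine (abs_add_le _ _).trans ?_
    rw [add_mul]
    exact add_le_add h1 h2

theorem Lip.smul (c : 𝓜.R) (h : Lip d C f) : Lip d (|c| * C) (c • f) := by
  refine ⟨fun x => ?_, fun x y => ?_⟩
  · rw [smulF_apply, abs_mul]
    exact mul_le_mul_of_nonneg_left (h.1 x) (abs_nonneg c)
  · rw [smulF_apply, smulF_apply, ← mul_sub, abs_mul, mul_assoc]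
    exact mul_le_mul_of_nonneg_left (h.2 x y) (abs_nonneg c)

theorem Lip.neg (h : Lip d C f) : Lip d C (-f) := by
  refine ⟨fun x => ?_, fun x y => ?_⟩
  · rw [negF_apply, abs_neg]
    exact h.1 x
  · rw [negF_apply, negF_apply]
    have e : -f x - -f y = -(f x - f y) := by ring
    rw [e, abs_neg]
    exact h.2 x y

theorem Lip.sub (h : Lip d C f) (h' : Lip d C' g) : Lip d (C + C') (f - g) := by
  rw [sub_eq_add_neg]
  exact h.add h'.neg

theorem Lip.mul (h : Lip d C f) (h' : Lip d C' g) : Lip d (2 * (C * C')) (f * g) := by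
  refine ⟨fun x => ?_, fun x y => ?_⟩
  · have h1 := h.1 x
    have h2 := h'.1 x
    have h3 := abs_nonneg (f x)
    have h4 := abs_nonneg (g x)
    rw [mulF_apply, abs_mul]
    nlinarith
  · have h1 := h.2 x y
    have h2 := h'.2 x y
    have h3 := h.1 y
    have h4 := h'.1 x
    rw [mulF_apply, mulF_apply]
    have e : f x * g x - f y * g y = (f x - f y) * g x + f y * (g x - g y) := by ring
    rw [e]
    refine (abs_add_le _ _).trans ?_
    rw [abs_mul, abs_mul]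
    have h5 := abs_nonneg (f x - f y)
    have h6 := abs_nonneg (g x - g y)
    have h7 := abs_nonneg (g x)
    have h8 := abs_nonneg (f y)
    have h9 : |f x - f y| * |g x| ≤ (C * d (x, y)) * C' := mul_le_mul h1 h4 h7 (h5.trans h1)
    have h10 : |f y| * |g x - g y| ≤ C * (C' * d (x, y)) := mul_le_mul h3 h2 h6 (h8.trans h3)
    calc _ ≤ (C * d (x, y)) * C' + C * (C' * d (x, y)) := add_le_add h9 h10
      _ = _ := by ring

theorem lip_const (hd : PM univ d) (c : 𝓜.R) : Lip d |c| (⟨fun _ => c, by fun_prop⟩ : IFun 𝓜 X 𝓜.R) :=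
  ⟨fun _ => le_rfl, fun x y => by
    rw [mk_apply, mk_apply, sub_self, abs_zero]
    exact mul_nonneg (abs_nonneg c) (hd.nn x y)⟩

theorem lip_one (hd : PM univ d) : Lip d 1 (1 : IFun 𝓜 X 𝓜.R) :=
  ⟨fun _ => by rw [oneF_apply, abs_one], fun x y => by
    rw [oneF_apply, oneF_apply, sub_self, abs_zero, one_mul]
    exact hd.nn x y⟩

theorem lip_zero (hd : PM univ d) (hC : 0 ≤ C) : Lip d C (0 : IFun 𝓜 X 𝓜.R) :=
  ⟨fun _ => by rw [zeroF_apply, abs_zero]; exact hC, fun x y => by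
    rw [zeroF_apply, zeroF_apply, sub_self, abs_zero]
    exact mul_nonneg hC (hd.nn x y)⟩

end Ctx

namespace SP

open Ctx

variable {𝓜 : Ctx.{u}} {X : Type u} [Rep 𝓜 X] (P : SP 𝓜 X) {f g h : IFun 𝓜 X 𝓜.R} {c c' C D : 𝓜.R}

/-! ### The distance -/

theorem pm : PM univ P.d := P.met.toPM

theorem d_self (x : X) : P.d (x, x) = 0 := P.met.self x trivial

theorem d_symm (x y : X) : P.d (x, y) = P.d (y, x) := P.met.symm x y trivial trivial

theorem d_tri (x y z : X) : P.d (x, z) ≤ P.d (x, y) + P.d (y, z) :=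
  P.met.tri x y z trivial trivial trivial

theorem d_nonneg (x y : X) : 0 ≤ P.d (x, y) := P.pm.nn x y

theorem d_sep {x y : X} (h : P.d (x, y) = 0) : x = y := P.met.sep x y trivial trivial h

theorem exists_bound (h : StBdd.{u}) : ∃ D, 1 ≤ D ∧ ∀ x y, P.d (x, y) ≤ D := by
  obtain ⟨D, -, hD⟩ := h 𝓜 X univ P.d P.pm P.tb
  exact ⟨max 1 D, le_max_left _ _, fun x y => (hD x y trivial trivial).trans (le_max_right _ _)⟩

/-- the function `y ↦ d(x, y)` -/
noncomputable def dist (x : X) : IFun 𝓜 X 𝓜.R := ⟨fun y => P.d (x, y), by fun_prop⟩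

@[simp] theorem dist_apply (x y : X) : P.dist x y = P.d (x, y) := rfl

@[fun_prop]
theorem dfn_dist {γ : Type*} [Rep 𝓜 γ] {x : γ → X} (hx : 𝓜.Dfn x) :
    𝓜.Dfn (fun c => P.dist (x c)) := by
  unfold dist
  fun_prop

theorem lip_dist (hD1 : 1 ≤ D) (hD : ∀ x y, P.d (x, y) ≤ D) (x : X) : Lip P.d D (P.dist x) := by
  refine ⟨fun y => ?_, fun y z => ?_⟩
  · rw [dist_apply, abs_of_nonneg (P.d_nonneg x y)]
    exact hD x y
  · rw [dist_apply, dist_apply, abs_le]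
    have h1 := P.d_tri x y z
    have h2 := P.d_tri x z y
    have h3 := P.d_symm z y
    have h4 := P.d_nonneg y z
    constructor <;> nlinarith

/-! ### Lipschitz functions -/

theorem L_add (hf : P.L f) (hg : P.L g) : P.L (f + g) := by
  obtain ⟨C, hC⟩ := hf
  obtain ⟨C', hC'⟩ := hg
  exact ⟨_, hC.add hC'⟩

theorem L_sub (hf : P.L f) (hg : P.L g) : P.L (f - g) := by
  obtain ⟨C, hC⟩ := hf
  obtain ⟨C', hC'⟩ := hg
  exact ⟨_, hC.sub hC'⟩

theorem L_neg (hf : P.L f) : P.L (-f) := by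
  obtain ⟨C, hC⟩ := hf
  exact ⟨_, hC.neg⟩

theorem L_smul (c : 𝓜.R) (hf : P.L f) : P.L (c • f) := by
  obtain ⟨C, hC⟩ := hf
  exact ⟨_, hC.smul c⟩

theorem L_mul (hf : P.L f) (hg : P.L g) : P.L (f * g) := by
  obtain ⟨C, hC⟩ := hf
  obtain ⟨C', hC'⟩ := hg
  exact ⟨_, hC.mul hC'⟩

theorem L_one : P.L 1 := ⟨_, lip_one P.pm⟩

theorem L_zero : P.L 0 := ⟨0, lip_zero P.pm le_rfl⟩

theorem L_const (c : 𝓜.R) : P.L ⟨fun _ => c, by fun_prop⟩ := ⟨_, lip_const P.pm c⟩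

theorem L_dist (h : StBdd.{u}) (x : X) : P.L (P.dist x) := by
  obtain ⟨D, h1, hD⟩ := P.exists_bound h
  exact ⟨_, P.lip_dist h1 hD x⟩

/-- a common Lipschitz constant -/
theorem L_common (hf : P.L f) (hg : P.L g) : ∃ C, Lip P.d C f ∧ Lip P.d C g := by
  obtain ⟨C, hC⟩ := hf
  obtain ⟨C', hC'⟩ := hg
  exact ⟨max C C', hC.mono P.pm (le_max_left _ _), hC'.mono P.pm (le_max_right _ _)⟩

/-! ### The functional -/

theorem mu_add (hf : P.L f) (hg : P.L g) : P.mu (f + g) = P.mu f + P.mu g := by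
  obtain ⟨C, h1, h2⟩ := P.L_common hf hg
  exact P.add f g C h1 h2

theorem mu_smul (c : 𝓜.R) (hf : P.L f) : P.mu (c • f) = c * P.mu f := by
  obtain ⟨C, h1⟩ := hf
  exact P.smul c f C h1

theorem mu_neg (hf : P.L f) : P.mu (-f) = - P.mu f := by
  have h1 := P.mu_smul (-1) hf
  have e : (-1 : 𝓜.R) • f = -f := by ext x; simp
  rw [e] at h1
  rw [h1]
  ring

theorem mu_sub (hf : P.L f) (hg : P.L g) : P.mu (f - g) = P.mu f - P.mu g := by
  rw [sub_eq_add_neg, P.mu_add hf (P.L_neg hg), P.mu_neg hg]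
  ring

theorem mu_mono (hf : P.L f) (hg : P.L g) (h : ∀ x, f x ≤ g x) : P.mu f ≤ P.mu g := by
  obtain ⟨C, h1, h2⟩ := P.L_common hf hg
  exact P.mono f g C h1 h2 h

theorem mu_zero : P.mu 0 = 0 := by
  have h1 := P.mu_smul 0 P.L_zero
  have e : (0 : 𝓜.R) • (0 : IFun 𝓜 X 𝓜.R) = 0 := by ext x; simp
  rw [e, zero_mul] at h1
  exact h1

theorem mu_nonneg (hf : P.L f) (h : ∀ x, 0 ≤ f x) : 0 ≤ P.mu f := by
  have h1 := P.mu_mono P.L_zero hf h
  rwa [P.mu_zero] at h1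

theorem mu_const (c : 𝓜.R) : P.mu ⟨fun _ => c, by fun_prop⟩ = c * P.mu 1 := by
  rw [← P.mu_smul c P.L_one]
  congr 1
  ext x
  simp

theorem mu_one_nonneg : 0 ≤ P.mu 1 := P.mu_nonneg P.L_one fun _ => zero_le_one

theorem mu_le_const (hf : P.L f) (hc : 0 ≤ c) (h : ∀ x, f x ≤ c) : P.mu f ≤ c := by
  have h1 := P.mu_mono hf (P.L_const c) h
  rw [P.mu_const] at h1
  have h2 := P.one_le
  nlinarith

theorem abs_mu_le (hf : P.L f) (h : ∀ x, |f x| ≤ c) : |P.mu f| ≤ c := by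
  have hc : 0 ≤ c := by
    obtain ⟨x⟩ := P.ne
    exact (abs_nonneg _).trans (h x)
  rw [abs_le]
  constructor
  · have h1 := P.mu_le_const (P.L_neg hf) hc fun x => by
      rw [negF_apply]
      have := (abs_le.1 (h x)).1
      linarith
    rw [P.mu_neg hf] at h1
    linarith
  · exact P.mu_le_const hf hc fun x => (abs_le.1 (h x)).2

theorem abs_mu_sub_le (hf : P.L f) (hg : P.L g) (h : ∀ x, |f x - g x| ≤ c) :
    |P.mu f - P.mu g| ≤ c := by
  rw [← P.mu_sub hf hg]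
  exact P.abs_mu_le (P.L_sub hf hg) h

/-! ### The inner product -/

theorem ip_comm (f g : IFun 𝓜 X 𝓜.R) : P.ip f g = P.ip g f := by
  unfold ip
  rw [mul_comm]

theorem ip_add_left (hf : P.L f) (hg : P.L g) (hh : P.L h) :
    P.ip (f + g) h = P.ip f h + P.ip g h := by
  unfold ip
  rw [add_mul, P.mu_add (P.L_mul hf hh) (P.L_mul hg hh)]

theorem ip_sub_left (hf : P.L f) (hg : P.L g) (hh : P.L h) :
    P.ip (f - g) h = P.ip f h - P.ip g h := by
  unfold ip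
  rw [sub_mul, P.mu_sub (P.L_mul hf hh) (P.L_mul hg hh)]

theorem ip_smul_left (c : 𝓜.R) (hf : P.L f) (hg : P.L g) : P.ip (c • f) g = c * P.ip f g := by
  unfold ip
  have e : (c • f) * g = c • (f * g) := by ext x; simp [mul_assoc]
  rw [e, P.mu_smul c (P.L_mul hf hg)]

theorem ip_add_right (hf : P.L f) (hg : P.L g) (hh : P.L h) :
    P.ip h (f + g) = P.ip h f + P.ip h g := by
  rw [P.ip_comm, P.ip_add_left hf hg hh, P.ip_comm f, P.ip_comm g]

theorem ip_sub_right (hf : P.L f) (hg : P.L g) (hh : P.L h) :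
    P.ip h (f - g) = P.ip h f - P.ip h g := by
  rw [P.ip_comm, P.ip_sub_left hf hg hh, P.ip_comm f, P.ip_comm g]

theorem ip_smul_right (c : 𝓜.R) (hf : P.L f) (hg : P.L g) : P.ip f (c • g) = c * P.ip f g := by
  rw [P.ip_comm, P.ip_smul_left c hg hf, P.ip_comm g]

theorem ip_zero_left (f : IFun 𝓜 X 𝓜.R) : P.ip 0 f = 0 := by
  unfold ip
  rw [zero_mul, P.mu_zero]

theorem ip_self_nonneg (hf : P.L f) : 0 ≤ P.ip f f :=
  P.mu_nonneg (P.L_mul hf hf) fun x => by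
    rw [mulF_apply]
    exact mul_self_nonneg _

theorem eq_zero_of_ip_self (hf : P.L f) (h : P.ip f f ≤ 0) : f = 0 := by
  by_contra hne
  have h1 : ∃ x, f x ≠ 0 := by
    by_contra hcon
    push Not at hcon
    exact hne (by ext x; exact hcon x)
  obtain ⟨x, hx⟩ := h1
  obtain ⟨C, hC⟩ := P.L_mul hf hf
  have h2 := P.pos (f * f) C hC (fun x => by rw [mulF_apply]; exact mul_self_nonneg _)
    ⟨x, by rw [mulF_apply]; exact mul_self_ne_zero.2 hx⟩
  exact absurd h (not_le.2 h2)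

/-- expansion of the square of a difference -/
theorem ip_sub_self (hf : P.L f) (hg : P.L g) :
    P.ip (f - g) (f - g) = P.ip f f - 2 * P.ip f g + P.ip g g := by
  rw [P.ip_sub_left hf hg (P.L_sub hf hg), P.ip_sub_right hf hg hf, P.ip_sub_right hf hg hg,
    P.ip_comm g f]
  ring

/-- Cauchy-Schwarz -/
theorem ip_sq_le (hf : P.L f) (hg : P.L g) : P.ip f g ^ 2 ≤ P.ip f f * P.ip g g := by
  have key : ∀ t : 𝓜.R, 0 ≤ P.ip f f - 2 * (t * P.ip f g) + t ^ 2 * P.ip g g := by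
    intro t
    have h1 := P.ip_self_nonneg (P.L_sub hf (P.L_smul t hg))
    rw [P.ip_sub_self hf (P.L_smul t hg), P.ip_smul_right t hf hg,
      P.ip_smul_left t hg (P.L_smul t hg), P.ip_smul_right t hg hg] at h1
    nlinarith
  rcases (P.ip_self_nonneg hg).lt_or_eq with h0 | h0
  · have h1 := key (P.ip f g / P.ip g g)
    have h2 : P.ip f f - 2 * (P.ip f g / P.ip g g * P.ip f g) +
        (P.ip f g / P.ip g g) ^ 2 * P.ip g g = P.ip f f - P.ip f g ^ 2 / P.ip g g := by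
      field_simp
      ring
    rw [h2, sub_nonneg, div_le_iff₀ h0] at h1
    exact h1
  · have h1 : g = 0 := P.eq_zero_of_ip_self hg h0.symm.le
    have h2 : P.ip f g = 0 := by
      rw [h1, P.ip_comm, P.ip_zero_left]
    rw [h2, ← h0]
    simp

/-- Cauchy-Schwarz with bounds `c, c'` for the norms -/
theorem abs_ip_le (hf : P.L f) (hg : P.L g) (hc : 0 ≤ c) (hc' : 0 ≤ c') (h1 : P.ip f f ≤ c ^ 2)
    (h2 : P.ip g g ≤ c' ^ 2) : |P.ip f g| ≤ c * c' := by
  refine abs_le_of_sq_le_sq ?_ (mul_nonneg hc hc')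
  refine (P.ip_sq_le hf hg).trans ?_
  rw [mul_pow]
  exact mul_le_mul h1 h2 (P.ip_self_nonneg hg) (sq_nonneg c)

theorem ip_one_one_le : P.ip 1 1 ≤ 1 := by
  unfold ip
  rw [mul_one]
  exact P.one_le

theorem mu_sq_le (hf : P.L f) : P.mu f ^ 2 ≤ P.ip f f := by
  have h1 := P.ip_sq_le hf P.L_one
  have h2 : P.ip f 1 = P.mu f := by
    unfold ip
    rw [mul_one]
  rw [h2] at h1
  have h3 := P.ip_one_one_le
  have h4 := P.ip_self_nonneg hf
  nlinarith

/-- the norm is bounded by the supremum -/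
theorem ip_self_le (hf : P.L f) (h : ∀ x, |f x| ≤ c) : P.ip f f ≤ c ^ 2 := by
  refine P.mu_le_const (P.L_mul hf hf) (sq_nonneg c) fun x => ?_
  rw [mulF_apply, ← sq]
  exact sq_le_sq' (by linarith [(abs_le.1 (h x)).1]) (abs_le.1 (h x)).2

/-! ### The operator -/

theorem T_apply (f : IFun 𝓜 X 𝓜.R) (x : X) : P.T f x = P.ip (P.dist x) f := rfl

theorem T_add (hb : StBdd.{u}) (hf : P.L f) (hg : P.L g) : P.T (f + g) = P.T f + P.T g := by
  ext x
  rw [addF_apply, T_apply, T_apply, T_apply, P.ip_add_right hf hg (P.L_dist hb x)]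

theorem T_sub (hb : StBdd.{u}) (hf : P.L f) (hg : P.L g) : P.T (f - g) = P.T f - P.T g := by
  ext x
  rw [subF_apply, T_apply, T_apply, T_apply, P.ip_sub_right hf hg (P.L_dist hb x)]

theorem T_smul (hb : StBdd.{u}) (c : 𝓜.R) (hf : P.L f) : P.T (c • f) = c • P.T f := by
  ext x
  rw [smulF_apply, T_apply, T_apply, P.ip_smul_right c (P.L_dist hb x) hf]

theorem T_zero : P.T 0 = 0 := by
  ext x
  rw [T_apply, P.ip_comm, P.ip_zero_left, zeroF_apply]

/-- bound of `T f` by the norm of `f` -/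
theorem abs_T_le (hD1 : 1 ≤ D) (hD : ∀ x y, P.d (x, y) ≤ D) (hf : P.L f) (hc : 0 ≤ c)
    (h : P.ip f f ≤ c ^ 2) (x : X) : |P.T f x| ≤ D * c := by
  rw [T_apply]
  exact P.abs_ip_le ⟨_, P.lip_dist hD1 hD x⟩ hf (by linarith) hc
    (P.ip_self_le ⟨_, P.lip_dist hD1 hD x⟩ (P.lip_dist hD1 hD x).1) h

/-- Lipschitz bound of `T f` by the norm of `f` -/
theorem abs_T_sub_le (hD1 : 1 ≤ D) (hD : ∀ x y, P.d (x, y) ≤ D) (hf : P.L f) (hc : 0 ≤ c)
    (h : P.ip f f ≤ c ^ 2) (x y : X) : |P.T f x - P.T f y| ≤ c * P.d (x, y) := by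
  have hx : P.L (P.dist x) := ⟨_, P.lip_dist hD1 hD x⟩
  have hy : P.L (P.dist y) := ⟨_, P.lip_dist hD1 hD y⟩
  rw [T_apply, T_apply, ← P.ip_sub_left hx hy hf, mul_comm]
  refine P.abs_ip_le (P.L_sub hx hy) hf (P.d_nonneg x y) hc
    (P.ip_self_le (P.L_sub hx hy) fun z => ?_) h
  rw [subF_apply, dist_apply, dist_apply, abs_le]
  have h1 := P.d_tri x y z
  have h2 := P.d_tri y x z
  have h3 := P.d_symm x y
  constructor <;> linarith

theorem T_lip (hD1 : 1 ≤ D) (hD : ∀ x y, P.d (x, y) ≤ D) (hf : P.L f) (hc : 0 ≤ c)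
    (h : P.ip f f ≤ c ^ 2) : Lip P.d (D * c) (P.T f) := by
  refine ⟨P.abs_T_le hD1 hD hf hc h, fun x y => ?_⟩
  refine (P.abs_T_sub_le hD1 hD hf hc h x y).trans ?_
  have h1 : c ≤ D * c := by nlinarith
  exact mul_le_mul_of_nonneg_right h1 (P.d_nonneg x y)

theorem ip_T_self_le (hD1 : 1 ≤ D) (hD : ∀ x y, P.d (x, y) ≤ D) (hf : P.L f) (hc : 0 ≤ c)
    (h : P.ip f f ≤ c ^ 2) : P.ip (P.T f) (P.T f) ≤ (D * c) ^ 2 :=
  P.ip_self_le ⟨_, P.T_lip hD1 hD hf hc h⟩ (P.abs_T_le hD1 hD hf hc h)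

/-- every function of `L` has a bound for its norm -/
theorem exists_norm_bound (hf : P.L f) : ∃ c, 0 ≤ c ∧ P.ip f f ≤ c ^ 2 := by
  obtain ⟨C, hC⟩ := hf
  obtain ⟨x⟩ := P.ne
  exact ⟨C, hC.nonneg x, P.ip_self_le ⟨C, hC⟩ hC.1⟩

theorem L_T (hb : StBdd.{u}) (hf : P.L f) : P.L (P.T f) := by
  obtain ⟨D, hD1, hD⟩ := P.exists_bound hb
  obtain ⟨c, hc, h⟩ := P.exists_norm_bound hf
  exact ⟨_, P.T_lip hD1 hD hf hc h⟩

/-- `T` is continuous for uniform convergence -/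
theorem abs_T_sub_le_sup (hD1 : 1 ≤ D) (hD : ∀ x y, P.d (x, y) ≤ D) (hf : P.L f) (hg : P.L g)
    (h : ∀ x, |f x - g x| ≤ c) (x : X) : |P.T f x - P.T g x| ≤ D * c := by
  have hx : P.L (P.dist x) := ⟨_, P.lip_dist hD1 hD x⟩
  have hc : 0 ≤ c := (abs_nonneg _).trans (h x)
  rw [T_apply, T_apply, ← P.ip_sub_right hf hg hx]
  exact P.abs_ip_le hx (P.L_sub hf hg) (by linarith) hc
    (P.ip_self_le hx (P.lip_dist hD1 hD x).1) (P.ip_self_le (P.L_sub hf hg) h)

/-- the image of an eigenfunction under `T` is an eigenfunction -/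
theorem Eig.T {P : SP 𝓜 X} (hb : StBdd.{u}) {lam : 𝓜.R} (h : P.Eig lam f) : P.Eig lam (P.T f) := by
  refine ⟨h.1, P.L_T hb h.2.1, ?_⟩
  rw [h.2.2, P.T_smul hb lam h.2.1]

end SP

end Pool.Agent.Lib.MP_c7a422_lc.Z
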