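import Pool.Agent.Lib.MP_c7a422_lc.Z.TDefs

/-!
# Statements of the modules

Every statement `StXyz` is proved in one module; the proofs may use the other statements as
hypotheses as indicated in the blueprint.
-/

namespace Pool.Agent.Lib.MP_c7a422_lc.Z

universe u

namespace Ctx

/-! ### Toolkit: finite sets, total boundedness -/

/-- finite choice -/
def StChoice : Prop := ∀ (𝓜 : Ctx.{u}) (Y : Type u) [Rep 𝓜 Y] (S : ISet 𝓜 Y) (y₀ : Y)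
  (r : ISet 𝓜 (𝓜.N × Y)), S y₀ → (∀ i y, r (i, y) → S y) → ∀ n : 𝓜.N,
  ∃ e : IFun 𝓜 𝓜.N Y, (∀ i, S (e i)) ∧ ∀ i < n, (∃ y, r (i, y)) → r (i, e i)

/-- pigeonhole principle -/
def StPigeon : Prop := ∀ (𝓜 : Ctx.{u}) (n : 𝓜.N) (c : IFun 𝓜 𝓜.N 𝓜.N), (∀ i, i ≤ n → c i < n) →
  ∃ i j, i < j ∧ j ≤ n ∧ c i = c j

/-- pieces give nets -/
def StNet : Prop := ∀ (𝓜 : Ctx.{u}) (Y : Type u) [Rep 𝓜 Y] (S : ISet 𝓜 Y)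
  (ρ : IFun 𝓜 (Y × Y) 𝓜.R) (ε : 𝓜.R), (∃ y, S y) → Lab S ρ ε → ∃ n e, Net S ρ ε n e

/-- nets give pieces (the net may lie in a larger set) -/
def StLab : Prop := ∀ (𝓜 : Ctx.{u}) (Y : Type u) [Rep 𝓜 Y] (S : ISet 𝓜 Y)
  (ρ : IFun 𝓜 (Y × Y) 𝓜.R) (ε : 𝓜.R) (n : 𝓜.N) (e : IFun 𝓜 𝓜.N Y), PM S ρ →
  (∀ i, S (e i)) → (∀ y, S y → ∃ i < n, ρ (y, e i) ≤ ε) → Lab S ρ (2 * ε)

/-- finitely many divisions into finitely many pieces have a common refinement -/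
def StPack : Prop := ∀ (𝓜 : Ctx.{u}) (Y : Type u) [Rep 𝓜 Y] (S : ISet 𝓜 Y)
  (ρ : IFun 𝓜 (𝓜.N × (Y × Y)) 𝓜.R) (ε : 𝓜.R) (n : 𝓜.N),
  (∀ i < n, ∃ (m : 𝓜.N) (c : IFun 𝓜 Y 𝓜.N), (∀ y, S y → c y < m) ∧
    ∀ y z, S y → S z → c y = c z → ρ (i, (y, z)) ≤ ε) →
  ∃ (m : 𝓜.N) (c : IFun 𝓜 Y 𝓜.N), (∀ y, S y → c y < m) ∧
    ∀ y z, S y → S z → c y = c z → ∀ i < n, ρ (i, (y, z)) ≤ ε

/-- bounded real functions -/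
def StLabReal : Prop := ∀ (𝓜 : Ctx.{u}) (Y : Type u) [Rep 𝓜 Y] (S : ISet 𝓜 Y)
  (φ : IFun 𝓜 Y 𝓜.R) (C ε : 𝓜.R), 0 < ε → (∀ y, S y → |φ y| ≤ C) →
  ∃ (m : 𝓜.N) (c : IFun 𝓜 Y 𝓜.N), (∀ y, S y → c y < m) ∧
    ∀ y z, S y → S z → c y = c z → |φ y - φ z| ≤ ε

/-- a totally bounded set is bounded -/
def StBdd : Prop := ∀ (𝓜 : Ctx.{u}) (Y : Type u) [Rep 𝓜 Y] (S : ISet 𝓜 Y)
  (ρ : IFun 𝓜 (Y × Y) 𝓜.R), PM S ρ → TB S ρ → ∃ D, 0 < D ∧ ∀ y z, S y → S z → ρ (y, z) ≤ D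

/-- the bounded Lipschitz functions with a given constant are totally bounded for uniform
convergence -/
def StTBfun : Prop := ∀ (𝓜 : Ctx.{u}) (X : Type u) [Rep 𝓜 X] (d : IFun 𝓜 (X × X) 𝓜.R) (C ε : 𝓜.R),
  PM univ d → TB univ d → 0 < ε →
  ∃ (m : 𝓜.N) (c : IFun 𝓜 (IFun 𝓜 X 𝓜.R) 𝓜.N), (∀ f, Lip d C f → c f < m) ∧
    ∀ f g, Lip d C f → Lip d C g → c f = c g → ∀ x, |f x - g x| ≤ ε

/-! ### Well-orders, compactness, ultrafilters -/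

/-- the Cantor space of the model is compact -/
def StCantor : Prop := ∀ (𝓜 : Ctx.{u}), TMC 𝓜 → WOon (univ : ISet 𝓜 (ISet 𝓜 𝓜.N))

/-- sequences of real numbers are coded by sets of natural numbers -/
def StSeq : Prop := ∀ (𝓜 : Ctx.{u}), WOon (univ : ISet 𝓜 (ISet 𝓜 𝓜.N)) →
  WOon (univ : ISet 𝓜 (IFun 𝓜 𝓜.N 𝓜.R))

/-- there is a nonprincipal ultrafilter -/
def StUlt : Prop := ∀ (𝓜 : Ctx.{u}), WOon (univ : ISet 𝓜 (ISet 𝓜 𝓜.N)) → ∃ U, IsUlt (𝓜 := 𝓜) U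

/-- totally bounded + well-orderable + complete implies compact -/
def StComp : Prop := ∀ (𝓜 : Ctx.{u}) (Y : Type u) [Rep 𝓜 Y] (S : ISet 𝓜 Y)
  (ρ : IFun 𝓜 (Y × Y) 𝓜.R), (∃ y, S y) → PM S ρ → TB S ρ → WOon S → Complete S ρ → CompactOn S ρ

/-- a totally bounded well-orderable space has a dense sequence -/
def StDense : Prop := ∀ (𝓜 : Ctx.{u}) (Y : Type u) [Rep 𝓜 Y] (S : ISet 𝓜 Y)
  (ρ : IFun 𝓜 (Y × Y) 𝓜.R), (∃ y, S y) → PM S ρ → TB S ρ → WOon S →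
  ∃ D : IFun 𝓜 𝓜.N Y, (∀ n, S (D n)) ∧ ∀ y, S y → ∀ ε > 0, ∃ n, ρ (y, D n) ≤ ε

/-! ### The canonical mean -/

/-- Covering numbers with weights, at scale `r`: `cov S ρ r F` is the infimum of `∑ c_i` over all
finite sums `∑ c_i φ(x_i, ·) ≥ F` on `S`, where `c_i ≥ 0`, `x_i ∈ S` and
`φ(x, y) = max 0 (1 - ρ(x, y) / r)`. -/
def StCov : Prop := ∀ (𝓜 : Ctx.{u}) (Y : Type u) [Rep 𝓜 Y],
  ∃ cov : ISet 𝓜 Y → IFun 𝓜 (Y × Y) 𝓜.R → 𝓜.R → IFun 𝓜 Y 𝓜.R → 𝓜.R,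
    𝓜.Dfn (fun p : ISet 𝓜 Y × (IFun 𝓜 (Y × Y) 𝓜.R × (𝓜.R × IFun 𝓜 Y 𝓜.R)) =>
      cov p.1 p.2.1 p.2.2.1 p.2.2.2) ∧
    ∀ S ρ, (∃ y, S y) → PM S ρ → TB S ρ →
      (∀ r > 0, 1 ≤ cov S ρ r 1) ∧
      (∀ r > 0, ∀ F C, BL S ρ C F → (∀ y, S y → 0 ≤ F y) → 0 ≤ cov S ρ r F) ∧
      (∀ r > 0, ∀ F G C, BL S ρ C F → BL S ρ C G → (∀ y, S y → 0 ≤ F y) →
        (∀ y, S y → F y ≤ G y) → cov S ρ r F ≤ cov S ρ r G) ∧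
      (∀ r > 0, ∀ F C c, BL S ρ C F → (∀ y, S y → 0 ≤ F y) → 0 ≤ c →
        cov S ρ r (c • F) = c * cov S ρ r F) ∧
      (∀ r > 0, ∀ F G C, BL S ρ C F → BL S ρ C G → (∀ y, S y → 0 ≤ F y) →
        (∀ y, S y → 0 ≤ G y) → cov S ρ r (F + G) ≤ cov S ρ r F + cov S ρ r G) ∧
      (∀ F G C, BL S ρ C F → BL S ρ C G → (∀ y, S y → 0 ≤ F y) → (∀ y, S y → 0 ≤ G y) →
        ∀ ε > 0, ∃ r₀ > 0, ∀ r, 0 < r → r ≤ r₀ →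
          cov S ρ r F + cov S ρ r G ≤ cov S ρ r (F + G) + ε * cov S ρ r 1)

/-- There is a canonical mean on every totally bounded space. -/
def StLam : Prop := ∀ (𝓜 : Ctx.{u}) (U : ISet 𝓜 (ISet 𝓜 𝓜.N)) (Y : Type u) [Rep 𝓜 Y], IsUlt U →
  ∃ Λ : ISet 𝓜 Y → IFun 𝓜 (Y × Y) 𝓜.R → IFun 𝓜 Y 𝓜.R → 𝓜.R,
    𝓜.Dfn (fun p : ISet 𝓜 Y × (IFun 𝓜 (Y × Y) 𝓜.R × IFun 𝓜 Y 𝓜.R) => Λ p.1 p.2.1 p.2.2) ∧
    ∀ S ρ, (∃ y, S y) → PM S ρ → TB S ρ → IsMean S ρ (Λ S ρ)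

end Ctx

/-! ### The space with a measure of full support -/

/-- A totally bounded metric space with a positive functional of full support on the Lipschitz
functions. -/
structure SP (𝓜 : Ctx.{u}) (X : Type u) [Rep 𝓜 X] where
  d : IFun 𝓜 (X × X) 𝓜.R
  mu : IFun 𝓜 (IFun 𝓜 X 𝓜.R) 𝓜.R
  ne : Nonempty X
  met : Ctx.MetOn Ctx.univ d
  tb : Ctx.TB Ctx.univ d
  add : ∀ f g C, Ctx.Lip d C f → Ctx.Lip d C g → mu (f + g) = mu f + mu g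
  smul : ∀ c f C, Ctx.Lip d C f → mu (c • f) = c * mu f
  mono : ∀ f g C, Ctx.Lip d C f → Ctx.Lip d C g → (∀ x, f x ≤ g x) → mu f ≤ mu g
  one_le : mu 1 ≤ 1
  pos : ∀ f C, Ctx.Lip d C f → (∀ x, 0 ≤ f x) → (∃ x, f x ≠ 0) → 0 < mu f

namespace SP

open Ctx

variable {𝓜 : Ctx.{u}} {X : Type u} [Rep 𝓜 X] (P : SP 𝓜 X)

/-- `f` is a bounded Lipschitz function -/
def L (f : IFun 𝓜 X 𝓜.R) : Prop := ∃ C, Lip P.d C f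

/-- the operator `(T f)(x) = ∫ d(x, y) f(y) dμ(y)` -/
noncomputable def T (f : IFun 𝓜 X 𝓜.R) : IFun 𝓜 X 𝓜.R :=
  ⟨fun x => P.mu ⟨fun y => P.d (x, y) * f y, by fun_prop⟩, by fun_prop⟩

/-- the inner product -/
noncomputable def ip (f g : IFun 𝓜 X 𝓜.R) : 𝓜.R := P.mu (f * g)

@[fun_prop]
theorem dfn_L {γ : Type*} [Rep 𝓜 γ] {f : γ → IFun 𝓜 X 𝓜.R} (hf : 𝓜.Dfn f) :
    𝓜.Dfn (fun c => P.L (f c)) := by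
  unfold L
  fun_prop

@[fun_prop]
theorem dfn_T {γ : Type*} [Rep 𝓜 γ] {f : γ → IFun 𝓜 X 𝓜.R} (hf : 𝓜.Dfn f) :
    𝓜.Dfn (fun c => P.T (f c)) := by
  unfold T
  fun_prop

@[fun_prop]
theorem dfn_ip {γ : Type*} [Rep 𝓜 γ] {f g : γ → IFun 𝓜 X 𝓜.R} (hf : 𝓜.Dfn f) (hg : 𝓜.Dfn g) :
    𝓜.Dfn (fun c => P.ip (f c) (g c)) := by
  unfold ip
  fun_prop

/-- `f` is an eigenfunction of `T²` for the eigenvalue `lam > 0` (or `0`) -/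
def Eig (lam : 𝓜.R) (f : IFun 𝓜 X 𝓜.R) : Prop := 0 < lam ∧ P.L f ∧ P.T (P.T f) = lam • f

@[fun_prop]
theorem dfn_Eig {γ : Type*} [Rep 𝓜 γ] {lam : γ → 𝓜.R} {f : γ → IFun 𝓜 X 𝓜.R} (hl : 𝓜.Dfn lam)
    (hf : 𝓜.Dfn f) : 𝓜.Dfn (fun c => P.Eig (lam c) (f c)) := by
  unfold Eig
  fun_prop

/-- the iterates of `T² / s` -/
noncomputable def it (s : 𝓜.R) (h : IFun 𝓜 X 𝓜.R) (n : 𝓜.N) : IFun 𝓜 X 𝓜.R :=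
  nrec h ⟨fun p : 𝓜.N × IFun 𝓜 X 𝓜.R => s⁻¹ • P.T (P.T p.2), by fun_prop⟩ n

@[fun_prop]
theorem dfn_it {γ : Type*} [Rep 𝓜 γ] {s : γ → 𝓜.R} {h : γ → IFun 𝓜 X 𝓜.R} {n : γ → 𝓜.N}
    (hs : 𝓜.Dfn s) (hh : 𝓜.Dfn h) (hn : 𝓜.Dfn n) : 𝓜.Dfn (fun c => P.it (s c) (h c) (n c)) := by
  unfold it
  fun_prop

/-- the normalised eigenfunctions with eigenvalue at least `ε` -/
def Ke (ε : 𝓜.R) : ISet 𝓜 (IFun 𝓜 X 𝓜.R) :=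
  ⟨fun f => ∃ lam, ε ≤ lam ∧ P.Eig lam f ∧ P.ip f f ≤ lam ^ 4, by fun_prop⟩

/-- the compact set of all normalised eigenfunctions -/
def K : ISet 𝓜 (IFun 𝓜 X 𝓜.R) :=
  ⟨fun f => ∃ lam, P.Eig lam f ∧ P.ip f f ≤ lam ^ 4, by fun_prop⟩

end SP

namespace Ctx

/-- For every `n` there is a canonical mean on `X` that charges all balls of radius
`1 / (n + 1)`. -/
def StMuN : Prop := ∀ (𝓜 : Ctx.{u}) (U : ISet 𝓜 (ISet 𝓜 𝓜.N)) (X : Type u) [Rep 𝓜 X]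
  (d : IFun 𝓜 (X × X) 𝓜.R), IsUlt U → Nonempty X → MetOn univ d → TB univ d →
  ∃ m : IFun 𝓜 (𝓜.N × IFun 𝓜 X 𝓜.R) 𝓜.R, ∀ n : 𝓜.N,
    IsMean univ d (fun f => m (n, f)) ∧
    ∃ c > 0, ∀ f C, Lip d C f → (∀ x, 0 ≤ f x) → ∀ x a, 0 ≤ a →
      (∀ y, d (x, y) ≤ 1 / ((n : 𝓜.R) + 1) → a ≤ f y) → c * a ≤ m (n, f)

/-- existence of the functional of full support -/
def StMu : Prop := ∀ (𝓜 : Ctx.{u}) (U : ISet 𝓜 (ISet 𝓜 𝓜.N)) (X : Type u) [Rep 𝓜 X]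
  (d : IFun 𝓜 (X × X) 𝓜.R), IsUlt U → Nonempty X → MetOn univ d → TB univ d →
  ∃ P : SP 𝓜 X, P.d = d

/-- `T` is symmetric -/
def StFub : Prop := ∀ (𝓜 : Ctx.{u}) (X : Type u) [Rep 𝓜 X] (P : SP 𝓜 X) (f g : IFun 𝓜 X 𝓜.R),
  P.L f → P.L g → P.ip (P.T f) g = P.ip f (P.T g)

/-- `V` is the set of all Lipschitz functions orthogonal to all eigenfunctions. If
`⟨T² h, h⟩ ≤ s ⟨h, h⟩` on `V`, then the iterates of `T² / s` tend to `0` on `V`. -/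
def StPow : Prop := ∀ (𝓜 : Ctx.{u}) (X : Type u) [Rep 𝓜 X] (P : SP 𝓜 X) (U : ISet 𝓜 (ISet 𝓜 𝓜.N))
  (s : 𝓜.R), IsUlt U → 0 < s →
  (∀ h, P.L h → (∀ lam f, P.Eig lam f → P.ip h f = 0) → P.ip (P.T (P.T h)) h ≤ s * P.ip h h) →
  ∀ h, P.L h → (∀ lam f, P.Eig lam f → P.ip h f = 0) → ∀ ε > 0, ∃ n₀, ∀ n, n₀ ≤ n →
    P.ip (P.it s h n) (P.it s h n) ≤ ε

/-- the eigenfunctions separate the points -/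
def StSep : Prop := ∀ (𝓜 : Ctx.{u}) (X : Type u) [Rep 𝓜 X] (P : SP 𝓜 X) (U : ISet 𝓜 (ISet 𝓜 𝓜.N)),
  IsUlt U → ∀ x x' : X, (∀ lam f, P.Eig lam f → f x = f x') → x = x'

/-- eigenfunctions are bounded and Lipschitz, with a uniform bound -/
def StKBound : Prop := ∀ (𝓜 : Ctx.{u}) (X : Type u) [Rep 𝓜 X] (P : SP 𝓜 X),
  ∃ B, 0 < B ∧ (∀ f, P.K f → Lip P.d B f) ∧
    ∀ lam f, P.Eig lam f → P.ip f f ≤ lam ^ 4 → ∀ x, |f x| ≤ B * lam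

/-- total boundedness of `K` -/
def StKTB : Prop := ∀ (𝓜 : Ctx.{u}) (X : Type u) [Rep 𝓜 X] (P : SP 𝓜 X),
  MetOn P.K (supd 𝓜 X) ∧ TB P.K (supd 𝓜 X)

/-- `Ke ε` is closed -/
def StKClosed : Prop := ∀ (𝓜 : Ctx.{u}) (X : Type u) [Rep 𝓜 X] (P : SP 𝓜 X) (ε : 𝓜.R), 0 < ε →
  ∀ f : IFun 𝓜 X 𝓜.R, (∀ δ > 0, ∃ g, P.Ke ε g ∧ ∀ x, |f x - g x| ≤ δ) → P.Ke ε f

/-- `Ke ε` is complete -/
def StKComplete : Prop := ∀ (𝓜 : Ctx.{u}) (X : Type u) [Rep 𝓜 X] (P : SP 𝓜 X)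
  (U : ISet 𝓜 (ISet 𝓜 𝓜.N)), IsUlt U → ∀ ε > 0, Complete (P.Ke ε) (supd 𝓜 X)

/-- `Ke ε` is well-orderable, since its elements are determined by finitely many values -/
def StKWO : Prop := ∀ (𝓜 : Ctx.{u}) (X : Type u) [Rep 𝓜 X] (P : SP 𝓜 X),
  WOon (univ : ISet 𝓜 (IFun 𝓜 𝓜.N 𝓜.R)) → ∀ ε > 0, WOon (P.Ke ε)

/-- `K` is compact -/
def StKCompact : Prop := ∀ (𝓜 : Ctx.{u}) (X : Type u) [Rep 𝓜 X] (P : SP 𝓜 X)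
  (U : ISet 𝓜 (ISet 𝓜 𝓜.N)), IsUlt U → WOon (univ : ISet 𝓜 (IFun 𝓜 𝓜.N 𝓜.R)) →
  CompactOn P.K (supd 𝓜 X)

/-! ### Conclusion -/

/-- the typed form of the theorem -/
def StMain : Prop := ∀ (𝓜 : Ctx.{u}) (X : Type u) [Rep 𝓜 X] (d : IFun 𝓜 (X × X) 𝓜.R), TMC 𝓜 →
  Nonempty X → MetOn univ d → TB univ d → WOon (univ : ISet 𝓜 X)

/-- finite sequences give finite sets of the model -/
def StFinA : Prop := ∀ (𝓜 : Ctx.{u}) (A : 𝓜.M) (e : IFun 𝓜 𝓜.N (El 𝓜.E A)) (n : 𝓜.N),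
  ∃ F, IsFinite 𝓜.E F ∧ ∀ x, 𝓜.E x F ↔ ∃ i < n, (e i).1 = x

/-- finite sets of the model give finite sequences -/
def StFinB : Prop := ∀ (𝓜 : Ctx.{u}) (A F : 𝓜.M), IsFinite 𝓜.E F → (∀ x, 𝓜.E x F → 𝓜.E x A) →
  (∃ x, 𝓜.E x A) → ∃ (e : IFun 𝓜 𝓜.N (El 𝓜.E A)) (n : 𝓜.N), ∀ x, 𝓜.E x F → ∃ i < n, (e i).1 = x

/-- translation of the hypothesis -/
def StTransA : Prop := ∀ (𝓜 : Ctx.{u}), MCWO 𝓜.E → TMC 𝓜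

/-- translation of the conclusion -/
def StTransB : Prop := ∀ (𝓜 : Ctx.{u}) (X : 𝓜.M) (d : El 𝓜.E X → El 𝓜.E X → El 𝓜.E 𝓜.rl.R),
  IsMetric 𝓜.rl d → TotallyBounded 𝓜.rl d →
  ∃ d' : IFun 𝓜 (El 𝓜.E X × El 𝓜.E X) 𝓜.R, MetOn univ d' ∧ TB univ d'

end Ctx

end Pool.Agent.Lib.MP_c7a422_lc.Z
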