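import Pool.Agent.Lib.MP_c7a422_lc.Z.Ulim

/-!
# Base 7: typed notions

All notions are relative to an internal subset `S` of a represented type `Y`; functions of several
variables are functions of pairs.
-/

namespace Pool.Agent.Lib.MP_c7a422_lc.Z

universe u v w

namespace Ctx

variable {𝓜 : Ctx.{u}} {Y : Type v} [Rep 𝓜 Y] {Z : Type w} [Rep 𝓜 Z]

/-! ### Well-orders -/

/-- `r` is a (strict) well-order of the internal set `S`. -/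
structure IsWO (S : ISet 𝓜 Y) (r : ISet 𝓜 (Y × Y)) : Prop where
  irrefl : ∀ x, S x → ¬ r (x, x)
  trans : ∀ x y z, S x → S y → S z → r (x, y) → r (y, z) → r (x, z)
  total : ∀ x y, S x → S y → r (x, y) ∨ x = y ∨ r (y, x)
  least : ∀ s : ISet 𝓜 Y, (∀ x, s x → S x) → (∃ x, s x) → ∃ x, s x ∧ ∀ y, s y → ¬ r (y, x)

/-- The internal set `S` is well-orderable. -/
def WOon (S : ISet 𝓜 Y) : Prop := ∃ r, IsWO S r

/-- internal choice function for the nonempty subsets of a well-ordered set -/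
theorem IsWO.sel {S : ISet 𝓜 Y} {r : ISet 𝓜 (Y × Y)} (h : IsWO S r) (y₀ : Y) :
    ∃ σ : IFun 𝓜 (ISet 𝓜 Y) Y, ∀ s : ISet 𝓜 Y, (∃ x, s x ∧ S x) →
      s (σ s) ∧ S (σ s) ∧ ∀ z, s z → S z → ¬ r (z, σ s) := by
  classical
  have key : ∀ s : ISet 𝓜 Y, ∃ y, (∃ x, s x ∧ S x) →
      s y ∧ S y ∧ ∀ z, s z → S z → ¬ r (z, y) := by
    intro s
    by_cases hs : ∃ x, s x ∧ S x
    · obtain ⟨x, hx, hx'⟩ := h.least ⟨fun x => s x ∧ S x, by fun_prop⟩ (fun x hx => hx.2) hs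
      exact ⟨x, fun _ => ⟨hx.1, hx.2, fun z hz hz' => hx' z ⟨hz, hz'⟩⟩⟩
    · exact ⟨y₀, fun hs' => absurd hs' hs⟩
  choose σ hσ using key
  have hd : 𝓜.Dfn (fun s => if ∃ x, s x ∧ S x then σ s else y₀) := by
    refine Dfn.of_graph (s := fun s y => ((∃ x, s x ∧ S x) ∧ s y ∧ S y ∧
      ∀ z, s z → S z → ¬ r (z, y)) ∨ (¬ (∃ x, s x ∧ S x) ∧ y₀ = y))
      (by simp only [al_iff, imp_iff_not_or]; fun_prop) fun s y => ?_
    by_cases hs : ∃ x, s x ∧ S x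
    · rw [if_pos hs]
      obtain ⟨h1, h2, h3⟩ := hσ s hs
      constructor
      · rintro (⟨-, h4, h5, h6⟩ | h4)
        · rcases h.total _ _ h2 h5 with h7 | h7 | h7
          · exact absurd h7 (h6 _ h1 h2)
          · exact h7
          · exact absurd h7 (h3 _ h4 h5)
        · exact absurd hs h4.1
      · rintro rfl
        exact Or.inl ⟨hs, h1, h2, h3⟩
    · rw [if_neg hs]
      constructor
      · rintro (h4 | h4)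
        · exact absurd h4.1 hs
        · exact h4.2
      · rintro rfl
        exact Or.inr ⟨hs, rfl⟩
  refine ⟨⟨_, hd⟩, fun s hs => ?_⟩
  have e : (⟨_, hd⟩ : IFun 𝓜 (ISet 𝓜 Y) Y) s = σ s := if_pos hs
  rw [e]
  exact hσ s hs

/-- transfer along an injection -/
theorem WOon.of_inj {S : ISet 𝓜 Y} {S' : ISet 𝓜 Z} (j : IFun 𝓜 Y Z) (hj : ∀ x, S x → S' (j x))
    (inj : ∀ x y, S x → S y → j x = j y → x = y) (h : WOon S') : WOon S := by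
  obtain ⟨r, hr⟩ := h
  refine ⟨⟨fun p => r (j p.1, j p.2), by fun_prop⟩, ?_, ?_, ?_, ?_⟩
  · intro x hx
    exact hr.irrefl _ (hj x hx)
  · intro x y z hx hy hz h1 h2
    exact hr.trans _ _ _ (hj x hx) (hj y hy) (hj z hz) h1 h2
  · intro x y hx hy
    rcases hr.total _ _ (hj x hx) (hj y hy) with h1 | h1 | h1
    · exact Or.inl h1
    · exact Or.inr (Or.inl (inj x y hx hy h1))
    · exact Or.inr (Or.inr h1)
  · intro s hs hne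
    obtain ⟨x, hx⟩ := hne
    obtain ⟨z, ⟨y, hy, rfl⟩, hz⟩ := hr.least ⟨fun z => ∃ y, s y ∧ j y = z, by fun_prop⟩
      (by rintro z ⟨y, hy, rfl⟩; exact hj y (hs y hy)) ⟨j x, x, hx, rfl⟩
    exact ⟨y, hy, fun y' hy' => hz (j y') ⟨y', hy', rfl⟩⟩

/-! ### Metrics -/

/-- `ρ` is a pseudometric on `S`. -/
structure PM (S : ISet 𝓜 Y) (ρ : IFun 𝓜 (Y × Y) 𝓜.R) : Prop where
  self : ∀ x, S x → ρ (x, x) = 0
  symm : ∀ x y, S x → S y → ρ (x, y) = ρ (y, x)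
  tri : ∀ x y z, S x → S y → S z → ρ (x, z) ≤ ρ (x, y) + ρ (y, z)

theorem PM.nonneg {S : ISet 𝓜 Y} {ρ : IFun 𝓜 (Y × Y) 𝓜.R} (h : PM S ρ) {x y : Y} (hx : S x)
    (hy : S y) : 0 ≤ ρ (x, y) := by
  have h1 := h.tri x y x hx hy hx
  rw [h.self x hx, h.symm y x hy hx] at h1
  linarith

/-- `ρ` is a metric on `S`. -/
structure MetOn (S : ISet 𝓜 Y) (ρ : IFun 𝓜 (Y × Y) 𝓜.R) : Prop extends PM S ρ where
  sep : ∀ x y, S x → S y → ρ (x, y) = 0 → x = y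

/-- `S` is divided into finitely many pieces of diameter at most `ε`. -/
def Lab (S : ISet 𝓜 Y) (ρ : IFun 𝓜 (Y × Y) 𝓜.R) (ε : 𝓜.R) : Prop :=
  ∃ (n : 𝓜.N) (c : IFun 𝓜 Y 𝓜.N), (∀ y, S y → c y < n) ∧
    ∀ y z, S y → S z → c y = c z → ρ (y, z) ≤ ε

/-- `(S, ρ)` is totally bounded. -/
def TB (S : ISet 𝓜 Y) (ρ : IFun 𝓜 (Y × Y) 𝓜.R) : Prop := ∀ ε > 0, Lab S ρ ε

/-- the first `n` terms of `e` are a net -/
def Net (S : ISet 𝓜 Y) (ρ : IFun 𝓜 (Y × Y) 𝓜.R) (ε : 𝓜.R) (n : 𝓜.N) (e : IFun 𝓜 𝓜.N Y) : Prop :=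
  (∀ i, S (e i)) ∧ ∀ y, S y → ∃ i < n, ρ (y, e i) ≤ ε

/-- every internal Cauchy sequence in `S` converges in `S` -/
def Complete (S : ISet 𝓜 Y) (ρ : IFun 𝓜 (Y × Y) 𝓜.R) : Prop :=
  ∀ a : IFun 𝓜 𝓜.N Y, (∀ n, S (a n)) →
    (∀ ε > 0, ∃ n, ∀ k m, n ≤ k → n ≤ m → ρ (a k, a m) ≤ ε) →
    ∃ y, S y ∧ ∀ ε > 0, ∃ n, ∀ m, n ≤ m → ρ (a m, y) ≤ ε

/-- `O` is open in `S` (only the points of `S` matter) -/
def OpenOn (S : ISet 𝓜 Y) (ρ : IFun 𝓜 (Y × Y) 𝓜.R) (O : ISet 𝓜 Y) : Prop :=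
  ∀ y, S y → O y → ∃ ε > 0, ∀ z, S z → ρ (y, z) < ε → O z

/-- `A` is covered by finitely many members of `V`. -/
def FCov (V : ISet 𝓜 (ISet 𝓜 Y)) (A : ISet 𝓜 Y) : Prop :=
  ∀ I : ISet 𝓜 (ISet 𝓜 Y), (∀ B : ISet 𝓜 Y, (∀ y, ¬ B y) → I B) →
    (∀ B O C : ISet 𝓜 Y, I B → V O → (∀ y, C y → B y ∨ O y) → I C) → I A

/-- `(S, ρ)` is compact. -/
def CompactOn (S : ISet 𝓜 Y) (ρ : IFun 𝓜 (Y × Y) 𝓜.R) : Prop :=
  ∀ V : ISet 𝓜 (ISet 𝓜 Y), (∀ O, V O → OpenOn S ρ O) → (∀ y, S y → ∃ O, V O ∧ O y) → FCov V S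

section fcov

variable {V : ISet 𝓜 (ISet 𝓜 Y)}

@[fun_prop]
theorem Dfn.fcov {γ : Type*} [Rep 𝓜 γ] {V : γ → ISet 𝓜 (ISet 𝓜 Y)} {A : γ → ISet 𝓜 Y}
    (hV : 𝓜.Dfn V) (hA : 𝓜.Dfn A) : 𝓜.Dfn (fun c => FCov (V c) (A c)) := by
  unfold FCov
  simp only [al_iff, imp_iff_not_or]
  fun_prop

theorem FCov.empty {A : ISet 𝓜 Y} (h : ∀ y, ¬ A y) : FCov V A := fun _ h0 _ => h0 A h

theorem FCov.step {A O B : ISet 𝓜 Y} (h : FCov V A) (hO : V O) (hB : ∀ y, B y → A y ∨ O y) :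
    FCov V B := fun I h0 h1 => h1 A O B (h I h0 h1) hO hB

/-- induction -/
theorem FCov.induction {P : ISet 𝓜 Y → Prop} (hP : 𝓜.Dfn P)
    (h0 : ∀ B : ISet 𝓜 Y, (∀ y, ¬ B y) → P B)
    (h1 : ∀ B O C : ISet 𝓜 Y, FCov V B → P B → V O → (∀ y, C y → B y ∨ O y) → P C)
    {A : ISet 𝓜 Y} (h : FCov V A) : P A := by
  have h2 := h ⟨fun A => FCov V A ∧ P A, by fun_prop⟩ (fun B hB => ⟨FCov.empty hB, h0 B hB⟩)
    (fun B O C hB hO hC => ⟨hB.1.step hO hC, h1 B O C hB.1 hB.2 hO hC⟩)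
  exact h2.2

theorem FCov.subset {A B : ISet 𝓜 Y} (h : FCov V A) (hBA : ∀ y, B y → A y) : FCov V B := by
  refine FCov.induction (V := V) (P := fun A => ∀ B : ISet 𝓜 Y, (∀ y, B y → A y) → FCov V B)
    (by simp only [al_iff, imp_iff_not_or]; fun_prop) ?_ ?_ h B hBA
  · intro A hA B hB
    exact FCov.empty fun y hy => hA y (hB y hy)
  · intro A O C _ hA hO hC B hB
    exact (hA A fun y hy => hy).step hO fun y hy => hC y (hB y hy)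

theorem FCov.union {A B C : ISet 𝓜 Y} (hA : FCov V A) (hB : FCov V B)
    (hC : ∀ y, C y → A y ∨ B y) : FCov V C := by
  refine FCov.induction (V := V) (P := fun A => ∀ C : ISet 𝓜 Y, (∀ y, C y → A y ∨ B y) → FCov V C)
    (by simp only [al_iff, imp_iff_not_or]; fun_prop) ?_ ?_ hA C hC
  · intro A hA C hC
    refine hB.subset fun y hy => ?_
    rcases hC y hy with h | h
    · exact absurd h (hA y)
    · exact h
  · intro A O C _ hA hO hC D hD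
    refine FCov.step (A := ⟨fun y => A y ∨ B y, by fun_prop⟩) (O := O) (hA _ fun y hy => hy) hO ?_
    intro y hy
    rcases hD y hy with h | h
    · rcases hC y h with h | h
      · exact Or.inl (Or.inl h)
      · exact Or.inr h
    · exact Or.inl (Or.inr h)

theorem FCov.of_mem {O A : ISet 𝓜 Y} (hO : V O) (h : ∀ y, A y → O y) : FCov V A :=
  FCov.step (A := ⟨fun _ => False, by fun_prop⟩) (FCov.empty fun _ h => h) hO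
    fun y hy => Or.inr (h y hy)

end fcov

/-! ### Lipschitz functions -/

/-- `F` is bounded by `C` and `C`-Lipschitz on `S`. -/
def BL (S : ISet 𝓜 Y) (ρ : IFun 𝓜 (Y × Y) 𝓜.R) (C : 𝓜.R) (F : IFun 𝓜 Y 𝓜.R) : Prop :=
  (∀ y, S y → |F y| ≤ C) ∧ ∀ y z, S y → S z → |F y - F z| ≤ C * ρ (y, z)

/-- `F` is bounded by `C` and `C`-Lipschitz. -/
def Lip (d : IFun 𝓜 (Y × Y) 𝓜.R) (C : 𝓜.R) (F : IFun 𝓜 Y 𝓜.R) : Prop :=
  (∀ y, |F y| ≤ C) ∧ ∀ y z, |F y - F z| ≤ C * d (y, z)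

theorem bl_univ {d : IFun 𝓜 (Y × Y) 𝓜.R} {C : 𝓜.R} {F : IFun 𝓜 Y 𝓜.R} :
    BL univ d C F ↔ Lip d C F := by
  simp [BL, Lip]

@[fun_prop]
theorem Dfn.lip {γ : Type*} [Rep 𝓜 γ] {d : γ → IFun 𝓜 (Y × Y) 𝓜.R} {C : γ → 𝓜.R}
    {F : γ → IFun 𝓜 Y 𝓜.R} (hd : 𝓜.Dfn d) (hC : 𝓜.Dfn C) (hF : 𝓜.Dfn F) :
    𝓜.Dfn (fun c => Lip (d c) (C c) (F c)) := by
  unfold Lip
  simp only [al_iff]
  fun_prop

@[fun_prop]
theorem Dfn.bl {γ : Type*} [Rep 𝓜 γ] {S : γ → ISet 𝓜 Y} {d : γ → IFun 𝓜 (Y × Y) 𝓜.R} {C : γ → 𝓜.R}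
    {F : γ → IFun 𝓜 Y 𝓜.R} (hS : 𝓜.Dfn S) (hd : 𝓜.Dfn d) (hC : 𝓜.Dfn C) (hF : 𝓜.Dfn F) :
    𝓜.Dfn (fun c => BL (S c) (d c) (C c) (F c)) := by
  unfold BL
  simp only [al_iff, imp_iff_not_or]
  fun_prop

/-- the supremum distance of functions -/
noncomputable def supd (𝓜 : Ctx.{u}) (Y : Type v) [Rep 𝓜 Y] :
    IFun 𝓜 (IFun 𝓜 Y 𝓜.R × IFun 𝓜 Y 𝓜.R) 𝓜.R :=
  ⟨fun p => 𝓜.sup (fun t => ∃ x, t = |p.1 x - p.2 x|), by fun_prop⟩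

/-- A mean on the Lipschitz functions on `S`: linear, monotone, normalised. -/
structure IsMean (S : ISet 𝓜 Y) (ρ : IFun 𝓜 (Y × Y) 𝓜.R) (Λ : IFun 𝓜 Y 𝓜.R → 𝓜.R) : Prop where
  add : ∀ F G C, BL S ρ C F → BL S ρ C G → Λ (F + G) = Λ F + Λ G
  smul : ∀ c F C, BL S ρ C F → Λ (c • F) = c * Λ F
  mono : ∀ F G C, BL S ρ C F → BL S ρ C G → (∀ y, S y → F y ≤ G y) → Λ F ≤ Λ G
  one : Λ 1 = 1

/-- The typed form of `M(C, WO)`: every nonempty internal compact metric space is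
well-orderable. -/
def TMC (𝓜 : Ctx.{u}) : Prop :=
  ∀ (Y : Type u) [Rep 𝓜 Y] (S : ISet 𝓜 Y) (ρ : IFun 𝓜 (Y × Y) 𝓜.R), (∃ y, S y) →
    MetOn S ρ → CompactOn S ρ → WOon S

end Ctx

end Pool.Agent.Lib.MP_c7a422_lc.Z
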