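import Pool.Agent.Lib.MP_c7a422_lc.Z.Alg

/-!
# Base 6: finite sums, ultrafilters on the natural numbers of the model, limits along them
-/

namespace Pool.Agent.Lib.MP_c7a422_lc.Z

universe u v w

namespace Ctx

variable {𝓜 : Ctx.{u}}

/-! ### Finite sums -/

/-- the sum of `f i` for `i < n` -/
noncomputable def rsum (f : IFun 𝓜 𝓜.N 𝓜.R) (n : 𝓜.N) : 𝓜.R :=
  nrec 0 ⟨fun p : 𝓜.N × 𝓜.R => p.2 + f p.1, by fun_prop⟩ n

@[fun_prop]
theorem Dfn.rsum {γ : Type*} [Rep 𝓜 γ] {f : γ → IFun 𝓜 𝓜.N 𝓜.R} {n : γ → 𝓜.N}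
    (hf : 𝓜.Dfn f) (hn : 𝓜.Dfn n) : 𝓜.Dfn (fun c => Ctx.rsum (f c) (n c)) := by
  unfold Ctx.rsum
  fun_prop

@[simp] theorem rsum_zero (f : IFun 𝓜 𝓜.N 𝓜.R) : rsum f 0 = 0 := by simp [rsum]

theorem rsum_succ (f : IFun 𝓜 𝓜.N 𝓜.R) (n : 𝓜.N) : rsum f (n + 1) = rsum f n + f n := by
  unfold rsum
  rw [nrec_succ]
  rfl

theorem rsum_add (f g : IFun 𝓜 𝓜.N 𝓜.R) (n : 𝓜.N) : rsum (f + g) n = rsum f n + rsum g n := by
  refine ind (P := fun n => rsum (f + g) n = rsum f n + rsum g n) (by fun_prop) (by simp)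
    (fun n ih => ?_) n
  rw [rsum_succ, rsum_succ, rsum_succ, ih, addF_apply]
  ring

theorem rsum_smul (c : 𝓜.R) (f : IFun 𝓜 𝓜.N 𝓜.R) (n : 𝓜.N) : rsum (c • f) n = c * rsum f n := by
  refine ind (P := fun n => rsum (c • f) n = c * rsum f n) (by fun_prop) (by simp)
    (fun n ih => ?_) n
  rw [rsum_succ, rsum_succ, ih, smulF_apply]
  ring

theorem rsum_le {f g : IFun 𝓜 𝓜.N 𝓜.R} {n : 𝓜.N} (h : ∀ i < n, f i ≤ g i) :
    rsum f n ≤ rsum g n := by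
  revert h
  refine ind (P := fun n => (∀ i < n, f i ≤ g i) → rsum f n ≤ rsum g n)
    (by simp only [al_iff, imp_iff_not_or]; fun_prop) (by simp) (fun n ih h => ?_) n
  rw [rsum_succ, rsum_succ]
  have h1 := ih fun i hi => h i (hi.trans (by simp))
  have h2 := h n (by simp)
  linarith

theorem rsum_const (c : 𝓜.R) (n : 𝓜.N) : rsum ⟨fun _ => c, by fun_prop⟩ n = n * c := by
  refine ind (P := fun n : 𝓜.N => rsum ⟨fun _ => c, by fun_prop⟩ n = n * c) (by fun_prop) (by simp)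
    (fun n ih => ?_) n
  rw [rsum_succ, ih]
  push_cast
  simp only [mk_apply]
  ring

theorem rsum_nonneg {f : IFun 𝓜 𝓜.N 𝓜.R} {n : 𝓜.N} (h : ∀ i < n, 0 ≤ f i) : 0 ≤ rsum f n := by
  have h1 := rsum_le (f := ⟨fun _ => 0, by fun_prop⟩) (g := f) (n := n) h
  rwa [rsum_const, mul_zero] at h1

theorem abs_rsum_le {f : IFun 𝓜 𝓜.N 𝓜.R} {n : 𝓜.N} {c : 𝓜.R} (h : ∀ i < n, |f i| ≤ c) :
    |rsum f n| ≤ n * c := by
  rw [abs_le]
  constructor
  · have h1 := rsum_le (f := ⟨fun _ => -c, by fun_prop⟩) (g := f) (n := n)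
      fun i hi => (abs_le.1 (h i hi)).1
    rw [rsum_const] at h1
    linarith
  · have h1 := rsum_le (g := ⟨fun _ => c, by fun_prop⟩) (f := f) (n := n)
      fun i hi => (abs_le.1 (h i hi)).2
    rwa [rsum_const] at h1

theorem rsum_mono {f : IFun 𝓜 𝓜.N 𝓜.R} (h : ∀ i, 0 ≤ f i) {m n : 𝓜.N} (hmn : m ≤ n) :
    rsum f m ≤ rsum f n := by
  revert hmn
  refine ind (P := fun n => m ≤ n → rsum f m ≤ rsum f n)
    (by simp only [imp_iff_not_or]; fun_prop) (fun h0 => ?_) (fun n ih hn => ?_) n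
  · rw [le_antisymm h0 (N_nonneg m)]
  · rcases hn.lt_or_eq with h1 | h1
    · rw [rsum_succ]
      have h2 := ih (N_lt_add_one_iff.1 h1)
      have h3 := h n
      linarith
    · rw [h1]

theorem single_le_rsum {f : IFun 𝓜 𝓜.N 𝓜.R} (h : ∀ i, 0 ≤ f i) {n i : 𝓜.N} (hi : i < n) :
    f i ≤ rsum f n := by
  have h1 := rsum_mono h (N_add_one_le_iff.2 hi)
  rw [rsum_succ] at h1
  have h2 := rsum_nonneg (f := f) (n := i) fun j _ => h j
  linarith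

/-! ### Ultrafilters -/

/-- `U` is a nonprincipal ultrafilter on the natural numbers of the model. -/
structure IsUlt (U : ISet 𝓜 (ISet 𝓜 𝓜.N)) : Prop where
  big : ∀ (n : 𝓜.N) (A : ISet 𝓜 𝓜.N), (∀ m, n ≤ m → A m) → U A
  inter : ∀ A B C : ISet 𝓜 𝓜.N, U A → U B → (∀ n, A n → B n → C n) → U C
  ultra : ∀ A B : ISet 𝓜 𝓜.N, (∀ n, A n ∨ B n) → U A ∨ U B
  proper : ∀ A : ISet 𝓜 𝓜.N, U A → ∃ n, A n

/-- `P n` holds for almost all `n`. -/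
def Ev (U : ISet 𝓜 (ISet 𝓜 𝓜.N)) (P : 𝓜.N → Prop) : Prop :=
  ∃ A : ISet 𝓜 𝓜.N, U A ∧ ∀ n, A n → P n

@[fun_prop]
theorem Dfn.ev {γ : Type*} [Rep 𝓜 γ] {U : γ → ISet 𝓜 (ISet 𝓜 𝓜.N)} {P : γ → 𝓜.N → Prop}
    (hU : 𝓜.Dfn U) (h : 𝓜.Dfn (fun p : γ × 𝓜.N => P p.1 p.2)) :
    𝓜.Dfn (fun c => Ev (U c) (P c)) := by
  unfold Ev
  simp only [al_iff, imp_iff_not_or]
  fun_prop

section ev

variable {U : ISet 𝓜 (ISet 𝓜 𝓜.N)} (hU : IsUlt U) {P Q : 𝓜.N → Prop}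
include hU

theorem ev_big (n : 𝓜.N) (h : ∀ m, n ≤ m → P m) : Ev U P :=
  ⟨⟨fun m => n ≤ m, by fun_prop⟩, hU.big n _ fun _ hm => hm, h⟩

theorem ev_all (h : ∀ m, P m) : Ev U P := ev_big hU 0 fun m _ => h m

theorem Ev.and (hP : Ev U P) (hQ : Ev U Q) : Ev U (fun n => P n ∧ Q n) := by
  obtain ⟨A, hA, hAP⟩ := hP
  obtain ⟨B, hB, hBQ⟩ := hQ
  exact ⟨⟨fun n => A n ∧ B n, by fun_prop⟩, hU.inter A B _ hA hB fun n h1 h2 => ⟨h1, h2⟩,
    fun n hn => ⟨hAP n hn.1, hBQ n hn.2⟩⟩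

omit hU in
theorem Ev.mono (hP : Ev U P) (h : ∀ n, P n → Q n) : Ev U Q := by
  obtain ⟨A, hA, hAP⟩ := hP
  exact ⟨A, hA, fun n hn => h n (hAP n hn)⟩

theorem Ev.exists (hP : Ev U P) : ∃ n, P n := by
  obtain ⟨A, hA, hAP⟩ := hP
  obtain ⟨n, hn⟩ := hU.proper A hA
  exact ⟨n, hAP n hn⟩

theorem ev_or_not (hP : 𝓜.Dfn P) : Ev U P ∨ Ev U (fun n => ¬ P n) := by
  rcases hU.ultra ⟨P, hP⟩ ⟨fun n => ¬ P n, by fun_prop⟩ (fun n => Classical.em (P n)) with h | h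
  · exact Or.inl ⟨_, h, fun n hn => hn⟩
  · exact Or.inr ⟨_, h, fun n hn => hn⟩

/-- to prove something for almost all `n`, beyond a given number -/
theorem Ev.tail (n : 𝓜.N) (hP : Ev U P) : Ev U (fun m => n ≤ m ∧ P m) :=
  Ev.and hU (ev_big hU n fun _ h => h) hP

end ev

/-- `l` is the limit of `a` along `U`. -/
def IsUlim (U : ISet 𝓜 (ISet 𝓜 𝓜.N)) (a : 𝓜.N → 𝓜.R) (l : 𝓜.R) : Prop :=
  ∀ ε > 0, Ev U (fun n => |a n - l| ≤ ε)

/-- The limit of `a` along `U`. -/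
noncomputable def ulim (U : ISet 𝓜 (ISet 𝓜 𝓜.N)) (a : 𝓜.N → 𝓜.R) : 𝓜.R :=
  𝓜.sup (fun t => Ev U (fun n => t ≤ a n))

@[fun_prop]
theorem Dfn.ulim {γ : Type*} [Rep 𝓜 γ] {U : γ → ISet 𝓜 (ISet 𝓜 𝓜.N)} {a : γ → 𝓜.N → 𝓜.R}
    (hU : 𝓜.Dfn U) (h : 𝓜.Dfn (fun p : γ × 𝓜.N => a p.1 p.2)) :
    𝓜.Dfn (fun c => Ctx.ulim (U c) (a c)) := by
  unfold Ctx.ulim
  fun_prop

section ulim

variable {U : ISet 𝓜 (ISet 𝓜 𝓜.N)} (hU : IsUlt U) {a b : 𝓜.N → 𝓜.R} {l m : 𝓜.R}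
include hU

theorem ulim_spec (ha : 𝓜.Dfn a) {C : 𝓜.R} (hC : ∀ n, |a n| ≤ C) : IsUlim U a (ulim U a) := by
  intro ε hε
  have hs : 𝓜.Dfn (fun t => Ev U (fun n => t ≤ a n)) := by fun_prop
  have hne : ∃ t, Ev U (fun n => t ≤ a n) :=
    ⟨-C, ev_all hU fun n => (abs_le.1 (hC n)).1⟩
  have hb : ∃ b, ∀ t, Ev U (fun n => t ≤ a n) → t ≤ b := by
    refine ⟨C, fun t ht => ?_⟩
    obtain ⟨n, hn⟩ := ht.exists hU
    exact hn.trans (abs_le.1 (hC n)).2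
  obtain ⟨t, ht, htl⟩ := exists_lt_of_lt_sup hs hne (b := ulim U a - ε)
    (show _ < ulim U a by linarith)
  have h2 : Ev U (fun n => ¬ (ulim U a + ε ≤ a n)) := by
    rcases ev_or_not hU (P := fun n => ulim U a + ε ≤ a n) (by fun_prop) with h | h
    · have := le_sup hs hb h
      exfalso
      have h3 : ulim U a + ε ≤ ulim U a := this
      linarith
    · exact h
  refine (Ev.and hU ht h2).mono fun n hn => ?_
  have h3 := hn.1
  have h4 := not_le.1 hn.2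
  rw [abs_le]
  constructor <;> linarith

theorem IsUlim.mono (ha : IsUlim U a l) (hb : IsUlim U b m) (h : Ev U (fun n => a n ≤ b n)) :
    l ≤ m := by
  by_contra hcon
  push Not at hcon
  obtain ⟨n, ⟨h1, h2⟩, h3⟩ := (Ev.and hU (Ev.and hU (ha ((l - m) / 3) (by linarith))
    (hb ((l - m) / 3) (by linarith))) h).exists hU
  rw [abs_le] at h1 h2
  linarith [h1.1, h2.2]

theorem isUlim_const (c : 𝓜.R) : IsUlim U (fun _ => c) c := fun ε hε =>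
  ev_all hU fun _ => by rw [sub_self, abs_zero]; exact hε.le

theorem IsUlim.le_const {c : 𝓜.R} (ha : IsUlim U a l) (h : Ev U (fun n => a n ≤ c)) : l ≤ c :=
  ha.mono hU (isUlim_const hU c) h

theorem IsUlim.const_le {c : 𝓜.R} (ha : IsUlim U a l) (h : Ev U (fun n => c ≤ a n)) : c ≤ l :=
  (isUlim_const hU c).mono hU ha h

theorem IsUlim.unique (ha : IsUlim U a l) (hb : IsUlim U a m) : l = m :=
  le_antisymm (ha.mono hU hb (ev_all hU fun _ => le_rfl))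
    (hb.mono hU ha (ev_all hU fun _ => le_rfl))

theorem IsUlim.eq_ulim (ha : IsUlim U a l) (had : 𝓜.Dfn a) {C : 𝓜.R} (hC : ∀ n, |a n| ≤ C) :
    ulim U a = l := (ulim_spec hU had hC).unique hU ha

theorem isUlim_of_close (ha : IsUlim U a l) (h : ∀ ε > 0, Ev U (fun n => |b n - a n| ≤ ε)) :
    IsUlim U b l := by
  intro ε hε
  refine (Ev.and hU (ha (ε / 2) (by linarith)) (h (ε / 2) (by linarith))).mono fun n hn => ?_
  have h1 := abs_le.1 hn.1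
  have h2 := abs_le.1 hn.2
  rw [abs_le]
  constructor <;> linarith [h1.1, h1.2, h2.1, h2.2]

theorem isUlim_of_tendsto (h : ∀ ε > 0, ∃ n, ∀ k, n ≤ k → |a k - l| ≤ ε) : IsUlim U a l := by
  intro ε hε
  obtain ⟨n, hn⟩ := h ε hε
  exact ev_big hU n hn

theorem IsUlim.add (ha : IsUlim U a l) (hb : IsUlim U b m) :
    IsUlim U (fun n => a n + b n) (l + m) := by
  intro ε hε
  refine (Ev.and hU (ha (ε / 2) (by linarith)) (hb (ε / 2) (by linarith))).mono fun n hn => ?_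
  have h1 := abs_le.1 hn.1
  have h2 := abs_le.1 hn.2
  rw [abs_le]
  constructor <;> linarith [h1.1, h1.2, h2.1, h2.2]

omit hU in
theorem IsUlim.const_mul (c : 𝓜.R) (ha : IsUlim U a l) : IsUlim U (fun n => c * a n) (c * l) := by
  intro ε hε
  have hc : 0 < |c| + 1 := by positivity
  refine (ha (ε / (|c| + 1)) (by positivity)).mono fun n hn => ?_
  rw [← mul_sub, abs_mul]
  rw [le_div_iff₀ hc] at hn
  have := abs_nonneg (a n - l)
  nlinarith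

theorem IsUlim.sub (ha : IsUlim U a l) (hb : IsUlim U b m) :
    IsUlim U (fun n => a n - b n) (l - m) := by
  have h := ha.add hU (IsUlim.const_mul (-1) hb)
  intro ε hε
  refine (h ε hε).mono fun n hn => ?_
  have e : a n - b n - (l - m) = a n + -1 * b n - (l + -1 * m) := by ring
  rw [e]
  exact hn

end ulim

end Ctx

end Pool.Agent.Lib.MP_c7a422_lc.Z
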